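import Pool.Agent.Run7.h484.Bicomb

/-! Topology of the boundary, change of base point, local-to-global, line cuts. -/

namespace Run7.h484

universe u

open Set Filter Topology
open scoped NNReal

/-! ### Cut pairs -/

section cuts

/-- `x ≠ y` cut the space into at least five pieces. -/
def FiveCut {Z : Type u} [TopologicalSpace Z] (x y : Z) : Prop :=
  x ≠ y ∧ ∃ U : Fin 5 → Set Z, (∀ i, (U i).Nonempty) ∧ (∀ i, IsOpen (U i)) ∧
    (∀ i, IsClosed (U i ∪ {x, y})) ∧ (∀ i, x ∉ U i ∧ y ∉ U i) ∧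
    ∀ i j, i ≠ j → Disjoint (U i) (U j)

/-- the five-cut pairs do not accumulate off the diagonal -/
def NullCut (Z : Type u) [TopologicalSpace Z] : Prop :=
  ∀ a b : Z, a ≠ b → ∃ A ∈ 𝓝 a, ∃ B ∈ 𝓝 b,
    {q : Z × Z | q.1 ∈ A ∧ q.2 ∈ B ∧ FiveCut q.1 q.2}.Finite

theorem FiveCut.map {Z : Type u} [TopologicalSpace Z] {Z' : Type u} [TopologicalSpace Z']
    (e : Z ≃ₜ Z') {x y : Z} (hc : FiveCut x y) : FiveCut (e x) (e y) := by
  obtain ⟨hne, U, h1, h2, h3, h4, h5⟩ := hc
  refine ⟨fun h => hne (e.injective h), fun i => e '' U i, fun i => (h1 i).image e,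
    fun i => e.isOpen_image.2 (h2 i), fun i => ?_, fun i => ?_, fun i j hij => ?_⟩
  · have : e '' U i ∪ {e x, e y} = e '' (U i ∪ {x, y}) := by
      rw [image_union, image_pair]
    rw [this]
    exact e.isClosed_image.2 (h3 i)
  · constructor
    · rintro ⟨z, hz, he⟩
      rw [e.injective he] at hz
      exact (h4 i).1 hz
    · rintro ⟨z, hz, he⟩
      rw [e.injective he] at hz
      exact (h4 i).2 hz
  · exact (disjoint_image_iff e.injective).2 (h5 i j hij)

theorem NullCut.map {Z : Type u} [TopologicalSpace Z] {Z' : Type u} [TopologicalSpace Z']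
    (e : Z ≃ₜ Z') (hZ : NullCut Z) : NullCut Z' := by
  intro a b hab
  obtain ⟨A, hA, B, hB, hf⟩ := hZ (e.symm a) (e.symm b) fun h => hab (e.symm.injective h)
  refine ⟨e.symm ⁻¹' A, e.symm.continuous.continuousAt.preimage_mem_nhds hA, e.symm ⁻¹' B,
    e.symm.continuous.continuousAt.preimage_mem_nhds hB, ?_⟩
  apply (hf.image (Prod.map e e)).subset
  rintro ⟨x, y⟩ ⟨h1, h2, h3⟩
  refine ⟨(e.symm x, e.symm y), ⟨h1, h2, h3.map e.symm⟩, ?_⟩
  simp

end cuts

section

variable {X : Type u} [MetricSpace X] {σ : X → X → ℝ → X}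

namespace Bdry

variable {p : X}

theorem continuous_c (t : ℝ) : Continuous fun x : Bdry σ p => x.c t := by
  have h1 : Continuous (Bdry.ray : Bdry σ p → _) := continuous_induced_dom
  exact (continuous_eval_const (F := C(ℝ≥0, X)) t.toNNReal).comp h1

instance : T2Space (Bdry σ p) := by
  have h1 : Continuous (Bdry.ray : Bdry σ p → _) := continuous_induced_dom
  exact T2Space.of_injective_continuous (fun x y hxy => Bdry.ext hxy) h1

theorem mem_nhds_iff (h : IsBicombing σ) (x : Bdry σ p) (U : Set (Bdry σ p)) :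
    U ∈ 𝓝 x ↔ ∃ T > 0, ∃ ε > 0, ∀ y : Bdry σ p, dist (y.c T) (x.c T) < ε → y ∈ U := by
  constructor
  · intro hU
    rw [nhds_induced, mem_comap] at hU
    obtain ⟨V, hV, hVU⟩ := hU
    rw [(nhds_basis_uniformity'
      (ContinuousMap.hasBasis_compactConvergenceUniformity (α := ℝ≥0) (β := X))).mem_iff] at hV
    obtain ⟨⟨K, E⟩, ⟨hK, hE⟩, hKE⟩ := hV
    obtain ⟨ε, hε, hεE⟩ := Metric.mem_uniformity_dist.1 hE
    obtain ⟨T, hT⟩ := hK.bddAbove
    refine ⟨T + 1, by positivity, ε, hε, fun y hy => ?_⟩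
    apply hVU
    apply hKE
    intro t ht
    apply hεE
    have h1 : (t:ℝ) ≤ T + 1 := by
      have : (t:ℝ) ≤ T := by exact_mod_cast hT ht
      linarith
    have h0 : (0:ℝ) < T + 1 := by positivity
    have h2 := RRay.dist_mono h y.rray x.rray t.2 h1 h0
    rw [x.ray_apply, y.ray_apply, dist_comm]
    refine h2.trans_lt ?_
    have hm := div_mem_Icc (T := (T:ℝ) + 1) t.2 h1
    calc (t:ℝ) / (T + 1) * dist (y.c (T + 1)) (x.c (T + 1))
        ≤ 1 * dist (y.c (T + 1)) (x.c (T + 1)) :=
          mul_le_mul_of_nonneg_right hm.2 dist_nonneg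
      _ < ε := by rw [one_mul]; exact hy
  · rintro ⟨T, _, ε, hε, hy⟩
    have h1 := (continuous_c (σ := σ) (p := p) T).continuousAt (x := x)
    have h2 := h1.preimage_mem_nhds (Metric.ball_mem_nhds _ hε)
    filter_upwards [h2] with y hy'
    exact hy y hy'

end Bdry

variable (h : IsBicombing σ)
include h

/-- Every ray can be moved to another base point. -/
noncomputable def moveC [CompleteSpace X] {p : X} (q : X) (x : Bdry σ p) : Bdry σ q :=
  (exists_asym h x.rray q).choose_spec.1.toBdry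

theorem moveC_dist [CompleteSpace X] {p : X} (q : X) (x : Bdry σ p) {t : ℝ} (ht : 0 ≤ t) :
    dist ((moveC h q x).c t) (x.c t) ≤ dist p q := by
  have := (exists_asym h x.rray q).choose_spec
  unfold moveC
  rw [this.1.toBdry_c ht]
  exact this.2.1 t ht

theorem moveC_approx [CompleteSpace X] {p : X} (q : X) (x : Bdry σ p) {t n : ℝ} (ht : 0 ≤ t)
    (htn : t ≤ n) (hn : 0 < n) :
    dist ((moveC h q x).c t) (σ q (x.c n) (t / n)) ≤ t / n * dist p q := by
  have := (exists_asym h x.rray q).choose_spec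
  unfold moveC
  rw [this.1.toBdry_c ht]
  exact this.2.2 t n ht htn hn

theorem Bdry.eq_of_bdd {p : X} (x y : Bdry σ p) {C : ℝ}
    (hC : ∀ t, 0 ≤ t → dist (x.c t) (y.c t) ≤ C) : x = y :=
  Bdry.ext_c fun _ ht => RRay.eq_of_bdd h x.rray y.rray hC ht

theorem moveC_move [CompleteSpace X] {p : X} (q : X) (x : Bdry σ p) :
    moveC h p (moveC h q x) = x := by
  apply Bdry.eq_of_bdd h _ _ (C := dist q p + dist p q)
  intro t ht
  have h1 := moveC_dist h p (moveC h q x) ht
  have h2 := moveC_dist h q x ht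
  have h3 := dist_triangle ((moveC h p (moveC h q x)).c t) ((moveC h q x).c t) (x.c t)
  linarith

theorem moveC_continuous [CompleteSpace X] (p q : X) :
    Continuous (moveC h q : Bdry σ p → Bdry σ q) := by
  rw [continuous_iff_continuousAt]
  intro x V hV
  obtain ⟨T, hT, ε, hε, hy⟩ := (Bdry.mem_nhds_iff h _ _).1 hV
  show _ ∈ 𝓝 x
  rw [Bdry.mem_nhds_iff h]
  set K := dist p q
  have hK : 0 ≤ K := dist_nonneg
  obtain ⟨N, hN⟩ := exists_gt (max T (2 * (T * K) / (ε / 2)))
  have h1 : T < N := (le_max_left _ _).trans_lt hN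
  have h2 : 2 * (T * K) / (ε / 2) < N := (le_max_right _ _).trans_lt hN
  have hN0 : 0 < N := by linarith
  refine ⟨N, hN0, ε / 2, by linarith, fun y hxy => ?_⟩
  apply hy
  have hm := div_mem_Icc hT.le h1.le
  have h3 := moveC_approx h q x hT.le h1.le hN0
  have h4 := moveC_approx h q y hT.le h1.le hN0
  have h5 := h.dist_le_left q (y.c N) (x.c N) hm
  have h6 := dist_triangle4 ((moveC h q y).c T) (σ q (y.c N) (T / N)) (σ q (x.c N) (T / N))
    ((moveC h q x).c T)
  rw [dist_comm (σ q (x.c N) (T / N)) _] at h6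
  have h7 : T / N * dist (y.c N) (x.c N) ≤ 1 * dist (y.c N) (x.c N) :=
    mul_le_mul_of_nonneg_right hm.2 dist_nonneg
  have h8 : T / N * K + T / N * K < ε / 2 := by
    rw [div_lt_iff₀ (by linarith)] at h2
    have : T / N * K + T / N * K = 2 * (T * K) / N := by ring
    rw [this, div_lt_iff₀ hN0]
    linarith
  linarith

/-- The boundaries at different base points are homeomorphic. -/
noncomputable def moveHomeo [CompleteSpace X] (p q : X) : Bdry σ p ≃ₜ Bdry σ q where
  toFun := moveC h q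
  invFun := moveC h p
  left_inv x := moveC_move h q x
  right_inv x := moveC_move h p x
  continuous_toFun := moveC_continuous h p q
  continuous_invFun := moveC_continuous h q p

/-! ### Local to global -/

theorem local_global {c : ℝ → X} {a a' b' b : ℝ} (h1 : a < a') (h2 : a' < b') (h3 : b' < b)
    (hc : ∀ t ∈ Icc a b', c t = σ (c a) (c b') ((t - a) / (b' - a)))
    (hc' : ∀ t ∈ Icc a' b, c t = σ (c a') (c b) ((t - a') / (b - a'))) :
    ∀ t ∈ Icc a b, c t = σ (c a) (c b) ((t - a) / (b - a)) := by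
  set e : ℝ → X := fun t => σ (c a) (c b) ((t - a) / (b - a)) with he
  have hI : ∀ {x y z : ℝ}, x ≤ y → y ≤ z → (y - x) / (z - x) ∈ Icc (0:ℝ) 1 := by
    intro x y z hxy hyz
    exact div_mem_Icc (by linarith) (by linarith)
  have k1 : ∀ t ∈ Icc a b', dist (c t) (e t) ≤ (t - a) / (b' - a) * dist (c b') (e b') := by
    intro t ht
    have e1 : e t = σ (c a) (e b') ((t - a) / (b' - a)) := by
      rw [he]
      simp only
      rw [h.initial _ _ (hI (by linarith) h3.le) (hI ht.1 ht.2)]
      congr 1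
      have : b' - a ≠ 0 := by linarith
      field_simp
    rw [hc t ht, e1]
    exact h.dist_le_left _ _ _ (hI ht.1 ht.2)
  have k2 : ∀ t ∈ Icc a' b, dist (c t) (e t) ≤
      (1 - (t - a') / (b - a')) * dist (c a') (e a') := by
    intro t ht
    have e1 : e t = σ (e a') (c b) ((t - a') / (b - a')) := by
      rw [he]
      simp only
      rw [h.final _ _ (hI h1.le (by linarith)) (hI ht.1 ht.2)]
      congr 1
      have : b - a' ≠ 0 := by linarith
      have : b - a ≠ 0 := by linarith
      field_simp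
      ring
    rw [hc' t ht, e1]
    exact h.dist_le_right _ _ _ (hI ht.1 ht.2)
  have k3 := k1 a' ⟨h1.le, h2.le⟩
  have k4 := k2 b' ⟨h2.le, h3.le⟩
  have k5 : (1 - (b' - a') / (b - a')) * dist (c a') (e a') ≤ 1 * dist (c a') (e a') := by
    apply mul_le_mul_of_nonneg_right _ dist_nonneg
    have := (hI h2.le h3.le).1
    linarith
  have k6 : (a' - a) / (b' - a) * dist (c b') (e b') ≤
      (a' - a) / (b' - a) * dist (c a') (e a') :=
    mul_le_mul_of_nonneg_left (by linarith) (hI h1.le h2.le).1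
  have k7 : (a' - a) / (b' - a) < 1 := by
    rw [div_lt_one (by linarith)]; linarith
  have k8 : dist (c a') (e a') ≤ 0 := by
    by_contra hcon
    push Not at hcon
    have : (a' - a) / (b' - a) * dist (c a') (e a') < 1 * dist (c a') (e a') :=
      mul_lt_mul_of_pos_right k7 hcon
    linarith
  have k9 : dist (c b') (e b') ≤ 0 := by linarith
  intro t ht
  apply dist_le_zero.1
  rcases le_total t b' with ht' | ht'
  · refine (k1 t ⟨ht.1, ht'⟩).trans ?_
    exact mul_nonpos_of_nonneg_of_nonpos (hI ht.1 ht').1 k9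
  · refine (k2 t ⟨by linarith, ht.2⟩).trans ?_
    have := (hI (x := a') (y := t) (z := b) (by linarith) ht.2).2
    exact mul_nonpos_of_nonneg_of_nonpos (by linarith) k8

namespace RRay

theorem seg' {p : X} {c : ℝ → X} (hc : RRay σ p c) {a t b : ℝ} (h0 : 0 ≤ a) (h1 : a ≤ t)
    (h2 : t ≤ b) : c t = σ (c a) (c b) ((t - a) / (b - a)) := by
  rcases eq_or_lt_of_le (h1.trans h2) with hab | hab
  · have ha : t = a := by linarith
    have hb : b = a := by linarith
    rw [ha, hb, sub_self, zero_div, h.zero]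
  · have := (hc.shift h h0).seg (b - a) ((t - a) / (b - a)) (by linarith)
      (div_mem_Icc (by linarith) (by linarith))
    rw [div_mul_cancel₀ _ (by linarith)] at this
    simp only [add_sub_cancel] at this
    exact this

/-- Extending an initial segment of a ray by a locally straight continuation. -/
theorem extend {p : X} {c c' : ℝ → X} (hc : RRay σ p c) {a b : ℝ} (ha : 0 < a) (hab : a < b)
    (h1 : ∀ t, 0 ≤ t → t ≤ b → c' t = c t)
    (h2 : ∀ T, b < T → ∀ t ∈ Icc a T, c' t = σ (c' a) (c' T) ((t - a) / (T - a))) :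
    RRay σ p c' := by
  have hb : 0 < b := ha.trans hab
  have hp : c' 0 = p := by rw [h1 0 le_rfl hb.le, hc.zero]
  have key : ∀ T, b < T → ∀ t ∈ Icc 0 T, c' t = σ (c' 0) (c' T) ((t - 0) / (T - 0)) := by
    intro T hT
    apply local_global h ha hab hT
    · intro t ht
      rw [h1 t ht.1 ht.2, h1 0 le_rfl hb.le, h1 b hb.le le_rfl]
      exact hc.seg' h le_rfl ht.1 ht.2
    · exact h2 T hT
  have hlen : ∀ T, b < T → dist (c' 0) (c' T) = T := by
    intro T hT
    have e1 := key T hT b ⟨hb.le, hT.le⟩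
    have e2 : dist (c' 0) (c' b) = b := by
      rw [h1 0 le_rfl hb.le, h1 b hb.le le_rfl, hc.iso 0 b le_rfl hb.le, zero_sub, abs_neg,
        abs_of_nonneg hb.le]
    have hT0 : 0 < T := hb.trans hT
    rw [sub_zero, sub_zero] at e1
    have e3 := h.dist_left (c' 0) (c' T) (div_mem_Icc hb.le hT.le)
    rw [← e1, e2] at e3
    have : b * T = b * dist (c' 0) (c' T) := by
      calc b * T = (b / T * dist (c' 0) (c' T)) * T := by rw [← e3]
        _ = b * dist (c' 0) (c' T) := by field_simp
    exact (mul_left_cancel₀ hb.ne' this).symm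
  apply of_large h hp
  · intro s t hs ht
    obtain ⟨T, hT⟩ := exists_gt (max b (max s t))
    have hT1 : b < T := (le_max_left _ _).trans_lt hT
    have hT2 : s < T := ((le_max_left _ _).trans (le_max_right _ _)).trans_lt hT
    have hT3 : t < T := ((le_max_right _ _).trans (le_max_right _ _)).trans_lt hT
    have hT0 : 0 < T := hb.trans hT1
    rw [key T hT1 s ⟨hs, hT2.le⟩, key T hT1 t ⟨ht, hT3.le⟩, sub_zero, sub_zero, sub_zero,
      h.geodesic _ _ _ (div_mem_Icc hs hT2.le) _ (div_mem_Icc ht hT3.le), hlen T hT1, ← sub_div,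
      abs_div, abs_of_pos hT0, div_mul_cancel₀ _ hT0.ne']
  · intro T hT
    obtain ⟨T', hT'⟩ := exists_gt (max b T)
    refine ⟨T', ((le_max_right _ _).trans_lt hT').le, hb.trans ((le_max_left _ _).trans_lt hT'),
      ?_⟩
    intro t ht0 ht
    have := key T' ((le_max_left _ _).trans_lt hT') t ⟨ht0, ht⟩
    rw [sub_zero, sub_zero, hp] at this
    exact this

end RRay

end

end Run7.h484
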