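import Pool.Agent.Run7.h484.Defs

/-! General facts on bicombings and their boundaries. -/

namespace Run7.h484

universe u

open Set Filter Topology
open scoped NNReal

theorem le_of_div {a b A N : ℝ} (h : ∀ n : ℝ, N ≤ n → 0 < n → a ≤ b + A / n) : a ≤ b := by
  have h1 : Tendsto (fun n : ℝ => b + A / n) atTop (𝓝 (b + 0)) :=
    tendsto_const_nhds.add (Tendsto.div_atTop tendsto_const_nhds tendsto_id)
  rw [add_zero] at h1
  refine ge_of_tendsto h1 ?_
  filter_upwards [eventually_ge_atTop N, eventually_gt_atTop 0] with n h2 h3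
  exact h n h2 h3

theorem div_mem_Icc {t T : ℝ} (h0 : 0 ≤ t) (h1 : t ≤ T) : t / T ∈ Icc (0:ℝ) 1 := by
  constructor
  · exact div_nonneg h0 (h0.trans h1)
  · rcases eq_or_lt_of_le (h0.trans h1) with h | h
    · rw [← h, div_zero]; exact zero_le_one
    · rw [div_le_one h]; exact h1

section

variable {X : Type u} [MetricSpace X] {σ : X → X → ℝ → X}

/-- a unit speed ray all of whose initial segments belong to the bicombing, parametrised by the
real numbers -/
structure RRay (σ : X → X → ℝ → X) (p : X) (c : ℝ → X) : Prop where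
  zero : c 0 = p
  iso : ∀ s t : ℝ, 0 ≤ s → 0 ≤ t → dist (c s) (c t) = |s - t|
  seg : ∀ T l : ℝ, 0 ≤ T → l ∈ Icc (0:ℝ) 1 → c (l * T) = σ p (c T) l

/-- the ray of a boundary point, parametrised by the real numbers -/
def Bdry.c {p : X} (x : Bdry σ p) (t : ℝ) : X := x.ray t.toNNReal

theorem Bdry.rray {p : X} (x : Bdry σ p) : RRay σ p x.c where
  zero := by
    show x.ray (0:ℝ).toNNReal = p
    rw [Real.toNNReal_zero]; exact x.isRay.zero
  iso s t hs ht := by
    have := x.isRay.isometry s.toNNReal t.toNNReal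
    rwa [Real.coe_toNNReal s hs, Real.coe_toNNReal t ht] at this
  seg T l hT hl := by
    have := x.isRay.seg T.toNNReal l.toNNReal (by
      rw [← NNReal.coe_le_coe, Real.coe_toNNReal l hl.1]; exact hl.2)
    rw [Real.coe_toNNReal l hl.1, ← Real.toNNReal_mul hl.1] at this
    exact this

theorem Bdry.ray_apply {p : X} (x : Bdry σ p) (t : ℝ≥0) : x.ray t = x.c t := by
  show _ = x.ray (t:ℝ).toNNReal
  rw [Real.toNNReal_coe]

/-- the boundary point of a ray -/
def RRay.toBdry {p : X} {c : ℝ → X} (h : RRay σ p c) : Bdry σ p where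
  ray := ⟨fun t => c t, by
    apply LipschitzWith.continuous (K := 1)
    apply LipschitzWith.of_dist_le_mul
    intro s t
    show dist (c s) (c t) ≤ _
    rw [h.iso (s:ℝ) (t:ℝ) s.2 t.2, NNReal.coe_one, one_mul, NNReal.dist_eq]⟩
  isRay := by
    constructor
    · exact h.zero
    · intro s t
      exact h.iso _ _ s.2 t.2
    · intro T l hl
      have := h.seg T l T.2 ⟨l.2, by exact_mod_cast hl⟩
      rw [← NNReal.coe_mul] at this
      exact this

theorem RRay.toBdry_c {p : X} {c : ℝ → X} (h : RRay σ p c) {t : ℝ} (ht : 0 ≤ t) :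
    h.toBdry.c t = c t := by
  show c t.toNNReal = c t
  rw [Real.coe_toNNReal t ht]

theorem Bdry.ext_c {p : X} {x y : Bdry σ p} (h : ∀ t, 0 ≤ t → x.c t = y.c t) : x = y := by
  apply Bdry.ext
  ext t
  rw [x.ray_apply, y.ray_apply]
  exact h t t.2

variable (h : IsBicombing σ)
include h

namespace IsBicombing

theorem conical (x y x' y' : X) {t : ℝ} (ht : t ∈ Icc (0:ℝ) 1) :
    dist (σ x y t) (σ x' y' t) ≤ (1 - t) * dist x x' + t * dist y y' := by
  have h1 := (h.convex x y x' y').2 (left_mem_Icc.2 zero_le_one) (right_mem_Icc.2 zero_le_one)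
    (by linarith [ht.2] : 0 ≤ 1 - t) ht.1 (by ring)
  simp only [smul_eq_mul, mul_zero, mul_one, zero_add] at h1
  rw [h.zero, h.zero, h.one, h.one] at h1
  exact h1

theorem dist_left (x y : X) {t : ℝ} (ht : t ∈ Icc (0:ℝ) 1) : dist x (σ x y t) = t * dist x y := by
  have := h.geodesic x y 0 (left_mem_Icc.2 zero_le_one) t ht
  rw [h.zero, zero_sub, abs_neg, abs_of_nonneg ht.1] at this
  exact this

theorem dist_right (x y : X) {t : ℝ} (ht : t ∈ Icc (0:ℝ) 1) :
    dist (σ x y t) y = (1 - t) * dist x y := by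
  have := h.geodesic x y t ht 1 (right_mem_Icc.2 zero_le_one)
  rw [h.one, abs_sub_comm, abs_of_nonneg (by linarith [ht.2])] at this
  exact this

theorem self (x : X) {t : ℝ} (ht : t ∈ Icc (0:ℝ) 1) : σ x x t = x := by
  have := h.dist_left x x ht
  rw [dist_self, mul_zero] at this
  exact (dist_eq_zero.1 this).symm

theorem dist_le_left (x y y' : X) {t : ℝ} (ht : t ∈ Icc (0:ℝ) 1) :
    dist (σ x y t) (σ x y' t) ≤ t * dist y y' := by
  have := h.conical x y x y' ht
  rw [dist_self, mul_zero, zero_add] at this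
  exact this

theorem dist_le_right (x x' y : X) {t : ℝ} (ht : t ∈ Icc (0:ℝ) 1) :
    dist (σ x y t) (σ x' y t) ≤ (1 - t) * dist x x' := by
  have := h.conical x y x' y ht
  rw [dist_self, mul_zero, add_zero] at this
  exact this

/-- distance to a point is convex -/
theorem dist_pt (x y a : X) {t : ℝ} (ht : t ∈ Icc (0:ℝ) 1) :
    dist (σ x y t) a ≤ (1 - t) * dist x a + t * dist y a := by
  have := h.conical x y a a ht
  rw [h.self a ht] at this
  exact this

theorem initial (x y : X) {s l : ℝ} (hs : s ∈ Icc (0:ℝ) 1) (hl : l ∈ Icc (0:ℝ) 1) :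
    σ x (σ x y s) l = σ x y (l * s) := by
  have := h.consistent x y 0 (left_mem_Icc.2 zero_le_one) s hs hs.1 l hl
  rw [h.zero, mul_zero, zero_add] at this
  exact this

theorem final (x y : X) {s l : ℝ} (hs : s ∈ Icc (0:ℝ) 1) (hl : l ∈ Icc (0:ℝ) 1) :
    σ (σ x y s) y l = σ x y ((1 - l) * s + l) := by
  have := h.consistent x y s hs 1 (right_mem_Icc.2 zero_le_one) hs.2 l hl
  rw [h.one, mul_one] at this
  exact this

end IsBicombing

/-! ### Rays -/

namespace RRay

theorem dist_mono {p : X} {c c' : ℝ → X} (hc : RRay σ p c) (hc' : RRay σ p c') {t T : ℝ}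
    (h0 : 0 ≤ t) (hT : t ≤ T) (hT0 : 0 < T) : dist (c t) (c' t) ≤ t / T * dist (c T) (c' T) := by
  have hm := div_mem_Icc h0 hT
  have e1 := hc.seg T (t / T) hT0.le hm
  have e2 := hc'.seg T (t / T) hT0.le hm
  rw [div_mul_cancel₀ _ hT0.ne'] at e1 e2
  rw [e1, e2]
  exact h.dist_le_left _ _ _ hm

theorem eq_of_eq {p : X} {c c' : ℝ → X} (hc : RRay σ p c) (hc' : RRay σ p c') {t T : ℝ}
    (h0 : 0 ≤ t) (hT : t ≤ T) (he : c T = c' T) : c t = c' t := by
  rcases eq_or_lt_of_le (h0.trans hT) with h1 | h1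
  · have : t = T := by linarith
    rw [this, he]
  · have := dist_mono h hc hc' h0 hT h1
    rw [he, dist_self, mul_zero] at this
    exact dist_le_zero.1 this

theorem eq_of_bdd {p : X} {c c' : ℝ → X} (hc : RRay σ p c) (hc' : RRay σ p c') {C : ℝ}
    (hC : ∀ t, 0 ≤ t → dist (c t) (c' t) ≤ C) {t : ℝ} (h0 : 0 ≤ t) : c t = c' t := by
  apply dist_le_zero.1
  apply le_of_div (A := t * C) (N := t)
  intro n hn hn0
  have h1 := dist_mono h hc hc' h0 hn hn0
  have h2 := hC n hn0.le
  have h3 : t / n * dist (c n) (c' n) ≤ t / n * C :=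
    mul_le_mul_of_nonneg_left h2 (div_nonneg h0 hn0.le)
  calc dist (c t) (c' t) ≤ t / n * C := h1.trans h3
    _ = 0 + t * C / n := by ring

/-- the tail of a ray is a ray -/
theorem shift {p : X} {c : ℝ → X} (hc : RRay σ p c) {a : ℝ} (ha : 0 ≤ a) :
    RRay σ (c a) (fun t => c (a + t)) where
  zero := by simp
  iso s t hs ht := by
    rw [hc.iso _ _ (by linarith) (by linarith)]
    congr 1; ring
  seg T l hT hl := by
    rcases eq_or_lt_of_le (add_nonneg ha hT) with h1 | h1
    · have h2 : a = 0 := by linarith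
      have h3 : T = 0 := by linarith
      subst h2 h3
      simp only [mul_zero, add_zero]
      rw [h.self _ hl]
    · have hm := div_mem_Icc ha (by linarith : a ≤ a + T)
      have e1 := hc.seg (a + T) (a / (a + T)) h1.le hm
      rw [div_mul_cancel₀ _ h1.ne'] at e1
      have e2 := h.final p (c (a + T)) hm hl
      rw [← e1] at e2
      show c (a + l * T) = σ (c a) (c (a + T)) l
      rw [e2]
      have hm' : (1 - l) * (a / (a + T)) + l ∈ Icc (0:ℝ) 1 := by
        have h5 := mul_nonneg (sub_nonneg.2 hl.2) hm.1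
        have h6 := mul_le_mul_of_nonneg_left hm.2 (sub_nonneg.2 hl.2)
        constructor
        · linarith [hl.1]
        · linarith
      rw [← hc.seg (a + T) _ h1.le hm']
      congr 1
      field_simp
      ring

/-- building a ray from arbitrarily long segments -/
theorem of_large {p : X} {c : ℝ → X} (h0 : c 0 = p)
    (hiso : ∀ s t : ℝ, 0 ≤ s → 0 ≤ t → dist (c s) (c t) = |s - t|)
    (hseg : ∀ T : ℝ, 0 ≤ T → ∃ T', T ≤ T' ∧ 0 < T' ∧ ∀ t, 0 ≤ t → t ≤ T' → c t = σ p (c T') (t / T')) :
    RRay σ p c where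
  zero := h0
  iso := hiso
  seg T l hT hl := by
    obtain ⟨T', h1, h2, h3⟩ := hseg T hT
    have hlT : 0 ≤ l * T := mul_nonneg hl.1 hT
    have hlT' : l * T ≤ T := mul_le_of_le_one_left hT hl.2
    rw [h3 (l * T) hlT (by linarith), h3 T hT h1, h.initial _ _ (div_mem_Icc hT h1) hl]
    congr 1; ring

/-- unique geodesic rays belong to every bicombing -/
theorem of_unique {p : X} {c : ℝ → X} (h0 : c 0 = p)
    (hiso : ∀ s t : ℝ, 0 ≤ s → 0 ≤ t → dist (c s) (c t) = |s - t|) {T0 : ℝ}
    (huniq : ∀ T : ℝ, T0 ≤ T → 0 < T → ∀ t, 0 ≤ t → t ≤ T → ∀ z, dist p z = t →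
      dist z (c T) = T - t → z = c t) :
    RRay σ p c := by
  apply of_large h h0 hiso
  intro T hT
  refine ⟨max T (max T0 1), le_max_left _ _, ?_, ?_⟩
  · exact lt_of_lt_of_le one_pos ((le_max_right _ _).trans (le_max_right _ _))
  · intro t ht0 htT
    set T' := max T (max T0 1)
    have hT' : 0 < T' := lt_of_lt_of_le one_pos ((le_max_right _ _).trans (le_max_right _ _))
    have hT0 : T0 ≤ T' := (le_max_left _ _).trans (le_max_right _ _)
    have hm := div_mem_Icc ht0 htT
    have hd : dist p (c T') = T' := by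
      rw [← h0, hiso 0 T' le_rfl hT'.le, zero_sub, abs_neg, abs_of_nonneg hT'.le]
    symm
    apply huniq T' hT0 hT' t ht0 htT
    · rw [h.dist_left _ _ hm, hd, div_mul_cancel₀ _ hT'.ne']
    · rw [h.dist_right _ _ hm, hd]
      field_simp

end RRay

/-! ### Change of base point -/

section basechange

theorem approx_cauchy {p : X} {r : ℝ → X} (hr : RRay σ p r) (q : X) {t n m : ℝ} (h0 : 0 ≤ t)
    (ht : t ≤ n) (hn : 0 < n) (hm : n ≤ m) :
    dist (σ q (r n) (t / n)) (σ q (r m) (t / m)) ≤ t / n * dist p q := by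
  have hm0 : 0 < m := by linarith
  have hnm := div_mem_Icc hn.le hm
  have htn := div_mem_Icc h0 ht
  have e1 : σ q (r m) (t / m) = σ q (σ q (r m) (n / m)) (t / n) := by
    rw [h.initial _ _ hnm htn]
    congr 1; field_simp
  have e2 : r n = σ p (r m) (n / m) := by
    have := hr.seg m (n / m) hm0.le hnm
    rw [div_mul_cancel₀ _ hm0.ne'] at this
    exact this
  rw [e1]
  refine (h.dist_le_left _ _ _ htn).trans ?_
  apply mul_le_mul_of_nonneg_left _ htn.1
  rw [e2]
  refine (h.dist_le_right p q (r m) hnm).trans ?_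
  have : 0 ≤ n / m * dist p q := mul_nonneg hnm.1 dist_nonneg
  linarith

theorem exists_asym [CompleteSpace X] {p : X} {r : ℝ → X} (hr : RRay σ p r) (q : X) :
    ∃ c, RRay σ q c ∧ (∀ t, 0 ≤ t → dist (c t) (r t) ≤ dist p q) ∧
      ∀ t n : ℝ, 0 ≤ t → t ≤ n → 0 < n →
        dist (c t) (σ q (r n) (t / n)) ≤ t / n * dist p q := by
  classical
  set K := dist p q with hK
  have hK0 : 0 ≤ K := dist_nonneg
  have hlim : ∀ t : ℝ, 0 ≤ t → ∃ y, Tendsto (fun n : ℕ => σ q (r n) (t / n)) atTop (𝓝 y) := by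
    intro t ht
    apply cauchySeq_tendsto_of_complete
    rw [Metric.cauchySeq_iff']
    intro ε hε
    obtain ⟨N, hN⟩ := exists_nat_gt (max t (t * K / ε))
    have hN1 : t < N := (le_max_left _ _).trans_lt hN
    have hN2 : t * K / ε < N := (le_max_right _ _).trans_lt hN
    have hN0 : (0:ℝ) < N := ht.trans_lt hN1
    refine ⟨N, fun n hn => ?_⟩
    rw [dist_comm]
    refine (approx_cauchy h hr q ht hN1.le hN0 (by exact_mod_cast hn)).trans_lt ?_
    rw [div_mul_eq_mul_div, div_lt_iff₀ hN0]
    rw [div_lt_iff₀ hε] at hN2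
    linarith
  have : Nonempty X := ⟨p⟩
  choose! c hc using hlim
  have hest : ∀ t n : ℝ, 0 ≤ t → t ≤ n → 0 < n →
      dist (c t) (σ q (r n) (t / n)) ≤ t / n * K := by
    intro t n h0 ht hn
    have h1 : Tendsto (fun m : ℕ => dist (σ q (r m) (t / m)) (σ q (r n) (t / n))) atTop
        (𝓝 (dist (c t) (σ q (r n) (t / n)))) := (hc t h0).dist tendsto_const_nhds
    refine le_of_tendsto h1 ?_
    obtain ⟨N, hN⟩ := exists_nat_gt n
    filter_upwards [eventually_ge_atTop N] with m hm
    rw [dist_comm]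
    apply approx_cauchy h hr q h0 ht hn
    have : (N:ℝ) ≤ m := by exact_mod_cast hm
    linarith
  have hrn : ∀ n : ℝ, 0 ≤ n → |dist q (r n) - n| ≤ K := by
    intro n hn
    have h1 : dist p (r n) = n := by
      rw [← hr.zero, hr.iso 0 n le_rfl hn, zero_sub, abs_neg, abs_of_nonneg hn]
    have h2 := dist_triangle q p (r n)
    have h3 := dist_triangle p q (r n)
    rw [dist_comm q p] at h2
    rw [abs_le]
    constructor <;> linarith
  refine ⟨c, ⟨?_, ?_, ?_⟩, ?_, hest⟩
  · apply dist_le_zero.1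
    have := hest 0 1 le_rfl zero_le_one one_pos
    rw [zero_div, zero_mul, h.zero] at this
    exact this
  · intro s t hs ht
    have key : ∀ n : ℝ, max s t ≤ n → 0 < n →
        |dist (c s) (c t) - (|s - t|)| ≤ 0 + (s * K + t * K + |s - t| * K) / n := by
      intro n hn hn0
      have hsn : s ≤ n := (le_max_left _ _).trans hn
      have htn : t ≤ n := (le_max_right _ _).trans hn
      have h1 := hest s n hs hsn hn0
      have h2 := hest t n ht htn hn0
      have h3 := h.geodesic q (r n) _ (div_mem_Icc hs hsn) _ (div_mem_Icc ht htn)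
      have h4 := hrn n hn0.le
      have e1 : |s / n - t / n| = |s - t| / n := by
        rw [← sub_div, abs_div, abs_of_pos hn0]
      rw [e1] at h3
      have h5 : |dist (σ q (r n) (s / n)) (σ q (r n) (t / n)) - (|s - t|)| ≤ |s - t| * K / n := by
        rw [h3]
        have e2 : |s - t| / n * dist q (r n) - |s - t| = |s - t| / n * (dist q (r n) - n) := by
          field_simp
        rw [e2, abs_mul, abs_of_nonneg (div_nonneg (abs_nonneg _) hn0.le)]
        have e5 : (|s - t| / n) * (|dist q (r n) - n|) ≤ (|s - t| / n) * K :=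
              mul_le_mul_of_nonneg_left h4 (div_nonneg (abs_nonneg _) hn0.le)
        have e6 : (|s - t| / n) * K = |s - t| * K / n := by ring
        rw [← e6]; exact e5
      have h6 := dist_triangle4 (c s) (σ q (r n) (s / n)) (σ q (r n) (t / n)) (c t)
      have h7 := dist_triangle4 (σ q (r n) (s / n)) (c s) (c t) (σ q (r n) (t / n))
      rw [dist_comm (σ q (r n) (s / n)) (c s)] at h7
      rw [dist_comm (σ q (r n) (t / n)) (c t)] at h6
      rw [abs_le] at h5 ⊢
      have e3 : (s * K + t * K + |s - t| * K) / n = s / n * K + t / n * K + |s - t| * K / n := by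
        ring
      rw [e3]
      constructor <;> linarith
    have := le_of_div key
    have h8 := abs_nonpos_iff.1 this
    linarith
  · intro T l hT hl
    apply dist_le_zero.1
    apply le_of_div (A := l * T * K + l * (T * K)) (N := T)
    intro n hn hn0
    have hlT : 0 ≤ l * T := mul_nonneg hl.1 hT
    have hlT' : l * T ≤ T := mul_le_of_le_one_left hT hl.2
    have h1 := hest (l * T) n hlT (by linarith) hn0
    have h2 := hest T n hT hn hn0
    have e1 : σ q (r n) (l * T / n) = σ q (σ q (r n) (T / n)) l := by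
      rw [h.initial _ _ (div_mem_Icc hT hn) hl]
      congr 1; ring
    rw [e1] at h1
    have h3 := h.dist_le_left q (σ q (r n) (T / n)) (c T) hl
    have h4 := dist_triangle (c (l * T)) (σ q (σ q (r n) (T / n)) l) (σ q (c T) l)
    rw [dist_comm _ (c T)] at h3
    have h5 : l * dist (c T) (σ q (r n) (T / n)) ≤ l * (T / n * K) :=
      mul_le_mul_of_nonneg_left h2 hl.1
    have e2 : 0 + (l * T * K + l * (T * K)) / n = l * T / n * K + l * (T / n * K) := by ring
    rw [e2]
    linarith
  · intro t ht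
    apply le_of_div (A := t * K) (N := t)
    intro n hn hn0
    have h1 := hest t n ht hn hn0
    have hm := div_mem_Icc ht hn
    have e2 : r t = σ p (r n) (t / n) := by
      have := hr.seg n (t / n) hn0.le hm
      rw [div_mul_cancel₀ _ hn0.ne'] at this
      exact this
    have h2 := h.dist_le_right q p (r n) hm
    rw [← e2, dist_comm q p, ← hK] at h2
    have h3 := dist_triangle (c t) (σ q (r n) (t / n)) (r t)
    have h4 : 0 ≤ t / n * K := mul_nonneg hm.1 hK0
    have e3 : t * K / n = t / n * K := by ring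
    rw [e3]
    linarith

end basechange

end

end Run7.h484
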