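import Pool.Agent.Run7.h484.Retract

/-! Discrete geodesics for a conical midpoint map. -/

namespace Run7.h484

universe u

open Filter Topology Set

/-! ### Discrete convexity -/

/-- discrete convexity on `0..N` -/
def DConv (N : ℕ) (δ : ℕ → ℝ) : Prop := ∀ i, i + 1 < N → 2 * δ (i + 1) ≤ δ i + δ (i + 2)

theorem DConv.slope {N : ℕ} {δ : ℕ → ℝ} (h : DConv N δ) {i j : ℕ} (hij : i ≤ j) (hj : j < N) :
    δ (i + 1) - δ i ≤ δ (j + 1) - δ j := by
  induction j, hij using Nat.le_induction with
  | base => exact le_rfl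
  | succ j hij ih =>
    have h1 := ih (by omega)
    have h2 := h j hj
    have : j + 1 + 1 = j + 2 := rfl
    rw [this]
    linarith

theorem DConv.left {N : ℕ} {δ : ℕ → ℝ} (h : DConv N δ) {i j : ℕ} (hij : i ≤ j) (hj : j < N) :
    δ j - δ i ≤ (j - i : ℝ) * (δ (j + 1) - δ j) := by
  induction j, hij using Nat.le_induction with
  | base => simp
  | succ j hij ih =>
    have h1 := ih (by omega)
    have h2 := h.slope (i := j) (j := j + 1) (by omega) hj
    push_cast
    have h3 : (0:ℝ) ≤ (j:ℝ) - i := by
      have : (i:ℝ) ≤ j := by exact_mod_cast hij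
      linarith
    have h4 := mul_le_mul_of_nonneg_left h2 h3
    have : j + 1 + 1 = j + 2 := rfl
    rw [this] at h2 h4 ⊢
    linarith

theorem DConv.right {N : ℕ} {δ : ℕ → ℝ} (h : DConv N δ) {j k : ℕ} (hjk : j ≤ k) (hk : k ≤ N)
    (hj : j < N) : (k - j : ℝ) * (δ (j + 1) - δ j) ≤ δ k - δ j := by
  induction k, hjk using Nat.le_induction with
  | base => simp
  | succ k hjk ih =>
    have h1 := ih (by omega)
    have h2 := h.slope (i := j) (j := k) hjk (by omega)
    push_cast
    linarith

/-- three point form -/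
theorem DConv.three {N : ℕ} {δ : ℕ → ℝ} (h : DConv N δ) {i j k : ℕ} (hij : i ≤ j) (hjk : j ≤ k)
    (hk : k ≤ N) : (k - i : ℝ) * δ j ≤ (k - j) * δ i + (j - i) * δ k := by
  have e1 : (i:ℝ) ≤ j := by exact_mod_cast hij
  have e2 : (j:ℝ) ≤ k := by exact_mod_cast hjk
  rcases Nat.lt_or_ge j N with hj | hj
  · have h1 := h.left hij hj
    have h2 := h.right hjk hk hj
    have h3 := mul_le_mul_of_nonneg_left h1 (by linarith : (0:ℝ) ≤ k - j)
    have h4 := mul_le_mul_of_nonneg_left h2 (by linarith : (0:ℝ) ≤ j - i)
    nlinarith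
  · have : j = k := by omega
    subst this
    linarith

/-! ### Chains -/

section chain

variable {X : Type u} [MetricSpace X] {m : X → X → X}

/-- a discrete geodesic with `N` steps -/
structure IsChain' (m : X → X → X) (N : ℕ) (x y : X) (c : ℕ → X) : Prop where
  zero : c 0 = x
  last : c N = y
  step : ∀ i, i + 1 < N → c (i + 1) = m (c i) (c (i + 2))

variable (hm : ConMid m)
include hm

theorem ConMid.self (x : X) : m x x = x := by
  have := hm.mid x x
  rw [dist_self, zero_div] at this
  exact (dist_eq_zero.1 this).symm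

theorem ConMid.mid' (x y : X) : dist (m x y) y = dist x y / 2 := by
  rw [hm.symm, dist_comm, hm.mid, dist_comm]

theorem IsChain'.dconv {N : ℕ} {x y x' y' : X} {c c' : ℕ → X} (hc : IsChain' m N x y c)
    (hc' : IsChain' m N x' y' c') : DConv N fun i => dist (c i) (c' i) := by
  intro i hi
  simp only
  rw [hc.step i hi, hc'.step i hi]
  have := hm.conical (c i) (c (i + 2)) (c' i) (c' (i + 2))
  linarith

theorem const_chain (N : ℕ) (z : X) : IsChain' m N z z fun _ => z :=
  ⟨rfl, rfl, fun _ _ => (hm.self z).symm⟩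

theorem IsChain'.unique {N : ℕ} {x y : X} {c c' : ℕ → X} (hc : IsChain' m N x y c)
    (hc' : IsChain' m N x y c') {i : ℕ} (hi : i ≤ N) : c i = c' i := by
  have h1 := (hc.dconv hm hc').three (Nat.zero_le i) hi le_rfl
  simp only [hc.zero, hc'.zero, hc.last, hc'.last, dist_self, mul_zero, add_zero] at h1
  rcases Nat.eq_zero_or_pos N with h0 | h0
  · have : i = 0 := by omega
    subst this
    rw [hc.zero, hc'.zero]
  · apply dist_le_zero.1
    have hN : (0:ℝ) < N := by exact_mod_cast h0
    push_cast at h1
    rw [sub_zero] at h1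
    by_contra hcon
    push Not at hcon
    have := mul_pos hN hcon
    linarith

theorem IsChain'.edge {N : ℕ} {x y : X} {c : ℕ → X} (hc : IsChain' m N x y c) {i : ℕ}
    (hi : i < N) : dist (c i) (c (i + 1)) = dist (c 0) (c 1) := by
  induction i with
  | zero => rfl
  | succ i ih =>
    rw [← ih (by omega)]
    have h1 := hc.step i hi
    have h2 := hm.mid (c i) (c (i + 2))
    have h3 := hm.mid' (c i) (c (i + 2))
    rw [← h1] at h2 h3
    show dist (c (i + 1)) (c (i + 2)) = _
    rw [h2, h3]

theorem IsChain'.dist_le {N : ℕ} {x y : X} {c : ℕ → X} (hc : IsChain' m N x y c) {i j : ℕ}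
    (hij : i ≤ j) (hj : j ≤ N) : dist (c i) (c j) ≤ (j - i : ℝ) * dist (c 0) (c 1) := by
  induction j, hij using Nat.le_induction with
  | base => simp
  | succ j hij ih =>
    have h1 := ih (by omega)
    have h2 := hc.edge hm (i := j) (by omega)
    have h3 := dist_triangle (c i) (c j) (c (j + 1))
    push_cast
    linarith

theorem IsChain'.dist_zero {N : ℕ} {x y : X} {c : ℕ → X} (hc : IsChain' m N x y c) {i : ℕ}
    (hi : i ≤ N) : dist (c 0) (c i) = i * dist (c 0) (c 1) := by
  apply le_antisymm
  · have := hc.dist_le hm (Nat.zero_le i) hi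
    push_cast at this
    rwa [sub_zero] at this
  · rcases Nat.eq_zero_or_pos N with h0 | h0
    · have : i = 0 := by omega
      subst this
      simp
    · have hz : IsChain' m N (c 0) (c 0) fun _ => c 0 := const_chain hm N (c 0)
      have hc0 : IsChain' m N (c 0) y c := ⟨rfl, hc.last, hc.step⟩
      have h1 := (hc0.dconv hm hz).right (Nat.zero_le i) hi h0
      simp only [dist_self, sub_zero, zero_add] at h1
      push_cast at h1
      rw [sub_zero, dist_comm (c 1), dist_comm (c i)] at h1
      exact h1

/-- chains are geodesic -/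
theorem IsChain'.dist_eq {N : ℕ} {x y : X} {c : ℕ → X} (hc : IsChain' m N x y c) {i j : ℕ}
    (hij : i ≤ j) (hj : j ≤ N) (hN : 0 < N) :
    dist (c i) (c j) = (j - i : ℝ) / N * dist x y := by
  have h1 := hc.dist_zero hm le_rfl
  rw [hc.last, hc.zero] at h1
  have hN' : (0:ℝ) < N := by exact_mod_cast hN
  have h2 : (j - i : ℝ) / N * dist x y = (j - i) * dist (c 0) (c 1) := by
    rw [h1, hc.zero]; field_simp
  rw [h2]
  apply le_antisymm (hc.dist_le hm hij hj)
  have h3 := hc.dist_zero hm (hij.trans hj)
  have h4 := hc.dist_zero hm hj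
  have h5 := dist_triangle (c 0) (c i) (c j)
  linarith

/-! ### Existence -/

/-- one relaxation step -/
def relax (m : X → X → X) (N : ℕ) (x y : X) (c : ℕ → X) (i : ℕ) : X :=
  if i = 0 then x else if N ≤ i then y else m (c (i - 1)) (c (i + 1))

/-- the weight -/
noncomputable def wt (N i : ℕ) : ℝ := if N ≤ i then 0 else (i : ℝ) * (N - i)

omit hm in
theorem wt_nonneg (N i : ℕ) : 0 ≤ wt N i := by
  unfold wt
  split_ifs with h
  · exact le_rfl
  · have : (i:ℝ) ≤ N := by exact_mod_cast (by omega : i ≤ N)
    exact mul_nonneg (Nat.cast_nonneg _) (by linarith)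

omit hm in
theorem wt_le (N i : ℕ) (hi : i ≤ N) : wt N i = (i : ℝ) * (N - i) := by
  unfold wt
  split_ifs with h
  · have : i = N := by omega
    subst this; simp
  · rfl

omit hm in
theorem wt_avg {N i : ℕ} (hi : i + 1 < N) :
    (wt N i + wt N (i + 2)) / 2 ≤ (1 - 1 / (N:ℝ) ^ 2) * wt N (i + 1) := by
  rw [wt_le N i (by omega), wt_le N (i + 2) (by omega), wt_le N (i + 1) (by omega)]
  have hN : (0:ℝ) < N := by exact_mod_cast (by omega : 0 < N)
  push_cast
  have h1 : ((i:ℝ) + 1) * (N - (i + 1)) ≤ (N:ℝ) ^ 2 := by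
    have h2 : (i:ℝ) + 1 ≤ N := by exact_mod_cast hi.le
    have h3 : (0:ℝ) ≤ i := Nat.cast_nonneg i
    nlinarith
  have h2 : 1 / (N:ℝ) ^ 2 * (((i:ℝ) + 1) * (N - (i + 1))) ≤ 1 := by
    rw [div_mul_eq_mul_div, one_mul, div_le_one (by positivity)]
    exact h1
  nlinarith

theorem relax_contract {N : ℕ} {x y : X} {c c' : ℕ → X} {K : ℝ}
    (h : ∀ i, dist (c i) (c' i) ≤ K * wt N i) (i : ℕ) (hK : 0 ≤ K) :
    dist (relax m N x y c i) (relax m N x y c' i) ≤ K * (1 - 1 / (N:ℝ) ^ 2) * wt N i := by
  unfold relax
  split_ifs with h1 h2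
  · rw [dist_self, h1]
    have : wt N 0 = 0 := by
      unfold wt; split_ifs <;> simp
    rw [this, mul_zero]
  · rw [dist_self]
    have : wt N i = 0 := by unfold wt; rw [if_pos h2]
    rw [this, mul_zero]
  · obtain ⟨j, rfl⟩ : ∃ j, i = j + 1 := ⟨i - 1, by omega⟩
    have h3 := hm.conical (c j) (c (j + 2)) (c' j) (c' (j + 2))
    have h4 := h j
    have h5 := h (j + 2)
    have h6 := wt_avg (N := N) (i := j) (by omega)
    have h7 := mul_le_mul_of_nonneg_left h6 hK
    show dist (m (c j) (c (j + 2))) (m (c' j) (c' (j + 2))) ≤ _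
    linarith

/-- iterated relaxation -/
def itr (m : X → X → X) (N : ℕ) (x y : X) : ℕ → ℕ → X
  | 0 => fun i => if i = 0 then x else y
  | k + 1 => relax m N x y (itr m N x y k)

theorem exists_chain [CompleteSpace X] {N : ℕ} (hN : 0 < N) (x y : X) :
    ∃ c, IsChain' m N x y c := by
  have hN' : (0:ℝ) < N := by exact_mod_cast hN
  have hN1 : (1:ℝ) ≤ N := by exact_mod_cast hN
  set ρ : ℝ := 1 - 1 / (N:ℝ) ^ 2 with hρ
  have hρ0 : 0 ≤ ρ := by
    rw [hρ]
    have : 1 / (N:ℝ) ^ 2 ≤ 1 := by
      rw [div_le_one (by positivity)]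
      exact one_le_pow₀ hN1
    linarith
  have hρ1 : ρ < 1 := by
    rw [hρ]
    have : 0 < 1 / (N:ℝ) ^ 2 := by positivity
    linarith
  have hstart : ∀ i, dist (itr m N x y 0 i) (itr m N x y 1 i) ≤ dist x y * wt N i := by
    intro i
    show dist (if i = 0 then x else y) (relax m N x y (fun i => if i = 0 then x else y) i) ≤ _
    unfold relax
    by_cases h0 : i = 0
    · simp only [h0, if_true, dist_self]
      exact mul_nonneg dist_nonneg (wt_nonneg _ _)
    · by_cases h1 : N ≤ i
      · simp only [h0, h1, if_true, if_false, dist_self]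
        exact mul_nonneg dist_nonneg (wt_nonneg _ _)
      · simp only [h0, h1, if_false]
        have hw : 1 ≤ wt N i := by
          rw [wt_le N i (by omega)]
          have h2 : (1:ℝ) ≤ i := by exact_mod_cast (by omega : 1 ≤ i)
          have h3 : (i:ℝ) + 1 ≤ N := by exact_mod_cast (by omega : i + 1 ≤ N)
          nlinarith
        have h2 : i + 1 ≠ 0 := by omega
        simp only [h2, if_false]
        have h3 : dist y (m (if i - 1 = 0 then x else y) y) ≤ dist x y := by
          split_ifs
          · rw [dist_comm, hm.mid']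
            linarith [dist_nonneg (x := x) (y := y)]
          · rw [hm.self, dist_self]; exact dist_nonneg
        have := mul_le_mul_of_nonneg_left hw (dist_nonneg (x := x) (y := y))
        linarith
  have hall : ∀ k, ∀ i, dist (itr m N x y k i) (itr m N x y (k + 1) i) ≤
      dist x y * ρ ^ k * wt N i := by
    intro k
    induction k with
    | zero =>
      intro i
      rw [pow_zero, mul_one]
      exact hstart i
    | succ k ih =>
      intro i
      have := relax_contract hm (x := x) (y := y) ih i
        (mul_nonneg dist_nonneg (pow_nonneg hρ0 _))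
      rw [← hρ] at this
      show dist (relax m N x y (itr m N x y k) i) (relax m N x y (itr m N x y (k + 1)) i) ≤ _
      rw [pow_succ]
      linarith
  have hcau : ∀ i, ∃ z, Tendsto (fun k => itr m N x y k i) atTop (𝓝 z) := by
    intro i
    apply cauchySeq_tendsto_of_complete
    apply cauchySeq_of_le_geometric ρ (dist x y * wt N i) hρ1
    intro k
    have := hall k i
    linarith
  choose c hc using hcau
  refine ⟨c, ?_, ?_, ?_⟩
  · apply tendsto_nhds_unique (hc 0)
    have : (fun k => itr m N x y k 0) = fun _ => x := by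
      funext k
      cases k with
      | zero => rfl
      | succ k => rfl
    rw [this]
    exact tendsto_const_nhds
  · apply tendsto_nhds_unique (hc N)
    have : (fun k => itr m N x y k N) = fun _ => y := by
      funext k
      cases k with
      | zero =>
        show (if N = 0 then x else y) = y
        rw [if_neg (by omega)]
      | succ k =>
        show relax m N x y _ N = y
        unfold relax
        rw [if_neg (by omega), if_pos le_rfl]
    rw [this]
    exact tendsto_const_nhds
  · intro i hi
    have h1 : Tendsto (fun k => itr m N x y (k + 1) (i + 1)) atTop (𝓝 (c (i + 1))) :=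
      (tendsto_add_atTop_iff_nat 1).2 (hc (i + 1))
    have h2 : Tendsto (fun k => itr m N x y (k + 1) (i + 1)) atTop
        (𝓝 (m (c i) (c (i + 2)))) := by
      rw [tendsto_iff_dist_tendsto_zero]
      have h3 : Tendsto (fun k => (dist (itr m N x y k i) (c i) +
          dist (itr m N x y k (i + 2)) (c (i + 2))) / 2) atTop (𝓝 ((0 + 0) / 2)) :=
        (((tendsto_iff_dist_tendsto_zero.1 (hc i)).add
          (tendsto_iff_dist_tendsto_zero.1 (hc (i + 2)))).div_const 2)
      rw [add_zero, zero_div] at h3
      refine squeeze_zero (fun _ => dist_nonneg) (fun k => ?_) h3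
      have e : itr m N x y (k + 1) (i + 1) = m (itr m N x y k i) (itr m N x y k (i + 2)) := by
        show relax m N x y _ (i + 1) = _
        unfold relax
        rw [if_neg (by omega), if_neg (by omega)]
        rfl
      rw [e]
      exact hm.conical _ _ _ _
    exact tendsto_nhds_unique h1 h2

theorem IsChain'.rev {N : ℕ} {x y : X} {c : ℕ → X} (hc : IsChain' m N x y c) :
    IsChain' m N y x fun i => c (N - i) := by
  refine ⟨?_, ?_, ?_⟩
  · simp only [Nat.sub_zero]; exact hc.last
  · simp only [Nat.sub_self]; exact hc.zero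
  · intro i hi
    have h1 := hc.step (N - (i + 2)) (by omega)
    have e1 : N - (i + 2) + 1 = N - (i + 1) := by omega
    have e2 : N - (i + 2) + 2 = N - i := by omega
    rw [e1, e2, hm.symm] at h1
    exact h1

end chain

end Run7.h484
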