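import Mathlib

/-! The universal Coxeter group on an alphabet, as reduced words. -/

namespace Run7.h484

variable {α : Type} [DecidableEq α]

/-- one step: multiply a word by a letter on the left, cancelling if possible. -/
def step (e : α) : List α → List α
  | [] => [e]
  | a :: l => if e = a then l else e :: a :: l

/-- reduced words: no two consecutive letters agree -/
def Red (l : List α) : Prop := l.IsChain (· ≠ ·)

omit [DecidableEq α] in
theorem Red.tail {a : α} {l : List α} (h : Red (a :: l)) : Red l := List.IsChain.tail h

omit [DecidableEq α] in
theorem red_nil : Red ([] : List α) := List.isChain_nil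

omit [DecidableEq α] in
theorem red_singleton (a : α) : Red [a] := List.isChain_singleton a

omit [DecidableEq α] in
theorem red_cons_cons {a b : α} {l : List α} : Red (a :: b :: l) ↔ a ≠ b ∧ Red (b :: l) := by
  unfold Red; rw [List.isChain_cons_cons]

theorem red_step (e : α) {l : List α} (h : Red l) : Red (step e l) := by
  cases l with
  | nil => exact red_singleton e
  | cons a l =>
    by_cases he : e = a
    · simp only [step, he, if_true]; exact h.tail
    · simp only [step, he, if_false]; exact red_cons_cons.2 ⟨he, h⟩

theorem step_step (e : α) {l : List α} (h : Red l) : step e (step e l) = l := by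
  cases l with
  | nil => simp [step]
  | cons a l =>
    by_cases he : e = a
    · subst he
      simp only [step, if_true]
      cases l with
      | nil => simp [step]
      | cons b l => 
        have := (red_cons_cons.1 h).1
        simp [step, this]
    · simp [step, he]

/-- product of words, reduced when both are -/
def wmul (u v : List α) : List α := u.foldr step v

@[simp] theorem wmul_nil_left (v : List α) : wmul [] v = v := rfl
@[simp] theorem wmul_cons (a : α) (u v : List α) : wmul (a :: u) v = step a (wmul u v) := rfl

theorem red_wmul (u : List α) {v : List α} (h : Red v) : Red (wmul u v) := by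
  induction u with
  | nil => exact h
  | cons a u ih => exact red_step a ih

theorem step_cons_of_red {a : α} {l : List α} (h : Red (a :: l)) : step a l = a :: l := by
  cases l with
  | nil => rfl
  | cons b l => simp [step, (red_cons_cons.1 h).1]

theorem wmul_of_red_append {u v : List α} (h : Red (u ++ v)) : wmul u v = u ++ v := by
  induction u with
  | nil => rfl
  | cons a u ih =>
    rw [wmul_cons, ih h.tail]
    exact step_cons_of_red h

theorem wmul_nil_right {u : List α} (h : Red u) : wmul u [] = u := by
  have := wmul_of_red_append (u := u) (v := []) (by simpa using h)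
  simpa using this

theorem wmul_step (e : α) {X w : List α} (hX : Red X) (hw : Red w) :
    wmul (step e X) w = step e (wmul X w) := by
  cases X with
  | nil => rfl
  | cons a X =>
    by_cases he : e = a
    · subst he
      have : step e (e :: X) = X := by simp [step]
      rw [this, wmul_cons, step_step _ (red_wmul X hw)]
    · have : step e (a :: X) = e :: a :: X := by simp [step, he]
      rw [this, wmul_cons]

theorem wmul_assoc (u : List α) {v w : List α} (hv : Red v) (hw : Red w) :
    wmul (wmul u v) w = wmul u (wmul v w) := by
  induction u with
  | nil => rfl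
  | cons a u ih => rw [wmul_cons, wmul_step a (red_wmul u hv) hw, ih, wmul_cons]

omit [DecidableEq α] in
theorem red_reverse {u : List α} (h : Red u) : Red u.reverse := by
  unfold Red at *
  rw [List.isChain_reverse]
  exact h.imp (fun a b hab => fun h' => hab h'.symm)

theorem wmul_reverse_self (u : List α) : wmul u.reverse u = [] := by
  have key : ∀ u v : List α, wmul u.reverse (u ++ v) = v := by
    intro u
    induction u with
    | nil => intro v; rfl
    | cons a u ih =>
      intro v
      have : wmul (a :: u).reverse (a :: u ++ v) = wmul u.reverse (wmul [a] (a :: u ++ v)) := by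
        simp [wmul, List.foldr_append]
      rw [this]
      simp only [wmul_cons, wmul_nil_left, List.cons_append, step, if_true]
      exact ih v
  have := key u []
  simpa using this

/-- The universal Coxeter group on `α`. -/
@[ext] structure W (α : Type) where
  /-- the reduced word -/
  val : List α
  red : Red val

namespace W

instance : One (W α) := ⟨⟨[], red_nil⟩⟩
instance : Mul (W α) := ⟨fun x y => ⟨wmul x.val y.val, red_wmul _ y.red⟩⟩
instance : Inv (W α) := ⟨fun x => ⟨x.val.reverse, red_reverse x.red⟩⟩

omit [DecidableEq α] in
@[simp] theorem one_val : (1 : W α).val = [] := rfl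
@[simp] theorem mul_val (x y : W α) : (x * y).val = wmul x.val y.val := rfl
omit [DecidableEq α] in
@[simp] theorem inv_val (x : W α) : (x⁻¹).val = x.val.reverse := rfl

instance : Group (W α) := Group.ofLeftAxioms
  (fun x y z => W.ext (wmul_assoc x.val y.red z.red))
  (fun _ => W.ext rfl)
  (fun x => W.ext (wmul_reverse_self x.val))

/-- the generator -/
def of (e : α) : W α := ⟨[e], red_singleton e⟩

omit [DecidableEq α] in
@[simp] theorem of_val (e : α) : (of e).val = [e] := rfl

theorem mul_val_of_red {x y : W α} (h : Red (x.val ++ y.val)) : (x * y).val = x.val ++ y.val :=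
  wmul_of_red_append h

theorem of_mul_of (e : α) : of e * of e = 1 := W.ext (by simp [step])

theorem of_inv (e : α) : (of e)⁻¹ = of e := W.ext (by simp)

theorem mul_of_mul_of (x : W α) (e : α) : x * of e * of e = x := by
  rw [mul_assoc, of_mul_of, mul_one]

omit [DecidableEq α] in
theorem red_append_singleton {l : List α} {e : α} :
    Red (l ++ [e]) ↔ Red l ∧ ∀ a ∈ l.getLast?, a ≠ e := by
  unfold Red
  rw [List.isChain_append]
  simp

theorem eq_mul_of {x : W α} {l : List α} {e : α} (h : x.val = l ++ [e]) :
    ∃ y : W α, y.val = l ∧ x = y * of e := by
  have hx := x.red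
  rw [h] at hx
  have hl' : Red l := (red_append_singleton.1 hx).1
  refine ⟨⟨l, hl'⟩, rfl, ?_⟩
  apply W.ext
  rw [mul_val_of_red (x := ⟨l, hl'⟩) (y := of e) hx]
  exact h

theorem eq_of_mul {x : W α} {l : List α} {e : α} (h : x.val = e :: l) :
    ∃ y : W α, y.val = l ∧ x = of e * y := by
  have hx := x.red
  rw [h] at hx
  have hl' : Red l := hx.tail
  refine ⟨⟨l, hl'⟩, rfl, ?_⟩
  apply W.ext
  rw [mul_val_of_red (x := of e) (y := ⟨l, hl'⟩) hx]
  exact h

/-- right multiplication by a letter either appends it or deletes it -/
theorem dichotomy (x : W α) (e : α) :
    (x * of e).val = x.val ++ [e] ∨ x.val = (x * of e).val ++ [e] := by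
  by_cases h : Red (x.val ++ [e])
  · left
    exact mul_val_of_red (y := of e) h
  · right
    rw [red_append_singleton] at h
    push Not at h
    obtain ⟨a, ha, hae⟩ := h x.red
    subst hae
    obtain ⟨l, hl⟩ : ∃ l, x.val = l ++ [a] := List.getLast?_eq_some_iff.1 ha
    obtain ⟨y, hy, hxy⟩ := eq_mul_of hl
    rw [hxy, mul_of_mul_of, hy, ← hxy]
    exact hl

/-- the automorphism induced by a permutation of the alphabet -/
def mapEquiv (f : α ≃ α) : W α ≃* W α where
  toFun x := ⟨x.val.map f, by
    have := x.red
    unfold Red at *
    rw [List.isChain_map]
    exact this.imp (fun a b hab h => hab (f.injective h))⟩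
  invFun x := ⟨x.val.map f.symm, by
    have := x.red
    unfold Red at *
    rw [List.isChain_map]
    exact this.imp (fun a b hab h => hab (f.symm.injective h))⟩
  left_inv x := W.ext (by simp)
  right_inv x := W.ext (by simp)
  map_mul' x y := by
    apply W.ext
    have hstep : ∀ (e : α) (l : List α), (step e l).map f = step (f e) (l.map f) := by
      intro e l
      cases l with
      | nil => rfl
      | cons a l =>
        by_cases he : e = a
        · simp [step, he]
        · simp [step, he]
    have : ∀ u v : List α, (wmul u v).map f = wmul (u.map f) (v.map f) := by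
      intro u v
      induction u with
      | nil => rfl
      | cons a u ih => rw [wmul_cons, hstep, ih]; rfl
    exact this x.val y.val

@[simp] theorem mapEquiv_val (f : α ≃ α) (x : W α) : (mapEquiv f x).val = x.val.map f := rfl

end W

end Run7.h484
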