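import Mathlib

/-! Definitions used in the statement: Helly graphs, geometric actions, injective hulls,
bicombings, boundaries. -/

namespace Run7.h484

universe u v

/-! ### Graphs -/

/-- The combinatorial ball `B(v, r)` of a graph. -/
def cball {V : Type u} (Γ : SimpleGraph V) (v : V) (r : ℕ) : Set V := {w | Γ.dist v w ≤ r}

/-- A graph is Helly if it is connected and every family of pairwise intersecting combinatorial
balls (given by a set of pairs centre/radius) has a common vertex. -/
structure IsHelly {V : Type u} (Γ : SimpleGraph V) : Prop where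
  connected : Γ.Connected
  helly : ∀ F : Set (V × ℕ),
    (∀ p ∈ F, ∀ q ∈ F, (cball Γ p.1 p.2 ∩ cball Γ q.1 q.2).Nonempty) →
      ∃ w, ∀ p ∈ F, w ∈ cball Γ p.1 p.2

/-- `G` acts geometrically on the graph `Γ`: by graph automorphisms, properly (only finitely many
elements move a given vertex a given bounded distance) and with finitely many orbits of
vertices. -/
structure IsGeometricAction (G : Type u) [Group G] {V : Type v} [MulAction G V]
    (Γ : SimpleGraph V) : Prop where
  adj : ∀ (g : G) (v w : V), Γ.Adj (g • v) (g • w) ↔ Γ.Adj v w
  proper : ∀ (v : V) (r : ℕ), {g : G | Γ.dist v (g • v) ≤ r}.Finite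
  cofinite : ∃ K : Set V, K.Finite ∧ ∀ v : V, ∃ g : G, ∃ w ∈ K, v = g • w

/-- The path metric of a connected graph. -/
@[reducible] noncomputable def graphMetric {V : Type u} (Γ : SimpleGraph V) (h : Γ.Connected) :
    MetricSpace V where
  dist x y := (Γ.dist x y : ℝ)
  dist_self x := by simp
  dist_comm x y := by rw [SimpleGraph.dist_comm]
  dist_triangle x y z := by exact_mod_cast h.dist_triangle
  eq_of_dist_eq_zero {x y} hxy := by
    have : Γ.dist x y = 0 := by exact_mod_cast hxy
    exact h.dist_eq_zero_iff.1 this

/-! ### Injective hulls -/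

/-- Extremal functions on a metric space: minimal elements of
`{f | ∀ x y, d(x,y) ≤ f x + f y}`. -/
def IsExtremal {X : Type u} [MetricSpace X] (f : X → ℝ) : Prop :=
  (∀ x y, dist x y ≤ f x + f y) ∧
    ∀ g : X → ℝ, (∀ x y, dist x y ≤ g x + g y) → (∀ x, g x ≤ f x) → g = f

/-- Isbell's injective hull of a metric space: the set of extremal functions with the
supremum metric. -/
@[ext] structure InjHull (X : Type u) [MetricSpace X] : Type u where
  /-- the underlying function -/
  val : X → ℝ
  extremal : IsExtremal val

section hull

variable {X : Type u} [MetricSpace X]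

theorem IsExtremal.nonneg {f : X → ℝ} (hf : IsExtremal f) (x : X) : 0 ≤ f x := by
  have := hf.1 x x
  rw [dist_self] at this
  linarith

theorem IsExtremal.lip {f : X → ℝ} (hf : IsExtremal f) (x y : X) : f x ≤ dist x y + f y := by
  classical
  by_contra hlt
  push Not at hlt
  have h := hf.2 (Function.update f x (dist x y + f y)) ?_ ?_
  · have := congrFun h x
    simp only [Function.update_self] at this
    linarith
  · intro a b
    have hd := dist_nonneg (x := x) (y := y)
    have hy := hf.nonneg y
    by_cases ha : a = x
    · subst ha
      by_cases hb : b = a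
      · subst hb
        simp only [Function.update_self, dist_self]
        linarith
      · simp only [Function.update_self, Function.update_of_ne hb]
        have h1 := dist_triangle a y b
        have h2 := hf.1 y b
        linarith
    · by_cases hb : b = x
      · subst hb
        simp only [Function.update_self, Function.update_of_ne ha]
        have h1 := dist_triangle a y b
        have h2 := hf.1 a y
        rw [dist_comm y b] at h1
        linarith
      · simp only [Function.update_of_ne hb, Function.update_of_ne ha]
        exact hf.1 a b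
  · intro a
    by_cases ha : a = x
    · subst ha
      simp only [Function.update_self]
      exact hlt.le
    · simp only [Function.update_of_ne ha]; exact le_refl _

theorem hull_bdd (f g : InjHull X) : BddAbove (Set.range fun x => |f.val x - g.val x|) := by
  by_cases hX : Nonempty X
  · obtain ⟨x₀⟩ := hX
    refine ⟨f.val x₀ + g.val x₀, ?_⟩
    rintro _ ⟨x, rfl⟩
    have h1 := f.extremal.lip x x₀
    have h2 := g.extremal.lip x x₀
    have h3 := f.extremal.1 x x₀
    have h4 := g.extremal.1 x x₀
    simp only
    rw [abs_le]
    constructor <;> linarith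
  · rw [not_nonempty_iff] at hX
    rw [Set.range_eq_empty]
    exact bddAbove_empty

noncomputable instance : MetricSpace (InjHull X) where
  dist f g := ⨆ x, |f.val x - g.val x|
  dist_self f := by simp
  dist_comm f g := by simp only [abs_sub_comm]
  dist_triangle f g k := by
    by_cases hX : Nonempty X
    · apply ciSup_le
      intro x
      have h1 : |f.val x - g.val x| ≤ ⨆ x, |f.val x - g.val x| := le_ciSup (hull_bdd f g) x
      have h2 : |g.val x - k.val x| ≤ ⨆ x, |g.val x - k.val x| := le_ciSup (hull_bdd g k) x
      have h3 := abs_sub_le (f.val x) (g.val x) (k.val x)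
      linarith
    · rw [not_nonempty_iff] at hX
      simp
  eq_of_dist_eq_zero {f g} h := by
    apply InjHull.ext
    funext x
    have h1 : |f.val x - g.val x| ≤ ⨆ x, |f.val x - g.val x| := le_ciSup (hull_bdd f g) x
    have h2 : |f.val x - g.val x| ≤ 0 := by
      have h' : (⨆ x, |f.val x - g.val x|) = 0 := h
      linarith
    have := abs_nonpos_iff.1 h2
    linarith

theorem InjHull.dist_def (f g : InjHull X) : dist f g = ⨆ x, |f.val x - g.val x| := rfl

end hull

/-- The injective hull of the vertex set of a connected graph with its path metric. -/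
abbrev GHull {V : Type u} (Γ : SimpleGraph V) (h : Γ.Connected) : Type u :=
  @InjHull V (graphMetric Γ h)

/-! ### Bicombings -/

/-- `σ` is a convex, consistent, reversible geodesic bicombing on the metric space `X`. Here
`σ x y : ℝ → X`, and only the values on `[0,1]` matter. -/
structure IsBicombing {X : Type u} [MetricSpace X] (σ : X → X → ℝ → X) : Prop where
  zero : ∀ x y, σ x y 0 = x
  one : ∀ x y, σ x y 1 = y
  geodesic : ∀ x y, ∀ s ∈ Set.Icc (0 : ℝ) 1, ∀ t ∈ Set.Icc (0 : ℝ) 1,
    dist (σ x y s) (σ x y t) = |s - t| * dist x y
  reversible : ∀ x y, ∀ t ∈ Set.Icc (0 : ℝ) 1, σ y x t = σ x y (1 - t)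
  consistent : ∀ x y, ∀ s ∈ Set.Icc (0 : ℝ) 1, ∀ t ∈ Set.Icc (0 : ℝ) 1, s ≤ t →
    ∀ l ∈ Set.Icc (0 : ℝ) 1, σ (σ x y s) (σ x y t) l = σ x y ((1 - l) * s + l * t)
  convex : ∀ x y x' y', ConvexOn ℝ (Set.Icc 0 1) fun t => dist (σ x y t) (σ x' y' t)

open scoped NNReal

/-- `r : [0,∞) → X` is a `σ`-ray issuing from `p`: it has unit speed and each of its initial
segments is the `σ`-geodesic between its endpoints. -/
structure IsRay {X : Type u} [MetricSpace X] (σ : X → X → ℝ → X) (p : X) (r : ℝ≥0 → X) :
    Prop where
  zero : r 0 = p
  isometry : ∀ s t : ℝ≥0, dist (r s) (r t) = |(s : ℝ) - t|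
  seg : ∀ T l : ℝ≥0, l ≤ 1 → r (l * T) = σ p (r T) l

/-- The boundary of `X` with respect to the bicombing `σ`: the set of `σ`-rays issuing from the
base point `p`, with the cone topology, i.e. the topology of uniform convergence on compact
sets (induced from the compact-open topology on `C([0,∞), X)`). -/
@[ext] structure Bdry {X : Type u} [MetricSpace X] (σ : X → X → ℝ → X) (p : X) : Type u where
  /-- the underlying ray -/
  ray : C(ℝ≥0, X)
  isRay : IsRay σ p ray

instance {X : Type u} [MetricSpace X] (σ : X → X → ℝ → X) (p : X) :
    TopologicalSpace (Bdry σ p) :=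
  TopologicalSpace.induced Bdry.ray inferInstance

end Run7.h484
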