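import Pool.Agent.Run7.h484.Lattice

/-! The group and its geometric actions. -/

namespace Run7.h484

open Set

/-- shift of letters -/
def sh (a : ℤ × ℤ) : Letter ≃ Letter where
  toFun e := match e with
    | (false, k) => (false, k + a.2)
    | (true, l) => (true, l + a.1)
  invFun e := match e with
    | (false, k) => (false, k - a.2)
    | (true, l) => (true, l - a.1)
  left_inv e := by rcases e with ⟨_ | _, k⟩ <;> simp
  right_inv e := by rcases e with ⟨_ | _, k⟩ <;> simp

theorem sh_add (a b : ℤ × ℤ) (e : Letter) : sh (a + b) e = sh a (sh b e) := by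
  rcases e with ⟨_ | _, k⟩ <;> simp [sh] <;> ring

theorem sh_zero (e : Letter) : sh 0 e = e := by
  rcases e with ⟨_ | _, k⟩ <;> simp [sh]

/-- shift of planes -/
def ta (a : ℤ × ℤ) : Pl ≃* Pl := W.mapEquiv (sh a)

theorem ta_val (a : ℤ × ℤ) (x : Pl) : (ta a x).val = x.val.map (sh a) := rfl

theorem ta_add (a b : ℤ × ℤ) (x : Pl) : ta (a + b) x = ta a (ta b x) := by
  apply W.ext
  rw [ta_val, ta_val, ta_val, List.map_map]
  apply List.map_congr_left
  intro e _
  exact sh_add a b e

theorem ta_zero (x : Pl) : ta 0 x = x := by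
  apply W.ext
  rw [ta_val]
  conv_rhs => rw [← List.map_id x.val]
  apply List.map_congr_left
  intro e _
  exact sh_zero e

theorem ta_of (a : ℤ × ℤ) (e : Letter) : ta a (W.of e) = W.of (sh a e) := rfl

/-- The group acting on both complexes. -/
def GG : Subgroup (Equiv.Perm Pl × Multiplicative (ℤ × ℤ)) where
  carrier := {g | (∀ w w', (g.1 w)⁻¹ * g.1 w' = ta (Multiplicative.toAdd g.2) (w⁻¹ * w')) ∧
    ∀ w, w ∈ VP ↔ g.1 w ∈ VP}
  one_mem' := by
    constructor
    · intro w w'
      exact (ta_zero _).symm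
    · intro w; exact Iff.rfl
  mul_mem' := by
    rintro g h ⟨hg1, hg2⟩ ⟨hh1, hh2⟩
    constructor
    · intro w w'
      show (g.1 (h.1 w))⁻¹ * g.1 (h.1 w') = ta (Multiplicative.toAdd g.2 + Multiplicative.toAdd h.2) _
      rw [hg1, hh1, ta_add]
    · intro w
      rw [hh2, hg2]; exact Iff.rfl
  inv_mem' := by
    rintro g ⟨hg1, hg2⟩
    constructor
    · intro w w'
      have h := hg1 (g.1⁻¹ w) (g.1⁻¹ w')
      have e1 : ∀ v, g.1 (g.1⁻¹ v) = v := fun v => g.1.apply_symm_apply v
      rw [e1, e1] at h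
      show (g.1⁻¹ w)⁻¹ * g.1⁻¹ w' = ta (-Multiplicative.toAdd g.2) (w⁻¹ * w')
      rw [h, ← ta_add, neg_add_cancel, ta_zero]
    · intro w
      have := hg2 (g.1⁻¹ w)
      have e1 : ∀ v, g.1 (g.1⁻¹ v) = v := fun v => g.1.apply_symm_apply v
      rw [e1] at this
      exact this.symm

/-! ### Parities -/

theorem par_step (b : Bool) (e : Letter) (l : List Letter) :
    par b (step e l) = par b [e] + par b l := by
  cases l with
  | nil => simp [step, par]
  | cons a l =>
    by_cases h : e = a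
    · subst h
      simp only [step, if_true]
      unfold par
      rw [List.countP_cons, List.countP_cons]
      by_cases hb : e.1 = b
      · simp only [hb, decide_true, if_true, List.countP_nil]
        push_cast
        have : (2 : ZMod 2) = 0 := rfl
        linear_combination (-1 : ZMod 2) * this
      · simp [hb]
    · simp only [step, h, if_false]
      unfold par
      rw [List.countP_cons, List.countP_cons (l := [])]
      simp only [List.countP_nil]
      push_cast
      ring

theorem par_wmul (b : Bool) (u v : List Letter) : par b (wmul u v) = par b u + par b v := by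
  induction u with
  | nil => simp [par]
  | cons e u ih =>
    rw [wmul_cons, par_step, ih]
    unfold par
    rw [List.countP_cons, List.countP_cons (l := u)]
    simp only [List.countP_nil]
    push_cast
    ring

theorem par_map (b : Bool) (a : ℤ × ℤ) (u : List Letter) : par b (u.map (sh a)) = par b u := by
  unfold par
  rw [List.countP_map]
  congr 2
  funext e
  rcases e with ⟨_ | _, k⟩ <;> simp [sh]

theorem Av_shift {x w : Pl} {a : ℤ × ℤ} (h1 : (a.1 : ZMod 2) = par false x.val)
    (h2 : (a.2 : ZMod 2) = par true x.val) (e : Letter) :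
    Av (x * ta a w) (sh a e) ↔ Av w e := by
  unfold Av
  rw [W.mul_val, par_wmul, par_wmul, ta_val, par_map, par_map, ← h1, ← h2]
  rcases e with ⟨_ | _, k⟩
  · simp only [sh, Equiv.coe_fn_mk, Ok]
    push_cast
    constructor
    · intro h; linear_combination h
    · intro h; linear_combination h
  · simp only [sh, Equiv.coe_fn_mk, Ok]
    push_cast
    constructor
    · intro h; linear_combination h
    · intro h; linear_combination h

/-- convexity of the set of valid planes -/
theorem VP_convex {u v : Pl} {e : Letter} {l : List Letter} (hu : u ∈ VP) (hv : v ∈ VP)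
    (h : (u⁻¹ * v).val = e :: l) : u * W.of e ∈ VP := by
  rcases W.dichotomy u e with hd | hd
  · have hred : Red (u.val ++ (u⁻¹ * v).val) := by
      rw [h]
      apply red_join
      · rw [← hd]; exact W.red _
      · rw [← h]; exact W.red _
    have h4 := W.mul_val_of_red hred
    rw [mul_inv_cancel_left, h] at h4
    apply VP_prefix hv (l := l)
    rw [h4, hd]; simp
  · exact VP_prefix hu hd

theorem VP_shift {x : Pl} {a : ℤ × ℤ} (hx : x ∈ VP) (h1 : (a.1 : ZMod 2) = par false x.val)
    (h2 : (a.2 : ZMod 2) = par true x.val) (w : Pl) : w ∈ VP ↔ x * ta a w ∈ VP := by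
  have fwd : ∀ (l : List Letter) (w : Pl), w.val = l → w ∈ VP → x * ta a w ∈ VP := by
    intro l
    induction l using List.reverseRecOn with
    | nil =>
      intro w hw _
      have : w = 1 := W.ext hw
      rw [this, map_one, mul_one]; exact hx
    | append_singleton l e ih =>
      intro w hw hwV
      obtain ⟨w', hw', rfl⟩ := W.eq_mul_of hw
      have hw'V : w' ∈ VP := VP_prefix hwV (l := [e]) (by rw [hw, hw'])
      have := ih w' hw' hw'V
      rw [map_mul, ta_of, ← mul_assoc, mem_VP_mul_of this, Av_shift h1 h2,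
        ← mem_VP_mul_of hw'V]
      exact hwV
  constructor
  · exact fwd _ w rfl
  · have bwd : ∀ (l : List Letter) (w0 w : Pl), w0 ∈ VP → (w0⁻¹ * w).val = l →
        x * ta a w ∈ VP → w ∈ VP := by
      intro l
      induction l with
      | nil =>
        intro w0 w h0 h _
        have : w0⁻¹ * w = 1 := W.ext h
        rw [← inv_mul_eq_one.1 this]; exact h0
      | cons e l ih =>
        intro w0 w h0 h hw
        have h3 := fwd _ w0 rfl h0
        have h4 : ((x * ta a w0)⁻¹ * (x * ta a w)).val = sh a e :: l.map (sh a) := by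
          have : (x * ta a w0)⁻¹ * (x * ta a w) = ta a (w0⁻¹ * w) := by
            rw [map_mul, map_inv]; group
          rw [this, ta_val, h]; rfl
        have h5 := VP_convex h3 hw h4
        rw [mem_VP_mul_of h3, Av_shift h1 h2, ← mem_VP_mul_of h0] at h5
        apply ih (w0 * W.of e) w h5 _ hw
        obtain ⟨y, hy, hy2⟩ := W.eq_of_mul h
        have : (w0 * W.of e)⁻¹ * w = y := by
          have : w = w0 * (W.of e * y) := by rw [← hy2]; group
          rw [this]; group
        rw [this, hy]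
    exact bwd _ 1 w one_mem_VP rfl

/-- elements of the group -/
def elt (x : Pl) (a : ℤ × ℤ) (hx : x ∈ VP) (h1 : (a.1 : ZMod 2) = par false x.val)
    (h2 : (a.2 : ZMod 2) = par true x.val) : GG :=
  ⟨((ta a).toEquiv.trans (Equiv.mulLeft x), Multiplicative.ofAdd a), by
    constructor
    · intro w w'
      show (x * ta a w)⁻¹ * (x * ta a w') = ta a (w⁻¹ * w')
      rw [map_mul, map_inv]; group
    · intro w
      exact VP_shift hx h1 h2 w⟩

theorem par_false_of (k : ℤ) : par false (W.of ((false, k) : Letter)).val = 1 := by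
  simp [par]

/-- compatibility of a model with the shifts -/
structure ShModel {M : Model} (A : LatModel M) where
  act : ℤ × ℤ → ℝ × ℝ → ℝ × ℝ
  act_zero : ∀ z, act 0 z = z
  act_add : ∀ a b z, act (a + b) z = act a (act b z)
  N_act : ∀ a z z', M.N (act a z) (act a z') = M.N z z'
  line_act : ∀ a e q, q ∈ M.line e → act a q ∈ M.line (sh a e)
  lat_act : ∀ a z, z ∈ A.lat → act a z ∈ A.lat
  bdd : ∀ z (r : ℝ), {a : ℤ × ℤ | M.N z (act a z) ≤ r}.Finite
  fund : ∃ K : Set (ℝ × ℝ), K.Finite ∧ K ⊆ A.lat ∧ ∀ z ∈ A.lat, ∀ s t : ZMod 2,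
    ∃ a : ℤ × ℤ, (a.1 : ZMod 2) = s ∧ (a.2 : ZMod 2) = t ∧ ∃ z' ∈ K, z = act a z'

namespace ShModel

variable {M : Model} {A : LatModel M} (B : ShModel A)

theorem cost_map_le (a : ℤ × ℤ) (L : List Letter) (z z' : ℝ × ℝ) :
    M.cost (L.map (sh a)) (B.act a z) (B.act a z') ≤ M.cost L z z' := by
  induction L using List.reverseRecOn generalizing z' with
  | nil => simp only [List.map_nil, M.cost_nil, B.N_act]; exact le_refl _
  | append_singleton L e ih =>
    obtain ⟨q, hq, h⟩ := M.cost_snoc_ex L e z z'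
    rw [h, List.map_append, List.map_singleton]
    have h1 := M.cost_snoc_le (L.map (sh a)) (sh a e) (B.act a z) (B.act a q) (B.act a z')
      (B.line_act a e q hq)
    rw [B.N_act] at h1
    exact h1.trans (add_le_add (ih q) le_rfl)

theorem cost_map (a : ℤ × ℤ) (L : List Letter) (z z' : ℝ × ℝ) :
    M.cost (L.map (sh a)) (B.act a z) (B.act a z') = M.cost L z z' := by
  apply le_antisymm (B.cost_map_le a L z z')
  have h := B.cost_map_le (-a) (L.map (sh a)) (B.act a z) (B.act a z')
  rw [← B.act_add, ← B.act_add, neg_add_cancel, B.act_zero, B.act_zero, List.map_map] at h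
  have : L.map (sh (-a) ∘ sh a) = L := by
    conv_rhs => rw [← List.map_id L]
    apply List.map_congr_left
    intro e _
    simp only [Function.comp]
    rw [← sh_add, neg_add_cancel, sh_zero]; rfl
  rwa [this] at h

/-- action on points -/
def smulPt (g : GG) (ξ : Pt M) : Pt M :=
  ⟨g.1.1 ξ.pl, B.act (Multiplicative.toAdd g.1.2) ξ.pos⟩

theorem dist_smulPt (g : GG) (ξ η : Pt M) :
    dist (B.smulPt g ξ) (B.smulPt g η) = dist ξ η := by
  rw [Pt.dist_def, Pt.dist_def]
  show M.cst ((g.1.1 ξ.pl)⁻¹ * g.1.1 η.pl) _ _ = _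
  rw [g.2.1]
  exact B.cost_map _ _ _ _

theorem one_smulPt (ξ : Pt M) : B.smulPt 1 ξ = ξ := by
  apply Pt.ext
  · rfl
  · exact B.act_zero _

theorem mul_smulPt (g h : GG) (ξ : Pt M) : B.smulPt (g * h) ξ = B.smulPt g (B.smulPt h ξ) := by
  apply Pt.ext
  · rfl
  · exact B.act_add _ _ _

/-- action on lattice points -/
def smulL (g : GG) (ξ : A.LPt) : A.LPt :=
  ⟨B.smulPt g ξ.1, (g.2.2 _).1 ξ.2.1, B.lat_act _ _ ξ.2.2⟩

theorem dist_smulL (g : GG) (ξ η : A.LPt) : dist (B.smulL g ξ) (B.smulL g η) = dist ξ η :=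
  B.dist_smulPt g ξ.1 η.1

/-- action on vertices -/
noncomputable def smulV (g : GG) : A.Vx → A.Vx :=
  Quotient.map' (B.smulL g) fun ξ η h => by
    have h' : Inseparable ξ η := h
    rw [Metric.inseparable_iff] at h'
    have : Inseparable (B.smulL g ξ) (B.smulL g η) := by
      rw [Metric.inseparable_iff, B.dist_smulL, h']
    exact this

theorem smulV_mk (g : GG) (ξ : A.LPt) :
    B.smulV g (SeparationQuotient.mk ξ) = SeparationQuotient.mk (B.smulL g ξ) := rfl

/-- the action of the group on the vertices -/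
@[reducible] noncomputable def mulAction : MulAction GG A.Vx where
  smul g v := B.smulV g v
  one_smul v := by
    obtain ⟨ξ, rfl⟩ := SeparationQuotient.surjective_mk v
    show B.smulV 1 _ = _
    rw [smulV_mk]
    congr 1
    apply Subtype.ext
    exact B.one_smulPt ξ.1
  mul_smul g h v := by
    obtain ⟨ξ, rfl⟩ := SeparationQuotient.surjective_mk v
    show B.smulV (g * h) _ = B.smulV g (B.smulV h _)
    rw [smulV_mk, smulV_mk, smulV_mk]
    congr 1
    apply Subtype.ext
    exact B.mul_smulPt g h ξ.1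

theorem dist_smulV (g : GG) (v w : A.Vx) : dist (B.smulV g v) (B.smulV g w) = dist v w := by
  obtain ⟨ξ, rfl⟩ := SeparationQuotient.surjective_mk v
  obtain ⟨η, rfl⟩ := SeparationQuotient.surjective_mk w
  rw [smulV_mk, smulV_mk, SeparationQuotient.dist_mk, SeparationQuotient.dist_mk, dist_smulL]

theorem N_le_cost (L : List Letter) (z z' : ℝ × ℝ) : M.N z z' ≤ M.cost L z z' := by
  induction L using List.reverseRecOn generalizing z' with
  | nil => rw [M.cost_nil]
  | append_singleton L e ih =>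
    obtain ⟨q, hq, h⟩ := M.cost_snoc_ex L e z z'
    rw [h]
    have h1 := M.N_tri z q z'
    have := ih q
    linarith

theorem N_le_dist (ξ η : Pt M) : M.N ξ.pos η.pos ≤ dist ξ η := N_le_cost _ _ _

theorem geometric (hM : HellyModel M) :
    @IsGeometricAction GG _ A.Vx B.mulAction A.graph := by
  let _ := B.mulAction
  have hR := (A.main hM).1
  refine ⟨?_, ?_, ?_⟩
  · intro g v w
    show dist (B.smulV g v) (B.smulV g w) = 1 ↔ dist v w = 1
    rw [B.dist_smulV]
  · intro v r
    obtain ⟨ξ, rfl⟩ := SeparationQuotient.surjective_mk v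
    set R := dist (⟨1, (0, 0)⟩ : Pt M) ξ.1 + r
    have hf := (hM.fin R).prod (B.bdd ξ.1.pos r)
    apply Set.Finite.of_finite_image
      (f := fun g : GG => (g.1.1 ξ.1.pl, Multiplicative.toAdd g.1.2))
    · apply hf.subset
      rintro _ ⟨g, hg, rfl⟩
      have hg' : dist ξ.1 (B.smulPt g ξ.1) ≤ r := by
        have h1 := hR.dist_c (SeparationQuotient.mk ξ) (g • SeparationQuotient.mk ξ)
        rw [A.dist_c] at h1
        have h2 : g • (SeparationQuotient.mk ξ : A.Vx) = SeparationQuotient.mk (B.smulL g ξ) := rfl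
        rw [Set.mem_ofPred_eq, h2] at hg
        rw [h2, SeparationQuotient.dist_mk] at h1
        have h3 : dist ξ.1 (B.smulPt g ξ.1) = _ := h1
        rw [h3]
        exact_mod_cast hg
      refine ⟨⟨(g.2.2 _).1 ξ.2.1, (B.smulPt g ξ.1).pos, ?_⟩, ?_⟩
      · have := dist_triangle (⟨1, (0, 0)⟩ : Pt M) ξ.1 (B.smulPt g ξ.1)
        have e : (⟨g.1.1 ξ.1.pl, (B.smulPt g ξ.1).pos⟩ : Pt M) = B.smulPt g ξ.1 := rfl
        show dist _ (⟨g.1.1 ξ.1.pl, (B.smulPt g ξ.1).pos⟩ : Pt M) ≤ R
        rw [e]
        linarith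
      · exact (N_le_dist _ _).trans hg'
    · intro g _ h _ hgh
      simp only [Prod.mk.injEq] at hgh
      apply Subtype.ext
      apply Prod.ext
      · apply Equiv.ext
        intro w
        have h1 := g.2.1 ξ.1.pl w
        have h2 := h.2.1 ξ.1.pl w
        rw [hgh.1, hgh.2, ← h2] at h1
        exact mul_left_cancel h1
      · exact hgh.2
  · obtain ⟨K, hK, hKl, hK2⟩ := B.fund
    refine ⟨(fun z : A.lat => (SeparationQuotient.mk (⟨⟨1, z.1⟩, one_mem_VP, z.2⟩ : A.LPt) : A.Vx)) ''
      {z | z.1 ∈ K}, ?_, ?_⟩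
    · apply Set.Finite.image
      apply Set.Finite.of_finite_image (f := Subtype.val)
      · apply hK.subset
        rintro _ ⟨z, hz, rfl⟩; exact hz
      · exact Subtype.val_injective.injOn
    · intro v
      obtain ⟨ξ, rfl⟩ := SeparationQuotient.surjective_mk v
      obtain ⟨a, ha1, ha2, z', hz', hz⟩ := hK2 ξ.1.pos ξ.2.2 (par false ξ.1.pl.val)
        (par true ξ.1.pl.val)
      refine ⟨elt ξ.1.pl a ξ.2.1 ha1 ha2, _, ⟨⟨z', hKl hz'⟩, hz', rfl⟩, ?_⟩
      show _ = SeparationQuotient.mk (B.smulL _ _)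
      congr 1
      apply Subtype.ext
      apply Pt.ext
      · show ξ.1.pl = ξ.1.pl * ta a 1
        rw [map_one, mul_one]
      · exact hz

end ShModel

theorem exists_parity (x : ℝ) (s : ZMod 2) : ∃ a : ℤ, (a : ZMod 2) = s ∧ 0 ≤ x - a ∧ x - a < 2 := by
  have f := Int.floor_le x
  have f' := Int.lt_floor_add_one x
  by_cases h : ((⌊x⌋ : ℤ) : ZMod 2) = s
  · exact ⟨⌊x⌋, h, by linarith, by linarith⟩
  · refine ⟨⌊x⌋ - 1, ?_, by push_cast; linarith, by push_cast; linarith⟩
    push_cast
    generalize ((⌊x⌋ : ℤ) : ZMod 2) = y at *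
    revert h
    revert s y
    decide

/-- shifts in model 1 -/
def B1 : ShModel A1 where
  act a z := (z.1 + a.1, z.2 + a.2)
  act_zero z := by simp
  act_add a b z := by simp only [Prod.fst_add, Prod.snd_add]; push_cast; ext <;> simp only <;> ring
  N_act a z z' := by
    show N1 _ _ = N1 _ _
    unfold N1; simp
  line_act a e q hq := by
    rcases e with ⟨_ | _, k⟩
    · have hq' : q.2 = k := hq
      show q.2 + a.2 = ((k + a.2 : ℤ) : ℝ)
      rw [hq']; push_cast; ring
    · have hq' : q.1 = k := hq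
      show q.1 + a.1 = ((k + a.1 : ℤ) : ℝ)
      rw [hq']; push_cast; ring
  lat_act a z hz := by
    refine ⟨?_, ?_⟩
    · show IsI (z.1 + a.1 + (z.2 + a.2))
      convert (hz.1.add (isI_int a.1)).add (isI_int a.2) using 1; ring
    · show IsI (z.1 + a.1 - (z.2 + a.2))
      convert (hz.2.add (isI_int a.1)).sub (isI_int a.2) using 1; ring
  bdd z r := by
    obtain ⟨n, hn⟩ := exists_nat_gt r
    apply ((Set.finite_Icc (-(n:ℤ)) n).prod (Set.finite_Icc (-(n:ℤ)) n)).subset
    intro a ha
    have ha' : N1 z (z.1 + a.1, z.2 + a.2) ≤ r := ha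
    unfold N1 at ha'
    simp only [sub_add_cancel_left, abs_neg] at ha'
    have h1 := abs_nonneg (a.1 : ℝ)
    have h2 := abs_nonneg (a.2 : ℝ)
    have h3 : |(a.1 : ℝ)| ≤ n := by linarith
    have h4 : |(a.2 : ℝ)| ≤ n := by linarith
    have h5 : |a.1| ≤ (n:ℤ) := by exact_mod_cast h3
    have h6 : |a.2| ≤ (n:ℤ) := by exact_mod_cast h4
    exact ⟨abs_le.1 h5, abs_le.1 h6⟩
  fund := by
    refine ⟨(fun a : ℤ × ℤ => (((a.1 + a.2) / 2 : ℝ), ((a.1 - a.2) / 2 : ℝ))) ''
      (Set.Icc (-8) 8 ×ˢ Set.Icc (-8) 8), ?_, ?_, ?_⟩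
    · exact (((Set.finite_Icc _ _).prod (Set.finite_Icc _ _)).image _)
    · rintro _ ⟨a, _, rfl⟩
      exact ⟨⟨a.1, by simp only; ring⟩, ⟨a.2, by simp only; ring⟩⟩
    · rintro z ⟨⟨p, hp⟩, ⟨q, hq⟩⟩ s t
      obtain ⟨a, ha, ha1, ha2⟩ := exists_parity z.1 s
      obtain ⟨b, hb, hb1, hb2⟩ := exists_parity z.2 t
      refine ⟨(a, b), ha, hb, _, ⟨(p - a - b, q - a + b), ⟨?_, ?_⟩, rfl⟩, ?_⟩
      · simp only
        have h1 : (-8 : ℝ) ≤ p - a - b := by linarith
        have h2 : (p - a - b : ℝ) ≤ 8 := by linarith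
        exact ⟨by exact_mod_cast h1, by exact_mod_cast h2⟩
      · simp only
        have h1 : (-8 : ℝ) ≤ q - a + b := by linarith
        have h2 : (q - a + b : ℝ) ≤ 8 := by linarith
        exact ⟨by exact_mod_cast h1, by exact_mod_cast h2⟩
      · simp only
        push_cast
        rw [← hp, ← hq]
        ext <;> simp only <;> ring

/-- shifts in model 2 -/
noncomputable def B2 : ShModel A2 where
  act a z := (z.1 + a.1 + a.2, z.2 + a.2)
  act_zero z := by simp
  act_add a b z := by simp only [Prod.fst_add, Prod.snd_add]; push_cast; ext <;> simp only <;> ring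
  N_act a z z' := by
    show N2 _ _ = N2 _ _
    unfold N2; simp
  line_act a e q hq := by
    rcases e with ⟨_ | _, k⟩
    · have hq' : q.2 = k := hq
      show q.2 + a.2 = ((k + a.2 : ℤ) : ℝ)
      rw [hq']; push_cast; ring
    · have hq' : q.1 - q.2 = k := hq
      show q.1 + a.1 + a.2 - (q.2 + a.2) = ((k + a.1 : ℤ) : ℝ)
      push_cast; rw [← hq']; ring
  lat_act a z hz := by
    refine ⟨?_, ?_⟩
    · exact (hz.1.add (isI_int a.1)).add (isI_int a.2)
    · exact hz.2.add (isI_int a.2)
  bdd z r := by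
    obtain ⟨n, hn⟩ := exists_nat_gt r
    apply ((Set.finite_Icc (-(2 * n:ℤ)) (2 * n)).prod (Set.finite_Icc (-(2 * n:ℤ)) (2 * n))).subset
    intro a ha
    have ha' : N2 z (z.1 + a.1 + a.2, z.2 + a.2) ≤ r := ha
    unfold N2 at ha'
    simp only [sub_add_cancel_left, abs_neg] at ha'
    have h1 := (le_max_left _ _).trans ha'
    have h2 := (le_max_right _ _).trans ha'
    rw [abs_le] at h1 h2
    have h3 : |(a.1 : ℝ)| ≤ 2 * n := by rw [abs_le]; constructor <;> linarith
    have h4 : |(a.2 : ℝ)| ≤ 2 * n := by rw [abs_le]; constructor <;> linarith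
    have h5 : |a.1| ≤ (2 * n:ℤ) := by exact_mod_cast h3
    have h6 : |a.2| ≤ (2 * n:ℤ) := by exact_mod_cast h4
    exact ⟨abs_le.1 h5, abs_le.1 h6⟩
  fund := by
    refine ⟨(fun a : ℤ × ℤ => ((a.1 : ℝ), (a.2 : ℝ))) ''
      (Set.Icc (-8) 8 ×ˢ Set.Icc (-8) 8), ?_, ?_, ?_⟩
    · exact (((Set.finite_Icc _ _).prod (Set.finite_Icc _ _)).image _)
    · rintro _ ⟨a, _, rfl⟩
      exact ⟨⟨a.1, rfl⟩, ⟨a.2, rfl⟩⟩
    · rintro z ⟨⟨p, hp⟩, ⟨q, hq⟩⟩ s t
      obtain ⟨a, ha, ha1, ha2⟩ := exists_parity (z.1 - z.2) s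
      obtain ⟨b, hb, hb1, hb2⟩ := exists_parity z.2 t
      refine ⟨(a, b), ha, hb, _, ⟨(p - a - b, q - b), ⟨?_, ?_⟩, rfl⟩, ?_⟩
      · simp only
        have h1 : (-8 : ℝ) ≤ p - a - b := by linarith
        have h2 : (p - a - b : ℝ) ≤ 8 := by linarith
        exact ⟨by exact_mod_cast h1, by exact_mod_cast h2⟩
      · simp only
        have h1 : (-8 : ℝ) ≤ q - b := by linarith
        have h2 : (q - b : ℝ) ≤ 8 := by linarith
        exact ⟨by exact_mod_cast h1, by exact_mod_cast h2⟩
      · simp only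
        push_cast
        rw [← hp, ← hq]
        ext <;> simp only <;> ring

end Run7.h484
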