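import Pool.Agent.Run7.h484.HellyAbs

/-! The Helly property for the two concrete models. -/

namespace Run7.h484

open Set

/-- Helly's theorem for closed intervals. -/
theorem interval_helly {ι : Type} (a b : ι → ℝ) (h : ∀ i j, a i ≤ b j) :
    ∃ x, ∀ i, a i ≤ x ∧ x ≤ b i := by
  by_cases hne : Nonempty ι
  · refine ⟨⨆ i, a i, fun i => ⟨?_, ?_⟩⟩
    · apply le_ciSup (f := a)
      refine ⟨b i, ?_⟩
      rintro _ ⟨j, rfl⟩
      exact h j i
    · exact ciSup_le fun j => h j i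
  · rw [not_nonempty_iff] at hne
    exact ⟨0, fun i => (hne.false i).elim⟩

/-! ### Model 1 -/

theorem abs_add_abs_le_iff (a b c : ℝ) : |a| + |b| ≤ c ↔ |a + b| ≤ c ∧ |a - b| ≤ c := by
  constructor
  · intro h
    constructor
    · exact (abs_add_le a b).trans h
    · exact (abs_sub a b).trans h
  · rintro ⟨h1, h2⟩
    rw [abs_le] at h1 h2
    rcases abs_cases a with ⟨ha, _⟩ | ⟨ha, _⟩ <;> rcases abs_cases b with ⟨hb, _⟩ | ⟨hb, _⟩ <;>
      rw [ha, hb] <;> linarith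

theorem ev1_le_iff (S : St1) (z : ℝ × ℝ) (r : ℝ) : ev1 S z ≤ r ↔
    (S.g.1 + S.g.2 - (r - S.D) ≤ z.1 + z.2 ∧ z.1 + z.2 ≤ S.g.1 + S.g.2 + (r - S.D)) ∧
    (S.g.1 - S.g.2 - (r - S.D) ≤ z.1 - z.2 ∧ z.1 - z.2 ≤ S.g.1 - S.g.2 + (r - S.D)) := by
  unfold ev1 N1
  rw [show S.D + (|S.g.1 - z.1| + |S.g.2 - z.2|) ≤ r ↔
    |S.g.1 - z.1| + |S.g.2 - z.2| ≤ r - S.D by constructor <;> intro h <;> linarith,
    abs_add_abs_le_iff, abs_le, abs_le]
  constructor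
  · rintro ⟨⟨h1, h2⟩, ⟨h3, h4⟩⟩
    refine ⟨⟨?_, ?_⟩, ⟨?_, ?_⟩⟩ <;> linarith
  · rintro ⟨⟨h1, h2⟩, ⟨h3, h4⟩⟩
    refine ⟨⟨?_, ?_⟩, ⟨?_, ?_⟩⟩ <;> linarith

theorem ev2_le_iff (S : St2) (z : ℝ × ℝ) (r : ℝ) : ev2 S z ≤ r ↔
    (S.g.1 - (r - S.D) ≤ z.1 ∧ z.1 ≤ S.g.1 + (r - S.D)) ∧
    (S.g.2 - (r - S.D - S.h) ≤ z.2 ∧ z.2 ≤ S.g.2 + (r - S.D - S.h)) := by
  unfold ev2
  rw [show S.D + max |z.1 - S.g.1| (S.h + |z.2 - S.g.2|) ≤ r ↔
    max |z.1 - S.g.1| (S.h + |z.2 - S.g.2|) ≤ r - S.D by constructor <;> intro h <;> linarith,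
    max_le_iff, abs_le, show S.h + |z.2 - S.g.2| ≤ r - S.D ↔ |z.2 - S.g.2| ≤ r - S.D - S.h by
      constructor <;> intro h <;> linarith, abs_le]
  constructor
  · rintro ⟨⟨h1, h2⟩, ⟨h3, h4⟩⟩
    refine ⟨⟨?_, ?_⟩, ⟨?_, ?_⟩⟩ <;> linarith
  · rintro ⟨⟨h1, h2⟩, ⟨h3, h4⟩⟩
    refine ⟨⟨?_, ?_⟩, ⟨?_, ?_⟩⟩ <;> linarith

theorem box1 (ι : Type) (S : ι → St1) (r : ι → ℝ)
    (h : ∀ i j, ∃ z, ev1 (S i) z ≤ r i ∧ ev1 (S j) z ≤ r j) : ∃ z, ∀ i, ev1 (S i) z ≤ r i := by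
  obtain ⟨p, hp⟩ := interval_helly (fun i => (S i).g.1 + (S i).g.2 - (r i - (S i).D))
    (fun i => (S i).g.1 + (S i).g.2 + (r i - (S i).D)) (by
      intro i j
      obtain ⟨z, h1, h2⟩ := h i j
      rw [ev1_le_iff] at h1 h2
      exact h1.1.1.trans h2.1.2)
  obtain ⟨q, hq⟩ := interval_helly (fun i => (S i).g.1 - (S i).g.2 - (r i - (S i).D))
    (fun i => (S i).g.1 - (S i).g.2 + (r i - (S i).D)) (by
      intro i j
      obtain ⟨z, h1, h2⟩ := h i j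
      rw [ev1_le_iff] at h1 h2
      exact h1.2.1.trans h2.2.2)
  refine ⟨((p + q) / 2, (p - q) / 2), fun i => ?_⟩
  rw [ev1_le_iff]
  have h1 := hp i
  have h2 := hq i
  simp only at h1 h2 ⊢
  have e1 : (p + q) / 2 + (p - q) / 2 = p := by ring
  have e2 : (p + q) / 2 - (p - q) / 2 = q := by ring
  rw [e1, e2]
  exact ⟨h1, h2⟩

theorem box2 (ι : Type) (S : ι → St2) (r : ι → ℝ)
    (h : ∀ i j, ∃ z, ev2 (S i) z ≤ r i ∧ ev2 (S j) z ≤ r j) : ∃ z, ∀ i, ev2 (S i) z ≤ r i := by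
  obtain ⟨p, hp⟩ := interval_helly (fun i => (S i).g.1 - (r i - (S i).D))
    (fun i => (S i).g.1 + (r i - (S i).D)) (by
      intro i j
      obtain ⟨z, h1, h2⟩ := h i j
      rw [ev2_le_iff] at h1 h2
      exact h1.1.1.trans h2.1.2)
  obtain ⟨q, hq⟩ := interval_helly (fun i => (S i).g.2 - (r i - (S i).D - (S i).h))
    (fun i => (S i).g.2 + (r i - (S i).D - (S i).h)) (by
      intro i j
      obtain ⟨z, h1, h2⟩ := h i j
      rw [ev2_le_iff] at h1 h2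
      exact h1.2.1.trans h2.2.2)
  refine ⟨(p, q), fun i => ?_⟩
  rw [ev2_le_iff]
  exact ⟨hp i, hq i⟩

/-- two intervals given by centres and radii -/
theorem two_intervals {c c' a a' : ℝ} (ha : 0 ≤ a) (ha' : 0 ≤ a') (h : |c - c'| ≤ a + a') :
    ∃ x, (c - a ≤ x ∧ x ≤ c + a) ∧ (c' - a' ≤ x ∧ x ≤ c' + a') := by
  rw [abs_le] at h
  refine ⟨max (c - a) (c' - a'), ⟨le_max_left _ _, max_le (by linarith) (by linarith)⟩,
    ⟨le_max_right _ _, max_le (by linarith) (by linarith)⟩⟩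

theorem pair1 (S S' : St1) (r r' : ℝ) (h1 : ∃ z, ev1 S z ≤ r) (h2 : ∃ z, ev1 S' z ≤ r')
    (h3 : ∃ z, ev1 S z + ev1 S' z ≤ r + r') : ∃ z, ev1 S z ≤ r ∧ ev1 S' z ≤ r' := by
  obtain ⟨z1, h1⟩ := h1
  obtain ⟨z2, h2⟩ := h2
  obtain ⟨z, h3⟩ := h3
  have ha : 0 ≤ r - S.D := by
    have : S.D ≤ ev1 S z1 := by unfold ev1; linarith [N1_nonneg S.g z1]
    linarith
  have ha' : 0 ≤ r' - S'.D := by
    have : S'.D ≤ ev1 S' z2 := by unfold ev1; linarith [N1_nonneg S'.g z2]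
    linarith
  have h4 : |S.g.1 - S'.g.1| + |S.g.2 - S'.g.2| ≤ r - S.D + (r' - S'.D) := by
    have := N1_tri S.g z S'.g
    rw [N1_comm z S'.g] at this
    unfold ev1 at h3
    unfold N1 at this h3
    linarith
  rw [abs_add_abs_le_iff] at h4
  obtain ⟨x, hx1, hx2⟩ := two_intervals (c := S.g.1 + S.g.2) (c' := S'.g.1 + S'.g.2) ha ha' (by
    rw [show S.g.1 + S.g.2 - (S'.g.1 + S'.g.2) = S.g.1 - S'.g.1 + (S.g.2 - S'.g.2) by ring]
    exact h4.1)
  obtain ⟨y, hy1, hy2⟩ := two_intervals (c := S.g.1 - S.g.2) (c' := S'.g.1 - S'.g.2) ha ha' (by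
    rw [show S.g.1 - S.g.2 - (S'.g.1 - S'.g.2) = S.g.1 - S'.g.1 - (S.g.2 - S'.g.2) by ring]
    exact h4.2)
  refine ⟨((x + y) / 2, (x - y) / 2), ?_, ?_⟩
  all_goals
    rw [ev1_le_iff]
    simp only
    rw [show (x + y) / 2 + (x - y) / 2 = x by ring, show (x + y) / 2 - (x - y) / 2 = y by ring]
  · exact ⟨hx1, hy1⟩
  · exact ⟨hx2, hy2⟩

theorem pair2 (S S' : St2) (r r' : ℝ) (h1 : ∃ z, ev2 S z ≤ r) (h2 : ∃ z, ev2 S' z ≤ r')
    (h3 : ∃ z, ev2 S z + ev2 S' z ≤ r + r') : ∃ z, ev2 S z ≤ r ∧ ev2 S' z ≤ r' := by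
  obtain ⟨z1, h1⟩ := h1
  obtain ⟨z2, h2⟩ := h2
  obtain ⟨z, h3⟩ := h3
  rw [ev2_le_iff] at h1 h2
  have e1 : S.D + |z.1 - S.g.1| ≤ ev2 S z := by
    unfold ev2; linarith [le_max_left |z.1 - S.g.1| (S.h + |z.2 - S.g.2|)]
  have e2 : S.D + (S.h + |z.2 - S.g.2|) ≤ ev2 S z := by
    unfold ev2; linarith [le_max_right |z.1 - S.g.1| (S.h + |z.2 - S.g.2|)]
  have e3 : S'.D + |z.1 - S'.g.1| ≤ ev2 S' z := by
    unfold ev2; linarith [le_max_left |z.1 - S'.g.1| (S'.h + |z.2 - S'.g.2|)]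
  have e4 : S'.D + (S'.h + |z.2 - S'.g.2|) ≤ ev2 S' z := by
    unfold ev2; linarith [le_max_right |z.1 - S'.g.1| (S'.h + |z.2 - S'.g.2|)]
  have t1 := abs_sub_le S.g.1 z.1 S'.g.1
  have t2 := abs_sub_le S.g.2 z.2 S'.g.2
  rw [abs_sub_comm S.g.1 z.1] at t1
  rw [abs_sub_comm S.g.2 z.2] at t2
  obtain ⟨x, hx1, hx2⟩ := two_intervals (c := S.g.1) (c' := S'.g.1) (a := r - S.D)
    (a' := r' - S'.D) (by linarith [h1.1.1, h1.1.2]) (by linarith [h2.1.1, h2.1.2]) (by linarith)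
  obtain ⟨y, hy1, hy2⟩ := two_intervals (c := S.g.2) (c' := S'.g.2) (a := r - S.D - S.h)
    (a' := r' - S'.D - S'.h) (by linarith [h1.2.1, h1.2.2]) (by linarith [h2.2.1, h2.2.2])
    (by linarith)
  refine ⟨(x, y), ?_, ?_⟩
  all_goals rw [ev2_le_iff]
  · exact ⟨hx1, hy1⟩
  · exact ⟨hx2, hy2⟩

/-- the one-dimensional dichotomy for cones -/
theorem cones {tk tl tk' tl' ak al ak' al' : ℝ}
    (h1 : |tk - tk'| ≤ ak + ak') (h2 : |tk - tl'| ≤ ak + al')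
    (h3 : |tl - tk'| ≤ al + ak') (h4 : |tl - tl'| ≤ al + al') :
    (∃ t, |t - tk| ≤ ak ∧ |t - tl| ≤ al) ∨ (∃ t, |t - tk'| ≤ ak' ∧ |t - tl'| ≤ al') := by
  rw [abs_le] at h1 h2 h3 h4
  by_cases hk : ak < 0
  · right
    refine ⟨tk, ?_, ?_⟩ <;> rw [abs_le] <;> constructor <;> linarith
  by_cases hl : al < 0
  · right
    refine ⟨tl, ?_, ?_⟩ <;> rw [abs_le] <;> constructor <;> linarith
  push Not at hk hl
  by_cases hkl : |tk - tl| ≤ ak + al
  · left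
    obtain ⟨x, hx, hx'⟩ := two_intervals hk hl hkl
    exact ⟨x, by rw [abs_le]; constructor <;> linarith, by rw [abs_le]; constructor <;> linarith⟩
  · right
    push Not at hkl
    rw [lt_abs] at hkl
    rcases hkl with hkl | hkl
    · refine ⟨tl + al, ?_, ?_⟩ <;> rw [abs_le] <;> constructor <;> linarith
    · refine ⟨tk + ak, ?_, ?_⟩ <;> rw [abs_le] <;> constructor <;> linarith

/-- coordinate along a line -/
def lc : Letter → ℝ × ℝ → ℝ
  | (false, _), z => z.1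
  | (true, _), z => z.2

theorem N1_lc {e : Letter} {q q' : ℝ × ℝ} (h : q ∈ line1 e) (h' : q' ∈ line1 e) :
    N1 q q' = |lc e q - lc e q'| := by
  rcases e with ⟨_ | _, k⟩ <;> simp only [line1, Set.mem_ofPred_eq] at h h' <;>
    simp [N1, lc, h, h']

/-- the point of a line with a given coordinate -/
def lp1 : Letter → ℝ → ℝ × ℝ
  | (false, k), t => (t, k)
  | (true, l), t => (l, t)

theorem lp1_mem (e : Letter) (t : ℝ) : lp1 e t ∈ line1 e := by
  rcases e with ⟨_ | _, k⟩ <;> rfl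

theorem lc_lp1 (e : Letter) (t : ℝ) : lc e (lp1 e t) = t := by
  rcases e with ⟨_ | _, k⟩ <;> rfl

open Pt in
/-- distance to points of a line, model 1, from the near side -/
theorem line_dist1 {w : Pl} {e : Letter} (ξ : Pt M1) :
    ∃ D t, ∀ q ∈ line1 e, dist ξ ⟨w, q⟩ = D + |lc e q - t| := by
  have key : ∀ S : St1, ∃ D t, ∀ q ∈ line1 e, ev1 (tr1 e S) q = D + |lc e q - t| := by
    intro S
    refine ⟨(tr1 e S).D, lc e (tr1 e S).g, fun q hq => ?_⟩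
    unfold ev1
    have h1 : (tr1 e S).g ∈ line1 e := proj1_mem e S.g
    rw [N1_lc h1 hq, abs_sub_comm]
  obtain ⟨D, t, h⟩ := key (S1 w ξ)
  refine ⟨D, t, fun q hq => ?_⟩
  rw [dist1, ← h q hq]
  exact (M1.tr_line (e := e) (S1 w ξ) hq).symm

open Pt in
theorem edge1 (w : Pl) (e : Letter) (k l k' l' : Pt M1 × ℝ)
    (hk : Before w e k.1) (hl : Before w e l.1) (hk' : Beyond w e k'.1) (hl' : Beyond w e l'.1)
    (_ : dist k.1 l.1 ≤ k.2 + l.2) (_ : dist k'.1 l'.1 ≤ k'.2 + l'.2)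
    (h1 : dist k.1 k'.1 ≤ k.2 + k'.2) (h2 : dist k.1 l'.1 ≤ k.2 + l'.2)
    (h3 : dist l.1 k'.1 ≤ l.2 + k'.2) (h4 : dist l.1 l'.1 ≤ l.2 + l'.2) :
    MeetOn w e k l ∨ MeetOn w e k' l' := by
  obtain ⟨Dk, tk, ek⟩ := line_dist1 (w := w) (e := e) k.1
  obtain ⟨Dl, tl, el⟩ := line_dist1 (w := w) (e := e) l.1
  obtain ⟨Dk', tk', ek'⟩ := line_dist1 (w := w) (e := e) k'.1
  obtain ⟨Dl', tl', el'⟩ := line_dist1 (w := w) (e := e) l'.1
  have cross : ∀ (a b : Pt M1) (Da ta Db tb ra rb : ℝ), Before w e a → Beyond w e b →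
      (∀ q ∈ line1 e, dist a ⟨w, q⟩ = Da + |lc e q - ta|) →
      (∀ q ∈ line1 e, dist b ⟨w, q⟩ = Db + |lc e q - tb|) → dist a b ≤ ra + rb →
      |ta - tb| ≤ (ra - Da) + (rb - Db) := by
    intro a b Da ta Db tb ra rb ha hb ea eb hab
    obtain ⟨q, hq, h⟩ := dist_cross ha hb
    rw [h, dist_comm (⟨w, q⟩ : Pt M1) b, ea q hq, eb q hq] at hab
    have := abs_sub_le ta (lc e q) tb
    rw [abs_sub_comm ta (lc e q)] at this
    linarith
  have c1 := cross _ _ _ _ _ _ _ _ hk hk' ek ek' h1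
  have c2 := cross _ _ _ _ _ _ _ _ hk hl' ek el' h2
  have c3 := cross _ _ _ _ _ _ _ _ hl hk' el ek' h3
  have c4 := cross _ _ _ _ _ _ _ _ hl hl' el el' h4
  rcases cones c1 c2 c3 c4 with ⟨t, ht1, ht2⟩ | ⟨t, ht1, ht2⟩
  · left
    refine ⟨lp1 e t, lp1_mem e t, ?_, ?_⟩
    · rw [ek _ (lp1_mem e t), lc_lp1]; linarith
    · rw [el _ (lp1_mem e t), lc_lp1]; linarith
  · right
    refine ⟨lp1 e t, lp1_mem e t, ?_, ?_⟩
    · rw [ek' _ (lp1_mem e t), lc_lp1]; linarith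
    · rw [el' _ (lp1_mem e t), lc_lp1]; linarith

theorem helly1 : HellyModel M1 where
  box := box1
  pair := pair1
  edge := edge1
  fin := fun R => finite_near1 _ R

/-! ### Model 2 -/

open Pt in
/-- horizontal lines are externally hyperconvex -/
theorem EH (n : ℕ) : ∀ (w : Pl) (ξ η : Pt M2) (r r' k : ℝ), (ξ.pl⁻¹ * w).val.length ≤ n →
    dist ξ η ≤ r + r' →
    (S2 w ξ).D + (S2 w ξ).h + |(S2 w ξ).g.2 - k| ≤ r →
    (S2 w η).D + (S2 w η).h + |(S2 w η).g.2 - k| ≤ r' →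
    |(S2 w ξ).g.1 - (S2 w η).g.1| ≤ (r - (S2 w ξ).D) + (r' - (S2 w η).D) := by
  induction n with
  | zero =>
    intro w ξ η r r' k hn hd h1 h2
    have hlen : (ξ.pl⁻¹ * w).val = [] := List.length_eq_zero_iff.1 (Nat.le_zero.1 hn)
    obtain ⟨z, hz⟩ := dist_via' (w := w) (ξ := ξ) (η := η) (by
      intro e he
      have := he.1
      unfold Beyond at this
      rw [hlen] at this
      simp at this)
    rw [hz, dist2, dist2'] at hd
    have e1 : (S2 w ξ).D + |z.1 - (S2 w ξ).g.1| ≤ ev2 (S2 w ξ) z := by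
      unfold ev2
      linarith [le_max_left |z.1 - (S2 w ξ).g.1| ((S2 w ξ).h + |z.2 - (S2 w ξ).g.2|)]
    have e2 : (S2 w η).D + |z.1 - (S2 w η).g.1| ≤ ev2 (S2 w η) z := by
      unfold ev2
      linarith [le_max_left |z.1 - (S2 w η).g.1| ((S2 w η).h + |z.2 - (S2 w η).g.2|)]
    have t1 := abs_sub_le (S2 w ξ).g.1 z.1 (S2 w η).g.1
    rw [abs_sub_comm _ z.1] at t1
    linarith
  | succ n ih =>
    intro w ξ η r r' k hn hd h1 h2
    by_cases hboth : ∃ e, Beyond w e ξ ∧ Beyond w e η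
    · obtain ⟨e, hb1, hb2⟩ := hboth
      have hlen : (ξ.pl⁻¹ * (w * W.of e)).val.length ≤ n := by
        rw [← mul_assoc]
        unfold Beyond at hb1
        rw [hb1] at hn
        simpa using hn
      have s1 : S2 w ξ = tr2 e (S2 (w * W.of e) ξ) := hb1.S_eq
      have s2 : S2 w η = tr2 e (S2 (w * W.of e) η) := hb2.S_eq
      rcases e with ⟨_ | _, m⟩
      · -- parallel line
        have := ih (w * W.of (false, m)) ξ η r r' m hlen hd
          (by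
            rw [s1] at h1
            simp only [tr2] at h1
            have := abs_nonneg ((m:ℝ) - k)
            linarith)
          (by
            rw [s2] at h2
            simp only [tr2] at h2
            have := abs_nonneg ((m:ℝ) - k)
            linarith)
        rw [s1, s2]
        exact this
      · rw [s1] at h1
        rw [s2] at h2
        rw [s1, s2]
        simp only [tr2] at h1 h2 ⊢
        set x := (S2 (w * W.of (true, m)) ξ).g.2 + ((S2 (w * W.of (true, m)) ξ).g.1 - ↑m - (S2 (w * W.of (true, m)) ξ).g.2 -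
          cl ((S2 (w * W.of (true, m)) ξ).g.1 - ↑m - (S2 (w * W.of (true, m)) ξ).g.2) (S2 (w * W.of (true, m)) ξ).h) / 2
        set y := (S2 (w * W.of (true, m)) η).g.2 + ((S2 (w * W.of (true, m)) η).g.1 - ↑m - (S2 (w * W.of (true, m)) η).g.2 -
          cl ((S2 (w * W.of (true, m)) η).g.1 - ↑m - (S2 (w * W.of (true, m)) η).g.2) (S2 (w * W.of (true, m)) η).h) / 2
        have t := abs_sub_le x k y
        rw [show (m:ℝ) + x - (m + y) = x - y by ring]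
        rw [abs_sub_comm k y] at t
        linarith
    · push Not at hboth
      obtain ⟨z, hz⟩ := dist_via' (w := w) (ξ := ξ) (η := η) (fun e h => hboth e h.1 h.2)
      rw [hz, dist2, dist2'] at hd
      have e1 : (S2 w ξ).D + |z.1 - (S2 w ξ).g.1| ≤ ev2 (S2 w ξ) z := by
        unfold ev2
        linarith [le_max_left |z.1 - (S2 w ξ).g.1| ((S2 w ξ).h + |z.2 - (S2 w ξ).g.2|)]
      have e2 : (S2 w η).D + |z.1 - (S2 w η).g.1| ≤ ev2 (S2 w η) z := by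
        unfold ev2
        linarith [le_max_left |z.1 - (S2 w η).g.1| ((S2 w η).h + |z.2 - (S2 w η).g.2|)]
      have t1 := abs_sub_le (S2 w ξ).g.1 z.1 (S2 w η).g.1
      rw [abs_sub_comm _ z.1] at t1
      linarith

/-- the point of a line with a given second coordinate, model 2 -/
def lp2 (l : ℤ) (t : ℝ) : ℝ × ℝ := (l + t, t)

theorem lp2_mem (l : ℤ) (t : ℝ) : lp2 l t ∈ line2 (true, l) := by
  simp [lp2, line2]

open Pt in
theorem edge2 (w : Pl) (e : Letter) (k l k' l' : Pt M2 × ℝ)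
    (hk : Before w e k.1) (hl : Before w e l.1) (hk' : Beyond w e k'.1) (hl' : Beyond w e l'.1)
    (h5 : dist k.1 l.1 ≤ k.2 + l.2) (h6 : dist k'.1 l'.1 ≤ k'.2 + l'.2)
    (h1 : dist k.1 k'.1 ≤ k.2 + k'.2) (h2 : dist k.1 l'.1 ≤ k.2 + l'.2)
    (h3 : dist l.1 k'.1 ≤ l.2 + k'.2) (h4 : dist l.1 l'.1 ≤ l.2 + l'.2) :
    MeetOn w e k l ∨ MeetOn w e k' l' := by
  rcases e with ⟨_ | _, m⟩
  · -- horizontal line
    have cross : ∀ (a b : Pt M2 × ℝ), Before w (false, m) a.1 → Beyond w (false, m) b.1 →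
        dist a.1 b.1 ≤ a.2 + b.2 →
        ((S2 w a.1).D + (S2 w a.1).h + |(S2 w a.1).g.2 - m|) +
        ((S2 w b.1).D + (S2 w b.1).h + |(S2 w b.1).g.2 - m|) ≤ a.2 + b.2 := by
      intro a b ha hb hab
      obtain ⟨q, hq, h⟩ := dist_cross ha hb
      have hq' : q.2 = m := hq
      rw [h, dist2, dist2'] at hab
      have e1 : (S2 w a.1).D + ((S2 w a.1).h + |q.2 - (S2 w a.1).g.2|) ≤ ev2 (S2 w a.1) q := by
        unfold ev2
        linarith [le_max_right |q.1 - (S2 w a.1).g.1| ((S2 w a.1).h + |q.2 - (S2 w a.1).g.2|)]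
      have e2 : (S2 w b.1).D + ((S2 w b.1).h + |q.2 - (S2 w b.1).g.2|) ≤ ev2 (S2 w b.1) q := by
        unfold ev2
        linarith [le_max_right |q.1 - (S2 w b.1).g.1| ((S2 w b.1).h + |q.2 - (S2 w b.1).g.2|)]
      rw [hq'] at e1 e2
      rw [abs_sub_comm (S2 w a.1).g.2, abs_sub_comm (S2 w b.1).g.2]
      linarith
    have meet : ∀ (a b : Pt M2 × ℝ), dist a.1 b.1 ≤ a.2 + b.2 →
        (S2 w a.1).D + (S2 w a.1).h + |(S2 w a.1).g.2 - m| ≤ a.2 →
        (S2 w b.1).D + (S2 w b.1).h + |(S2 w b.1).g.2 - m| ≤ b.2 →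
        MeetOn w (false, m) a b := by
      intro a b hab ha hb
      have h := EH _ w a.1 b.1 a.2 b.2 m le_rfl hab ha hb
      have hh := (S2 w a.1).hh
      have hh' := (S2 w b.1).hh
      have n1 := abs_nonneg ((S2 w a.1).g.2 - m)
      have n2 := abs_nonneg ((S2 w b.1).g.2 - m)
      obtain ⟨x, hx1, hx2⟩ := two_intervals (by linarith) (by linarith) h
      refine ⟨(x, m), rfl, ?_, ?_⟩
      · rw [dist2, ev2_le_iff]
        rw [abs_le] at *
        have n1' := abs_le.1 (show |(S2 w a.1).g.2 - m| ≤ a.2 - (S2 w a.1).D - (S2 w a.1).h by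
          linarith)
        exact ⟨hx1, by simp only; linarith, by simp only; linarith⟩
      · rw [dist2, ev2_le_iff]
        have n1' := abs_le.1 (show |(S2 w b.1).g.2 - m| ≤ b.2 - (S2 w b.1).D - (S2 w b.1).h by
          linarith)
        exact ⟨hx2, by simp only; linarith, by simp only; linarith⟩
    have c1 := cross k k' hk hk' h1
    have c2 := cross k l' hk hl' h2
    have c3 := cross l k' hl hk' h3
    have c4 := cross l l' hl hl' h4
    by_cases hkk : (S2 w k.1).D + (S2 w k.1).h + |(S2 w k.1).g.2 - m| ≤ k.2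
    · by_cases hll : (S2 w l.1).D + (S2 w l.1).h + |(S2 w l.1).g.2 - m| ≤ l.2
      · left; exact meet k l h5 hkk hll
      · right
        push Not at hll
        exact meet k' l' h6 (by linarith) (by linarith)
    · right
      push Not at hkk
      exact meet k' l' h6 (by linarith) (by linarith)
  · -- diagonal line
    have ld : ∀ ξ : Pt M2, ∃ D t, ∀ q ∈ line2 (true, m), dist ξ ⟨w, q⟩ = D + |q.2 - t| := by
      intro ξ
      exact ⟨_, _, fun q hq => by rw [dist2, ev2_diag (S2 w ξ) m q hq]⟩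
    obtain ⟨Dk, tk, ek⟩ := ld k.1
    obtain ⟨Dl, tl, el⟩ := ld l.1
    obtain ⟨Dk', tk', ek'⟩ := ld k'.1
    obtain ⟨Dl', tl', el'⟩ := ld l'.1
    have cross : ∀ (a b : Pt M2) (Da ta Db tb ra rb : ℝ), Before w (true, m) a →
        Beyond w (true, m) b →
        (∀ q ∈ line2 (true, m), dist a ⟨w, q⟩ = Da + |q.2 - ta|) →
        (∀ q ∈ line2 (true, m), dist b ⟨w, q⟩ = Db + |q.2 - tb|) → dist a b ≤ ra + rb →
        |ta - tb| ≤ (ra - Da) + (rb - Db) := by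
      intro a b Da ta Db tb ra rb ha hb ea eb hab
      obtain ⟨q, hq, h⟩ := dist_cross ha hb
      rw [h, dist_comm (⟨w, q⟩ : Pt M2) b, ea q hq, eb q hq] at hab
      have := abs_sub_le ta q.2 tb
      rw [abs_sub_comm ta q.2] at this
      linarith
    have c1 := cross _ _ _ _ _ _ _ _ hk hk' ek ek' h1
    have c2 := cross _ _ _ _ _ _ _ _ hk hl' ek el' h2
    have c3 := cross _ _ _ _ _ _ _ _ hl hk' el ek' h3
    have c4 := cross _ _ _ _ _ _ _ _ hl hl' el el' h4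
    rcases cones c1 c2 c3 c4 with ⟨t, ht1, ht2⟩ | ⟨t, ht1, ht2⟩
    · left
      refine ⟨lp2 m t, lp2_mem m t, ?_, ?_⟩
      · rw [ek _ (lp2_mem m t)]; simp only [lp2]; linarith
      · rw [el _ (lp2_mem m t)]; simp only [lp2]; linarith
    · right
      refine ⟨lp2 m t, lp2_mem m t, ?_, ?_⟩
      · rw [ek' _ (lp2_mem m t)]; simp only [lp2]; linarith
      · rw [el' _ (lp2_mem m t)]; simp only [lp2]; linarith

theorem helly2 : HellyModel M2 where
  box := box2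
  pair := pair2
  edge := edge2
  fin := fun R => finite_near2 _ R

end Run7.h484
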