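import Pool.Agent.Run7.h484.Defs

/-! Recognising injective hulls, and completeness of injective hulls. -/

namespace Run7.h484

universe u v

section complete

variable {X : Type u} [MetricSpace X]

theorem isExtremal_iff {f : X → ℝ} : IsExtremal f ↔ (∀ x y, dist x y ≤ f x + f y) ∧
    ∀ x, ∀ ε > 0, ∃ y, f x + f y < dist x y + ε := by
  classical
  constructor
  · intro hf
    refine ⟨hf.1, ?_⟩
    intro x ε hε
    by_contra hcon
    push Not at hcon
    have hx := hcon x
    rw [dist_self] at hx
    have h := hf.2 (Function.update f x (f x - ε / 2)) ?_ ?_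
    · have := congrFun h x
      simp only [Function.update_self] at this
      linarith
    · intro a b
      by_cases ha : a = x
      · subst ha
        by_cases hb : b = a
        · subst hb
          simp only [Function.update_self, dist_self]
          linarith
        · simp only [Function.update_self, Function.update_of_ne hb]
          have := hcon b
          linarith
      · by_cases hb : b = x
        · subst hb
          simp only [Function.update_self, Function.update_of_ne ha]
          have := hcon a
          rw [dist_comm] at this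
          linarith
        · simp only [Function.update_of_ne hb, Function.update_of_ne ha]
          exact hf.1 a b
    · intro a
      by_cases ha : a = x
      · subst ha
        simp only [Function.update_self]
        linarith
      · simp only [Function.update_of_ne ha]; exact le_refl _
  · rintro ⟨h1, h2⟩
    refine ⟨h1, ?_⟩
    intro g hg hle
    funext x
    apply le_antisymm (hle x)
    apply le_of_forall_pos_lt_add
    intro ε hε
    obtain ⟨y, hy⟩ := h2 x ε hε
    have := hg x y
    have := hle y
    linarith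

theorem hull_abs_le (f g : InjHull X) (x : X) : |f.val x - g.val x| ≤ dist f g :=
  le_ciSup (hull_bdd f g) x

instance : CompleteSpace (InjHull X) := by
  by_cases hX : Nonempty X
  swap
  · rw [not_nonempty_iff] at hX
    have : Subsingleton (InjHull X) := ⟨fun f g => InjHull.ext (funext fun x => (hX.false x).elim)⟩
    exact inferInstance
  apply Metric.complete_of_cauchySeq_tendsto
  intro u hu
  have hpt : ∀ x, ∃ l, Filter.Tendsto (fun n => (u n).val x) Filter.atTop (nhds l) := by
    intro x
    apply cauchySeq_tendsto_of_complete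
    rw [Metric.cauchySeq_iff] at hu ⊢
    intro ε hε
    obtain ⟨N, hN⟩ := hu ε hε
    refine ⟨N, fun m hm n hn => ?_⟩
    rw [Real.dist_eq]
    exact (hull_abs_le _ _ x).trans_lt (hN m hm n hn)
  choose f hf using hpt
  -- uniform estimate
  have hunif : ∀ ε > 0, ∃ N, ∀ n ≥ N, ∀ x, |(u n).val x - f x| ≤ ε := by
    intro ε hε
    rw [Metric.cauchySeq_iff] at hu
    obtain ⟨N, hN⟩ := hu ε hε
    refine ⟨N, fun n hn x => ?_⟩
    have h1 : Filter.Tendsto (fun m => |(u n).val x - (u m).val x|) Filter.atTop
        (nhds |(u n).val x - f x|) := ((tendsto_const_nhds).sub (hf x)).abs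
    apply le_of_tendsto h1
    filter_upwards [Filter.eventually_ge_atTop N] with m hm
    exact (hull_abs_le _ _ x).trans (hN n hn m hm).le
  have hext : IsExtremal f := by
    rw [isExtremal_iff]
    constructor
    · intro x y
      have h1 : Filter.Tendsto (fun n => (u n).val x + (u n).val y) Filter.atTop
        (nhds (f x + f y)) := (hf x).add (hf y)
      exact ge_of_tendsto' h1 fun n => (u n).extremal.1 x y
    · intro x ε hε
      obtain ⟨N, hN⟩ := hunif (ε / 4) (by linarith)
      obtain ⟨y, hy⟩ := (isExtremal_iff.1 (u N).extremal).2 x (ε / 4) (by linarith)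
      refine ⟨y, ?_⟩
      have h1 := abs_le.1 (hN N le_rfl x)
      have h2 := abs_le.1 (hN N le_rfl y)
      linarith
  refine ⟨⟨f, hext⟩, ?_⟩
  rw [Metric.tendsto_atTop]
  intro ε hε
  obtain ⟨N, hN⟩ := hunif (ε / 2) (by linarith)
  refine ⟨N, fun n hn => ?_⟩
  have : dist (u n) ⟨f, hext⟩ ≤ ε / 2 := by
    rw [InjHull.dist_def]
    exact ciSup_le fun x => hN n hn x
  linarith

end complete

/-- `P` (a pseudometric space) with the points `c v` is a model of the injective hull of the
graph `Γ`. -/
structure Realizes {P : Type u} [PseudoMetricSpace P] {V : Type v} (Γ : SimpleGraph V)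
    (c : V → P) : Prop where
  conn : Γ.Connected
  dist_c : ∀ v v', dist (c v) (c v') = Γ.dist v v'
  ext : ∀ ξ η : P, ∃ v, dist ξ (c v) = dist ξ η + dist η (c v)
  helly : ∀ F : Set (V × ℝ), (∀ p ∈ F, ∀ q ∈ F, (Γ.dist p.1 q.1 : ℝ) ≤ p.2 + q.2) →
    ∃ ξ : P, ∀ p ∈ F, dist ξ (c p.1) ≤ p.2

namespace Realizes

variable {P : Type u} [PseudoMetricSpace P] {V : Type v} {Γ : SimpleGraph V} {c : V → P}

theorem extremal (h : Realizes Γ c) (ξ : P) :
    @IsExtremal V (graphMetric Γ h.conn) fun v => dist ξ (c v) := by
  let _ := graphMetric Γ h.conn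
  refine ⟨fun x y => ?_, fun g hg hle => ?_⟩
  · show (Γ.dist x y : ℝ) ≤ dist ξ (c x) + dist ξ (c y)
    rw [← h.dist_c, dist_comm ξ (c x)]
    exact dist_triangle _ _ _
  · funext x
    apply le_antisymm (hle x)
    obtain ⟨v, hv⟩ := h.ext (c x) ξ
    have h1 : (Γ.dist x v : ℝ) ≤ g x + g v := hg x v
    have h2 := hle v
    rw [← h.dist_c] at h1
    simp only at h2
    show dist ξ (c x) ≤ g x
    rw [dist_comm ξ (c x)]
    linarith

/-- the canonical map to the injective hull -/
noncomputable def toHull (h : Realizes Γ c) (ξ : P) : GHull Γ h.conn :=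
  @InjHull.mk V (graphMetric Γ h.conn) (fun v => dist ξ (c v)) (h.extremal ξ)

theorem dist_toHull (h : Realizes Γ c) (ξ η : P) :
    dist (h.toHull ξ) (h.toHull η) = dist ξ η := by
  let _ := graphMetric Γ h.conn
  have hne : Nonempty V := h.conn.nonempty
  have e : dist (h.toHull ξ) (h.toHull η) = ⨆ v, |dist ξ (c v) - dist η (c v)| := rfl
  rw [e]
  apply le_antisymm
  · apply ciSup_le
    intro v
    exact abs_dist_sub_le ξ η (c v)
  · obtain ⟨v, hv⟩ := h.ext ξ η
    have hb : BddAbove (Set.range fun v => |dist ξ (c v) - dist η (c v)|) := by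
      refine ⟨dist ξ η, ?_⟩
      rintro _ ⟨v, rfl⟩
      exact abs_dist_sub_le ξ η (c v)
    have h1 : |dist ξ (c v) - dist η (c v)| ≤ _ := le_ciSup hb v
    have h2 := le_abs_self (dist ξ (c v) - dist η (c v))
    linarith

theorem toHull_surjective (h : Realizes Γ c) : Function.Surjective h.toHull := by
  let _ := graphMetric Γ h.conn
  intro f
  obtain ⟨ξ, hξ⟩ := h.helly {p | p.2 = f.val p.1} (by
    intro p hp q hq
    rw [Set.mem_ofPred_eq] at hp hq
    rw [hp, hq]
    exact f.extremal.1 p.1 q.1)
  refine ⟨ξ, ?_⟩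
  apply InjHull.ext
  apply f.extremal.2
  · intro x y
    show (Γ.dist x y : ℝ) ≤ _
    rw [← h.dist_c, dist_comm (c x)]
    have := dist_triangle (c x) ξ (c y)
    show dist (c y) (c x) ≤ dist ξ (c x) + dist ξ (c y)
    rw [dist_comm (c y), dist_comm ξ (c x)]
    exact this
  · intro x
    exact hξ (x, f.val x) rfl

end Realizes

/-- A set of vertices with integral distances and rounding. -/
theorem realizes_of_round {P : Type u} [PseudoMetricSpace P] {V : Type v} (c : V → P)
    [Nonempty V] (Γ : SimpleGraph V)
    (hadj : ∀ v w, Γ.Adj v w ↔ dist (c v) (c w) = 1)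
    (hsep : ∀ v w, dist (c v) (c w) = 0 → v = w)
    (hint : ∀ v w, ∃ n : ℕ, dist (c v) (c w) = n)
    (hext : ∀ ξ η : P, ∃ v, dist ξ (c v) = dist ξ η + dist η (c v))
    (hhelly : ∀ F : Set (V × ℝ), (∀ p ∈ F, ∀ q ∈ F, dist (c p.1) (c q.1) ≤ p.2 + q.2) →
      ∃ ξ : P, ∀ p ∈ F, dist ξ (c p.1) ≤ p.2)
    (hround : ∀ ξ : P, ∃ v, ∀ w, ∀ n : ℕ, dist ξ (c w) ≤ n → dist (c v) (c w) ≤ n) :
    Realizes Γ c ∧ IsHelly Γ := by
  classical
  -- walks realise distances
  have hwalk : ∀ n : ℕ, ∀ v w : V, dist (c v) (c w) = n → ∃ p : Γ.Walk v w, p.length = n := by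
    intro n
    induction n with
    | zero =>
      intro v w hvw
      have := hsep v w (by simpa using hvw)
      subst this
      exact ⟨SimpleGraph.Walk.nil, rfl⟩
    | succ n ih =>
      intro v w hvw
      obtain ⟨ξ, hξ⟩ := hhelly {(v, 1), (w, (n : ℝ))} (by
        intro p hp q hq
        push_cast at hvw
        have hn : (0:ℝ) ≤ n := Nat.cast_nonneg n
        rcases hp with rfl | hp
        · rcases hq with rfl | hq
          · simp
          · rw [Set.mem_singleton_iff] at hq
            subst hq
            simp only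
            linarith
        · rw [Set.mem_singleton_iff] at hp
          subst hp
          rcases hq with rfl | hq
          · simp only
            rw [dist_comm]; linarith
          · rw [Set.mem_singleton_iff] at hq
            subst hq
            simp [dist_self])
      obtain ⟨x, hx⟩ := hround ξ
      have h1 : dist (c x) (c v) ≤ 1 := by
        have := hx v 1 (by simpa using hξ (v, 1) (by simp))
        simpa using this
      have h2 : dist (c x) (c w) ≤ n := hx w n (hξ (w, n) (by simp))
      have h3 := dist_triangle (c v) (c x) (c w)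
      rw [dist_comm (c v) (c x)] at h3
      push_cast at hvw
      have h4 : dist (c x) (c w) = n := by linarith
      have h5 : dist (c v) (c x) = 1 := by rw [dist_comm]; linarith
      obtain ⟨p, hp⟩ := ih x w h4
      exact ⟨SimpleGraph.Walk.cons ((hadj v x).2 h5) p, by simp [hp]⟩
  have hconn : Γ.Connected := by
    refine ⟨fun v w => ?_⟩
    obtain ⟨n, hn⟩ := hint v w
    obtain ⟨p, -⟩ := hwalk n v w hn
    exact ⟨p⟩
  have hle : ∀ v w : V, ∀ p : Γ.Walk v w, dist (c v) (c w) ≤ p.length := by
    intro v w p
    induction p with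
    | nil => simp
    | cons hvw p ih =>
      rename_i a b d
      have := dist_triangle (c a) (c b) (c d)
      rw [(hadj _ _).1 hvw] at this
      push_cast [SimpleGraph.Walk.length_cons]
      linarith
  have hdist : ∀ v w, dist (c v) (c w) = Γ.dist v w := by
    intro v w
    obtain ⟨n, hn⟩ := hint v w
    obtain ⟨p, hp⟩ := hwalk n v w hn
    obtain ⟨q, hq⟩ := hconn.exists_walk_length_eq_dist v w
    apply le_antisymm
    · rw [← hq]; exact hle v w q
    · rw [hn, ← hp]
      exact_mod_cast SimpleGraph.dist_le p
  refine ⟨⟨hconn, hdist, hext, fun F hF => hhelly F (fun p hp q hq => ?_)⟩, hconn, ?_⟩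
  · rw [hdist]; exact hF p hp q hq
  · intro F hF
    obtain ⟨ξ, hξ⟩ := hhelly ((fun p : V × ℕ => (p.1, (p.2 : ℝ))) '' F) (by
      rintro _ ⟨p, hp, rfl⟩ _ ⟨q, hq, rfl⟩
      obtain ⟨x, hx1, hx2⟩ := hF p hp q hq
      simp only [cball, Set.mem_ofPred_eq] at hx1 hx2
      have h1 := hconn.dist_triangle (u := p.1) (v := x) (w := q.1)
      rw [SimpleGraph.dist_comm (u := x)] at h1
      simp only
      rw [hdist]
      exact_mod_cast h1.trans (add_le_add hx1 hx2))
    obtain ⟨x, hx⟩ := hround ξ
    refine ⟨x, fun p hp => ?_⟩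
    have := hx p.1 p.2 (hξ _ ⟨p, hp, rfl⟩)
    rw [hdist, SimpleGraph.dist_comm] at this
    simp only [cball, Set.mem_ofPred_eq]
    exact_mod_cast this

end Run7.h484
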