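import Pool.Agent.Run7.h484.X1a
import Pool.Agent.Run7.h484.Bdry

/-! The first space: the boundary circles and how they meet. -/

namespace Run7.h484

universe u

open Set Filter Topology

/-! ### Circles -/

section circle

variable {Z : Type u} [TopologicalSpace Z] {f : ℝ → Z} (hf : Continuous f)
  (hper : ∀ θ θ', f θ = f θ' ↔ ∃ k : ℤ, θ' = θ + k • (2 * Real.pi))
include hf hper

omit hf in
theorem circle_rep (a : ℝ) {z : Z} (hz : z ∈ range f) (hne : z ≠ f a) :
    ∃ θ ∈ Ioo a (a + 2 * Real.pi), f θ = z := by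
  obtain ⟨θ, rfl⟩ := hz
  obtain ⟨k, hk, -⟩ := existsUnique_add_zsmul_mem_Ico Real.two_pi_pos θ a
  refine ⟨θ + k • (2 * Real.pi), ⟨?_, hk.2⟩, ?_⟩
  · rcases eq_or_lt_of_le hk.1 with h1 | h1
    · exfalso
      apply hne
      rw [(hper _ _).2 ⟨k, rfl⟩]
      exact congrArg f h1.symm
    · exact h1
  · exact ((hper _ _).2 ⟨k, rfl⟩).symm

omit hf in
theorem circle_ne {a θ θ' : ℝ} (h1 : θ ∈ Ico a (a + 2 * Real.pi))
    (h2 : θ' ∈ Ico a (a + 2 * Real.pi)) (h3 : θ ≠ θ') : f θ ≠ f θ' := by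
  intro he
  obtain ⟨k, hk⟩ := (hper _ _).1 he
  apply h3
  rw [zsmul_eq_mul] at hk
  have hpi := Real.two_pi_pos
  have h4 : (k:ℝ) < 1 := by
    by_contra hcon
    push Not at hcon
    have := mul_le_mul_of_nonneg_right hcon hpi.le
    linarith [h1.1, h2.2]
  have h5 : (-1:ℝ) < k := by
    by_contra hcon
    push Not at hcon
    have := mul_le_mul_of_nonneg_right hcon hpi.le
    linarith [h1.2, h2.1]
  have h6 : k < 1 := by exact_mod_cast h4
  have h7 : -1 < k := by exact_mod_cast h5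
  have h8 : k = 0 := by omega
  rw [h8] at hk
  push_cast at hk
  linarith

/-- a circle minus a point is connected -/
theorem circle_minus_one (x : Z) : IsPreconnected (range f \ {x}) := by
  by_cases hx : x ∈ range f
  · obtain ⟨a, rfl⟩ := hx
    have : range f \ {f a} = f '' Ioo a (a + 2 * Real.pi) := by
      apply Subset.antisymm
      · rintro z ⟨hz, hne⟩
        obtain ⟨θ, hθ, he⟩ := circle_rep hper a hz hne
        exact ⟨θ, hθ, he⟩
      · rintro _ ⟨θ, hθ, rfl⟩
        refine ⟨mem_range_self _, ?_⟩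
        apply circle_ne hper (a := a) ⟨hθ.1.le, hθ.2⟩ ⟨le_rfl, by linarith [Real.two_pi_pos]⟩
        exact hθ.1.ne'
    rw [this]
    exact isPreconnected_Ioo.image _ hf.continuousOn
  · rw [diff_singleton_eq_self hx]
    exact isPreconnected_range hf

/-- a circle minus two points has at most two pieces -/
theorem circle_minus_two (x y : Z) : ∃ I J : Set Z, IsPreconnected I ∧ IsPreconnected J ∧
    range f \ {x, y} = I ∪ J := by
  by_cases hxy : x = y ∨ x ∉ range f ∨ y ∉ range f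
  · rcases hxy with h1 | h1 | h1
    · subst h1
      refine ⟨range f \ {x}, ∅, circle_minus_one hf hper x, isPreconnected_empty, ?_⟩
      simp
    · refine ⟨range f \ {y}, ∅, circle_minus_one hf hper y, isPreconnected_empty, ?_⟩
      ext z
      simp only [mem_diff, mem_insert_iff, mem_singleton_iff, not_or, union_empty]
      constructor
      · rintro ⟨h2, h3⟩; exact ⟨h2, h3.2⟩
      · rintro ⟨h2, h3⟩; exact ⟨h2, fun h4 => h1 (h4 ▸ h2), h3⟩
    · refine ⟨range f \ {x}, ∅, circle_minus_one hf hper x, isPreconnected_empty, ?_⟩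
      ext z
      simp only [mem_diff, mem_insert_iff, mem_singleton_iff, not_or, union_empty]
      constructor
      · rintro ⟨h2, h3⟩; exact ⟨h2, h3.1⟩
      · rintro ⟨h2, h3⟩; exact ⟨h2, h3, fun h4 => h1 (h4 ▸ h2)⟩
  · push Not at hxy
    obtain ⟨hne, hx, hy⟩ := hxy
    obtain ⟨a, rfl⟩ := hx
    obtain ⟨b, hb, rfl⟩ := circle_rep hper a hy hne.symm
    have ha' : a ∈ Ico a (a + 2 * Real.pi) := ⟨le_rfl, by linarith [Real.two_pi_pos]⟩
    have hb' : b ∈ Ico a (a + 2 * Real.pi) := ⟨hb.1.le, hb.2⟩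
    refine ⟨f '' Ioo a b, f '' Ioo b (a + 2 * Real.pi),
      isPreconnected_Ioo.image _ hf.continuousOn, isPreconnected_Ioo.image _ hf.continuousOn, ?_⟩
    apply Subset.antisymm
    · rintro z ⟨hz, hzn⟩
      simp only [mem_insert_iff, mem_singleton_iff, not_or] at hzn
      obtain ⟨θ, hθ, rfl⟩ := circle_rep hper a hz hzn.1
      rcases lt_trichotomy θ b with h1 | h1 | h1
      · exact Or.inl ⟨θ, ⟨hθ.1, h1⟩, rfl⟩
      · exact absurd (congrArg f h1) hzn.2
      · exact Or.inr ⟨θ, ⟨h1, hθ.2⟩, rfl⟩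
    · rintro z (⟨θ, hθ, rfl⟩ | ⟨θ, hθ, rfl⟩)
      · refine ⟨mem_range_self _, ?_⟩
        simp only [mem_insert_iff, mem_singleton_iff, not_or]
        have hθ' : θ ∈ Ico a (a + 2 * Real.pi) := ⟨hθ.1.le, hθ.2.trans hb.2⟩
        exact ⟨circle_ne hper hθ' ha' hθ.1.ne', circle_ne hper hθ' hb' hθ.2.ne⟩
      · refine ⟨mem_range_self _, ?_⟩
        simp only [mem_insert_iff, mem_singleton_iff, not_or]
        have hθ' : θ ∈ Ico a (a + 2 * Real.pi) := ⟨(hb.1.trans hθ.1).le, hθ.2⟩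
        exact ⟨circle_ne hper hθ' ha' (hb.1.trans hθ.1).ne', circle_ne hper hθ' hb' hθ.1.ne'⟩

end circle

section X1

variable {Y : Type u} [MetricSpace Y] (R : Rz M1 Y) {σ : Y → Y → ℝ → Y} (h : IsBicombing σ)

/-- direction of the lines of type `b` -/
def pd (b : Bool) (s : ℝ) : ℝ × ℝ := if b then (0, s) else (s, 0)

theorem pd_unit (b : Bool) {s : ℝ} (hs : s = 1 ∨ s = -1) : Unit1 (pd b s) := by
  have h1 : |s| = 1 := by
    rcases hs with rfl | rfl
    · exact abs_one
    · rw [abs_neg, abs_one]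
  unfold Unit1 pd
  cases b
  · simp [h1]
  · simp [h1]

theorem rho_line {e : Letter} {z : ℝ × ℝ} (hz : z ∈ line1 e) (s t : ℝ) :
    rho z (pd e.1 s) t ∈ line1 e := by
  rcases e with ⟨_ | _, k⟩
  · simp only [line1, mem_ofPred_eq] at hz ⊢
    simp [rho, pd, hz]
  · simp only [line1, mem_ofPred_eq] at hz ⊢
    simp [rho, pd, hz]

theorem dir_of_bdd {e : Letter} {v : ℝ × ℝ} (hv : Unit1 v) {C : ℝ}
    (hC : ∀ t, 0 ≤ t → ∃ q ∈ line1 e, N1 (rho (0, 0) v t) q ≤ C) :
    ∃ s : ℝ, (s = 1 ∨ s = -1) ∧ v = pd e.1 s := by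
  have key : ∀ (a k : ℝ), (∀ t, 0 ≤ t → |t * a - k| ≤ C) → a = 0 := by
    intro a k ha
    by_contra hne
    have hp : 0 < |a| := abs_pos.2 hne
    have h0 := ha 0 le_rfl
    rw [zero_mul, zero_sub, abs_neg] at h0
    have hC0 : 0 ≤ C := (abs_nonneg _).trans h0
    have h1 := ha ((2 * C + 1) / |a|) (by positivity)
    have h2 : |(2 * C + 1) / |a| * a| = 2 * C + 1 := by
      rw [abs_mul, abs_div, abs_abs, div_mul_cancel₀ _ hp.ne', abs_of_pos (by linarith)]
    have h3 := abs_sub_abs_le_abs_sub ((2 * C + 1) / |a| * a) k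
    linarith
  have unit : ∀ a : ℝ, |a| = 1 → a = 1 ∨ a = -1 := fun a ha => by
    rcases abs_eq (zero_le_one) |>.1 ha with h | h
    · exact Or.inl h
    · exact Or.inr h
  unfold Unit1 at hv
  rcases e with ⟨_ | _, k⟩
  · have h2 : v.2 = 0 := by
      apply key v.2 k
      intro t ht
      obtain ⟨q, hq, hd⟩ := hC t ht
      simp only [line1, mem_ofPred_eq] at hq
      unfold N1 rho at hd
      simp only at hd
      rw [zero_add, zero_add, hq] at hd
      linarith [abs_nonneg (t * v.1 - q.1)]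
    rw [h2, abs_zero, add_zero] at hv
    refine ⟨v.1, unit _ hv, ?_⟩
    simp only [pd]
    ext
    · rfl
    · exact h2
  · have h2 : v.1 = 0 := by
      apply key v.1 k
      intro t ht
      obtain ⟨q, hq, hd⟩ := hC t ht
      simp only [line1, mem_ofPred_eq] at hq
      unfold N1 rho at hd
      simp only at hd
      rw [zero_add, zero_add, hq] at hd
      linarith [abs_nonneg (t * v.2 - q.2)]
    rw [h2, abs_zero, zero_add] at hv
    refine ⟨v.2, unit _ hv, ?_⟩
    simp only [pd]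
    ext
    · exact h2
    · rfl

/-- there is a point on every line -/
theorem line1_pt (e : Letter) : proj1 e (0, 0) ∈ line1 e := proj1_mem _ _

include h in
/-- two planes share at most the two ends of a family of parallel lines -/
theorem Asym.meet {w w' : VP} {e : Letter} {L : List Letter}
    (hL : ((w:Pl)⁻¹ * w').val = e :: L) {v v' : ℝ × ℝ} (hv : Unit1 v)
    {x : Bdry σ (q0 R)} (hx : Asym R w v x) (hx' : Asym R w' v' x) :
    ∃ s : ℝ, (s = 1 ∨ s = -1) ∧ v = pd e.1 s := by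
  obtain ⟨C, hC⟩ := hx
  obtain ⟨C', hC'⟩ := hx'
  apply dir_of_bdd (C := C + C') hv
  intro t ht
  have h1 := hC t ht
  have h2 := hC' t ht
  have h3 := dist_triangle_left (R.pt w.1 w.2 (rho (0, 0) v t)) (R.pt w'.1 w'.2 (rho (0, 0) v' t))
      (x.c t)
  have hB : R.pt w'.1 w'.2 (rho (0, 0) v' t) ∈ R.B w.1 e := by
    apply R.pt_mem_B
    obtain ⟨y, hy, hye⟩ := W.eq_of_mul hL
    have e1 : (w'.1)⁻¹ * w.1 = y⁻¹ * W.of e := by
      have : (w'.1)⁻¹ * w.1 = ((w.1)⁻¹ * w'.1)⁻¹ := by group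
      rw [this, hye, mul_inv_rev, W.of_inv]
    have e2 : (w'.1)⁻¹ * w.1 * W.of e = y⁻¹ := by rw [e1, W.mul_of_mul_of]
    rw [e2]
    have e3 : ((w'.1)⁻¹ * w.1).val = (((w.1)⁻¹ * w'.1).val).reverse := by
      rw [← W.inv_val]; congr 1; group
    rw [e3, hL, W.inv_val, hy]
    simp
  obtain ⟨q, hq, hd⟩ := R.cross_AB w.2 (R.pt_self_mem_A w.2 (rho (0, 0) v t)) hB
  refine ⟨q, hq, ?_⟩
  rw [same1] at hd
  have := dist_nonneg (x := R.pt w.1 w.2 q) (y := R.pt w'.1 w'.2 (rho (0, 0) v' t))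
  linarith

/-- adjacent planes share the ends of the gluing line -/
theorem Asym.next {w w' : VP} {e : Letter} (hw : w'.1 = w.1 * W.of e) {s : ℝ}
    (hs : s = 1 ∨ s = -1)
    {x : Bdry σ (q0 R)} (hx : Asym R w (pd e.1 s) x) : Asym R w' (pd e.1 s) x := by
  obtain ⟨C, hC⟩ := hx
  obtain ⟨w', hw'⟩ := w'
  simp only at hw
  subst hw
  apply Asym.of_large R (proj1 e (0, 0)) (C := C + N1 (0, 0) (proj1 e (0, 0))) (b := 0)
  · intro t _ ht
    have h1 := hC t ht
    rw [← R.glue w.1 w.2 e hw' (rho_line (line1_pt e) s t)]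
    have h2 := dist_triangle (x.c t) (R.pt w.1 w.2 (rho (0, 0) (pd e.1 s) t))
      (R.pt w.1 w.2 (rho (proj1 e (0, 0)) (pd e.1 s) t))
    rw [same1, N1_rho_base] at h2
    linarith
  · exact pd_unit _ hs

variable [CompleteSpace Y]

theorem bp_next {w w' : VP} {e : Letter} (hw : w'.1 = w.1 * W.of e) {s : ℝ}
    (hs : s = 1 ∨ s = -1) :
    bp R h w (pd e.1 s) (pd_unit _ hs) = bp R h w' (pd e.1 s) (pd_unit _ hs) :=
  bp_of_asym R h (Asym.next R hw hs (bp_asym R h w _ _))

/-- the two points are the ends of a line in some plane -/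
def PolePair (x y : Bdry σ (q0 R)) : Prop :=
  ∃ (w : VP) (b : Bool) (s : ℝ) (hs : s = 1 ∨ s = -1) (hs' : -s = 1 ∨ -s = -1),
    x = bp R h w (pd b s) (pd_unit b hs) ∧ y = bp R h w (pd b (-s)) (pd_unit b hs')

theorem neg_sgn {s : ℝ} (hs : s = 1 ∨ s = -1) : -s = 1 ∨ -s = -1 := by
  rcases hs with rfl | rfl
  · right; rfl
  · left; norm_num

theorem pd_inj {b : Bool} {s s' : ℝ} (he : pd b s = pd b s') : s = s' := by
  unfold pd at he
  cases b
  · exact (Prod.mk.injEq _ _ _ _ ▸ he : s = s' ∧ (0:ℝ) = 0).1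
  · exact (Prod.mk.injEq _ _ _ _ ▸ he : (0:ℝ) = 0 ∧ s = s').2

theorem circ_asym {w : VP} {x : Bdry σ (q0 R)} (hx : x ∈ range (circ R h w)) :
    ∃ v, Unit1 v ∧ Asym R w v x := by
  obtain ⟨θ, rfl⟩ := hx
  exact ⟨dir θ, dir_unit θ, bp_asym R h w _ _⟩

/-- points common to two circles -/
theorem meet_pole {w w' : VP} (hne : w ≠ w') {x y : Bdry σ (q0 R)} (hxy : x ≠ y)
    (hx : x ∈ range (circ R h w)) (hy : y ∈ range (circ R h w))
    (hx' : x ∈ range (circ R h w')) (hy' : y ∈ range (circ R h w')) : PolePair R h x y := by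
  rcases hL : ((w:Pl)⁻¹ * w').val with _ | ⟨e, L⟩
  · exfalso
    have : (w:Pl)⁻¹ * w' = 1 := W.ext hL
    exact hne (Subtype.ext (inv_mul_eq_one.1 this))
  · obtain ⟨v, hv, hxv⟩ := circ_asym R h hx
    obtain ⟨u, hu, hyu⟩ := circ_asym R h hy
    obtain ⟨v', _, hxv'⟩ := circ_asym R h hx'
    obtain ⟨u', _, hyu'⟩ := circ_asym R h hy'
    obtain ⟨s, hs, rfl⟩ := Asym.meet R h hL hv hxv hxv'
    obtain ⟨s', hs', rfl⟩ := Asym.meet R h hL hu hyu hyu'
    have hne' : s ≠ s' := by
      rintro rfl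
      exact hxy (Asym.unique R h hxv hyu)
    have : s' = -s := by
      rcases hs with rfl | rfl <;> rcases hs' with rfl | rfl
      · exact absurd rfl hne'
      · rfl
      · norm_num
      · exact absurd rfl hne'
    subst this
    exact ⟨w, e.1, s, hs, hs', bp_of_asym R h hxv, bp_of_asym R h hyu⟩

/-- some pole of a given type avoids `{x, y}` -/
theorem exists_pole {x y : Bdry σ (q0 R)} (hnp : ¬ PolePair R h x y) (w : VP) (b : Bool) :
    ∃ (s : ℝ) (hs : s = 1 ∨ s = -1), bp R h w (pd b s) (pd_unit b hs) ∈ ({x, y} : Set _)ᶜ := by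
  by_contra hcon
  push Not at hcon
  have hs1 : (1:ℝ) = 1 ∨ (1:ℝ) = -1 := Or.inl rfl
  have hs2 : (-1:ℝ) = 1 ∨ (-1:ℝ) = -1 := Or.inr rfl
  have h1 := hcon 1 hs1
  have h2 := hcon (-1) hs2
  rw [mem_compl_iff, not_not, mem_insert_iff, mem_singleton_iff] at h1 h2
  have hne : bp R h w (pd b 1) (pd_unit b hs1) ≠ bp R h w (pd b (-1)) (pd_unit b hs2) := by
    intro he
    have := pd_inj (bp_inj R h he)
    norm_num at this
  have e1 : -(-1:ℝ) = 1 := by norm_num
  rcases h1 with h1 | h1 <;> rcases h2 with h2 | h2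
  · exact hne (h1.trans h2.symm)
  · exact hnp ⟨w, b, 1, hs1, hs2, h1.symm, h2.symm⟩
  · refine hnp ⟨w, b, -1, hs2, neg_sgn hs2, h2.symm, ?_⟩
    rw [← h1]
    congr 1
    rw [e1]
  · exact hne (h1.trans h2.symm)

/-- the main connectivity statement -/
theorem four_pieces {x y : Bdry σ (q0 R)} (hxy : x ≠ y) (hnp : ¬ PolePair R h x y) :
    ∃ P : Fin 4 → Set (Bdry σ (q0 R)), (∀ k, IsPreconnected (P k)) ∧
      (∀ k, P k ⊆ ({x, y} : Set _)ᶜ) ∧
      ∀ (w : VP), range (circ R h w) \ {x, y} ⊆ ⋃ k, P k := by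
  classical
  obtain ⟨w₁, hw₁⟩ : ∃ w₁ : VP, ∀ w : VP, w ≠ w₁ →
      ¬ (x ∈ range (circ R h w) ∧ y ∈ range (circ R h w)) := by
    by_cases hex : ∃ w : VP, x ∈ range (circ R h w) ∧ y ∈ range (circ R h w)
    · obtain ⟨w₁, h1, h2⟩ := hex
      refine ⟨w₁, fun w hne hcon => hnp ?_⟩
      exact meet_pole R h hne hxy hcon.1 hcon.2 h1 h2
    · exact ⟨⟨1, one_mem_VP⟩, fun w _ hcon => hex ⟨w, hcon⟩⟩
  have hpre : ∀ w : VP, w ≠ w₁ → IsPreconnected (range (circ R h w) \ {x, y}) := by
    intro w hne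
    rcases not_and_or.1 (hw₁ w hne) with h1 | h1
    · have : range (circ R h w) \ {x, y} = range (circ R h w) \ {y} := by
        ext z
        simp only [mem_diff, mem_insert_iff, mem_singleton_iff, not_or]
        exact ⟨fun h2 => ⟨h2.1, h2.2.2⟩, fun h2 => ⟨h2.1, fun h3 => h1 (h3 ▸ h2.1), h2.2⟩⟩
      rw [this]
      exact circle_minus_one (circ_continuous R h w) (circ_eq_iff R h w) y
    · have : range (circ R h w) \ {x, y} = range (circ R h w) \ {x} := by
        ext z
        simp only [mem_diff, mem_insert_iff, mem_singleton_iff, not_or]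
        exact ⟨fun h2 => ⟨h2.1, h2.2.1⟩, fun h2 => ⟨h2.1, h2.2, fun h3 => h1 (h3 ▸ h2.1)⟩⟩
      rw [this]
      exact circle_minus_one (circ_continuous R h w) (circ_eq_iff R h w) x
  choose s hs hpole using fun b => exists_pole R h hnp w₁ b
  set uu : Bool → Bdry σ (q0 R) := fun b => bp R h w₁ (pd b (s b)) (pd_unit b (hs b)) with huu
  set K : Bool → Set (Bdry σ (q0 R)) := fun b => connectedComponentIn ({x, y} : Set _)ᶜ (uu b)
    with hK
  have claim : ∀ (L : List Letter) (e : Letter) (w : VP), ((w₁:Pl)⁻¹ * w).val = e :: L →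
      range (circ R h w) \ {x, y} ⊆ K e.1 := by
    intro L
    induction L using List.reverseRecOn with
    | nil =>
      intro e w hL
      have h1 : (w₁:Pl)⁻¹ * w = W.of e := W.ext hL
      have h2 : (w:Pl) = w₁ * W.of e := by rw [← h1]; group
      have hne : w ≠ w₁ := by
        rintro rfl
        rw [inv_mul_cancel] at hL
        cases hL
      apply (hpre w hne).subset_connectedComponentIn
      · refine ⟨?_, hpole e.1⟩
        rw [huu]
        simp only
        rw [bp_next R h h2 (hs e.1)]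
        exact bp_mem_circ R h _ _ _
      · exact fun z hz => hz.2
    | append_singleton L e' ih =>
      intro e w hL
      have hL' : ((w₁:Pl)⁻¹ * w).val = (e :: L) ++ [e'] := by rw [hL]; rfl
      obtain ⟨u, hu, hue⟩ := W.eq_mul_of hL'
      have hrev : ((w:Pl)⁻¹ * w₁).val = e' :: (e :: L).reverse := by
        have e3 : ((w:Pl)⁻¹ * w₁).val = (((w₁:Pl)⁻¹ * w).val).reverse := by
          rw [← W.inv_val]; congr 1; group
        rw [e3, hL']
        simp
      have hV : (w:Pl) * W.of e' ∈ VP := VP_convex w.2 w₁.2 hrev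
      set w' : VP := ⟨(w:Pl) * W.of e', hV⟩ with hw'
      have hw'u : ((w₁:Pl)⁻¹ * w').val = e :: L := by
        show ((w₁:Pl)⁻¹ * ((w:Pl) * W.of e')).val = e :: L
        rw [← mul_assoc, hue, W.mul_of_mul_of]
        exact hu
      have hww' : (w:Pl) = w' * W.of e' := (W.mul_of_mul_of _ _).symm
      have hne : w ≠ w₁ := by
        rintro rfl
        rw [inv_mul_cancel] at hL
        cases hL
      obtain ⟨s', hs', hp'⟩ := exists_pole R h hnp w' e'.1
      have h1 := ih e w' hw'u ⟨bp_mem_circ R h _ _ _, hp'⟩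
      have h2 : K e.1 = connectedComponentIn ({x, y} : Set _)ᶜ
          (bp R h w' (pd e'.1 s') (pd_unit e'.1 hs')) := connectedComponentIn_eq h1
      rw [h2]
      apply (hpre w hne).subset_connectedComponentIn
      · refine ⟨?_, hp'⟩
        rw [bp_next R h hww' hs']
        exact bp_mem_circ R h _ _ _
      · exact fun z hz => hz.2
  obtain ⟨I, J, hI, hJ, hIJ⟩ := circle_minus_two (circ_continuous R h w₁) (circ_eq_iff R h w₁) x y
  refine ⟨![I, J, K false, K true], ?_, ?_, ?_⟩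
  · intro k
    fin_cases k
    · exact hI
    · exact hJ
    · exact isPreconnected_connectedComponentIn
    · exact isPreconnected_connectedComponentIn
  · intro k
    fin_cases k
    · intro z hz
      have : z ∈ range (circ R h w₁) \ {x, y} := by rw [hIJ]; exact Or.inl hz
      exact this.2
    · intro z hz
      have : z ∈ range (circ R h w₁) \ {x, y} := by rw [hIJ]; exact Or.inr hz
      exact this.2
    · exact connectedComponentIn_subset _ _
    · exact connectedComponentIn_subset _ _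
  · intro w z hz
    rcases hL : ((w₁:Pl)⁻¹ * w).val with _ | ⟨e, L⟩
    · have h1 : (w₁:Pl)⁻¹ * w = 1 := W.ext hL
      have h2 : w₁ = w := Subtype.ext (inv_mul_eq_one.1 h1)
      subst h2
      rw [hIJ] at hz
      rcases hz with hz | hz
      · exact mem_iUnion.2 ⟨0, hz⟩
      · exact mem_iUnion.2 ⟨1, hz⟩
    · have h1 := claim L e w hL hz
      cases he : e.1
      · rw [he] at h1
        exact mem_iUnion.2 ⟨2, h1⟩
      · rw [he] at h1
        exact mem_iUnion.2 ⟨3, h1⟩

end X1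

end Run7.h484
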