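import Pool.Agent.Run7.h484.X1b

/-! The first space: density of the boundary circles, and the null property. -/

namespace Run7.h484

universe u

open Set Filter Topology

instance : Countable Pl := by
  have h : Function.Injective (fun w : Pl => w.val) := fun _ _ h => W.ext h
  exact h.countable

section X1

variable {Y : Type u} [MetricSpace Y] (R : Rz M1 Y) {σ : Y → Y → ℝ → Y} (h : IsBicombing σ)

/-- a plane as a subset -/
def flat (w : VP) : Set Y := range fun z => R.pt w.1 w.2 z

theorem flat_closed (w : VP) : IsClosed (flat R w) := by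
  apply isClosed_of_closure_subset
  intro y hy
  obtain ⟨g, hg⟩ := gate1 R w.1 w.2 y
  refine ⟨g, ?_⟩
  symm
  apply dist_le_zero.1
  apply le_of_forall_pos_le_add
  intro ε hε
  obtain ⟨x, ⟨z, rfl⟩, hx⟩ := Metric.mem_closure_iff.1 hy ε hε
  have h1 := hg z
  have h2 : 0 ≤ N1 g z := N1_nonneg _ _
  simp only at hx
  linarith

theorem mem_some_flat (y : Y) : ∃ w : VP, y ∈ flat R w := by
  obtain ⟨ξ, rfl⟩ := R.exists_pt y
  exact ⟨⟨ξ.1.pl, ξ.2⟩, ξ.1.pos, rfl⟩

/-- a ray spends some time interval in a plane -/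
theorem exists_interval {p : Y} {c : ℝ → Y} (hc : RRay σ p c) {T : ℝ} (hT : 0 ≤ T) :
    ∃ (w : VP) (a b : ℝ), T < a ∧ a < b ∧ ∀ t ∈ Icc a b, c t ∈ flat R w := by
  have hcont : Continuous fun t : ℝ => c (T + |t|) := by
    apply LipschitzWith.continuous (K := 1)
    apply LipschitzWith.of_dist_le_mul
    intro x y
    have hx := abs_nonneg x
    have hy := abs_nonneg y
    rw [hc.iso _ _ (by linarith) (by linarith), NNReal.coe_one, one_mul, Real.dist_eq,
      add_sub_add_left_eq_sub]
    exact abs_abs_sub_abs_le_abs_sub x y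
  have hcl : ∀ w : VP, IsClosed ((fun t : ℝ => c (T + |t|)) ⁻¹' flat R w) :=
    fun w => (flat_closed R w).preimage hcont
  have hun : ⋃ w : VP, (fun t : ℝ => c (T + |t|)) ⁻¹' flat R w = univ := by
    apply eq_univ_of_forall
    intro t
    obtain ⟨w, hw⟩ := mem_some_flat R (c (T + |t|))
    exact mem_iUnion.2 ⟨w, hw⟩
  have : Nonempty VP := ⟨⟨1, one_mem_VP⟩⟩
  obtain ⟨w, t₀, ht₀⟩ := nonempty_interior_of_iUnion_of_closed hcl hun
  obtain ⟨δ, hδ, hball⟩ := Metric.isOpen_iff.1 isOpen_interior t₀ ht₀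
  have hin : ∀ t : ℝ, |t - t₀| < δ → c (T + |t|) ∈ flat R w := by
    intro t ht
    have hb : t ∈ Metric.ball t₀ δ := by rw [Metric.mem_ball, Real.dist_eq]; exact ht
    have h2 : t ∈ (fun t : ℝ => c (T + |t|)) ⁻¹' flat R w := interior_subset (hball hb)
    exact h2
  refine ⟨w, T + |t₀| + δ / 4, T + |t₀| + δ / 2, by linarith [abs_nonneg t₀], by linarith, ?_⟩
  intro t ht
  have h0 := abs_nonneg t₀
  set u := t - T with hu
  have hu1 : |t₀| + δ / 4 ≤ u := by linarith [ht.1]
  have hu2 : u ≤ |t₀| + δ / 2 := by linarith [ht.2]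
  rcases le_total 0 t₀ with h1 | h1
  · have := hin u (by
      rw [abs_of_nonneg h1] at hu1 hu2
      rw [abs_of_nonneg (by linarith)]; linarith)
    rw [abs_of_nonneg (by linarith : 0 ≤ u)] at this
    rwa [show T + u = t by rw [hu]; ring] at this
  · have := hin (-u) (by
      rw [abs_of_nonpos h1] at hu1 hu2
      rw [abs_of_nonpos (by linarith)]; linarith)
    rw [abs_neg, abs_of_nonneg (by linarith : 0 ≤ u)] at this
    rwa [show T + u = t by rw [hu]; ring] at this

variable [CompleteSpace Y]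

/-- the union of the boundary circles is dense -/
theorem circ_dense {U : Set (Bdry σ (q0 R))} (hU : IsOpen U) (hne : U.Nonempty) :
    ∃ w : VP, (range (circ R h w) ∩ U).Nonempty := by
  obtain ⟨r, hr⟩ := hne
  obtain ⟨T, hT, ε, hε, hy⟩ := (Bdry.mem_nhds_iff h r U).1 (hU.mem_nhds hr)
  obtain ⟨w, a, b, hTa, hab, hflat⟩ := exists_interval R r.rray hT.le
  obtain ⟨za, hza⟩ := hflat a ⟨le_rfl, hab.le⟩
  obtain ⟨zb, hzb⟩ := hflat b ⟨hab.le, le_rfl⟩
  simp only at hza hzb
  have hba : 0 < b - a := by linarith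
  set v : ℝ × ℝ := ((zb.1 - za.1) / (b - a), (zb.2 - za.2) / (b - a)) with hv
  have hd : N1 za zb = b - a := by
    rw [← same1 R w.1 w.2, hza, hzb, r.rray.iso a b (by linarith) (by linarith),
      abs_of_nonpos (by linarith)]
    ring
  have hunit : Unit1 v := by
    unfold Unit1
    rw [hv]
    simp only
    rw [abs_div, abs_div, abs_of_pos hba, ← add_div, div_eq_one_iff_eq hba.ne', ← hd]
    unfold N1
    rw [abs_sub_comm zb.1, abs_sub_comm zb.2]
  have hrho : ∀ t ∈ Icc a b, r.c t = R.pt w.1 w.2 (rho za v (t - a)) := by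
    intro t ht
    rw [r.rray.seg' h (by linarith) ht.1 ht.2, ← hza, ← hzb, seg_plane R h w.2 _ _
      (div_mem_Icc (by linarith [ht.1]) (by linarith [ht.2]))]
    congr 1
    unfold mix rho
    rw [hv]
    ext <;> simp only <;> field_simp <;> ring
  set c' : ℝ → Y := fun t => if t ≤ b then r.c t else R.pt w.1 w.2 (rho za v (t - a)) with hc'
  have hle : ∀ t, t ≤ b → c' t = r.c t := fun t ht => by rw [hc']; exact if_pos ht
  have hge : ∀ t, a ≤ t → c' t = R.pt w.1 w.2 (rho za v (t - a)) := by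
    intro t ht
    rcases le_or_gt t b with h1 | h1
    · rw [hle t h1]; exact hrho t ⟨ht, h1⟩
    · rw [hc']; exact if_neg (not_le.2 h1)
  have hray : RRay σ (q0 R) c' := by
    apply r.rray.extend h (by linarith : 0 < a) hab
    · intro t _ ht
      exact hle t ht
    · intro T' hT' t ht
      rw [hge t ht.1, hge a le_rfl, hge T' (by linarith), seg_rho R h w.2 za v _ _
        (div_mem_Icc (by linarith [ht.1]) (by linarith [ht.2]))]
      congr 2
      rw [sub_self, mul_zero, zero_add, div_mul_cancel₀ _ (by linarith)]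
  have has : Asym R w v hray.toBdry := by
    apply Asym.of_large R (rho za v (-a)) (C := 0) (b := a)
    · intro t hta ht
      rw [hray.toBdry_c ht, hge t hta]
      have : rho za v (t - a) = rho (rho za v (-a)) v t := by
        unfold rho
        ext <;> simp only <;> ring
      rw [this, dist_self]
    · exact hunit
  refine ⟨w, hray.toBdry, ?_, ?_⟩
  · rw [bp_of_asym R h (hv := hunit) has]
    exact bp_mem_circ R h _ _ _
  · apply hy
    rw [hray.toBdry_c hT.le, hle T (by linarith), dist_self]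
    exact hε

/-- five-cut pairs are ends of lines -/
theorem five_cut_pole {x y : Bdry σ (q0 R)} (hc : FiveCut x y) : PolePair R h x y := by
  by_contra hnp
  obtain ⟨hxy, U, h1, h2, h3, h4, h5⟩ := hc
  obtain ⟨P, hP1, hP2, hP3⟩ := four_pieces R h hxy hnp
  have key : ∀ i, ∃ k, P k ⊆ U i ∧ (P k ∩ U i).Nonempty := by
    intro i
    obtain ⟨w, z, hzw, hzU⟩ := circ_dense R h (h2 i) (h1 i)
    have hz : z ∈ range (circ R h w) \ {x, y} := by
      refine ⟨hzw, ?_⟩
      rintro (hz | hz)
      · exact (h4 i).1 (hz ▸ hzU)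
      · exact (h4 i).2 ((mem_singleton_iff.1 hz) ▸ hzU)
    obtain ⟨k, hk⟩ := mem_iUnion.1 (hP3 w hz)
    refine ⟨k, ?_, z, hk, hzU⟩
    apply (hP1 k).subset_left_of_subset_union (h2 i) (h3 i).isOpen_compl
    · rw [Set.disjoint_left]
      intro t ht ht'
      exact ht' (Or.inl ht)
    · intro t ht
      by_cases htU : t ∈ U i
      · exact Or.inl htU
      · right
        rintro (h6 | h6)
        · exact htU h6
        · exact hP2 k ht h6
    · exact ⟨z, hk, hzU⟩
  choose k hk1 hk2 using key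
  have hninj : ¬ Function.Injective k := by
    intro hinj
    have := Fintype.card_le_of_injective k hinj
    simp at this
  apply hninj
  intro i j hij
  by_contra hne
  obtain ⟨z, hz, _⟩ := hk2 i
  have hz1 := hk1 i hz
  rw [hij] at hz
  have hz2 := hk1 j hz
  exact Set.disjoint_left.1 (h5 i j hne) hz1 hz2

/-- The two ends of a line far away from the base point -/
theorem pole_far {w : VP} {L : List Letter} {e : Letter} (hw : (w:Pl).val = L ++ [e])
    {b : Bool} (hb : e.1 ≠ b) :
    ∃ (q : ℝ × ℝ), ∀ (s : ℝ) (hs : s = 1 ∨ s = -1),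
      (bp R h w (pd b s) (pd_unit b hs)).c (dist (q0 R) (R.pt w.1 w.2 q)) =
        R.pt w.1 w.2 q := by
  -- gate of the base point
  obtain ⟨q, hq⟩ := gate1 R w.1 w.2 (q0 R)
  set D := dist (q0 R) (R.pt w.1 w.2 q) with hD
  have hD0 : 0 ≤ D := dist_nonneg
  have hpB : q0 R ∈ R.B w.1 e := by
    apply R.pt_mem_B
    obtain ⟨u, hu, hue⟩ := W.eq_mul_of hw
    rw [inv_one, one_mul, hue, W.mul_of_mul_of, ← hue, hw, hu]
  -- gates of points on the side of the base point are on the line
  have onLine : ∀ m ∈ R.B w.1 e, ∀ g : ℝ × ℝ, (∀ z, dist m (R.pt w.1 w.2 z) =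
      dist m (R.pt w.1 w.2 g) + N1 g z) → g ∈ line1 e := by
    intro m hm g hg
    obtain ⟨c, hc, hd⟩ := R.cross_AB w.2 (R.pt_self_mem_A w.2 g) hm
    rw [same1, dist_comm _ m, dist_comm _ m, hg c] at hd
    have h0 : N1 g c ≤ 0 := by linarith [N1_nonneg g c]
    rw [N1_eq_zero h0]
    exact hc
  have hqL : q ∈ line1 e := onLine _ hpB q hq
  refine ⟨q, fun s hs => ?_⟩
  -- perpendicular direction: distances add up
  have perp : ∀ g ∈ line1 e, ∀ n : ℝ, 0 ≤ n → N1 g (rho q (pd b s) n) = N1 g q + n := by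
    intro g hg n hn
    have hsn : |n * s| = n := by
      rw [abs_mul, abs_of_nonneg hn]
      rcases hs with rfl | rfl
      · rw [abs_one, mul_one]
      · rw [abs_neg, abs_one, mul_one]
    rcases e with ⟨_ | _, k⟩
    · have hb' : b = true := by
        cases b
        · exact absurd rfl hb
        · rfl
      subst hb'
      simp only [line1, mem_ofPred_eq] at hg hqL
      unfold N1 rho pd
      simp only [if_true, mul_zero, add_zero]
      rw [hg, hqL, sub_self, abs_zero, add_zero,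
        show (k:ℝ) - (k + n * s) = -(n * s) by ring, abs_neg, hsn]
    · have hb' : b = false := by
        cases b
        · rfl
        · exact absurd rfl hb
      subst hb'
      simp only [line1, mem_ofPred_eq] at hg hqL
      unfold N1 rho pd
      simp only [Bool.false_eq_true, if_false, mul_zero, add_zero]
      rw [hg, hqL, sub_self, abs_zero, zero_add,
        show (k:ℝ) - (k + n * s) = -(n * s) by ring, abs_neg, hsn]
      ring
  have hray := plane_ray R h w.2 q (pd b s) (pd_unit b hs)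
  -- the segments from the base point to the far points pass through `q`
  have pass : ∀ n : ℝ, 0 < n →
      σ (q0 R) (R.pt w.1 w.2 (rho q (pd b s) n)) (D / (D + n)) = R.pt w.1 w.2 q := by
    intro n hn
    have hm := div_mem_Icc hD0 (by linarith : D ≤ D + n)
    set m := σ (q0 R) (R.pt w.1 w.2 (rho q (pd b s) n)) (D / (D + n)) with hmdef
    have hdz : dist (q0 R) (R.pt w.1 w.2 (rho q (pd b s) n)) = D + n := by
      rw [hq, perp q hqL n hn.le]
      have : N1 q q = 0 := by simp [N1]
      rw [this, zero_add]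
    have h1 := h.dist_left (q0 R) (R.pt w.1 w.2 (rho q (pd b s) n)) hm
    have h2 := h.dist_right (q0 R) (R.pt w.1 w.2 (rho q (pd b s) n)) hm
    rw [← hmdef, hdz, div_mul_cancel₀ _ (by linarith)] at h1
    rw [← hmdef, hdz, sub_mul, div_mul_cancel₀ _ (by linarith)] at h2
    have hAB : m ∈ R.A w.1 e ∪ R.B w.1 e := by rw [R.union_AB]; exact mem_univ _
    rcases hAB with hm' | hm'
    · obtain ⟨c, hc, hd⟩ := R.cross_AB w.2 hm' hpB
      rw [dist_comm m (q0 R), h1, dist_comm _ (q0 R), hq c] at hd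
      have k1 := dist_nonneg (x := m) (y := R.pt w.1 w.2 c)
      have k2 := N1_nonneg q c
      have e1 : m = R.pt w.1 w.2 c := dist_le_zero.1 (by linarith)
      have e2 : q = c := N1_eq_zero (by linarith)
      rw [e1, e2]
    · obtain ⟨g, hg⟩ := gate1 R w.1 w.2 m
      have hgL := onLine m hm' g hg
      rw [hg, perp g hgL n hn.le] at h2
      have k1 := dist_nonneg (x := m) (y := R.pt w.1 w.2 g)
      have k2 := N1_nonneg g q
      have e1 : m = R.pt w.1 w.2 g := dist_le_zero.1 (by linarith)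
      have e2 : g = q := N1_eq_zero (by linarith)
      rw [e1, e2]
  -- identify the boundary point
  have hbp : moveC h (q0 R) hray.toBdry = bp R h w (pd b s) (pd_unit b hs) := by
    apply bp_of_asym
    apply Asym.of_large R q (C := dist (R.pt w.1 w.2 q) (q0 R)) (b := 0)
    · intro t _ ht
      have := moveC_dist h (q0 R) hray.toBdry ht
      rw [hray.toBdry_c ht] at this
      exact this
    · exact pd_unit b hs
  rw [← hbp]
  apply dist_le_zero.1
  apply le_of_div (A := D * D + D * D) (N := D)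
  intro n hn hn0
  have h1 := moveC_approx h (q0 R) hray.toBdry hD0 hn hn0
  rw [hray.toBdry_c hn0.le, dist_comm (R.pt w.1 w.2 q) (q0 R), ← hD] at h1
  have hdz : dist (q0 R) (R.pt w.1 w.2 (rho q (pd b s) n)) = D + n := by
    rw [hq, perp q hqL n hn0.le]
    have : N1 q q = 0 := by simp [N1]
    rw [this, zero_add]
  have h2 := h.geodesic (q0 R) (R.pt w.1 w.2 (rho q (pd b s) n)) _ (div_mem_Icc hD0 hn) _
    (div_mem_Icc hD0 (by linarith : D ≤ D + n))
  rw [pass n hn0, hdz] at h2
  have h3 : |D / n - D / (D + n)| * (D + n) = D * D / n := by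
    have : D / n - D / (D + n) = D * D / (n * (D + n)) := by
      field_simp
      ring
    rw [this, abs_of_nonneg (by positivity)]
    field_simp
  rw [h3] at h2
  have h4 := dist_triangle ((moveC h (q0 R) hray.toBdry).c D)
    (σ (q0 R) (R.pt w.1 w.2 (rho q (pd b s) n)) (D / n)) (R.pt w.1 w.2 q)
  have h5 : 0 + (D * D + D * D) / n = D / n * D + D * D / n := by ring
  rw [h5]
  linarith

/-- normal form of a pole pair -/
theorem pole_normal (b : Bool) : ∀ (l : List Letter) (w : VP), (w:Pl).val = l →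
    ∃ w' : VP, ((w' : Pl).val = [] ∨ ∃ L e, (w':Pl).val = L ++ [e] ∧ e.1 ≠ b) ∧
      ∀ (s : ℝ) (hs : s = 1 ∨ s = -1),
        bp R h w (pd b s) (pd_unit b hs) = bp R h w' (pd b s) (pd_unit b hs) := by
  intro l
  induction l using List.reverseRecOn with
  | nil => exact fun w hw => ⟨w, Or.inl hw, fun _ _ => rfl⟩
  | append_singleton l e ih =>
    intro w hw
    by_cases hb : e.1 = b
    · obtain ⟨u, hu, hue⟩ := W.eq_mul_of hw
      have huV : u ∈ VP := VP_prefix w.2 (l := [e]) (by rw [hw, hu])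
      obtain ⟨w', h1, h2⟩ := ih ⟨u, huV⟩ hu
      refine ⟨w', h1, fun s hs => ?_⟩
      rw [← h2 s hs]
      subst hb
      exact (bp_next R h (w := ⟨u, huV⟩) (w' := w) hue hs).symm
    · exact ⟨w, Or.inr ⟨l, e, hw, hb⟩, fun _ _ => rfl⟩

include R h in
theorem nullCut1 (p : Y) : NullCut (Bdry σ p) := by
  apply NullCut.map (moveHomeo h (q0 R) p)
  intro x₀ y₀ hne
  obtain ⟨T, hT0, hT⟩ : ∃ T, 0 ≤ T ∧ x₀.c T ≠ y₀.c T := by
    by_contra hcon
    push Not at hcon
    exact hne (Bdry.ext_c hcon)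
  set ε := dist (x₀.c T) (y₀.c T) / 2 with hε
  have hε0 : 0 < ε := by
    have := dist_pos.2 hT
    linarith
  have hTpos : 0 < T := by
    rcases eq_or_lt_of_le hT0 with h1 | h1
    · exfalso; apply hT; rw [← h1, x₀.rray.zero, y₀.rray.zero]
    · exact h1
  refine ⟨{x | dist (x.c T) (x₀.c T) < ε}, (Bdry.mem_nhds_iff h _ _).2
    ⟨T, hTpos, ε, hε0, fun _ hx => hx⟩, {y | dist (y.c T) (y₀.c T) < ε},
    (Bdry.mem_nhds_iff h _ _).2 ⟨T, hTpos, ε, hε0, fun _ hx => hx⟩, ?_⟩
  -- the finitely many planes near the base point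
  have hfin : {w : VP | ∃ z', dist (⟨1, (0, 0)⟩ : Pt M1) ⟨w, z'⟩ ≤ T}.Finite := by
    have := finite_near1 (0, 0) T
    apply Set.Finite.of_finite_image (f := Subtype.val) _ Subtype.val_injective.injOn
    apply this.subset
    rintro _ ⟨w, ⟨z', hz'⟩, rfl⟩
    exact ⟨w.2, z', hz'⟩
  have hs1 : (1:ℝ) = 1 ∨ (1:ℝ) = -1 := Or.inl rfl
  have hs2 : (-1:ℝ) = 1 ∨ (-1:ℝ) = -1 := Or.inr rfl
  set f : VP × Bool × Bool → Bdry σ (q0 R) × Bdry σ (q0 R) := fun i =>
    if i.2.2 then (bp R h i.1 (pd i.2.1 1) (pd_unit _ hs1), bp R h i.1 (pd i.2.1 (-1)) (pd_unit _ hs2))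
    else (bp R h i.1 (pd i.2.1 (-1)) (pd_unit _ hs2), bp R h i.1 (pd i.2.1 1) (pd_unit _ hs1))
    with hf
  apply ((hfin.prod (Set.finite_univ (α := Bool × Bool))).image f).subset
  rintro ⟨x, y⟩ ⟨hx, hy, hcut⟩
  simp only [mem_ofPred_eq] at hx hy
  simp only at hcut
  obtain ⟨w, b, s, hs, hs', rfl, rfl⟩ := five_cut_pole R h hcut
  obtain ⟨w', hw', hww'⟩ := pole_normal R h b (w:Pl).val w rfl
  have hxw := hww' s hs
  have hyw := hww' (-s) hs'
  rw [hxw] at hx
  rw [hyw] at hy
  -- the two rays differ at time `T`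
  have hdiff : (bp R h w' (pd b s) (pd_unit b hs)).c T ≠
      (bp R h w' (pd b (-s)) (pd_unit b hs')).c T := by
    intro he
    rw [he] at hx
    have := dist_triangle_left (x₀.c T) (y₀.c T) ((bp R h w' (pd b (-s)) (pd_unit b hs')).c T)
    linarith
  have hnear : ∃ z', dist (⟨1, (0, 0)⟩ : Pt M1) ⟨w', z'⟩ ≤ T := by
    rcases hw' with h0 | ⟨L, e, hLe, heb⟩
    · have : (w' : Pl) = 1 := W.ext h0
      refine ⟨(0, 0), ?_⟩
      rw [this, dist_self]
      exact hT0
    · obtain ⟨q, hq⟩ := pole_far R h hLe heb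
      refine ⟨q, ?_⟩
      have e1 : dist (q0 R) (R.pt w'.1 w'.2 q) = dist (⟨1, (0, 0)⟩ : Pt M1) ⟨w', q⟩ :=
        R.dist_pt _ _ _ _ _ _
      rw [← e1]
      by_contra hcon
      push Not at hcon
      apply hdiff
      apply RRay.eq_of_eq h (Bdry.rray _) (Bdry.rray _) hT0 hcon.le
      rw [hq s hs, hq (-s) hs']
  rw [hxw, hyw]
  rcases hs with rfl | rfl
  · exact ⟨(w', b, true), ⟨hnear, mem_univ _⟩, rfl⟩
  · refine ⟨(w', b, false), ⟨hnear, mem_univ _⟩, ?_⟩
    rw [hf]
    simp only [Bool.false_eq_true, if_false]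
    congr 2
    norm_num

end X1

end Run7.h484
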