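import Pool.Agent.Run7.h484.LU
import Pool.Agent.Run7.h484.HellyConc

/-! Arithmetic of the two local models. -/

namespace Run7.h484

universe u

open Set Filter Topology

theorem line1_inj (e e' : Letter) (z : ℝ × ℝ) (h : z ∈ line1 e) (h' : z ∈ line1 e')
    (hty : e.1 = e'.1) : e = e' := by
  rcases e with ⟨_ | _, k⟩ <;> rcases e' with ⟨_ | _, k'⟩
  · simp only [line1, mem_ofPred_eq] at h h'
    rw [h] at h'
    have : k = k' := by exact_mod_cast h'
    rw [this]
  · cases hty
  · cases hty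
  · simp only [line1, mem_ofPred_eq] at h h'
    rw [h] at h'
    have : k = k' := by exact_mod_cast h'
    rw [this]

theorem locModel1 : LocModel M1 where
  lo1 z z' := by
    show _ ≤ |z.1 - z'.1| + |z.2 - z'.2|
    linarith [abs_nonneg (z.2 - z'.2)]
  lo2 z z' := by
    show _ ≤ |z.1 - z'.1| + |z.2 - z'.2|
    linarith [abs_nonneg (z.1 - z'.1)]
  hi z z' := le_refl _
  near S := by
    refine ⟨St1.g S, fun z => ?_⟩
    show St1.D S + N1 (St1.g S) (St1.g S) ≤ St1.D S + N1 (St1.g S) z
    have h1 : N1 (St1.g S) (St1.g S) = 0 := by simp [N1]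
    rw [h1]
    linarith [N1_nonneg (St1.g S) z]
  line_inj := line1_inj
  fin R := finite_near1 (0, 0) R

theorem line1_closed (e : Letter) : IsClosed (M1.line e) := by
  rcases e with ⟨_ | _, k⟩
  · exact isClosed_eq continuous_snd continuous_const
  · exact isClosed_eq continuous_fst continuous_const

/-- along coordinate for lines of type `b` -/
def alc (b : Bool) (z : ℝ × ℝ) : ℝ := if b then z.2 else z.1

/-- perpendicular coordinate for lines of type `b` -/
def pec (b : Bool) (z : ℝ × ℝ) : ℝ := if b then z.1 else z.2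

theorem alpe_ext {b : Bool} {z z' : ℝ × ℝ} (h1 : alc b z = alc b z') (h2 : pec b z = pec b z') :
    z = z' := by
  unfold alc pec at *
  cases b
  · ext
    · exact h1
    · exact h2
  · ext
    · exact h2
    · exact h1

theorem mem_line1 (e : Letter) (z : ℝ × ℝ) : z ∈ M1.line e ↔ pec e.1 z = e.2 := by
  rcases e with ⟨_ | _, k⟩ <;> rfl

theorem tr1_D (e : Letter) (S : St1) : (tr1 e S).D = S.D + |pec e.1 S.g - e.2| := by
  rcases e with ⟨_ | _, k⟩
  · simp [tr1, N1, proj1, pec]
  · simp [tr1, N1, proj1, pec]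

theorem tr1_al (e : Letter) (S : St1) : alc e.1 (tr1 e S).g = alc e.1 S.g := by
  rcases e with ⟨_ | _, k⟩ <;> simp [tr1, proj1, alc]

theorem tr1_pe (e : Letter) (S : St1) : pec e.1 (tr1 e S).g = e.2 := by
  rcases e with ⟨_ | _, k⟩ <;> simp [tr1, proj1, pec]

theorem far_abs {s L x : ℝ} (hs : s = 1 ∨ s = -1) (hx : |x| ≤ L) : |x - s * L| = L - s * x := by
  rw [abs_le] at hx
  rcases hs with rfl | rfl
  · rw [abs_of_nonpos (by linarith)]; ring
  · rw [abs_of_nonneg (by linarith)]; ring

theorem ev1_far {b : Bool} (S : St1) {s₁ s₂ L : ℝ} (h₁ : s₁ = 1 ∨ s₁ = -1)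
    (h₂ : s₂ = 1 ∨ s₂ = -1) (hL : |S.g.1| ≤ L ∧ |S.g.2| ≤ L) :
    ev1 S (if b then (s₂ * L, s₁ * L) else (s₁ * L, s₂ * L)) =
      S.D - s₁ * alc b S.g - s₂ * pec b S.g + 2 * L := by
  cases b
  · simp only [Bool.false_eq_true, if_false, alc, pec, ev1, N1]
    rw [far_abs h₁ hL.1, far_abs h₂ hL.2]; ring
  · simp only [if_true, alc, pec, ev1, N1]
    rw [far_abs h₂ hL.1, far_abs h₁ hL.2]; ring

theorem v1_arith {θ θ' α β A B : ℝ} (h0 : 0 ≤ θ) (h1 : θ ≤ 1) (h0' : 0 ≤ θ') (h1' : θ' ≤ 1)
    (hα : 0 < α) (hβ : 0 < β) (hA : |A| ≤ β) (hB : |B| ≤ α)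
    (e1 : (1 - θ) * α = θ * ((1 - θ') * |B|)) (e2 : (1 - θ') * β = θ' * ((1 - θ) * |A|)) :
    θ = 1 := by
  have k1 : (1 - θ) * α ≤ θ * ((1 - θ') * α) := by
    rw [e1]
    exact mul_le_mul_of_nonneg_left (mul_le_mul_of_nonneg_left hB (by linarith)) h0
  have k2 : (1 - θ') * β ≤ θ' * ((1 - θ) * β) := by
    rw [e2]
    exact mul_le_mul_of_nonneg_left (mul_le_mul_of_nonneg_left hA (by linarith)) h0'
  have k3 : 1 - θ ≤ θ * (1 - θ') := by
    have : (1 - θ) * α ≤ (θ * (1 - θ')) * α := by linarith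
    exact le_of_mul_le_mul_right this hα
  have k4 : 1 - θ' ≤ θ' * (1 - θ) := by
    have : (1 - θ') * β ≤ (θ' * (1 - θ)) * β := by linarith
    exact le_of_mul_le_mul_right this hβ
  by_contra hne
  have h2 : θ < 1 := lt_of_le_of_ne h1 hne
  have k5 : θ * (1 - θ') ≤ θ * (θ' * (1 - θ)) := mul_le_mul_of_nonneg_left k4 h0
  have k6 : (1 - θ) * 1 ≤ (1 - θ) * (θ * θ') := by linarith
  have k7 : 1 ≤ θ * θ' := le_of_mul_le_mul_left k6 (by linarith)
  have k8 : θ * θ' ≤ θ * 1 := mul_le_mul_of_nonneg_left h1' h0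
  linarith

theorem line2_inj (e e' : Letter) (z : ℝ × ℝ) (h : z ∈ line2 e) (h' : z ∈ line2 e')
    (hty : e.1 = e'.1) : e = e' := by
  rcases e with ⟨_ | _, k⟩ <;> rcases e' with ⟨_ | _, k'⟩
  · simp only [line2, mem_ofPred_eq] at h h'
    rw [h] at h'
    have : k = k' := by exact_mod_cast h'
    rw [this]
  · cases hty
  · cases hty
  · simp only [line2, mem_ofPred_eq] at h h'
    rw [h] at h'
    have : k = k' := by exact_mod_cast h'
    rw [this]

theorem ev2_self (S : St2) : ev2 S S.g = S.D + S.h := by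
  unfold ev2
  rw [sub_self, sub_self, abs_zero, add_zero, max_eq_right S.hh]

theorem ev2_near (S : St2) (z : ℝ × ℝ) : ev2 S S.g ≤ ev2 S z := by
  rw [ev2_self]
  unfold ev2
  have := le_max_right |z.1 - S.g.1| (S.h + |z.2 - S.g.2|)
  linarith [abs_nonneg (z.2 - S.g.2)]

theorem locModel2 : LocModel M2 where
  lo1 z z' := le_max_left _ _
  lo2 z z' := le_max_right _ _
  hi z z' := by
    show max |z.1 - z'.1| |z.2 - z'.2| ≤ _
    apply max_le
    · linarith [abs_nonneg (z.2 - z'.2)]
    · linarith [abs_nonneg (z.1 - z'.1)]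
  near := fun (S : St2) => ⟨S.g, fun z => ev2_near S z⟩
  line_inj := line2_inj
  fin R := finite_near2 (0, 0) R

theorem line2_closed (e : Letter) : IsClosed (M2.line e) := by
  rcases e with ⟨_ | _, k⟩
  · exact isClosed_eq continuous_snd continuous_const
  · exact isClosed_eq (continuous_fst.sub continuous_snd) continuous_const

theorem far2 {s L x : ℝ} (hs : s = 1 ∨ s = -1) (hx : |x| ≤ L) : |s * L - x| = L - s * x := by
  rw [abs_le] at hx
  rcases hs with rfl | rfl
  · rw [abs_of_nonneg (by linarith)]; ring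
  · rw [abs_of_nonpos (by linarith)]; ring

theorem ev2_farU (S : St2) {s L : ℝ} (hs : s = 1 ∨ s = -1) (hL : |S.g.1| + S.h + |S.g.2| ≤ L) :
    ev2 S (s * L, 0) = S.D + L - s * S.g.1 := by
  have h0 := S.hh
  have h1 := abs_nonneg S.g.1
  have h2 := abs_nonneg S.g.2
  unfold ev2
  simp only
  rw [far2 hs (by linarith), zero_sub, abs_neg, max_eq_left]
  · ring
  · have : s * S.g.1 ≤ |S.g.1| := by
      rcases hs with rfl | rfl
      · rw [one_mul]; exact le_abs_self _
      · rw [neg_one_mul]; exact neg_le_abs _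
    linarith

theorem ev2_farY (S : St2) {s L : ℝ} (hs : s = 1 ∨ s = -1) (hL : |S.g.1| + S.h + |S.g.2| ≤ L) :
    ev2 S (0, s * L) = S.D + S.h + L - s * S.g.2 := by
  have h0 := S.hh
  have h1 := abs_nonneg S.g.1
  have h2 := abs_nonneg S.g.2
  unfold ev2
  simp only
  rw [far2 hs (by linarith), zero_sub, abs_neg, max_eq_right]
  · ring
  · have : s * S.g.2 ≤ |S.g.2| := by
      rcases hs with rfl | rfl
      · rw [one_mul]; exact le_abs_self _
      · rw [neg_one_mul]; exact neg_le_abs _
    linarith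

theorem go2_D_le (L : List Letter) (S : St2) : S.D ≤ (go2 L S).D := by
  induction L generalizing S with
  | nil => exact le_rfl
  | cons e L ih =>
    refine le_trans ?_ (ih (tr2 e S))
    rcases e with ⟨_ | _, k⟩
    · exact le_rfl
    · simp only [tr2]
      have := S.hh
      have := abs_nonneg (S.g.1 - k - S.g.2 - cl (S.g.1 - k - S.g.2) S.h)
      linarith

theorem S2_D_nonneg (w : Pl) (ξ : Pt M2) : 0 ≤ (S2 w ξ).D :=
  go2_D_le (ξ.pl⁻¹ * w).val ⟨0, 0, ξ.pos, le_refl 0⟩

/-! transports -/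

theorem tr2_h (k : ℤ) (S : St2) : (tr2 (false, k) S).D = S.D ∧
    (tr2 (false, k) S).h = S.h + |S.g.2 - k| ∧ (tr2 (false, k) S).g.1 = S.g.1 ∧
      (tr2 (false, k) S).g.2 = k := ⟨rfl, rfl, rfl, rfl⟩

theorem cl_zero (H : ℝ) : cl H 0 = 0 := by
  unfold cl
  rw [neg_zero]
  exact max_eq_left (min_le_right _ _)

theorem tr2_v_ini (l : ℤ) (z : ℝ × ℝ) :
    (tr2 (true, l) ⟨0, 0, z, le_refl 0⟩).D = |z.1 - z.2 - l| / 2 ∧
    (tr2 (true, l) ⟨0, 0, z, le_refl 0⟩).h = 0 ∧
    (tr2 (true, l) ⟨0, 0, z, le_refl 0⟩).g.1 = (z.1 + z.2 + l) / 2 ∧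
    (tr2 (true, l) ⟨0, 0, z, le_refl 0⟩).g.2 = (z.1 + z.2 - l) / 2 := by
  simp only [tr2, cl_zero]
  refine ⟨?_, trivial, ?_, ?_⟩
  · rw [zero_add, zero_add, sub_zero, show z.1 - (l:ℝ) - z.2 = z.1 - z.2 - l by ring]
  · ring
  · ring

/-! ### Arithmetic -/

theorem cl_le {A α : ℝ} (h0 : -α ≤ A) (h1 : A ≤ α) : cl A α = A := by
  unfold cl
  rw [min_eq_left h1, max_eq_right h0]

theorem cl_ge {A α : ℝ} (h0 : 0 ≤ α) (h1 : α ≤ A) : cl A α = α := by
  unfold cl
  rw [min_eq_right h1, max_eq_right (by linarith)]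

theorem cl_neg {A α : ℝ} (h0 : 0 ≤ α) : cl (-A) α = -cl A α := by
  unfold cl
  rcases le_total A (-α) with h1 | h1
  · rw [min_eq_right (by linarith : α ≤ -A), max_eq_right (by linarith : -α ≤ α),
      min_eq_left (by linarith : A ≤ α), max_eq_left h1, neg_neg]
  · rcases le_total A α with h2 | h2
    · rw [min_eq_left (by linarith : -A ≤ α), max_eq_right (by linarith : -α ≤ -A),
        min_eq_left h2, max_eq_right h1]
    · rw [min_eq_left (by linarith : -A ≤ α), max_eq_left (by linarith : -A ≤ -α),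
        min_eq_right h2, max_eq_right (by linarith : -α ≤ α)]

theorem v2_core {A B α β x y : ℝ} (hα : 0 < α) (hβ : 0 < β) (hx : 0 < x) (hy : y ≠ 0)
    (hr : max |A| α = β + |B|) (hU : |A + B| ≤ β) (hY : |B| ≤ α + β)
    (hW : |(A - cl A α) / 2 + B| + β ≤ α + |A - cl A α| / 2)
    (e1 : x * (α + |y|) = A * |y| + α * y) (e2 : y * (2 * β + |x|) = β * x + B * |x|) :
    False := by
  rw [abs_of_pos hx] at e2
  rcases lt_or_gt_of_ne hy with hy' | hy'
  · -- obtuse sector
    rw [abs_of_neg hy'] at e1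
    have f1 : x * (α - y) = (-y) * (A - α) := by linarith
    have f2 : (-y) * (2 * β + x) = x * (-B - β) := by linarith
    have hA : 0 < A - α := by
      have h1 : 0 < (-y) * (A - α) := by rw [← f1]; exact mul_pos hx (by linarith)
      exact (mul_pos_iff_of_pos_left (by linarith)).1 h1
    have hB : 0 < -B - β := by
      have h1 : 0 < x * (-B - β) := by rw [← f2]; exact mul_pos (by linarith) (by linarith)
      exact (mul_pos_iff_of_pos_left hx).1 h1
    have f3 : (α - y) * (2 * β + x) = (A - α) * (-B - β) := by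
      have h1 : (x * (-y)) * ((α - y) * (2 * β + x)) = (x * (-y)) * ((A - α) * (-B - β)) := by
        calc (x * (-y)) * ((α - y) * (2 * β + x)) = (x * (α - y)) * ((-y) * (2 * β + x)) := by ring
          _ = ((-y) * (A - α)) * (x * (-B - β)) := by rw [f1, f2]
          _ = _ := by ring
      exact mul_left_cancel₀ (mul_pos hx (by linarith)).ne' h1
    rw [abs_of_pos (by linarith : 0 < A), max_eq_left (by linarith : α ≤ A),
      abs_of_neg (by linarith : B < 0)] at hr
    rw [abs_of_neg (by linarith : B < 0)] at hY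
    have g1 : (A - α) * (-B - β) ≤ (2 * β) * α :=
      mul_le_mul (by linarith) (by linarith) hB.le (by linarith)
    have g2 : 0 < α * x + 2 * β * (-y) + x * (-y) := by
      have := mul_pos hα hx
      have := mul_pos hβ (neg_pos.2 hy')
      have := mul_pos hx (neg_pos.2 hy')
      linarith
    have g3 : (α - y) * (2 * β + x) = 2 * β * α + (α * x + 2 * β * (-y) + x * (-y)) := by ring
    linarith
  · -- acute sector
    rw [abs_of_pos hy'] at e1
    have f1 : x * (α + y) = y * (A + α) := by linarith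
    have f2 : y * (2 * β + x) = x * (B + β) := by linarith
    have hA : 0 < A + α := by
      have h1 : 0 < y * (A + α) := by rw [← f1]; exact mul_pos hx (by linarith)
      exact (mul_pos_iff_of_pos_left hy').1 h1
    have hB : 0 < B + β := by
      have h1 : 0 < x * (B + β) := by rw [← f2]; exact mul_pos hy' (by linarith)
      exact (mul_pos_iff_of_pos_left hx).1 h1
    have f3 : (α + y) * (2 * β + x) = (A + α) * (B + β) := by
      have h1 : (x * y) * ((α + y) * (2 * β + x)) = (x * y) * ((A + α) * (B + β)) := by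
        calc (x * y) * ((α + y) * (2 * β + x)) = (x * (α + y)) * (y * (2 * β + x)) := by ring
          _ = (y * (A + α)) * (x * (B + β)) := by rw [f1, f2]
          _ = _ := by ring
      exact mul_left_cancel₀ (mul_pos hx hy').ne' h1
    have f4 : 2 * α * β < (A + α) * (B + β) := by
      rw [← f3]
      have := mul_pos hα hx
      have := mul_pos hβ hy'
      have := mul_pos hx hy'
      nlinarith
    rcases le_or_gt A α with hAα | hAα
    · have habs : |A| ≤ α := abs_le.2 ⟨by linarith, hAα⟩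
      rw [max_eq_right habs] at hr
      rcases le_total 0 B with hB0 | hB0
      · rw [abs_of_nonneg hB0] at hr
        have h1 := le_abs_self (A + B)
        have g1 : (A + α) * (B + β) ≤ (2 * β) * (B + β) :=
          mul_le_mul_of_nonneg_right (by linarith) hB.le
        have g2 : (2 * β) * (B + β) = 2 * α * β := by rw [hr]; ring
        linarith
      · rw [abs_of_nonpos hB0] at hr
        have g1 : (A + α) * (B + β) ≤ (2 * α) * β :=
          mul_le_mul (by linarith) (by linarith) hB.le (by linarith)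
        linarith
    · rw [cl_ge hα.le hAα.le, abs_of_pos (by linarith : 0 < A - α)] at hW
      rw [abs_of_pos (by linarith : 0 < A), max_eq_left hAα.le] at hr
      have h1 := le_abs_self ((A - α) / 2 + B)
      rcases le_total 0 B with hB0 | hB0
      · rw [abs_of_nonneg hB0] at hr
        linarith
      · rw [abs_of_nonpos hB0] at hr
        have g1 : 0 < (β - B) * (B + β - α) := by
          have : (A + α) * (B + β) - 2 * α * β = (β - B) * (B + β - α) := by
            rw [hr]; ring
          linarith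
        have g2 : 0 < B + β - α := (mul_pos_iff_of_pos_left (by linarith)).1 g1
        linarith

theorem v2_arith {A B α β x y : ℝ} (hα : 0 < α) (hβ : 0 < β) (hx : x ≠ 0) (hy : y ≠ 0)
    (hr : max |A| α = β + |B|) (hU : |A + B| ≤ β) (hY : |B| ≤ α + β)
    (hW : |(A - cl A α) / 2 + B| + β ≤ α + |A - cl A α| / 2)
    (e1 : x * (α + |y|) = A * |y| + α * y) (e2 : y * (2 * β + |x|) = β * x + B * |x|) :
    False := by
  rcases lt_or_gt_of_ne hx with hx' | hx'
  · apply v2_core (A := -A) (B := -B) (x := -x) (y := -y) hα hβ (by linarith)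
      (neg_ne_zero.2 hy)
    · rw [abs_neg, abs_neg]; exact hr
    · rw [show -A + -B = -(A + B) by ring, abs_neg]; exact hU
    · rw [abs_neg]; exact hY
    · rw [cl_neg hα.le, show (-A - -cl A α) / 2 + -B = -((A - cl A α) / 2 + B) by ring, abs_neg,
        show -A - -cl A α = -(A - cl A α) by ring, abs_neg]
      exact hW
    · rw [abs_neg]; linarith
    · rw [abs_neg]; linarith
  · exact v2_core hα hβ hx' hy hr hU hY hW e1 e2

theorem max_abs_pq (p q : ℝ) : max |p + q| |q - p| = |p| + |q| := by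
  rcases le_total 0 p with hp | hp <;> rcases le_total 0 q with hq | hq
  · rw [abs_of_nonneg hp, abs_of_nonneg hq, abs_of_nonneg (by linarith : 0 ≤ p + q), max_eq_left]
    rw [abs_le]; constructor <;> linarith
  · rw [abs_of_nonneg hp, abs_of_nonpos hq, abs_of_nonpos (by linarith : q - p ≤ 0), max_eq_right]
    · ring
    · rw [abs_le]; constructor <;> linarith
  · rw [abs_of_nonpos hp, abs_of_nonneg hq, abs_of_nonneg (by linarith : 0 ≤ q - p), max_eq_right]
    · ring
    · rw [abs_le]; constructor <;> linarith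
  · rw [abs_of_nonpos hp, abs_of_nonpos hq, abs_of_nonpos (by linarith : p + q ≤ 0), max_eq_left]
    · ring
    · rw [abs_le]; constructor <;> linarith

theorem sq_sgn {s : ℝ} (hs : s = 1 ∨ s = -1) : s * s = 1 := by
  rcases hs with rfl | rfl <;> norm_num

/-- combination of the four sign inequalities -/
theorem sgn_sum {u p D : ℝ} (h1 : ∀ s : ℝ, (s = 1 ∨ s = -1) → s * (u + p) ≤ D)
    (h2 : ∀ s : ℝ, (s = 1 ∨ s = -1) → s * (u - p) ≤ D) : |u| + |p| ≤ D := by
  have a1 := h1 1 (Or.inl rfl)
  have a2 := h1 (-1) (Or.inr rfl)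
  have a3 := h2 1 (Or.inl rfl)
  have a4 := h2 (-1) (Or.inr rfl)
  rcases le_total 0 u with hu | hu <;> rcases le_total 0 p with hp | hp
  · rw [abs_of_nonneg hu, abs_of_nonneg hp]; linarith
  · rw [abs_of_nonneg hu, abs_of_nonpos hp]; linarith
  · rw [abs_of_nonpos hu, abs_of_nonneg hp]; linarith
  · rw [abs_of_nonpos hu, abs_of_nonpos hp]; linarith

end Run7.h484
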