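import Pool.Agent.Run7.h484.Bdry

/-! A line separating a space gives a clopen piece of the boundary minus the ends of the line. -/

namespace Run7.h484

universe u

open Set Filter Topology
open scoped NNReal

variable {X : Type u} [MetricSpace X] {σ : X → X → ℝ → X}

/-- `A`, `B` closed halves with common boundary the straight line `ℓ` -/
structure LineSep (σ : X → X → ℝ → X) (ℓ : ℝ → X) (A B : Set X) : Prop where
  iso : ∀ s t : ℝ, dist (ℓ s) (ℓ t) = |s - t|
  seg : ∀ a b : ℝ, ∀ t ∈ Icc (0:ℝ) 1, σ (ℓ a) (ℓ b) t = ℓ ((1 - t) * a + t * b)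
  clA : IsClosed A
  clB : IsClosed B
  union : A ∪ B = univ
  inter : A ∩ B = range ℓ

/-- criterion for separation -/
theorem LineSep.mk' {ℓ : ℝ → X} {A B : Set X}
    (iso : ∀ s t : ℝ, dist (ℓ s) (ℓ t) = |s - t|)
    (seg : ∀ a b : ℝ, ∀ t ∈ Icc (0:ℝ) 1, σ (ℓ a) (ℓ b) t = ℓ ((1 - t) * a + t * b))
    (union : A ∪ B = univ) (hA : range ℓ ⊆ A) (hB : range ℓ ⊆ B)
    (hcross : ∀ x ∈ A, ∀ y ∈ B, ∃ t, dist x y = dist x (ℓ t) + dist (ℓ t) y) :
    LineSep σ ℓ A B := by
  have hiso : Isometry ℓ := Isometry.of_dist_eq fun s t => by rw [iso, Real.dist_eq]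
  have hcl : IsClosed (range ℓ) := hiso.isClosedEmbedding.isClosed_range
  refine ⟨iso, seg, ?_, ?_, union, ?_⟩
  · apply isClosed_of_closure_subset
    intro y hy
    rcases (union ▸ mem_univ y : y ∈ A ∪ B) with h1 | h1
    · exact h1
    · apply hA
      rw [← hcl.closure_eq, Metric.mem_closure_iff]
      intro ε hε
      obtain ⟨x, hx, hxy⟩ := Metric.mem_closure_iff.1 hy ε hε
      obtain ⟨t, ht⟩ := hcross x hx y h1
      refine ⟨ℓ t, mem_range_self t, ?_⟩
      rw [dist_comm] at hxy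
      rw [dist_comm]
      linarith [dist_nonneg (x := x) (y := ℓ t)]
  · apply isClosed_of_closure_subset
    intro y hy
    rcases (union ▸ mem_univ y : y ∈ A ∪ B) with h1 | h1
    · apply hB
      rw [← hcl.closure_eq, Metric.mem_closure_iff]
      intro ε hε
      obtain ⟨x, hx, hxy⟩ := Metric.mem_closure_iff.1 hy ε hε
      obtain ⟨t, ht⟩ := hcross y h1 x hx
      refine ⟨ℓ t, mem_range_self t, ?_⟩
      linarith [dist_nonneg (x := ℓ t) (y := x)]
    · exact h1
  · apply Subset.antisymm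
    · rintro y ⟨h1, h2⟩
      obtain ⟨t, ht⟩ := hcross y h1 y h2
      rw [dist_self] at ht
      refine ⟨t, ?_⟩
      symm
      apply dist_le_zero.1
      linarith [dist_nonneg (x := ℓ t) (y := y)]
    · exact subset_inter hA hB

namespace LineSep

variable {ℓ : ℝ → X} {A B : Set X}

theorem symm (hL : LineSep σ ℓ A B) : LineSep σ (fun t => ℓ (-t)) A B where
  iso s t := by
    rw [hL.iso, show -s - -t = -(s - t) by ring, abs_neg]
  seg a b t ht := by
    rw [hL.seg _ _ t ht]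
    congr 1; ring
  clA := hL.clA
  clB := hL.clB
  union := hL.union
  inter := by
    rw [hL.inter]
    apply Subset.antisymm
    · rintro _ ⟨t, rfl⟩
      exact ⟨-t, by simp⟩
    · rintro _ ⟨t, rfl⟩
      exact ⟨-t, rfl⟩

theorem cross (hL : LineSep σ ℓ A B) {γ : ℝ → X} {s t : ℝ} (hst : s ≤ t)
    (hγ : ContinuousOn γ (Icc s t)) {u v : ℝ} (hu : u ∈ Icc s t) (hv : v ∈ Icc s t)
    (hA : γ u ∈ A) (hB : γ v ∈ B) : ∃ w ∈ Icc s t, γ w ∈ range ℓ := by
  have h1 : IsPreconnected (γ '' Icc s t) := isPreconnected_Icc.image _ hγ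
  rw [isPreconnected_closed_iff] at h1
  obtain ⟨y, ⟨w, hw, rfl⟩, hy⟩ := h1 A B hL.clA hL.clB
    (by rw [hL.union]; exact subset_univ _) ⟨γ u, mem_image_of_mem _ hu, hA⟩
    ⟨γ v, mem_image_of_mem _ hv, hB⟩
  rw [hL.inter] at hy
  exact ⟨w, hw, hy⟩

theorem cont {p : X} {c : ℝ → X} (hc : RRay σ p c) {s t : ℝ} (hs : 0 ≤ s) :
    ContinuousOn c (Icc s t) := by
  apply LipschitzOnWith.continuousOn (K := 1)
  apply LipschitzOnWith.of_dist_le_mul
  intro x hx y hy
  rw [hc.iso x y (hs.trans hx.1) (hs.trans hy.1), NNReal.coe_one, one_mul, Real.dist_eq]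

variable (h : IsBicombing σ) (hL : LineSep σ ℓ A B)
include h hL

/-- a ray which crosses the line twice stays on it in between -/
theorem between {p : X} {c : ℝ → X} (hc : RRay σ p c) {s t v : ℝ} (hs : 0 ≤ s)
    (h1 : c s ∈ range ℓ) (h2 : c v ∈ range ℓ) (h3 : s ≤ t) (h4 : t ≤ v) : c t ∈ range ℓ := by
  obtain ⟨a, ha⟩ := h1
  obtain ⟨b, hb⟩ := h2
  rw [hc.seg' h hs h3 h4, ← ha, ← hb, hL.seg _ _ _ (div_mem_Icc (by linarith) (by linarith))]
  exact mem_range_self _

/-- a ray that leaves `A` crosses the line and stays in `B` from then on -/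
theorem enter {p : X} (hp : p ∈ A) {c : ℝ → X} (hc : RRay σ p c) {t1 : ℝ} (ht1 : 0 ≤ t1)
    (h1 : c t1 ∉ A) : ∃ s, 0 ≤ s ∧ s ≤ t1 ∧ c s ∈ range ℓ ∧ ∀ t, s ≤ t → c t ∈ B := by
  have hmem : ∀ t, c t ∈ A ∨ c t ∈ B := fun t => by
    have : c t ∈ A ∪ B := by rw [hL.union]; exact mem_univ _
    exact this
  have hB1 : c t1 ∈ B := (hmem t1).resolve_left h1
  obtain ⟨s, hs, hsl⟩ := hL.cross ht1 (cont hc le_rfl) (left_mem_Icc.2 ht1) (right_mem_Icc.2 ht1)
    (by rw [hc.zero]; exact hp) hB1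
  refine ⟨s, hs.1, hs.2, hsl, fun t ht => ?_⟩
  by_contra hcon
  have hA : c t ∈ A := (hmem t).resolve_right hcon
  rcases le_total t1 t with h2 | h2
  · obtain ⟨v, hv, hvl⟩ := hL.cross h2 (cont hc ht1) (right_mem_Icc.2 h2) (left_mem_Icc.2 h2)
      hA hB1
    have := between h hL hc hs.1 hsl hvl hs.2 hv.1
    rw [← hL.inter] at this
    exact h1 this.1
  · obtain ⟨v, hv, hvl⟩ := hL.cross h2 (cont hc (hs.1.trans ht)) (left_mem_Icc.2 h2)
      (right_mem_Icc.2 h2) hA hB1
    have := between h hL hc hs.1 hsl hvl ht hv.1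
    rw [← hL.inter] at this
    exact hcon this.2

theorem end_not_mem {p : X} (hp : p ∈ A) {K : ℝ} (x : Bdry σ p)
    (hx : ∀ t, 0 ≤ t → dist (x.c t) (ℓ t) ≤ K) {t : ℝ} (ht : 0 ≤ t) : x.c t ∈ A := by
  by_contra hcon
  obtain ⟨s, hs0, hst, ⟨a, ha⟩, _⟩ := enter h hL hp x.rray ht hcon
  have h1 := x.rray.shift h hs0
  have h2 : RRay σ (x.c s) (fun u => ℓ (a + u)) := by
    refine ⟨by simp [ha], fun u v _ _ => by rw [hL.iso]; congr 1; ring, fun T l _ hl => ?_⟩
    rw [← ha, hL.seg _ _ _ hl]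
    congr 1; ring
  have h3 := RRay.eq_of_bdd h h1 h2 (C := K + |s - a|) (fun u hu => by
    have e1 := hx (s + u) (by linarith)
    have e2 := hL.iso (s + u) (a + u)
    rw [show s + u - (a + u) = s - a by ring] at e2
    have e3 := dist_triangle (x.c (s + u)) (ℓ (s + u)) (ℓ (a + u))
    linarith) (t := t - s) (by linarith)
  simp only [add_sub_cancel] at h3
  apply hcon
  have : x.c t ∈ A ∩ B := by
    rw [hL.inter, h3]; exact mem_range_self _
  exact this.1

/-- The main statement: rays that leave `A` form an open set which is closed up to the ends of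
the line. -/
theorem main {p : X} (hp : p ∈ A) {K : ℝ} (x y : Bdry σ p)
    (hx : ∀ t, 0 ≤ t → dist (x.c t) (ℓ t) ≤ K) (hy : ∀ t, 0 ≤ t → dist (y.c t) (ℓ (-t)) ≤ K) :
    IsOpen {r : Bdry σ p | ∃ t, 0 ≤ t ∧ r.c t ∉ A} ∧
      IsClosed ({r : Bdry σ p | ∃ t, 0 ≤ t ∧ r.c t ∉ A} ∪ {x, y}) ∧
      (x ∉ {r : Bdry σ p | ∃ t, 0 ≤ t ∧ r.c t ∉ A} ∧
        y ∉ {r : Bdry σ p | ∃ t, 0 ≤ t ∧ r.c t ∉ A}) := by
  have hxU : ∀ t, 0 ≤ t → x.c t ∈ A := fun t ht => end_not_mem h hL hp x hx ht
  have hyU : ∀ t, 0 ≤ t → y.c t ∈ A := fun t ht => end_not_mem h hL.symm hp y hy ht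
  refine ⟨?_, ?_, ?_, ?_⟩
  · rw [isOpen_iff_mem_nhds]
    rintro r ⟨t, ht, hr⟩
    rw [Bdry.mem_nhds_iff h]
    obtain ⟨ε, hε, hb⟩ := Metric.isOpen_iff.1 hL.clA.isOpen_compl (r.c t) hr
    rcases eq_or_lt_of_le ht with h0 | h0
    · exfalso
      rw [← h0, r.rray.zero] at hr
      exact hr hp
    · exact ⟨t, h0, ε, hε, fun y hy => ⟨t, ht, hb hy⟩⟩
  · rw [← isOpen_compl_iff, isOpen_iff_mem_nhds]
    intro r hr
    simp only [mem_compl_iff, mem_union, mem_insert_iff, mem_singleton_iff, not_or] at hr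
    obtain ⟨hrU, hrx, hry⟩ := hr
    have hrA : ∀ t, 0 ≤ t → r.c t ∈ A := by
      intro t ht
      by_contra hcon
      exact hrU ⟨t, ht, hcon⟩
    obtain ⟨t2, ht2, hne2⟩ : ∃ t, 0 ≤ t ∧ r.c t ≠ x.c t := by
      by_contra hcon
      push Not at hcon
      exact hrx (Bdry.ext_c hcon)
    obtain ⟨t3, ht3, hne3⟩ : ∃ t, 0 ≤ t ∧ r.c t ≠ y.c t := by
      by_contra hcon
      push Not at hcon
      exact hry (Bdry.ext_c hcon)
    set T0 := max t2 t3
    have hT0 : 0 < T0 := by
      rcases eq_or_lt_of_le (ht2.trans (le_max_left t2 t3)) with h0 | h0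
      · exfalso
        apply hne2
        have : t2 = 0 := le_antisymm (by rw [h0]; exact le_max_left _ _) ht2
        rw [this, r.rray.zero, x.rray.zero]
      · exact h0
    have hTx : r.c T0 ≠ x.c T0 := fun he =>
      hne2 (RRay.eq_of_eq h r.rray x.rray ht2 (le_max_left _ _) he)
    have hTy : r.c T0 ≠ y.c T0 := fun he =>
      hne3 (RRay.eq_of_eq h r.rray y.rray ht3 (le_max_right _ _) he)
    have hdx : 0 < dist (r.c T0) (x.c T0) := dist_pos.2 hTx
    have hdy : 0 < dist (r.c T0) (y.c T0) := dist_pos.2 hTy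
    set δ := min (dist (r.c T0) (x.c T0)) (dist (r.c T0) (y.c T0)) / 2 with hδ
    have hδ0 : 0 < δ := by
      have := lt_min hdx hdy
      linarith
    have hδx : 2 * δ ≤ dist (r.c T0) (x.c T0) := by
      have := min_le_left (dist (r.c T0) (x.c T0)) (dist (r.c T0) (y.c T0))
      linarith
    have hδy : 2 * δ ≤ dist (r.c T0) (y.c T0) := by
      have := min_le_right (dist (r.c T0) (x.c T0)) (dist (r.c T0) (y.c T0))
      linarith
    obtain ⟨T, hT⟩ := exists_gt (max T0 (T0 * (2 * K + 2) / δ))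
    have hT1 : T0 < T := (le_max_left _ _).trans_lt hT
    have hT2 : T0 * (2 * K + 2) / δ < T := (le_max_right _ _).trans_lt hT
    have hTpos : 0 < T := by linarith
    have hK : 0 ≤ K := dist_nonneg.trans (hx 0 le_rfl)
    rw [Bdry.mem_nhds_iff h]
    refine ⟨T, hTpos, min δ 1, lt_min hδ0 one_pos, fun r' hr' => ?_⟩
    have hr1 : dist (r'.c T) (r.c T) < δ := hr'.trans_le (min_le_left _ _)
    have hr2 : dist (r'.c T) (r.c T) ≤ 1 := (hr'.trans_le (min_le_right _ _)).le
    have hr3 : dist (r'.c T0) (r.c T0) < δ := by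
      refine (RRay.dist_mono h r'.rray r.rray hT0.le hT1.le hTpos).trans_lt ?_
      have := mul_le_mul_of_nonneg_right (div_mem_Icc hT0.le hT1.le).2
        (dist_nonneg (x := r'.c T) (y := r.c T))
      linarith
    -- the general principle
    have prin : ∀ z : Bdry σ p, (2 * δ ≤ dist (r.c T0) (z.c T0)) → ∀ t, T ≤ t →
        dist (r'.c t) (z.c t) ≤ 2 * K + 2 → False := by
      intro z hz t ht hd
      have h1 := RRay.dist_mono h r'.rray z.rray hT0.le (hT1.le.trans ht) (by linarith)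
      have h2 : T0 / t * dist (r'.c t) (z.c t) ≤ T0 / t * (2 * K + 2) :=
        mul_le_mul_of_nonneg_left hd (div_nonneg hT0.le (by linarith))
      have h3 : T0 / t * (2 * K + 2) < δ := by
        rw [div_mul_eq_mul_div, div_lt_iff₀ (by linarith)]
        rw [div_lt_iff₀ hδ0] at hT2
        have := mul_le_mul_of_nonneg_left ht hδ0.le
        linarith
      have h4 := dist_triangle (r.c T0) (r'.c T0) (z.c T0)
      rw [dist_comm (r.c T0) (r'.c T0)] at h4
      linarith
    simp only [mem_compl_iff, mem_union, mem_insert_iff, mem_singleton_iff, not_or]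
    refine ⟨?_, ?_, ?_⟩
    · rintro ⟨t1, ht1, hr'A⟩
      obtain ⟨s, hs0, hs1, ⟨a, ha⟩, hsB⟩ := enter h hL hp r'.rray ht1 hr'A
      -- a time `t ≥ T` at which `r'` is near the line
      obtain ⟨t, b, htT, hb⟩ : ∃ t b : ℝ, T ≤ t ∧ dist (r'.c t) (ℓ b) ≤ 1 := by
        rcases le_total T s with h1 | h1
        · exact ⟨s, a, h1, by rw [ha, dist_self]; exact zero_le_one⟩
        · have hγ : ContinuousOn (fun u => σ (r'.c T) (r.c T) u) (Icc 0 1) := by
            apply LipschitzOnWith.continuousOn (K := (dist (r'.c T) (r.c T)).toNNReal)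
            apply LipschitzOnWith.of_dist_le_mul
            intro u hu v hv
            rw [h.geodesic _ _ u hu v hv, Real.coe_toNNReal _ dist_nonneg, Real.dist_eq, mul_comm]
          obtain ⟨w, hw, ⟨b, hb⟩⟩ := hL.cross zero_le_one hγ (right_mem_Icc.2 zero_le_one)
            (left_mem_Icc.2 zero_le_one)
            (by rw [h.one]; exact hrA T hTpos.le)
            (by rw [h.zero]; exact hsB T h1)
          refine ⟨T, b, le_rfl, ?_⟩
          rw [hb]
          rw [h.dist_left _ _ hw]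
          have := mul_le_mul_of_nonneg_right hw.2 (dist_nonneg (x := r'.c T) (y := r.c T))
          linarith
      have ht0 : 0 ≤ t := by linarith
      have e1 : dist p (r'.c t) = t := by
        have := r'.rray.iso 0 t le_rfl ht0
        rwa [r'.rray.zero, zero_sub, abs_neg, abs_of_nonneg ht0] at this
      have e2 : dist p (ℓ 0) ≤ K := by
        have := hx 0 le_rfl
        rwa [x.rray.zero] at this
      have e3 := hL.iso 0 b
      rw [zero_sub, abs_neg] at e3
      have e4 := dist_triangle4 p (ℓ 0) (ℓ b) (r'.c t)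
      have e5 := dist_triangle4 (ℓ 0) p (r'.c t) (ℓ b)
      rw [dist_comm (ℓ 0) p] at e5
      rw [dist_comm (ℓ b) (r'.c t)] at e4
      rcases le_total 0 b with hb0 | hb0
      · rw [abs_of_nonneg hb0] at e3
        apply prin x hδx t htT
        have e6 := hx t ht0
        have e7 := hL.iso b t
        have e8 := dist_triangle4 (r'.c t) (ℓ b) (ℓ t) (x.c t)
        rw [dist_comm (ℓ t) (x.c t)] at e8
        have e9 : |b - t| ≤ K + 1 := by rw [abs_le]; constructor <;> linarith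
        linarith
      · rw [abs_of_nonpos hb0] at e3
        apply prin y hδy t htT
        have e6 := hy t ht0
        have e7 := hL.iso b (-t)
        have e8 := dist_triangle4 (r'.c t) (ℓ b) (ℓ (-t)) (y.c t)
        rw [dist_comm (ℓ (-t)) (y.c t)] at e8
        have e9 : |b - -t| ≤ K + 1 := by rw [abs_le]; constructor <;> linarith
        linarith
    · intro he
      rw [he, dist_comm] at hr3
      linarith
    · intro he
      rw [he, dist_comm] at hr3
      linarith
  · rintro ⟨t, ht, hcon⟩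
    exact hcon (hxU t ht)
  · rintro ⟨t, ht, hcon⟩
    exact hcon (hyU t ht)

end LineSep

end Run7.h484
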