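import Pool.Agent.Run7.h484.Chain
import Pool.Agent.Run7.h484.Bicomb

/-! The limit of the discrete geodesics is a convex bicombing; consistency from local
uniqueness of straight curves. -/

namespace Run7.h484

universe u

open Filter Topology Set

/-- a convex reversible geodesic bicombing, consistency not required -/
structure PreBic {X : Type u} [MetricSpace X] (σ : X → X → ℝ → X) : Prop where
  zero : ∀ x y, σ x y 0 = x
  one : ∀ x y, σ x y 1 = y
  geodesic : ∀ x y, ∀ s ∈ Set.Icc (0 : ℝ) 1, ∀ t ∈ Set.Icc (0 : ℝ) 1,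
    dist (σ x y s) (σ x y t) = |s - t| * dist x y
  reversible : ∀ x y, ∀ t ∈ Set.Icc (0 : ℝ) 1, σ y x t = σ x y (1 - t)
  convex : ∀ x y x' y', ConvexOn ℝ (Set.Icc 0 1) fun t => dist (σ x y t) (σ x' y' t)

section limit

variable {X : Type u} [MetricSpace X] {m : X → X → X} (hm : ConMid m)

theorem IsChain'.dist_abs {N : ℕ} {x y : X} {c : ℕ → X} (hm : ConMid m)
    (hc : IsChain' m N x y c) {i j : ℕ}
    (hi : i ≤ N) (hj : j ≤ N) (hN : 0 < N) :
    dist (c i) (c j) = |(i:ℝ) / N - j / N| * dist x y := by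
  have hN' : (0:ℝ) < N := by exact_mod_cast hN
  rcases le_total i j with h | h
  · rw [hc.dist_eq hm h hj hN]
    have : (i:ℝ) ≤ j := by exact_mod_cast h
    rw [← sub_div, abs_div, abs_of_pos hN', abs_of_nonpos (by linarith)]
    ring
  · rw [dist_comm, hc.dist_eq hm h hi hN]
    have : (j:ℝ) ≤ i := by exact_mod_cast h
    rw [← sub_div, abs_div, abs_of_pos hN', abs_of_nonneg (by linarith)]

/-- the floor index -/
noncomputable def fl (t : ℝ) (n : ℕ) : ℕ := ⌊t * ((n + 1 : ℕ) : ℝ)⌋₊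

theorem fl_le {t : ℝ} (ht : t ∈ Icc (0:ℝ) 1) (n : ℕ) : fl t n ≤ n + 1 := by
  unfold fl
  apply Nat.floor_le_of_le
  have : (0:ℝ) ≤ ((n + 1 : ℕ) : ℝ) := Nat.cast_nonneg _
  exact mul_le_of_le_one_left this ht.2

theorem fl_mono {s t : ℝ} (hst : s ≤ t) (n : ℕ) : fl s n ≤ fl t n := by
  unfold fl
  apply Nat.floor_le_floor
  exact mul_le_mul_of_nonneg_right hst (Nat.cast_nonneg _)

theorem fl_tendsto {t : ℝ} (ht : 0 ≤ t) :
    Tendsto (fun n : ℕ => (fl t n : ℝ) / ((n + 1 : ℕ) : ℝ)) atTop (𝓝 t) := by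
  have h1 : Tendsto (fun x : ℝ => (⌊t * x⌋₊ : ℝ) / x) atTop (𝓝 t) :=
    tendsto_nat_floor_mul_div_atTop ht
  have h2 : Tendsto (fun n : ℕ => ((n + 1 : ℕ) : ℝ)) atTop atTop :=
    tendsto_natCast_atTop_atTop.comp (tendsto_add_atTop_nat 1)
  exact h1.comp h2

/-- the ultrafilter -/
noncomputable abbrev UF : Filter ℕ := (hyperfilter ℕ : Ultrafilter ℕ)

theorem UF_le : UF ≤ atTop := by
  have := Nat.hyperfilter_le_atTop
  exact this

variable [ProperSpace X]

/-- chosen discrete geodesics -/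
noncomputable def ch (n : ℕ) (x y : X) : ℕ → X := (exists_chain hm (Nat.succ_pos n) x y).choose

theorem ch_spec (n : ℕ) (x y : X) : IsChain' m (n + 1) x y (ch hm n x y) :=
  (exists_chain hm (Nat.succ_pos n) x y).choose_spec

theorem exists_lim (x y : X) {t : ℝ} (ht : t ∈ Icc (0:ℝ) 1) :
    ∃ z, Tendsto (fun n => ch hm n x y (fl t n)) UF (𝓝 z) := by
  have hK : IsCompact (Metric.closedBall x (dist x y)) := isCompact_closedBall _ _
  have hmem : ∀ n, ch hm n x y (fl t n) ∈ Metric.closedBall x (dist x y) := by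
    intro n
    rw [Metric.mem_closedBall, dist_comm]
    have h1 := (ch_spec hm n x y).dist_abs hm (Nat.zero_le _) (fl_le ht n) (Nat.succ_pos n)
    rw [(ch_spec hm n x y).zero] at h1
    rw [h1]
    have h2 : |((0:ℕ):ℝ) / ((n + 1 : ℕ) : ℝ) - (fl t n : ℝ) / ((n + 1 : ℕ) : ℝ)| ≤ 1 := by
      have h3 : (fl t n : ℝ) / ((n + 1 : ℕ) : ℝ) ≤ 1 := by
        rw [div_le_one (by positivity)]
        exact_mod_cast fl_le ht n
      have h4 : 0 ≤ (fl t n : ℝ) / ((n + 1 : ℕ) : ℝ) := by positivity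
      rw [Nat.cast_zero, zero_div, zero_sub, abs_neg, abs_of_nonneg h4]
      exact h3
    calc _ ≤ 1 * dist x y := mul_le_mul_of_nonneg_right h2 dist_nonneg
      _ = dist x y := one_mul _
  obtain ⟨z, -, hz⟩ := hK.ultrafilter_le_nhds' ((hyperfilter ℕ).map fun n => ch hm n x y (fl t n))
    (Filter.mem_map.2 (Filter.univ_mem' hmem))
  exact ⟨z, hz⟩

open Classical in
/-- the limit bicombing -/
noncomputable def lb (x y : X) (t : ℝ) : X :=
  if ht : t ∈ Icc (0:ℝ) 1 then (exists_lim hm x y ht).choose else x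

theorem lb_tendsto (x y : X) {t : ℝ} (ht : t ∈ Icc (0:ℝ) 1) :
    Tendsto (fun n => ch hm n x y (fl t n)) UF (𝓝 (lb hm x y t)) := by
  unfold lb
  rw [dif_pos ht]
  exact (exists_lim hm x y ht).choose_spec

theorem lb_preBic : PreBic (lb hm) where
  zero x y := by
    apply tendsto_nhds_unique (lb_tendsto hm x y (left_mem_Icc.2 zero_le_one))
    have : (fun n => ch hm n x y (fl 0 n)) = fun _ => x := by
      funext n
      unfold fl
      rw [zero_mul, Nat.floor_zero, (ch_spec hm n x y).zero]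
    rw [this]
    exact tendsto_const_nhds
  one x y := by
    apply tendsto_nhds_unique (lb_tendsto hm x y (right_mem_Icc.2 zero_le_one))
    have : (fun n => ch hm n x y (fl 1 n)) = fun _ => y := by
      funext n
      unfold fl
      rw [one_mul, Nat.floor_natCast, (ch_spec hm n x y).last]
    rw [this]
    exact tendsto_const_nhds
  geodesic x y s hs t ht := by
    have h1 := (lb_tendsto hm x y hs).dist (lb_tendsto hm x y ht)
    have h2 : Tendsto (fun n : ℕ => |(fl s n : ℝ) / ((n + 1 : ℕ) : ℝ) -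
        (fl t n : ℝ) / ((n + 1 : ℕ) : ℝ)| * dist x y) UF (𝓝 (|s - t| * dist x y)) :=
      ((((fl_tendsto hs.1).sub (fl_tendsto ht.1)).abs).mul_const _).mono_left UF_le
    apply tendsto_nhds_unique h1
    refine h2.congr fun n => ?_
    rw [(ch_spec hm n x y).dist_abs hm (fl_le hs n) (fl_le ht n) (Nat.succ_pos n)]
  reversible x y t ht := by
    have ht' : 1 - t ∈ Icc (0:ℝ) 1 := ⟨by linarith [ht.2], by linarith [ht.1]⟩
    have h1 := lb_tendsto hm y x ht
    have h2 := lb_tendsto hm x y ht'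
    apply dist_le_zero.1
    have h3 : Tendsto (fun n : ℕ => |(1 - (fl t n : ℝ) / ((n + 1 : ℕ) : ℝ)) -
        (fl (1 - t) n : ℝ) / ((n + 1 : ℕ) : ℝ)| * dist x y) UF
          (𝓝 (|(1 - t) - (1 - t)| * dist x y)) :=
      ((((tendsto_const_nhds.sub (fl_tendsto ht.1)).sub (fl_tendsto ht'.1)).abs).mul_const
        _).mono_left UF_le
    rw [sub_self, abs_zero, zero_mul] at h3
    refine le_of_tendsto_of_tendsto (h1.dist h2) h3 (Eventually.of_forall fun n => ?_)
    have e1 : ch hm n y x (fl t n) = ch hm n x y (n + 1 - fl t n) :=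
      (ch_spec hm n y x).unique hm ((ch_spec hm n x y).rev hm) (fl_le ht n)
    simp only
    rw [e1, (ch_spec hm n x y).dist_abs hm (Nat.sub_le _ _) (fl_le ht' n) (Nat.succ_pos n)]
    apply le_of_eq
    congr 3
    rw [Nat.cast_sub (fl_le ht n), sub_div, div_self]
    positivity
  convex x y x' y' := by
    apply LinearOrder.convexOn_of_lt (convex_Icc 0 1)
    intro a ha b hb hab l k hl hk hlk
    set t := l • a + k • b with ht
    simp only [smul_eq_mul] at ht
    have hat : a ≤ t := by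
      have : t - a = k * (b - a) := by rw [ht]; linear_combination a * hlk
      have := mul_pos hk (sub_pos.2 hab)
      linarith
    have htb : t ≤ b := by
      have : b - t = l * (b - a) := by rw [ht]; linear_combination (-b) * hlk
      have := mul_pos hl (sub_pos.2 hab)
      linarith
    have htI : t ∈ Icc (0:ℝ) 1 := ⟨ha.1.trans hat, htb.trans hb.2⟩
    have hA := (lb_tendsto hm x y ha).dist (lb_tendsto hm x' y' ha)
    have hB := (lb_tendsto hm x y hb).dist (lb_tendsto hm x' y' hb)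
    have hT := (lb_tendsto hm x y htI).dist (lb_tendsto hm x' y' htI)
    have fa := (fl_tendsto ha.1).mono_left UF_le
    have fb := (fl_tendsto hb.1).mono_left UF_le
    have ft := (fl_tendsto htI.1).mono_left UF_le
    have hL := (fb.sub fa).mul hT
    have hR := ((fb.sub ft).mul hA).add ((ft.sub fa).mul hB)
    have key := le_of_tendsto_of_tendsto hL hR (Eventually.of_forall fun n => by
      have h1 := ((ch_spec hm n x y).dconv hm (ch_spec hm n x' y')).three (fl_mono hat n)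
        (fl_mono htb n) (fl_le hb n)
      have hN : (0:ℝ) < ((n + 1 : ℕ) : ℝ) := by positivity
      simp only at h1 ⊢
      rw [← sub_div, ← sub_div, ← sub_div, div_mul_eq_mul_div, div_mul_eq_mul_div,
        div_mul_eq_mul_div, ← add_div]
      exact div_le_div_of_nonneg_right h1 hN.le)
    have e1 : b - t = l * (b - a) := by rw [ht]; linear_combination (-b) * hlk
    have e2 : t - a = k * (b - a) := by rw [ht]; linear_combination a * hlk
    rw [e1, e2] at key
    have hba : 0 < b - a := sub_pos.2 hab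
    simp only [smul_eq_mul]
    nlinarith [key, hba]

end limit

/-! ### Straight curves -/

section straight

variable {X : Type u} [MetricSpace X]

/-- straight curves on `[0,1]` -/
structure Straight (γ : ℝ → X) : Prop where
  geo : ∀ s ∈ Icc (0:ℝ) 1, ∀ t ∈ Icc (0:ℝ) 1, dist (γ s) (γ t) = |s - t| * dist (γ 0) (γ 1)
  conv : ∀ z, ConvexOn ℝ (Icc 0 1) fun t => dist (γ t) z

/-- local uniqueness of straight curves through a point -/
def LocUniq (X : Type u) [MetricSpace X] : Prop :=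
  ∀ m₀ : X, ∃ ε > 0, ∀ a b : X, dist a m₀ < ε → dist b m₀ < ε →
    (∀ z, 2 * dist m₀ z ≤ dist a z + dist b z) →
    ∀ β : ℝ → X, Straight β → β 0 = a → β 1 = b → β (1 / 2) = m₀

theorem Straight.sub {γ : ℝ → X} (h : Straight γ) {s t : ℝ} (hs : s ∈ Icc (0:ℝ) 1)
    (ht : t ∈ Icc (0:ℝ) 1) : Straight fun l => γ ((1 - l) * s + l * t) := by
  have hmem : ∀ l ∈ Icc (0:ℝ) 1, (1 - l) * s + l * t ∈ Icc (0:ℝ) 1 := by
    intro l hl
    have h1 := mul_nonneg (sub_nonneg.2 hl.2) hs.1
    have h2 := mul_nonneg hl.1 ht.1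
    have h3 := mul_le_mul_of_nonneg_left hs.2 (sub_nonneg.2 hl.2)
    have h4 := mul_le_mul_of_nonneg_left ht.2 hl.1
    constructor <;> linarith
  refine ⟨?_, ?_⟩
  · intro l hl k hk
    rw [h.geo _ (hmem l hl) _ (hmem k hk), h.geo _ (hmem 0 (left_mem_Icc.2 zero_le_one)) _
      (hmem 1 (right_mem_Icc.2 zero_le_one)), ← mul_assoc, ← abs_mul]
    have : (1 - l) * s + l * t - ((1 - k) * s + k * t) =
        (l - k) * ((1 - 1) * s + 1 * t) - (l - k) * ((1 - 0) * s + 0 * t) := by ring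
    rw [this, ← mul_sub, ← abs_neg, ← mul_neg, neg_sub]
  · intro z
    refine ⟨convex_Icc 0 1, ?_⟩
    intro l hl k hk a b ha hb hab
    have h1 := (h.conv z).2 (hmem l hl) (hmem k hk) ha hb hab
    have e : a • ((1 - l) * s + l * t) + b • ((1 - k) * s + k * t) =
        (1 - (a • l + b • k)) * s + (a • l + b • k) * t := by
      simp only [smul_eq_mul]
      linear_combination s * hab
    rw [e] at h1
    exact h1

theorem Straight.cont {γ : ℝ → X} (h : Straight γ) : ContinuousOn γ (Icc 0 1) := by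
  apply LipschitzOnWith.continuousOn (K := (dist (γ 0) (γ 1)).toNNReal)
  apply LipschitzOnWith.of_dist_le_mul
  intro s hs t ht
  rw [h.geo s hs t ht, Real.coe_toNNReal _ dist_nonneg, Real.dist_eq, mul_comm]

variable {σ : X → X → ℝ → X}

theorem PreBic.const (h : PreBic σ) (x : X) {t : ℝ} (ht : t ∈ Icc (0:ℝ) 1) : σ x x t = x := by
  have := h.geodesic x x 0 (left_mem_Icc.2 zero_le_one) t ht
  rw [h.zero, dist_self, mul_zero] at this
  exact (dist_eq_zero.1 this).symm

theorem PreBic.straight (h : PreBic σ) (x y : X) : Straight (σ x y) := by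
  refine ⟨?_, ?_⟩
  · intro s hs t ht
    rw [h.geodesic x y s hs t ht, h.zero, h.one]
  · intro z
    have h1 := h.convex x y z z
    apply h1.congr
    intro t ht
    simp only
    rw [h.const z ht]

theorem PreBic.half (h : PreBic σ) (x y x' y' : X) :
    dist (σ x y (1 / 2)) (σ x' y' (1 / 2)) ≤ (dist x x' + dist y y') / 2 := by
  have h1 := (h.convex x y x' y').2 (left_mem_Icc.2 zero_le_one) (right_mem_Icc.2 zero_le_one)
    (by norm_num : (0:ℝ) ≤ 1 / 2) (by norm_num : (0:ℝ) ≤ 1 / 2) (by norm_num)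
  simp only [smul_eq_mul, mul_zero, mul_one, zero_add] at h1
  rw [h.zero, h.zero, h.one, h.one] at h1
  linarith

/-- a straight curve is locally given by the bicombing -/
theorem Straight.loc (hL : LocUniq X) (h : PreBic σ) {γ : ℝ → X} (hγ : Straight γ) {t₀ : ℝ}
    (ht₀ : t₀ ∈ Ioo (0:ℝ) 1) : ∃ δ₀ > 0, ∀ δ, 0 < δ → δ < δ₀ →
      γ t₀ = σ (γ (t₀ - δ)) (γ (t₀ + δ)) (1 / 2) := by
  obtain ⟨ε, hε, hu⟩ := hL (γ t₀)
  set D := dist (γ 0) (γ 1) with hD
  have hD0 : 0 ≤ D := dist_nonneg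
  refine ⟨min (min t₀ (1 - t₀)) (ε / (D + 1)), lt_min (lt_min ht₀.1 (by linarith [ht₀.2]))
    (by positivity), fun δ hδ hδ' => ?_⟩
  have h1 : δ < t₀ := hδ'.trans_le ((min_le_left _ _).trans (min_le_left _ _))
  have h2 : δ < 1 - t₀ := hδ'.trans_le ((min_le_left _ _).trans (min_le_right _ _))
  have h3 : δ < ε / (D + 1) := hδ'.trans_le (min_le_right _ _)
  rw [lt_div_iff₀ (by linarith)] at h3
  have m0 : t₀ ∈ Icc (0:ℝ) 1 := ⟨ht₀.1.le, ht₀.2.le⟩
  have m1 : t₀ - δ ∈ Icc (0:ℝ) 1 := ⟨by linarith, by linarith⟩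
  have m2 : t₀ + δ ∈ Icc (0:ℝ) 1 := ⟨by linarith [ht₀.1], by linarith⟩
  have d1 : dist (γ (t₀ - δ)) (γ t₀) < ε := by
    rw [hγ.geo _ m1 _ m0, ← hD, show t₀ - δ - t₀ = -δ by ring, abs_neg, abs_of_pos hδ]
    linarith
  have d2 : dist (γ (t₀ + δ)) (γ t₀) < ε := by
    rw [hγ.geo _ m2 _ m0, ← hD, show t₀ + δ - t₀ = δ by ring, abs_of_pos hδ]
    linarith
  symm
  apply hu _ _ d1 d2 _ _ (h.straight _ _) (h.zero _ _) (h.one _ _)
  intro z
  have h4 := (hγ.conv z).2 m1 m2 (by norm_num : (0:ℝ) ≤ 1 / 2) (by norm_num : (0:ℝ) ≤ 1 / 2)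
    (by norm_num)
  simp only [smul_eq_mul] at h4
  rw [show 1 / 2 * (t₀ - δ) + 1 / 2 * (t₀ + δ) = t₀ by ring] at h4
  linarith

/-- uniqueness of straight curves -/
theorem Straight.unique (hL : LocUniq X) (h : PreBic σ) {γ γ' : ℝ → X} (hγ : Straight γ)
    (hγ' : Straight γ') (h0 : γ 0 = γ' 0) (h1 : γ 1 = γ' 1) {t : ℝ} (ht : t ∈ Icc (0:ℝ) 1) :
    γ t = γ' t := by
  set f : ℝ → ℝ := fun t => dist (γ t) (γ' t) with hf
  have hfc : ContinuousOn f (Icc 0 1) :=
    continuous_dist.comp_continuousOn (ContinuousOn.prodMk hγ.cont hγ'.cont)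
  obtain ⟨t₁, ht₁, hmax⟩ := isCompact_Icc.exists_isMaxOn (nonempty_Icc.2 zero_le_one) hfc
  by_contra hne
  have hpos : 0 < f t₁ := (dist_pos.2 hne).trans_le (hmax ht)
  -- the smallest maximum point
  set S : Set ℝ := Icc 0 1 ∩ f ⁻¹' {f t₁} with hS
  have hSc : IsCompact S := by
    apply isCompact_Icc.of_isClosed_subset _ inter_subset_left
    exact hfc.preimage_isClosed_of_isClosed isClosed_Icc isClosed_singleton
  have hSne : S.Nonempty := ⟨t₁, ht₁, rfl⟩
  obtain ⟨t₀, ht₀S, ht₀⟩ := hSc.exists_isLeast hSne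
  have hft₀ : f t₀ = f t₁ := ht₀S.2
  have ht₀1 : t₀ ∈ Ioo (0:ℝ) 1 := by
    constructor
    · rcases eq_or_lt_of_le ht₀S.1.1 with h2 | h2
      · exfalso
        rw [← hft₀, ← h2, hf] at hpos
        simp only [h0, dist_self, lt_irrefl] at hpos
      · exact h2
    · rcases eq_or_lt_of_le ht₀S.1.2 with h2 | h2
      · exfalso
        rw [← hft₀, h2, hf] at hpos
        simp only [h1, dist_self, lt_irrefl] at hpos
      · exact h2
  obtain ⟨δ₁, hδ₁, hu₁⟩ := hγ.loc hL h ht₀1
  obtain ⟨δ₂, hδ₂, hu₂⟩ := hγ'.loc hL h ht₀1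
  obtain ⟨δ, hδ0, hδ⟩ := exists_between (lt_min (lt_min hδ₁ hδ₂)
    (lt_min ht₀1.1 (sub_pos.2 ht₀1.2)))
  have b1 : δ < δ₁ := hδ.trans_le ((min_le_left _ _).trans (min_le_left _ _))
  have b2 : δ < δ₂ := hδ.trans_le ((min_le_left _ _).trans (min_le_right _ _))
  have b3 : δ < t₀ := hδ.trans_le ((min_le_right _ _).trans (min_le_left _ _))
  have b4 : δ < 1 - t₀ := hδ.trans_le ((min_le_right _ _).trans (min_le_right _ _))
  have m1 : t₀ - δ ∈ Icc (0:ℝ) 1 := ⟨by linarith, by linarith [ht₀1.2]⟩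
  have m2 : t₀ + δ ∈ Icc (0:ℝ) 1 := ⟨by linarith [ht₀1.1], by linarith⟩
  have k1 : f t₀ ≤ (f (t₀ - δ) + f (t₀ + δ)) / 2 := by
    show dist (γ t₀) (γ' t₀) ≤ _
    rw [hu₁ δ hδ0 b1, hu₂ δ hδ0 b2]
    exact h.half _ _ _ _
  have k2 : f (t₀ + δ) ≤ f t₁ := hmax m2
  have k3 : f (t₀ - δ) ≤ f t₁ := hmax m1
  have k4 : f (t₀ - δ) = f t₁ := by linarith
  have := ht₀ ⟨m1, k4⟩
  linarith

/-- local uniqueness gives consistency -/
theorem PreBic.isBicombing (hL : LocUniq X) (h : PreBic σ) : IsBicombing σ where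
  zero := h.zero
  one := h.one
  geodesic := h.geodesic
  reversible := h.reversible
  convex := h.convex
  consistent x y s hs t ht _ l hl := by
    have h1 := (h.straight x y).sub hs ht
    have h2 := h.straight (σ x y s) (σ x y t)
    have := Straight.unique hL h h2 h1 (by rw [h.zero]; simp) (by rw [h.one]; simp) hl
    exact this

end straight

/-- existence of bicombings -/
theorem exists_bicombing {X : Type u} [MetricSpace X] [ProperSpace X] {m : X → X → X}
    (hm : ConMid m) (hL : LocUniq X) : ∃ σ : X → X → ℝ → X, IsBicombing σ :=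
  ⟨lb hm, (lb_preBic hm).isBicombing hL⟩

end Run7.h484
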