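import Pool.Agent.Run7.h484.Rz

/-! Local structure of the tree of planes; properness. -/

namespace Run7.h484

universe u

open Set Filter Topology

theorem par_mul_of (w : Pl) (e : Letter) (b : Bool) :
    par b (w * W.of e).val = par b w.val + if e.1 = b then 1 else 0 := by
  have key : ∀ (l : List Letter), par b (l ++ [e]) = par b l + if e.1 = b then 1 else 0 := by
    intro l
    by_cases he : e.1 = b
    · rw [if_pos he, ← he, par_snoc_same]
    · rw [if_neg he, add_zero, par_snoc_ne l e b he]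
  rcases W.dichotomy w e with h | h
  · rw [h, key]
  · conv_rhs => rw [h, key]
    by_cases he : e.1 = b
    · rw [if_pos he, add_assoc]
      have : (1 : ZMod 2) + 1 = 0 := by decide
      rw [this, add_zero]
    · rw [if_neg he, add_zero, add_zero]

/-- facts about a model used in the local analysis -/
structure LocModel (M : Model) : Prop where
  lo1 : ∀ z z', |z.1 - z'.1| ≤ M.N z z'
  lo2 : ∀ z z', |z.2 - z'.2| ≤ M.N z z'
  hi : ∀ z z', M.N z z' ≤ |z.1 - z'.1| + |z.2 - z'.2|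
  near : ∀ S : M.St, ∃ g, ∀ z, M.ev S g ≤ M.ev S z
  line_inj : ∀ (e e' : Letter) (z : ℝ × ℝ), z ∈ M.line e → z ∈ M.line e' → e.1 = e'.1 → e = e'
  fin : ∀ (R : ℝ), {w : Pl | w ∈ VP ∧ ∃ z', dist (⟨1, (0, 0)⟩ : Pt M) ⟨w, z'⟩ ≤ R}.Finite

section local_

variable {M : Model} {Y : Type u} [MetricSpace Y] (R : Rz M Y) (hM : LocModel M)
include hM

theorem pt_inj {w w' : Pl} {hw : w ∈ VP} {hw' : w' ∈ VP} {z z' : ℝ × ℝ}
    (h : R.pt w hw z = R.pt w' hw' z') : z = z' := by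
  have h1 := R.N_le_dist ⟨⟨w, z⟩, hw⟩ ⟨⟨w', z'⟩, hw'⟩
  have h2 : M.N z z' ≤ dist (R.pt w hw z) (R.pt w' hw' z') := h1
  rw [h, dist_self] at h2
  have e1 := abs_nonpos_iff.1 ((hM.lo1 z z').trans h2)
  have e2 := abs_nonpos_iff.1 ((hM.lo2 z z').trans h2)
  ext <;> linarith

/-- a plane as a subset -/
def flatM (R : Rz M Y) (w : VP) : Set Y := range fun z => R.pt w.1 w.2 z

theorem flatM_closed (w : VP) : IsClosed (flatM R w) := by
  apply isClosed_of_closure_subset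
  intro y hy
  obtain ⟨ξ, rfl⟩ := R.exists_pt y
  obtain ⟨g, hg⟩ := hM.near (Pt.S w.1 ξ.1)
  refine ⟨g, ?_⟩
  symm
  apply dist_le_zero.1
  apply le_of_forall_pos_le_add
  intro ε hε
  obtain ⟨x, ⟨z, rfl⟩, hx⟩ := Metric.mem_closure_iff.1 hy ε hε
  simp only at hx ⊢
  rw [R.dist_ι_pt, Pt.dist_mk] at hx ⊢
  linarith [hg z]

omit hM in
theorem mem_some_flatM (y : Y) : ∃ w : VP, y ∈ flatM R w := by
  obtain ⟨ξ, rfl⟩ := R.exists_pt y
  exact ⟨⟨ξ.1.pl, ξ.2⟩, ξ.1.pos, rfl⟩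

theorem fin_near (y : Y) (r : ℝ) : {w : VP | ∃ z, dist y (R.pt w.1 w.2 z) ≤ r}.Finite := by
  have hf := hM.fin (dist (R.pt 1 one_mem_VP (0, 0)) y + r)
  apply Set.Finite.of_finite_image (f := Subtype.val) _ Subtype.val_injective.injOn
  apply hf.subset
  rintro _ ⟨w, ⟨z, hz⟩, rfl⟩
  refine ⟨w.2, z, ?_⟩
  rw [← R.dist_pt 1 w.1 one_mem_VP w.2]
  have := dist_triangle (R.pt 1 one_mem_VP (0, 0)) y (R.pt w.1 w.2 z)
  linarith

include R in
theorem Rz.proper : ProperSpace Y := by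
  have hcont : ∀ w : VP, Continuous fun z : ℝ × ℝ => R.pt w.1 w.2 z := by
    intro w
    apply LipschitzWith.continuous (K := 2)
    apply LipschitzWith.of_dist_le_mul
    intro z z'
    rw [R.dist_same]
    have h1 := hM.hi z z'
    have h2 : dist z z' = max (dist z.1 z'.1) (dist z.2 z'.2) := rfl
    rw [h2, Real.dist_eq, Real.dist_eq]
    have h3 := le_max_left |z.1 - z'.1| |z.2 - z'.2|
    have h4 := le_max_right |z.1 - z'.1| |z.2 - z'.2|
    have h5 : ((2 : NNReal) : ℝ) = 2 := rfl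
    rw [h5]
    linarith
  have hball : ∀ r : ℝ, IsCompact (Metric.closedBall (R.pt 1 one_mem_VP (0, 0)) r) := by
    intro r
    have hF := fin_near R hM (R.pt 1 one_mem_VP (0, 0)) r
    have hK : IsCompact (⋃ w ∈ {w : VP | ∃ z, dist (R.pt 1 one_mem_VP (0, 0))
        (R.pt w.1 w.2 z) ≤ r}, (fun z : ℝ × ℝ => R.pt w.1 w.2 z) ''
          Metric.closedBall ((0, 0) : ℝ × ℝ) r) :=
      hF.isCompact_biUnion fun w _ => (isCompact_closedBall _ _).image (hcont w)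
    apply hK.of_isClosed_subset Metric.isClosed_closedBall
    intro y hy
    rw [Metric.mem_closedBall, dist_comm] at hy
    obtain ⟨w, z, rfl⟩ := mem_some_flatM R y
    simp only at hy
    refine mem_iUnion₂.2 ⟨w, ⟨z, hy⟩, z, ?_, rfl⟩
    rw [Metric.mem_closedBall, dist_comm]
    have h1 := R.N_le_dist ⟨⟨1, (0, 0)⟩, one_mem_VP⟩ ⟨⟨w.1, z⟩, w.2⟩
    have h2 : M.N (0, 0) z ≤ dist (R.pt 1 one_mem_VP (0, 0)) (R.pt w.1 w.2 z) := h1
    have h3 := hM.lo1 (0, 0) z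
    have h4 := hM.lo2 (0, 0) z
    have h5 : dist ((0, 0) : ℝ × ℝ) z = max (dist (0:ℝ) z.1) (dist (0:ℝ) z.2) := rfl
    rw [h5, Real.dist_eq, Real.dist_eq]
    exact max_le (by linarith) (by linarith)
  refine ⟨fun x r => ?_⟩
  apply (hball (r + dist x (R.pt 1 one_mem_VP (0, 0)))).of_isClosed_subset
    Metric.isClosed_closedBall
  exact Metric.closedBall_subset_closedBall' (le_refl _)

/-- near a point, all planes pass through the point -/
theorem near_planes (m₀ : Y) : ∃ ε > 0, ∀ a : Y, dist a m₀ < ε →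
    ∃ w : VP, a ∈ flatM R w ∧ m₀ ∈ flatM R w := by
  set F : Set VP := {w : VP | ∃ z, dist m₀ (R.pt w.1 w.2 z) ≤ 1} with hF
  set F' : Set VP := {w ∈ F | m₀ ∉ flatM R w} with hF'
  have hfin : F'.Finite := (fin_near R hM m₀ 1).subset fun w hw => hw.1
  have hcl : IsClosed (⋃ w ∈ F', flatM R w) :=
    hfin.isClosed_biUnion fun w _ => flatM_closed R hM w
  have hnot : m₀ ∉ ⋃ w ∈ F', flatM R w := by
    intro hcon
    obtain ⟨w, hw, hm⟩ := mem_iUnion₂.1 hcon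
    exact hw.2 hm
  obtain ⟨ε, hε, hb⟩ := Metric.isOpen_iff.1 hcl.isOpen_compl m₀ hnot
  refine ⟨min ε 1, lt_min hε one_pos, fun a ha => ?_⟩
  obtain ⟨w, z, rfl⟩ := mem_some_flatM R a
  refine ⟨w, ⟨z, rfl⟩, ?_⟩
  by_contra hcon
  have hwF : w ∈ F := ⟨z, by rw [dist_comm]; exact (ha.trans_le (min_le_right _ _)).le⟩
  have h1 : R.pt w.1 w.2 z ∈ (⋃ w ∈ F', flatM R w)ᶜ := hb (by
    rw [Metric.mem_ball]; exact ha.trans_le (min_le_left _ _))
  exact h1 (mem_iUnion₂.2 ⟨w, ⟨hwF, hcon⟩, z, rfl⟩)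

/-- moving one step towards another plane through the same point -/
theorem step_plane {w w' : VP} {e : Letter} {L : List Letter}
    (hL : ((w:Pl)⁻¹ * w').val = e :: L) {z z' : ℝ × ℝ}
    (hz : R.pt w.1 w.2 z = R.pt w'.1 w'.2 z') :
    z ∈ M.line e ∧ ∃ hV : (w:Pl) * W.of e ∈ VP, R.pt w.1 w.2 z = R.pt _ hV z ∧
      (((w:Pl) * W.of e)⁻¹ * w').val = L := by
  obtain ⟨y, hy, hye⟩ := W.eq_of_mul hL
  have hval : (((w:Pl) * W.of e)⁻¹ * w').val = L := by
    have : ((w:Pl) * W.of e)⁻¹ * w' = y := by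
      rw [mul_inv_rev, W.of_inv, mul_assoc, hye, ← mul_assoc, W.of_mul_of, one_mul]
    rw [this, hy]
  have hB : R.pt w'.1 w'.2 z' ∈ R.B w.1 e := by
    apply R.pt_mem_B
    have e1 : (w'.1)⁻¹ * w.1 = y⁻¹ * W.of e := by
      have : (w'.1)⁻¹ * w.1 = ((w.1)⁻¹ * w'.1)⁻¹ := by group
      rw [this, hye, mul_inv_rev, W.of_inv]
    have e2 : (w'.1)⁻¹ * w.1 * W.of e = y⁻¹ := by rw [e1, W.mul_of_mul_of]
    rw [e2]
    have e3 : ((w'.1)⁻¹ * w.1).val = (((w.1)⁻¹ * w'.1).val).reverse := by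
      rw [← W.inv_val]; congr 1; group
    rw [e3, hL, W.inv_val, hy]
    simp
  obtain ⟨q, hq, hd⟩ := R.cross_AB w.2 (R.pt_self_mem_A w.2 z) hB
  rw [← hz, dist_self] at hd
  have h1 : R.pt w.1 w.2 z = R.pt w.1 w.2 q := by
    apply dist_le_zero.1
    linarith [dist_nonneg (x := R.pt w.1 w.2 q) (y := R.pt w.1 w.2 z)]
  have h2 := pt_inj R hM h1
  subst h2
  have hV := VP_convex w.2 w'.2 hL
  exact ⟨hq, hV, R.glue w.1 w.2 e hV hq, hval⟩

/-- the three local configurations -/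
theorem local_cases (m₀ : Y) : ∃ ε > 0, ∀ a b : Y, dist a m₀ < ε → dist b m₀ < ε →
    (∃ (w : VP) (za zb z₀ : ℝ × ℝ), a = R.pt w.1 w.2 za ∧ b = R.pt w.1 w.2 zb ∧
      m₀ = R.pt w.1 w.2 z₀) ∨
    (∃ (w w' : VP) (e : Letter) (za zb z₀ : ℝ × ℝ), w'.1 = w.1 * W.of e ∧ z₀ ∈ M.line e ∧
      a = R.pt w.1 w.2 za ∧ b = R.pt w'.1 w'.2 zb ∧ m₀ = R.pt w.1 w.2 z₀) ∨
    (∃ (w w₁ w₂ : VP) (e₁ e₂ : Letter) (za zb z₀ : ℝ × ℝ), w₁.1 = w.1 * W.of e₁ ∧
      w₂.1 = w.1 * W.of e₂ ∧ e₁.1 ≠ e₂.1 ∧ z₀ ∈ M.line e₁ ∧ z₀ ∈ M.line e₂ ∧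
      a = R.pt w₁.1 w₁.2 za ∧ b = R.pt w₂.1 w₂.2 zb ∧ m₀ = R.pt w.1 w.2 z₀) := by
  obtain ⟨ε, hε, hnear⟩ := near_planes R hM m₀
  refine ⟨ε, hε, fun a b ha hb => ?_⟩
  obtain ⟨wa, ⟨za, rfl⟩, ⟨z₀, hz₀⟩⟩ := hnear a ha
  obtain ⟨wb, ⟨zb, rfl⟩, ⟨z₀', hz₀'⟩⟩ := hnear b hb
  simp only at hz₀ hz₀'
  have hzz : R.pt wa.1 wa.2 z₀ = R.pt wb.1 wb.2 z₀' := by rw [hz₀, hz₀']
  rcases hL : ((wa:Pl)⁻¹ * wb).val with _ | ⟨e₁, L⟩
  · left
    have h1 : (wa:Pl)⁻¹ * wb = 1 := W.ext hL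
    have h2 : wa = wb := Subtype.ext (inv_mul_eq_one.1 h1)
    subst h2
    exact ⟨wa, za, zb, z₀, rfl, rfl, hz₀.symm⟩
  · obtain ⟨hl1, hV1, hg1, hval1⟩ := step_plane R hM hL hzz
    rcases L with _ | ⟨e₂, L⟩
    · right; left
      have h1 : ((wa:Pl) * W.of e₁)⁻¹ * wb = 1 := W.ext hval1
      have h2 : (wb:Pl) = wa * W.of e₁ := (inv_mul_eq_one.1 h1).symm
      exact ⟨wa, wb, e₁, za, zb, z₀, h2, hl1, rfl, rfl, hz₀.symm⟩
    · set w : VP := ⟨(wa:Pl) * W.of e₁, hV1⟩ with hw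
      have hzz1 : R.pt w.1 w.2 z₀ = R.pt wb.1 wb.2 z₀' := by rw [← hzz, hg1]
      obtain ⟨hl2, hV2, hg2, hval2⟩ := step_plane R hM (w := w) hval1 hzz1
      have hne12 : e₁ ≠ e₂ := by
        have := ((wa:Pl)⁻¹ * wb).red
        rw [hL, red_cons_cons] at this
        exact this.1
      have hty12 : e₁.1 ≠ e₂.1 := fun h => hne12 (hM.line_inj _ _ z₀ hl1 hl2 h)
      have hwa : wa.1 = w.1 * W.of e₁ := (W.mul_of_mul_of _ _).symm
      rcases L with _ | ⟨e₃, L⟩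
      · right; right
        have h1 : ((w:Pl) * W.of e₂)⁻¹ * wb = 1 := W.ext hval2
        have h2 : (wb:Pl) = w * W.of e₂ := (inv_mul_eq_one.1 h1).symm
        refine ⟨w, wa, wb, e₁, e₂, za, zb, z₀, hwa, h2, hty12, hl1, hl2, rfl, rfl, ?_⟩
        rw [← hz₀]; exact hg1
      · exfalso
        set w₂ : VP := ⟨(w:Pl) * W.of e₂, hV2⟩ with hw₂
        have hzz2 : R.pt w₂.1 w₂.2 z₀ = R.pt wb.1 wb.2 z₀' := by rw [← hzz1, hg2]
        obtain ⟨hl3, hV3, -, -⟩ := step_plane R hM (w := w₂) hval2 hzz2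
        have hne23 : e₂ ≠ e₃ := by
          have := ((wa:Pl)⁻¹ * wb).red
          rw [hL, red_cons_cons, red_cons_cons] at this
          exact this.2.1
        have hty23 : e₂.1 ≠ e₃.1 := fun h => hne23 (hM.line_inj _ _ z₀ hl2 hl3 h)
        have hty13 : e₁.1 = e₃.1 := by
          revert hty12 hty23
          cases e₁.1 <;> cases e₂.1 <;> cases e₃.1 <;> simp
        have he13 : e₁ = e₃ := hM.line_inj _ _ z₀ hl1 hl3 hty13
        subst he13
        -- parities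
        have a1 : Av w.1 e₁ := (mem_VP_mul_of w.2 e₁).1 (by rw [← hwa]; exact wa.2)
        have a2 : Av w₂.1 e₁ := (mem_VP_mul_of w₂.2 e₁).1 hV3
        unfold Av at a1 a2
        have p1 := par_mul_of w.1 e₂ false
        have p2 := par_mul_of w.1 e₂ true
        have q1 : par false w₂.1.val = par false (w.1 * W.of e₂).val := rfl
        have q2 : par true w₂.1.val = par true (w.1 * W.of e₂).val := rfl
        rw [q1, q2, p1, p2] at a2
        rcases e₁ with ⟨_ | _, k⟩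
        · have h2 : e₂.1 = true := by
            revert hty12; cases e₂.1 <;> simp
          simp only [Ok] at a1 a2
          rw [h2, if_pos rfl, ← a1] at a2
          have : (1 : ZMod 2) = 0 := by
            have := a2
            exact (left_eq_add.1 this)
          exact absurd this (by decide)
        · have h2 : e₂.1 = false := by
            revert hty12; cases e₂.1 <;> simp
          simp only [Ok] at a1 a2
          rw [h2, if_pos rfl, ← a1] at a2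
          have : (1 : ZMod 2) = 0 := by
            have := a2
            exact (left_eq_add.1 this)
          exact absurd this (by decide)

end local_

end Run7.h484
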