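import Pool.Agent.Run7.h484.Local
import Pool.Agent.Run7.h484.Limit

/-! Local uniqueness of straight curves: generic part. -/

namespace Run7.h484

universe u

open Set Filter Topology

section mix

variable {Y : Type u} [MetricSpace Y]

/-- `m` is seen from everywhere at most as far as the `θ`-point between `a` and `b` -/
def Mix (θ : ℝ) (a b m : Y) : Prop := ∀ z, dist m z ≤ (1 - θ) * dist a z + θ * dist b z

theorem Mix.swap {θ : ℝ} {a b m : Y} (h : Mix θ a b m) : Mix (1 - θ) b a m := by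
  intro z
  have := h z
  linarith

theorem Straight.mix {β : ℝ → Y} (h : Straight β) {s t u : ℝ} (hs : 0 ≤ s) (hst : s ≤ t)
    (htu : t ≤ u) (hu : u ≤ 1) (hsu : s < u) :
    Mix ((t - s) / (u - s)) (β s) (β u) (β t) := by
  intro z
  have hpos : 0 < u - s := by linarith
  have hsI : s ∈ Icc (0:ℝ) 1 := ⟨hs, by linarith⟩
  have huI : u ∈ Icc (0:ℝ) 1 := ⟨by linarith, hu⟩
  have q1 : 0 ≤ (u - t) / (u - s) := div_nonneg (by linarith) hpos.le
  have q2 : 0 ≤ (t - s) / (u - s) := div_nonneg (by linarith) hpos.le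
  have q3 : (u - t) / (u - s) + (t - s) / (u - s) = 1 := by
    rw [← add_div, div_eq_one_iff_eq hpos.ne']; ring
  have h1 := (h.conv z).2 hsI huI q1 q2 q3
  simp only [smul_eq_mul] at h1
  have e1 : (u - t) / (u - s) * s + (t - s) / (u - s) * u = t := by
    field_simp; ring
  have e2 : 1 - (t - s) / (u - s) = (u - t) / (u - s) := by
    field_simp; ring
  rw [e1] at h1
  rw [e2]
  exact h1

theorem Straight.rev {β : ℝ → Y} (h : Straight β) : Straight fun t => β (1 - t) := by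
  have := h.sub (s := 1) (t := 0) (right_mem_Icc.2 zero_le_one) (left_mem_Icc.2 zero_le_one)
  have e : (fun l : ℝ => β ((1 - l) * 1 + l * 0)) = fun t => β (1 - t) := by
    funext l; congr 1; ring
  rw [e] at this
  exact this

theorem Mix.half_eq {a b m : Y} (h : Mix (1 / 2) a b m) : dist m a = dist m b := by
  have h1 := h a
  have h2 := h b
  rw [dist_self] at h1 h2
  have h3 := dist_triangle b m a
  have h4 := dist_triangle a m b
  rw [dist_comm b m] at h3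
  rw [dist_comm a m] at h4
  linarith

end mix

section lu

variable {M : Model} {Y : Type u} [MetricSpace Y] (R : Rz M Y) (hM : LocModel M)
include hM

/-- the points of a line -/
def lset (R : Rz M Y) (w : VP) (e : Letter) : Set Y := (fun z => R.pt w.1 w.2 z) '' M.line e

theorem lset_closed (hcl : ∀ e, IsClosed (M.line e)) (w : VP) (e : Letter) :
    IsClosed (lset R w e) := by
  apply isClosed_of_closure_subset
  intro y hy
  have h1 : y ∈ flatM R w := by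
    rw [← (flatM_closed R hM w).closure_eq]
    apply closure_mono _ hy
    rintro _ ⟨z, _, rfl⟩
    exact ⟨z, rfl⟩
  obtain ⟨g, rfl⟩ := h1
  refine ⟨g, ?_, rfl⟩
  rw [← (hcl e).closure_eq, Metric.mem_closure_iff]
  intro ε hε
  obtain ⟨x, ⟨z, hz, rfl⟩, hx⟩ := Metric.mem_closure_iff.1 hy ε hε
  simp only at hx
  rw [R.dist_same] at hx
  refine ⟨z, hz, ?_⟩
  have h5 : dist g z = max (dist g.1 z.1) (dist g.2 z.2) := rfl
  rw [h5, Real.dist_eq, Real.dist_eq]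
  exact max_lt ((hM.lo1 g z).trans_lt hx) ((hM.lo2 g z).trans_lt hx)

omit hM in
theorem lset_sub_A (w : VP) (e : Letter) : lset R w e ⊆ R.A w.1 e := by
  rintro _ ⟨z, _, rfl⟩
  exact R.pt_self_mem_A w.2 z

omit hM in
theorem lset_sub_B {w : VP} {e : Letter} (hV : w.1 * W.of e ∈ VP) : lset R w e ⊆ R.B w.1 e := by
  rintro _ ⟨z, hz, rfl⟩
  simp only
  rw [R.glue w.1 w.2 e hV hz]
  exact R.pt_next_mem_B hV z

omit hM in
theorem inter_AB {w : VP} {e : Letter} {y : Y} (hA : y ∈ R.A w.1 e) (hB : y ∈ R.B w.1 e) :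
    y ∈ lset R w e := by
  obtain ⟨q, hq, hd⟩ := R.cross_AB w.2 hA hB
  rw [dist_self] at hd
  refine ⟨q, hq, ?_⟩
  apply dist_le_zero.1
  simp only
  linarith [dist_nonneg (x := y) (y := R.pt w.1 w.2 q)]

theorem A_closed (hcl : ∀ e, IsClosed (M.line e)) (w : VP) (e : Letter) :
    IsClosed (R.A w.1 e) := by
  apply isClosed_of_closure_subset
  intro y hy
  have hyu : y ∈ R.A w.1 e ∪ R.B w.1 e := by rw [R.union_AB]; exact mem_univ _
  rcases hyu with h1 | h1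
  · exact h1
  · apply lset_sub_A
    rw [← (lset_closed R hM hcl w e).closure_eq, Metric.mem_closure_iff]
    intro ε hε
    obtain ⟨x, hx, hxy⟩ := Metric.mem_closure_iff.1 hy ε hε
    obtain ⟨q, hq, hd⟩ := R.cross_AB w.2 hx h1
    refine ⟨R.pt w.1 w.2 q, ⟨q, hq, rfl⟩, ?_⟩
    rw [dist_comm] at hxy
    rw [dist_comm]
    linarith [dist_nonneg (x := x) (y := R.pt w.1 w.2 q)]

theorem B_closed (hcl : ∀ e, IsClosed (M.line e)) {w : VP} {e : Letter}
    (hV : w.1 * W.of e ∈ VP) : IsClosed (R.B w.1 e) := by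
  apply isClosed_of_closure_subset
  intro y hy
  have hyu : y ∈ R.A w.1 e ∪ R.B w.1 e := by rw [R.union_AB]; exact mem_univ _
  rcases hyu with h1 | h1
  · apply lset_sub_B R hV
    rw [← (lset_closed R hM hcl w e).closure_eq, Metric.mem_closure_iff]
    intro ε hε
    obtain ⟨x, hx, hxy⟩ := Metric.mem_closure_iff.1 hy ε hε
    obtain ⟨q, hq, hd⟩ := R.cross_AB w.2 h1 hx
    refine ⟨R.pt w.1 w.2 q, ⟨q, hq, rfl⟩, ?_⟩
    linarith [dist_nonneg (x := R.pt w.1 w.2 q) (y := x)]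
  · exact h1

/-- a curve from one side of a line to the other meets the line -/
theorem cross_line (hcl : ∀ e, IsClosed (M.line e)) {w : VP} {e : Letter}
    (hV : w.1 * W.of e ∈ VP) {γ : ℝ → Y} {s t : ℝ} (hγ : ContinuousOn γ (Icc s t)) {u v : ℝ}
    (hu : u ∈ Icc s t) (hv : v ∈ Icc s t) (hA : γ u ∈ R.A w.1 e) (hB : γ v ∈ R.B w.1 e) :
    ∃ x ∈ Icc s t, γ x ∈ lset R w e := by
  have h1 : IsPreconnected (γ '' Icc s t) := isPreconnected_Icc.image _ hγ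
  rw [isPreconnected_closed_iff] at h1
  obtain ⟨y, ⟨x, hx, rfl⟩, hy⟩ := h1 (R.A w.1 e) (R.B w.1 e) (A_closed R hM hcl w e)
    (B_closed R hM hcl hV) (by rw [R.union_AB]; exact subset_univ _)
    ⟨γ u, mem_image_of_mem _ hu, hA⟩ ⟨γ v, mem_image_of_mem _ hv, hB⟩
  exact ⟨x, hx, inter_AB R hy.1 hy.2⟩

/-- the model specific facts -/
structure LUFacts (R : Rz M Y) : Prop where
  P : ∀ (w : VP) (za zb : ℝ × ℝ) (m m' : Y), Mix (1 / 2) (R.pt w.1 w.2 za) (R.pt w.1 w.2 zb) m →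
    Mix (1 / 2) (R.pt w.1 w.2 za) (R.pt w.1 w.2 zb) m' → m = m'
  F : ∀ (w : VP) (e : Letter) (hV : w.1 * W.of e ∈ VP) (za zb z₀ : ℝ × ℝ), z₀ ∈ M.line e →
    Mix (1 / 2) (R.pt w.1 w.2 za) (R.pt _ hV zb) (R.pt w.1 w.2 z₀) →
    ∀ m, Mix (1 / 2) (R.pt w.1 w.2 za) (R.pt _ hV zb) m → m = R.pt w.1 w.2 z₀
  V : ∀ (w : VP) (k l : ℤ) (h₁ : w.1 * W.of (false, k) ∈ VP) (h₂ : w.1 * W.of (true, l) ∈ VP)
    (za zb z₀ : ℝ × ℝ), z₀ ∈ M.line (false, k) → z₀ ∈ M.line (true, l) →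
    Mix (1 / 2) (R.pt _ h₁ za) (R.pt _ h₂ zb) (R.pt w.1 w.2 z₀) → ∀ β : ℝ → Y, Straight β →
    β 0 = R.pt _ h₁ za → β 1 = R.pt _ h₂ zb → β (1 / 2) = R.pt w.1 w.2 z₀

theorem LUFacts.locUniq {R : Rz M Y} (hF : LUFacts R) : LocUniq Y := by
  intro m₀
  obtain ⟨ε, hε, hc⟩ := local_cases R hM m₀
  refine ⟨ε, hε, fun a b ha hb hmid β hβ h0 h1 => ?_⟩
  have hmix : Mix (1 / 2) a b m₀ := fun z => by linarith [hmid z]
  have hβmix : Mix (1 / 2) a b (β (1 / 2)) := by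
    have := hβ.mix (s := 0) (t := 1 / 2) (u := 1) le_rfl (by norm_num) (by norm_num) le_rfl
      (by norm_num)
    rw [h0, h1, sub_zero, sub_zero, div_one] at this
    exact this
  rcases hc a b ha hb with ⟨w, za, zb, z₀, rfl, rfl, rfl⟩ |
    ⟨w, w', e, za, zb, z₀, hw', hz₀, rfl, rfl, rfl⟩ |
    ⟨w, w₁, w₂, e₁, e₂, za, zb, z₀, hw₁, hw₂, hne, hz1, hz2, rfl, rfl, rfl⟩
  · exact hF.P w za zb _ _ hβmix hmix
  · obtain ⟨w', hV⟩ := w'
    simp only at hw'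
    subst hw'
    exact hF.F w e hV za zb z₀ hz₀ hmix _ hβmix
  · obtain ⟨w₁, hV₁⟩ := w₁
    obtain ⟨w₂, hV₂⟩ := w₂
    simp only at hw₁ hw₂
    subst hw₁ hw₂
    rcases e₁ with ⟨_ | _, k⟩ <;> rcases e₂ with ⟨_ | _, l⟩
    · exact absurd rfl hne
    · exact hF.V w k l hV₁ hV₂ za zb z₀ hz1 hz2 hmix β hβ h0 h1
    · have h2 := hmix.swap
      rw [show (1:ℝ) - 1 / 2 = 1 / 2 by norm_num] at h2
      have h3 := hF.V w l k hV₂ hV₁ zb za z₀ hz2 hz1 h2 _ hβ.rev (by simp [h1]) (by simp [h0])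
      rw [show (1:ℝ) - 1 / 2 = 1 / 2 by norm_num] at h3
      exact h3
    · exact absurd rfl hne

omit hM in
/-- a straight curve through the middle point at some time passes at time `1/2` -/
theorem mid_time {a b m : Y} (hm : Mix (1 / 2) a b m) {β : ℝ → Y} (hβ : Straight β)
    (h0 : β 0 = a) (h1 : β 1 = b) {t : ℝ} (ht : t ∈ Icc (0:ℝ) 1) (hbt : β t = m) :
    β (1 / 2) = m := by
  have e1 := hβ.geo 0 (left_mem_Icc.2 zero_le_one) t ht
  have e2 := hβ.geo t ht 1 (right_mem_Icc.2 zero_le_one)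
  have e3 := hm.half_eq
  rw [hbt, h0, h1, zero_sub, abs_neg, abs_of_nonneg ht.1, dist_comm a m] at e1
  rw [hbt, h0, h1, abs_sub_comm, abs_of_nonneg (by linarith [ht.2])] at e2
  rw [e1, e2] at e3
  have e4 : (2 * t - 1) * dist a b = 0 := by linarith
  rcases mul_eq_zero.1 e4 with h | h
  · have : t = 1 / 2 := by linarith
    rw [← this]; exact hbt
  · rw [h, mul_zero] at e1
    have e5 := hβ.geo (1 / 2) (by constructor <;> norm_num) t ht
    rw [h0, h1, h, mul_zero, hbt] at e5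
    exact dist_eq_zero.1 e5

end lu

/-! ### States of neighbouring planes -/

section states

variable {M : Model}

theorem S_adj (w : Pl) (e : Letter) (z : ℝ × ℝ) :
    Pt.S w (⟨w * W.of e, z⟩ : Pt M) = M.tr e (M.ini z) := by
  unfold Pt.S
  have : (w * W.of e)⁻¹ * w = W.of e := by
    rw [mul_inv_rev, W.of_inv, mul_assoc, inv_mul_cancel, mul_one]
  simp only
  rw [this]
  rfl

theorem S_adj' (w : Pl) (e : Letter) (z : ℝ × ℝ) :
    Pt.S (w * W.of e) (⟨w, z⟩ : Pt M) = M.tr e (M.ini z) := by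
  unfold Pt.S
  simp only
  rw [inv_mul_cancel_left]
  rfl

theorem S_far (w : Pl) {e₁ e₂ : Letter} (hne : e₁ ≠ e₂) (z : ℝ × ℝ) :
    Pt.S (w * W.of e₂) (⟨w * W.of e₁, z⟩ : Pt M) = M.tr e₂ (M.tr e₁ (M.ini z)) := by
  unfold Pt.S
  have h1 : (w * W.of e₁)⁻¹ * (w * W.of e₂) = W.of e₁ * W.of e₂ := by
    rw [mul_inv_rev, W.of_inv, mul_assoc, inv_mul_cancel_left]
  have h2 : (W.of e₁ * W.of e₂).val = [e₁, e₂] :=
    W.mul_val_of_red (x := W.of e₁) (y := W.of e₂) (red_cons_cons.2 ⟨hne, red_singleton _⟩)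
  simp only
  rw [h1, h2]
  rfl

theorem far_mem_A {Y : Type u} [MetricSpace Y] (R : Rz M Y) (w : Pl) {e₁ e₂ : Letter}
    (hne : e₁ ≠ e₂) (hV : w * W.of e₂ ∈ VP) (z : ℝ × ℝ) :
    R.pt _ hV z ∈ R.A w e₁ := by
  apply R.pt_mem_A
  have h1 : (w * W.of e₂)⁻¹ * w = W.of e₂ := by
    rw [mul_inv_rev, W.of_inv, mul_assoc, inv_mul_cancel, mul_one]
  rw [h1]
  exact W.mul_val_of_red (x := W.of e₂) (y := W.of e₁)
    (red_cons_cons.2 ⟨hne.symm, red_singleton _⟩)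

end states

/-! ### Crossing two lines -/

section two

variable {M : Model} {Y : Type u} [MetricSpace Y] (R : Rz M Y) (hM : LocModel M)
include hM

/-- A straight curve between two planes attached to `w` along different lines crosses both
lines; the crossing points are related to each other and to the end points. -/
theorem two_cross (hcl : ∀ e, IsClosed (M.line e)) (w : VP) {e₁ e₂ : Letter} (hne : e₁ ≠ e₂)
    (h₁ : w.1 * W.of e₁ ∈ VP) (h₂ : w.1 * W.of e₂ ∈ VP) {za zb : ℝ × ℝ}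
    (hza : za ∉ M.line e₁) (hzb : zb ∉ M.line e₂) {β : ℝ → Y} (hβ : Straight β)
    (h0 : β 0 = R.pt _ h₁ za) (h1 : β 1 = R.pt _ h₂ zb) :
    ∃ (zc zd : ℝ × ℝ) (θ θ' t : ℝ), zc ∈ M.line e₁ ∧ zd ∈ M.line e₂ ∧ θ ∈ Icc (0:ℝ) 1 ∧
      θ' ∈ Icc (0:ℝ) 1 ∧ t ∈ Icc (0:ℝ) 1 ∧ β t = R.pt w.1 w.2 zc ∧
      Mix θ (R.pt _ h₁ za) (R.pt w.1 w.2 zd) (R.pt w.1 w.2 zc) ∧
      Mix θ' (R.pt _ h₂ zb) (R.pt w.1 w.2 zc) (R.pt w.1 w.2 zd) := by
  -- first crossing
  obtain ⟨t₁, ht₁, zc, hzc, hc⟩ := cross_line R hM hcl h₁ hβ.cont (right_mem_Icc.2 zero_le_one)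
    (left_mem_Icc.2 zero_le_one) (by rw [h1]; exact far_mem_A R w.1 hne h₂ zb)
    (by rw [h0]; exact R.pt_next_mem_B h₁ za)
  simp only at hc
  obtain ⟨t₂, ht₂, zd, hzd, hd⟩ := cross_line R hM hcl h₂
    (hβ.cont.mono (Icc_subset_Icc_left ht₁.1)) (left_mem_Icc.2 ht₁.2) (right_mem_Icc.2 ht₁.2)
    (by rw [← hc]; exact R.pt_self_mem_A w.2 zc) (by rw [h1]; exact R.pt_next_mem_B h₂ zb)
  simp only at hd
  have hpos : 0 < t₂ := by
    rcases eq_or_lt_of_le (ht₁.1.trans ht₂.1) with h | h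
    · exfalso
      have ht0 : t₁ = 0 := le_antisymm (by rw [h]; exact ht₂.1) ht₁.1
      rw [ht0, h0] at hc
      exact hza (pt_inj R hM hc ▸ hzc)
    · exact h
  have hlt : t₁ < 1 := by
    rcases eq_or_lt_of_le ht₁.2 with h | h
    · exfalso
      have ht0 : t₂ = 1 := le_antisymm ht₂.2 (by rw [← h]; exact ht₂.1)
      rw [ht0, h1] at hd
      exact hzb (pt_inj R hM hd ▸ hzd)
    · exact h
  have m1 := hβ.mix le_rfl ht₁.1 ht₂.1 ht₂.2 hpos
  have m2 := (hβ.mix ht₁.1 ht₂.1 ht₂.2 le_rfl hlt).swap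
  rw [h0, ← hd, ← hc, sub_zero, sub_zero] at m1
  rw [h1, ← hd, ← hc] at m2
  refine ⟨zc, zd, t₁ / t₂, 1 - (t₂ - t₁) / (1 - t₁), t₁, hzc, hzd,
    div_mem_Icc ht₁.1 ht₂.1, ?_, ht₁, hc.symm, m1, m2⟩
  have := div_mem_Icc (sub_nonneg.2 ht₂.1) (by linarith [ht₂.2] : t₂ - t₁ ≤ 1 - t₁)
  exact ⟨by linarith [this.2], by linarith [this.1]⟩

end two

theorem exists_sgn (x : ℝ) : ∃ s : ℝ, (s = 1 ∨ s = -1) ∧ s * x = |x| := by
  rcases le_total 0 x with h | h
  · exact ⟨1, Or.inl rfl, by rw [one_mul, abs_of_nonneg h]⟩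
  · exact ⟨-1, Or.inr rfl, by rw [neg_one_mul, abs_of_nonpos h]⟩

end Run7.h484
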