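import Pool.Agent.Run7.h484.LUa

/-! Local uniqueness of straight curves in the first space. -/

namespace Run7.h484

universe u

open Set Filter Topology

section

variable {Y : Type u} [MetricSpace Y] (R : Rz M1 Y)

theorem mix1 {θ : ℝ} {a b m : LatModel.VPt M1} (h : Mix θ (R.ι a) (R.ι b) (R.ι m)) (w : VP)
    (c : Bool) {s₁ s₂ : ℝ} (h₁ : s₁ = 1 ∨ s₁ = -1) (h₂ : s₂ = 1 ∨ s₂ = -1) :
    (S1 w m.1).D - s₁ * alc c (S1 w m.1).g - s₂ * pec c (S1 w m.1).g ≤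
      (1 - θ) * ((S1 w a.1).D - s₁ * alc c (S1 w a.1).g - s₂ * pec c (S1 w a.1).g) +
      θ * ((S1 w b.1).D - s₁ * alc c (S1 w b.1).g - s₂ * pec c (S1 w b.1).g) := by
  set Sm := S1 w m.1
  set Sa := S1 w a.1
  set Sb := S1 w b.1
  set L := |Sm.g.1| + |Sm.g.2| + |Sa.g.1| + |Sa.g.2| + |Sb.g.1| + |Sb.g.2| with hL
  have a1 := abs_nonneg Sm.g.1
  have a2 := abs_nonneg Sm.g.2
  have a3 := abs_nonneg Sa.g.1
  have a4 := abs_nonneg Sa.g.2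
  have a5 := abs_nonneg Sb.g.1
  have a6 := abs_nonneg Sb.g.2
  have h3 := h (R.pt w.1 w.2 (if c then (s₂ * L, s₁ * L) else (s₁ * L, s₂ * L)))
  rw [R.dist_ι_pt, R.dist_ι_pt, R.dist_ι_pt, dist1, dist1, dist1,
    ev1_far _ h₁ h₂ ⟨by linarith, by linarith⟩, ev1_far _ h₁ h₂ ⟨by linarith, by linarith⟩,
    ev1_far _ h₁ h₂ ⟨by linarith, by linarith⟩] at h3
  linarith

theorem D1_nonneg (w : VP) (m : LatModel.VPt M1) :
    (S1 w m.1).D = dist (R.ι m) (R.pt w.1 w.2 (S1 w m.1).g) := by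
  rw [R.dist_ι_pt, dist1]
  unfold ev1
  have h1 : N1 (S1 w m.1).g (S1 w m.1).g = 0 := by simp [N1]
  rw [h1, add_zero]

theorem S1_pt (w : Pl) (z : ℝ × ℝ) : S1 w (⟨w, z⟩ : Pt M1) = ⟨0, z⟩ := S1_self _

theorem S1_adj (w : Pl) (e : Letter) (z : ℝ × ℝ) :
    S1 w (⟨w * W.of e, z⟩ : Pt M1) = tr1 e ⟨0, z⟩ := S_adj (M := M1) w e z

theorem S1_adj' (w : Pl) (e : Letter) (z : ℝ × ℝ) :
    S1 (w * W.of e) (⟨w, z⟩ : Pt M1) = tr1 e ⟨0, z⟩ := S_adj' (M := M1) w e z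

theorem P1 (w : VP) (za zb : ℝ × ℝ) (m : LatModel.VPt M1)
    (h : Mix (1 / 2) (R.pt w.1 w.2 za) (R.pt w.1 w.2 zb) (R.ι m)) :
    R.ι m = R.pt w.1 w.2 ((za.1 + zb.1) / 2, (za.2 + zb.2) / 2) := by
  have key : ∀ s₁ s₂ : ℝ, (s₁ = 1 ∨ s₁ = -1) → (s₂ = 1 ∨ s₂ = -1) → _ := fun s₁ s₂ h₁ h₂ =>
    mix1 R (a := ⟨⟨w.1, za⟩, w.2⟩) (b := ⟨⟨w.1, zb⟩, w.2⟩) h w false h₁ h₂
  simp only [S1_pt, alc, pec, Bool.false_eq_true, if_false] at key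
  have k1 := key 1 1 (Or.inl rfl) (Or.inl rfl)
  have k2 := key 1 (-1) (Or.inl rfl) (Or.inr rfl)
  have k3 := key (-1) 1 (Or.inr rfl) (Or.inl rfl)
  have k4 := key (-1) (-1) (Or.inr rfl) (Or.inr rfl)
  have hD := D1_nonneg R w m
  have hD0 : 0 ≤ (S1 w m.1).D := by rw [hD]; exact dist_nonneg
  have hD1 : dist (R.ι m) (R.pt w.1 w.2 (S1 w m.1).g) ≤ 0 := by rw [← hD]; linarith
  rw [dist_le_zero.1 hD1]
  congr 1
  ext
  · simp only; linarith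
  · simp only; linarith

theorem F1 (w : VP) (e : Letter) (hV : w.1 * W.of e ∈ VP) (za zb z₀ : ℝ × ℝ)
    (hz : z₀ ∈ M1.line e)
    (h0 : Mix (1 / 2) (R.pt w.1 w.2 za) (R.pt _ hV zb) (R.pt w.1 w.2 z₀))
    (m : LatModel.VPt M1) (hm : Mix (1 / 2) (R.pt w.1 w.2 za) (R.pt _ hV zb) (R.ι m)) :
    R.ι m = R.pt w.1 w.2 z₀ := by
  have hz' : pec e.1 z₀ = e.2 := (mem_line1 e z₀).1 hz
  obtain ⟨sa, hsa, hα⟩ := exists_sgn (pec e.1 za - e.2)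
  obtain ⟨sb, hsb, hβ⟩ := exists_sgn (pec e.1 zb - e.2)
  set w' : VP := ⟨w.1 * W.of e, hV⟩ with hw'
  -- inequalities for `m₀`
  have i1 := fun (s : ℝ) (hs : s = 1 ∨ s = -1) =>
    mix1 R (a := ⟨⟨w.1, za⟩, w.2⟩) (b := ⟨⟨w.1 * W.of e, zb⟩, hV⟩) (m := ⟨⟨w.1, z₀⟩, w.2⟩)
      h0 w e.1 hs hsa
  have i2 := fun (s : ℝ) (hs : s = 1 ∨ s = -1) =>
    mix1 R (a := ⟨⟨w.1, za⟩, w.2⟩) (b := ⟨⟨w.1 * W.of e, zb⟩, hV⟩) (m := ⟨⟨w.1, z₀⟩, w.2⟩)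
      h0 w' e.1 hs hsb
  have i3 := fun (s : ℝ) (hs : s = 1 ∨ s = -1) =>
    mix1 R (a := ⟨⟨w.1, za⟩, w.2⟩) (b := ⟨⟨w.1 * W.of e, zb⟩, hV⟩) hm w e.1 hs hsa
  have i4 := fun (s : ℝ) (hs : s = 1 ∨ s = -1) =>
    mix1 R (a := ⟨⟨w.1, za⟩, w.2⟩) (b := ⟨⟨w.1 * W.of e, zb⟩, hV⟩) hm w' e.1 hs hsb
  simp only [hw', S1_pt, S1_adj, S1_adj', tr1_D, tr1_al, tr1_pe, hz', zero_add, sub_self,
    abs_zero] at i1 i2 i3 i4
  have a1 := i1 1 (Or.inl rfl)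
  have a2 := i1 (-1) (Or.inr rfl)
  have a3 := i2 1 (Or.inl rfl)
  have a4 := i2 (-1) (Or.inr rfl)
  have b1 := i3 1 (Or.inl rfl)
  have b2 := i3 (-1) (Or.inr rfl)
  have b3 := i4 1 (Or.inl rfl)
  have b4 := i4 (-1) (Or.inr rfl)
  rw [mul_sub] at hα hβ
  have hx0 : alc e.1 z₀ = (alc e.1 za + alc e.1 zb) / 2 := by linarith
  have hαβ : |pec e.1 za - e.2| = |pec e.1 zb - e.2| := by linarith
  have hD := D1_nonneg R w m
  have hD0 : 0 ≤ (S1 w m.1).D := by rw [hD]; exact dist_nonneg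
  have hD' := D1_nonneg R w' m
  have hD0' : 0 ≤ (S1 w'.1 m.1).D := by rw [hD']; exact dist_nonneg
  rcases S1_dich w.1 e m.1 with hd | hd
  · rw [hd, tr1_D, tr1_al, tr1_pe] at b3 b4
    have hp := abs_nonneg (pec e.1 (S1 w m.1).g - e.2)
    have c1 : |pec e.1 (S1 w m.1).g - e.2| ≤ 0 := by linarith
    have c2 := abs_nonpos_iff.1 c1
    have c3 : (S1 w m.1).D ≤ 0 := by linarith
    have c4 : alc e.1 (S1 w m.1).g = alc e.1 z₀ := by linarith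
    have c5 : (S1 w m.1).g = z₀ := alpe_ext c4 (by rw [hz']; linarith)
    rw [← c5]
    apply dist_le_zero.1
    rw [← hD]
    exact c3
  · rw [hd, tr1_D, tr1_al, tr1_pe] at b1 b2
    have hp := abs_nonneg (pec e.1 (S1 (w.1 * W.of e) m.1).g - e.2)
    have hD0'' : 0 ≤ (S1 (w.1 * W.of e) m.1).D := hD0'
    have c1 : |pec e.1 (S1 (w.1 * W.of e) m.1).g - e.2| ≤ 0 := by linarith
    have c2 := abs_nonpos_iff.1 c1
    have c3 : (S1 (w.1 * W.of e) m.1).D ≤ 0 := by linarith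
    have c4 : alc e.1 (S1 (w.1 * W.of e) m.1).g = alc e.1 z₀ := by linarith
    have c5 : (S1 (w.1 * W.of e) m.1).g = z₀ := alpe_ext c4 (by rw [hz']; linarith)
    rw [R.glue w.1 w.2 e hV hz]
    apply dist_le_zero.1
    have c6 : dist (R.ι m) (R.pt (w.1 * W.of e) hV (S1 (w.1 * W.of e) m.1).g) ≤ 0 := by
      have : dist (R.ι m) (R.pt (w.1 * W.of e) hV (S1 (w.1 * W.of e) m.1).g) =
        (S1 (w.1 * W.of e) m.1).D := hD'.symm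
      rw [this]; exact c3
    rwa [c5] at c6

theorem X1 (w : VP) (e : Letter) (hV : w.1 * W.of e ∈ VP) {za zd zc : ℝ × ℝ}
    (hz : zc ∈ M1.line e) {θ : ℝ}
    (h : Mix θ (R.pt _ hV za) (R.pt w.1 w.2 zd) (R.pt w.1 w.2 zc)) :
    (1 - θ) * |pec e.1 za - e.2| = θ * |pec e.1 zd - e.2| ∧
      alc e.1 zc = (1 - θ) * alc e.1 za + θ * alc e.1 zd := by
  have hz' : pec e.1 zc = e.2 := (mem_line1 e zc).1 hz
  obtain ⟨sa, hsa, hα⟩ := exists_sgn (pec e.1 za - e.2)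
  obtain ⟨sd, hsd, hδ⟩ := exists_sgn (pec e.1 zd - e.2)
  set w' : VP := ⟨w.1 * W.of e, hV⟩ with hw'
  have i1 := fun (s : ℝ) (hs : s = 1 ∨ s = -1) =>
    mix1 R (a := ⟨⟨w.1 * W.of e, za⟩, hV⟩) (b := ⟨⟨w.1, zd⟩, w.2⟩) (m := ⟨⟨w.1, zc⟩, w.2⟩)
      h w e.1 hs hsd
  have i2 := fun (s : ℝ) (hs : s = 1 ∨ s = -1) =>
    mix1 R (a := ⟨⟨w.1 * W.of e, za⟩, hV⟩) (b := ⟨⟨w.1, zd⟩, w.2⟩) (m := ⟨⟨w.1, zc⟩, w.2⟩)
      h w' e.1 hs hsa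
  simp only [hw', S1_pt, S1_adj, S1_adj', tr1_D, tr1_al, tr1_pe, hz', zero_add, sub_self,
    abs_zero] at i1 i2
  have a1 := i1 1 (Or.inl rfl)
  have a2 := i1 (-1) (Or.inr rfl)
  have a3 := i2 1 (Or.inl rfl)
  have a4 := i2 (-1) (Or.inr rfl)
  rw [← hα, ← hδ]
  rw [← hα] at a1 a2
  rw [← hδ] at a3 a4
  constructor <;> nlinarith

/-- arithmetic for the vertex -/
theorem V1 (w : VP) (k l : ℤ) (h₁ : w.1 * W.of (false, k) ∈ VP)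
    (h₂ : w.1 * W.of (true, l) ∈ VP) (za zb z₀ : ℝ × ℝ) (hk : z₀ ∈ M1.line (false, k))
    (hl : z₀ ∈ M1.line (true, l)) (hm : Mix (1 / 2) (R.pt _ h₁ za) (R.pt _ h₂ zb)
      (R.pt w.1 w.2 z₀)) (β : ℝ → Y) (hβ : Straight β)
    (hb0 : β 0 = R.pt _ h₁ za) (hb1 : β 1 = R.pt _ h₂ zb) : β (1 / 2) = R.pt w.1 w.2 z₀ := by
  have hβmix : Mix (1 / 2) (R.pt _ h₁ za) (R.pt _ h₂ zb) (β (1 / 2)) := by
    have := hβ.mix (s := 0) (t := 1 / 2) (u := 1) le_rfl (by norm_num) (by norm_num) le_rfl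
      (by norm_num)
    rw [hb0, hb1, sub_zero, sub_zero, div_one] at this
    exact this
  obtain ⟨ξ, hξ⟩ := R.exists_pt (β (1 / 2))
  have hk' : z₀.2 = k := hk
  have hl' : z₀.1 = l := hl
  by_cases hza : za ∈ M1.line (false, k)
  · have e1 : R.pt _ h₁ za = R.pt w.1 w.2 za := (R.glue w.1 w.2 _ h₁ hza).symm
    rw [e1] at hm hβmix
    rw [hξ] at hβmix ⊢
    exact F1 R w (true, l) h₂ za zb z₀ hl hm ξ hβmix
  by_cases hzb : zb ∈ M1.line (true, l)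
  · have e1 : R.pt _ h₂ zb = R.pt w.1 w.2 zb := (R.glue w.1 w.2 _ h₂ hzb).symm
    rw [e1] at hm hβmix
    have hm' := hm.swap
    have hβm' := hβmix.swap
    rw [show (1:ℝ) - 1 / 2 = 1 / 2 by norm_num] at hm' hβm'
    rw [hξ] at hβm' ⊢
    exact F1 R w (false, k) h₁ zb za z₀ hk hm' ξ hβm'
  have hne : ((false, k) : Letter) ≠ (true, l) := by simp
  obtain ⟨zc, zd, θ, θ', t, hzc, hzd, hθ, hθ', ht, hbt, m1, m2⟩ :=
    two_cross R locModel1 line1_closed w hne h₁ h₂ hza hzb hβ hb0 hb1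
  obtain ⟨x1, x2⟩ := X1 R w (false, k) h₁ hzc m1
  obtain ⟨y1, y2⟩ := X1 R w (true, l) h₂ hzd m2
  simp only [pec, alc, Bool.false_eq_true, if_false, if_true] at x1 x2 y1 y2
  have hzc' : zc.2 = k := hzc
  have hzd' : zd.1 = l := hzd
  -- inequalities at the vertex
  have i1 := fun (s₁ s₂ : ℝ) (hs₁ : s₁ = 1 ∨ s₁ = -1) (hs₂ : s₂ = 1 ∨ s₂ = -1) =>
    mix1 R (a := ⟨⟨w.1 * W.of (false, k), za⟩, h₁⟩) (b := ⟨⟨w.1 * W.of (true, l), zb⟩, h₂⟩)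
      (m := ⟨⟨w.1, z₀⟩, w.2⟩) hm w false hs₁ hs₂
  simp only [S1_pt, S1_adj] at i1
  simp only [tr1, proj1, N1, alc, pec, Bool.false_eq_true, if_false, sub_self, abs_zero,
    zero_add, add_zero] at i1
  rw [hk', hl'] at i1
  have d1 := hm.half_eq
  rw [R.glue w.1 w.2 _ h₁ hk, R.dist_same, ← R.glue w.1 w.2 _ h₁ hk,
    R.glue w.1 w.2 _ h₂ hl, R.dist_same] at d1
  have d2 : |z₀.1 - za.1| + |z₀.2 - za.2| = |z₀.1 - zb.1| + |z₀.2 - zb.2| := d1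
  rw [hk', hl', abs_sub_comm (l:ℝ), abs_sub_comm (k:ℝ), abs_sub_comm (l:ℝ),
    abs_sub_comm (k:ℝ)] at d2
  obtain ⟨sA, hsA, eA⟩ := exists_sgn (za.1 - l)
  obtain ⟨sB, hsB, eB⟩ := exists_sgn (zb.2 - k)
  have d3 := i1 sA sB hsA hsB
  have hα : 0 < |za.2 - k| := by
    rw [abs_pos]
    intro h
    exact hza (show za.2 = k by linarith)
  have hβ' : 0 < |zb.1 - l| := by
    rw [abs_pos]
    intro h
    exact hzb (show zb.1 = l by linarith)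
  have hA : |za.1 - l| ≤ |zb.1 - l| := by
    rw [mul_sub] at eA eB
    linarith
  have hB : |zb.2 - k| ≤ |za.2 - k| := by
    rw [mul_sub] at eA eB
    linarith
  have ex : |zc.1 - l| = (1 - θ) * |za.1 - l| := by
    rw [x2, hzd', show (1 - θ) * za.1 + θ * (l:ℝ) - l = (1 - θ) * (za.1 - l) by ring, abs_mul,
      abs_of_nonneg (by linarith [hθ.2])]
  have ey : |zd.2 - k| = (1 - θ') * |zb.2 - k| := by
    rw [y2, hzc', show (1 - θ') * zb.2 + θ' * (k:ℝ) - k = (1 - θ') * (zb.2 - k) by ring, abs_mul,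
      abs_of_nonneg (by linarith [hθ'.2])]
  rw [ey] at x1
  rw [ex] at y1
  have hone := v1_arith hθ.1 hθ.2 hθ'.1 hθ'.2 hα hβ' hA hB x1 y1
  have hzz : zc = z₀ := by
    rw [hone] at x2
    ext
    · rw [hl']; linarith
    · rw [hk', hzc']
  rw [hzz] at hbt
  exact mid_time hm hβ hb0 hb1 ht hbt

theorem luFacts1 : LUFacts R where
  P w za zb m m' h h' := by
    obtain ⟨ξ, rfl⟩ := R.exists_pt m
    obtain ⟨ξ', rfl⟩ := R.exists_pt m'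
    rw [P1 R w za zb ξ h, P1 R w za zb ξ' h']
  F w e hV za zb z₀ hz h0 m hm := by
    obtain ⟨ξ, rfl⟩ := R.exists_pt m
    exact F1 R w e hV za zb z₀ hz h0 ξ hm
  V w k l h₁ h₂ za zb z₀ hk hl hm β hβ h0 h1 := V1 R w k l h₁ h₂ za zb z₀ hk hl hm β hβ h0 h1

include R in
theorem locUniq1 : LocUniq Y := (luFacts1 R).locUniq locModel1

end

end Run7.h484
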