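import Pool.Agent.Run7.h484.LUa

/-! Local uniqueness of straight curves in the second space. -/

namespace Run7.h484

universe u

open Set Filter Topology

section

variable {Y : Type u} [MetricSpace Y] (R : Rz M2 Y)

theorem mix2U {θ : ℝ} {a b m : LatModel.VPt M2} (h : Mix θ (R.ι a) (R.ι b) (R.ι m)) (w : VP)
    {s : ℝ} (hs : s = 1 ∨ s = -1) :
    (S2 w m.1).D - s * (S2 w m.1).g.1 ≤
      (1 - θ) * ((S2 w a.1).D - s * (S2 w a.1).g.1) +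
      θ * ((S2 w b.1).D - s * (S2 w b.1).g.1) := by
  set Sm := S2 w m.1
  set Sa := S2 w a.1
  set Sb := S2 w b.1
  set L := (|Sm.g.1| + Sm.h + |Sm.g.2|) + (|Sa.g.1| + Sa.h + |Sa.g.2|) +
    (|Sb.g.1| + Sb.h + |Sb.g.2|) with hL
  have a1 := abs_nonneg Sm.g.1
  have a2 := abs_nonneg Sm.g.2
  have a3 := abs_nonneg Sa.g.1
  have a4 := abs_nonneg Sa.g.2
  have a5 := abs_nonneg Sb.g.1
  have a6 := abs_nonneg Sb.g.2
  have a7 := Sm.hh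
  have a8 := Sa.hh
  have a9 := Sb.hh
  have h3 := h (R.pt w.1 w.2 (s * L, 0))
  rw [R.dist_ι_pt, R.dist_ι_pt, R.dist_ι_pt, dist2, dist2, dist2,
    ev2_farU _ hs (by linarith), ev2_farU _ hs (by linarith), ev2_farU _ hs (by linarith)] at h3
  linarith

theorem mix2Y {θ : ℝ} {a b m : LatModel.VPt M2} (h : Mix θ (R.ι a) (R.ι b) (R.ι m)) (w : VP)
    {s : ℝ} (hs : s = 1 ∨ s = -1) :
    (S2 w m.1).D + (S2 w m.1).h - s * (S2 w m.1).g.2 ≤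
      (1 - θ) * ((S2 w a.1).D + (S2 w a.1).h - s * (S2 w a.1).g.2) +
      θ * ((S2 w b.1).D + (S2 w b.1).h - s * (S2 w b.1).g.2) := by
  set Sm := S2 w m.1
  set Sa := S2 w a.1
  set Sb := S2 w b.1
  set L := (|Sm.g.1| + Sm.h + |Sm.g.2|) + (|Sa.g.1| + Sa.h + |Sa.g.2|) +
    (|Sb.g.1| + Sb.h + |Sb.g.2|) with hL
  have a1 := abs_nonneg Sm.g.1
  have a2 := abs_nonneg Sm.g.2
  have a3 := abs_nonneg Sa.g.1
  have a4 := abs_nonneg Sa.g.2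
  have a5 := abs_nonneg Sb.g.1
  have a6 := abs_nonneg Sb.g.2
  have a7 := Sm.hh
  have a8 := Sa.hh
  have a9 := Sb.hh
  have h3 := h (R.pt w.1 w.2 (0, s * L))
  rw [R.dist_ι_pt, R.dist_ι_pt, R.dist_ι_pt, dist2, dist2, dist2,
    ev2_farY _ hs (by linarith), ev2_farY _ hs (by linarith), ev2_farY _ hs (by linarith)] at h3
  linarith

theorem dist_gate2 (w : VP) (m : LatModel.VPt M2) :
    dist (R.ι m) (R.pt w.1 w.2 (S2 w m.1).g) = (S2 w m.1).D + (S2 w m.1).h := by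
  rw [R.dist_ι_pt, dist2, ev2_self]

theorem S2_pt (w : Pl) (z : ℝ × ℝ) : S2 w (⟨w, z⟩ : Pt M2) = ⟨0, 0, z, le_refl 0⟩ := S2_self _

theorem S2_adj (w : Pl) (e : Letter) (z : ℝ × ℝ) :
    S2 w (⟨w * W.of e, z⟩ : Pt M2) = tr2 e ⟨0, 0, z, le_refl 0⟩ := S_adj (M := M2) w e z

theorem S2_adj' (w : Pl) (e : Letter) (z : ℝ × ℝ) :
    S2 (w * W.of e) (⟨w, z⟩ : Pt M2) = tr2 e ⟨0, 0, z, le_refl 0⟩ := S_adj' (M := M2) w e z

theorem S2_far (w : Pl) {e₁ e₂ : Letter} (hne : e₁ ≠ e₂) (z : ℝ × ℝ) :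
    S2 (w * W.of e₂) (⟨w * W.of e₁, z⟩ : Pt M2) = tr2 e₂ (tr2 e₁ ⟨0, 0, z, le_refl 0⟩) :=
  S_far (M := M2) w hne z

theorem P2 (w : VP) (za zb : ℝ × ℝ) (m : LatModel.VPt M2)
    (h : Mix (1 / 2) (R.pt w.1 w.2 za) (R.pt w.1 w.2 zb) (R.ι m)) :
    R.ι m = R.pt w.1 w.2 ((za.1 + zb.1) / 2, (za.2 + zb.2) / 2) := by
  have kU := fun (s : ℝ) (hs : s = 1 ∨ s = -1) =>
    mix2U R (a := ⟨⟨w.1, za⟩, w.2⟩) (b := ⟨⟨w.1, zb⟩, w.2⟩) h w hs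
  have kY := fun (s : ℝ) (hs : s = 1 ∨ s = -1) =>
    mix2Y R (a := ⟨⟨w.1, za⟩, w.2⟩) (b := ⟨⟨w.1, zb⟩, w.2⟩) h w hs
  simp only [S2_pt] at kU kY
  have k1 := kU 1 (Or.inl rfl)
  have k2 := kU (-1) (Or.inr rfl)
  have k3 := kY 1 (Or.inl rfl)
  have k4 := kY (-1) (Or.inr rfl)
  have hD := dist_gate2 R w m
  have hD0 := S2_D_nonneg w m.1
  have hh0 := (S2 w m.1).hh
  have hD1 : dist (R.ι m) (R.pt w.1 w.2 (S2 w m.1).g) ≤ 0 := by rw [hD]; linarith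
  rw [dist_le_zero.1 hD1]
  congr 1
  ext
  · simp only; linarith
  · simp only; linarith

/-- crossing a horizontal line -/
theorem F2h (w : VP) (k : ℤ) (hV : w.1 * W.of (false, k) ∈ VP) (za zb z₀ : ℝ × ℝ)
    (hz : z₀ ∈ M2.line (false, k))
    (h0 : Mix (1 / 2) (R.pt w.1 w.2 za) (R.pt _ hV zb) (R.pt w.1 w.2 z₀))
    (m : LatModel.VPt M2) (hm : Mix (1 / 2) (R.pt w.1 w.2 za) (R.pt _ hV zb) (R.ι m)) :
    R.ι m = R.pt w.1 w.2 z₀ := by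
  have hz' : z₀.2 = k := hz
  obtain ⟨sa, hsa, hα⟩ := exists_sgn (za.2 - k)
  obtain ⟨sb, hsb, hβ⟩ := exists_sgn (zb.2 - k)
  set w' : VP := ⟨w.1 * W.of (false, k), hV⟩ with hw'
  have u1 := fun (s : ℝ) (hs : s = 1 ∨ s = -1) =>
    mix2U R (a := ⟨⟨w.1, za⟩, w.2⟩) (b := ⟨⟨w.1 * W.of (false, k), zb⟩, hV⟩)
      (m := ⟨⟨w.1, z₀⟩, w.2⟩) h0 w hs
  have y1 := mix2Y R (a := ⟨⟨w.1, za⟩, w.2⟩) (b := ⟨⟨w.1 * W.of (false, k), zb⟩, hV⟩)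
      (m := ⟨⟨w.1, z₀⟩, w.2⟩) h0 w hsa
  have y2 := mix2Y R (a := ⟨⟨w.1, za⟩, w.2⟩) (b := ⟨⟨w.1 * W.of (false, k), zb⟩, hV⟩)
      (m := ⟨⟨w.1, z₀⟩, w.2⟩) h0 w' hsb
  have u2 := fun (s : ℝ) (hs : s = 1 ∨ s = -1) =>
    mix2U R (a := ⟨⟨w.1, za⟩, w.2⟩) (b := ⟨⟨w.1 * W.of (false, k), zb⟩, hV⟩) hm w hs
  have y3 := mix2Y R (a := ⟨⟨w.1, za⟩, w.2⟩) (b := ⟨⟨w.1 * W.of (false, k), zb⟩, hV⟩) hm w hsa
  have y4 := mix2Y R (a := ⟨⟨w.1, za⟩, w.2⟩) (b := ⟨⟨w.1 * W.of (false, k), zb⟩, hV⟩) hm w' hsb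
  simp only [hw', S2_pt, S2_adj, S2_adj', tr2_h, hz', zero_add, add_zero, sub_self,
    abs_zero] at u1 y1 y2 u2 y3 y4
  have a1 := u1 1 (Or.inl rfl)
  have a2 := u1 (-1) (Or.inr rfl)
  have b1 := u2 1 (Or.inl rfl)
  have b2 := u2 (-1) (Or.inr rfl)
  rw [mul_sub] at hα hβ
  have hx0 : z₀.1 = (za.1 + zb.1) / 2 := by linarith
  have hαβ : |za.2 - k| = |zb.2 - k| := by linarith
  have hD := dist_gate2 R w m
  have hD0 := S2_D_nonneg w.1 m.1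
  have hh0 := (S2 w.1 m.1).hh
  have hD' := dist_gate2 R w' m
  have hD0' := S2_D_nonneg (w.1 * W.of (false, k)) m.1
  have hh0' := (S2 (w.1 * W.of (false, k)) m.1).hh
  rcases S2_dich w.1 (false, k) m.1 with hd | hd
  · have hs := tr2_h k (S2 w.1 m.1)
    rw [← hd] at hs
    obtain ⟨s1, s2, s3, s4⟩ := hs
    rw [s1, s2, s4] at y4
    have hp := abs_nonneg ((S2 w.1 m.1).g.2 - k)
    have c1 : |(S2 w.1 m.1).g.2 - k| ≤ 0 := by linarith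
    have c2 := abs_nonpos_iff.1 c1
    have c3 : (S2 w.1 m.1).D + (S2 w.1 m.1).h ≤ 0 := by linarith
    have c5 : (S2 w.1 m.1).g = z₀ := by
      ext
      · linarith
      · rw [hz']; linarith
    rw [← c5]
    apply dist_le_zero.1
    rw [hD]
    exact c3
  · have hs := tr2_h k (S2 (w.1 * W.of (false, k)) m.1)
    rw [← hd] at hs
    obtain ⟨s1, s2, s3, s4⟩ := hs
    rw [s1, s2, s4] at y3
    rw [s1, s3] at b1 b2
    have hp := abs_nonneg ((S2 (w.1 * W.of (false, k)) m.1).g.2 - k)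
    have c1 : |(S2 (w.1 * W.of (false, k)) m.1).g.2 - k| ≤ 0 := by linarith
    have c2 := abs_nonpos_iff.1 c1
    have c3 : (S2 (w.1 * W.of (false, k)) m.1).D + (S2 (w.1 * W.of (false, k)) m.1).h ≤ 0 := by
      linarith
    have c5 : (S2 (w.1 * W.of (false, k)) m.1).g = z₀ := by
      ext
      · linarith
      · rw [hz']; linarith
    rw [R.glue w.1 w.2 _ hV hz]
    apply dist_le_zero.1
    have c6 : dist (R.ι m) (R.pt (w.1 * W.of (false, k)) hV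
        (S2 (w.1 * W.of (false, k)) m.1).g) ≤ 0 := by
      have : dist (R.ι m) (R.pt (w.1 * W.of (false, k)) hV
        (S2 (w.1 * W.of (false, k)) m.1).g) = _ := hD'
      rw [this]; exact c3
    rwa [c5] at c6

/-- crossing a diagonal line -/
theorem F2v (w : VP) (l : ℤ) (hV : w.1 * W.of (true, l) ∈ VP) (za zb z₀ : ℝ × ℝ)
    (hz : z₀ ∈ M2.line (true, l))
    (h0 : Mix (1 / 2) (R.pt w.1 w.2 za) (R.pt _ hV zb) (R.pt w.1 w.2 z₀))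
    (m : LatModel.VPt M2) (hm : Mix (1 / 2) (R.pt w.1 w.2 za) (R.pt _ hV zb) (R.ι m)) :
    R.ι m = R.pt w.1 w.2 z₀ := by
  have hz' : z₀.1 - z₀.2 = l := hz
  obtain ⟨sa, hsa, hα⟩ := exists_sgn (za.1 - za.2 - l)
  obtain ⟨sb, hsb, hβ⟩ := exists_sgn (zb.1 - zb.2 - l)
  have hna : -sa = 1 ∨ -sa = -1 := by
    rcases hsa with rfl | rfl
    · right; rfl
    · left; norm_num
  have hnb : -sb = 1 ∨ -sb = -1 := by
    rcases hsb with rfl | rfl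
    · right; rfl
    · left; norm_num
  set w' : VP := ⟨w.1 * W.of (true, l), hV⟩ with hw'
  have u1 := mix2U R (a := ⟨⟨w.1, za⟩, w.2⟩) (b := ⟨⟨w.1 * W.of (true, l), zb⟩, hV⟩)
      (m := ⟨⟨w.1, z₀⟩, w.2⟩) h0 w hsa
  have y1 := mix2Y R (a := ⟨⟨w.1, za⟩, w.2⟩) (b := ⟨⟨w.1 * W.of (true, l), zb⟩, hV⟩)
      (m := ⟨⟨w.1, z₀⟩, w.2⟩) h0 w hna
  have u2 := mix2U R (a := ⟨⟨w.1, za⟩, w.2⟩) (b := ⟨⟨w.1 * W.of (true, l), zb⟩, hV⟩)
      (m := ⟨⟨w.1, z₀⟩, w.2⟩) h0 w' hsb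
  have y2 := mix2Y R (a := ⟨⟨w.1, za⟩, w.2⟩) (b := ⟨⟨w.1 * W.of (true, l), zb⟩, hV⟩)
      (m := ⟨⟨w.1, z₀⟩, w.2⟩) h0 w' hnb
  have u3 := mix2U R (a := ⟨⟨w.1, za⟩, w.2⟩) (b := ⟨⟨w.1 * W.of (true, l), zb⟩, hV⟩) hm w hsa
  have y3 := mix2Y R (a := ⟨⟨w.1, za⟩, w.2⟩) (b := ⟨⟨w.1 * W.of (true, l), zb⟩, hV⟩) hm w hna
  have u4 := mix2U R (a := ⟨⟨w.1, za⟩, w.2⟩) (b := ⟨⟨w.1 * W.of (true, l), zb⟩, hV⟩) hm w' hsb
  have y4 := mix2Y R (a := ⟨⟨w.1, za⟩, w.2⟩) (b := ⟨⟨w.1 * W.of (true, l), zb⟩, hV⟩) hm w' hnb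
  simp only [hw', S2_pt, S2_adj, S2_adj', tr2_v_ini, zero_add, add_zero] at u1 y1 u2 y2 u3 y3 u4 y4
  have e0 : |z₀.1 - z₀.2 - (l:ℝ)| = 0 := by rw [hz', sub_self, abs_zero]
  rw [e0] at u2 y2
  have hz2 : z₀.1 = z₀.2 + l := by linarith
  have ea : sa * za.1 = sa * za.2 + sa * l + |za.1 - za.2 - l| := by rw [← hα]; ring
  have eb : sb * zb.1 = sb * zb.2 + sb * l + |zb.1 - zb.2 - l| := by rw [← hβ]; ring
  have hαβ : |za.1 - za.2 - l| = |zb.1 - zb.2 - l| := by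
    rcases hsa with rfl | rfl <;> rcases hsb with rfl | rfl <;> linarith
  have hc : z₀.2 = (za.1 + za.2 + zb.1 + zb.2 - 2 * l) / 4 := by
    rcases hsa with rfl | rfl <;> rcases hsb with rfl | rfl <;> linarith
  have hD := dist_gate2 R w m
  have hD0 := S2_D_nonneg w.1 m.1
  have hh0 := (S2 w.1 m.1).hh
  have hD' := dist_gate2 R w' m
  have hD0' := S2_D_nonneg (w.1 * W.of (true, l)) m.1
  have hh0' := (S2 (w.1 * W.of (true, l)) m.1).hh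
  rcases S2_dich w.1 (true, l) m.1 with hd | hd
  · have hs := tr2_mem (true, l) (S2 w.1 m.1)
    rw [← hd] at hs
    have hs' : (S2 (w.1 * W.of (true, l)) m.1).g.1 - (S2 (w.1 * W.of (true, l)) m.1).g.2 = l := hs
    have hh1 : (S2 (w.1 * W.of (true, l)) m.1).h = 0 := by rw [hd]; rfl
    have c3 : (S2 (w.1 * W.of (true, l)) m.1).D ≤ 0 := by
      rcases hsb with rfl | rfl <;> linarith
    have c5 : (S2 (w.1 * W.of (true, l)) m.1).g = z₀ := by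
      ext
      · rcases hsb with rfl | rfl <;> linarith
      · rcases hsb with rfl | rfl <;> linarith
    rw [R.glue w.1 w.2 _ hV hz]
    apply dist_le_zero.1
    have c6 : dist (R.ι m) (R.pt (w.1 * W.of (true, l)) hV
        (S2 (w.1 * W.of (true, l)) m.1).g) ≤ 0 := by
      have : dist (R.ι m) (R.pt (w.1 * W.of (true, l)) hV
        (S2 (w.1 * W.of (true, l)) m.1).g) = _ := hD'
      rw [this]
      show (S2 (w.1 * W.of (true, l)) m.1).D + (S2 (w.1 * W.of (true, l)) m.1).h ≤ 0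
      rw [hh1]; linarith
    rwa [c5] at c6
  · have hs := tr2_mem (true, l) (S2 (w.1 * W.of (true, l)) m.1)
    rw [← hd] at hs
    have hs' : (S2 w.1 m.1).g.1 - (S2 w.1 m.1).g.2 = l := hs
    have hh1 : (S2 w.1 m.1).h = 0 := by rw [hd]; rfl
    have c3 : (S2 w.1 m.1).D ≤ 0 := by
      rcases hsa with rfl | rfl <;> linarith
    have c5 : (S2 w.1 m.1).g = z₀ := by
      ext
      · rcases hsa with rfl | rfl <;> linarith
      · rcases hsa with rfl | rfl <;> linarith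
    rw [← c5]
    apply dist_le_zero.1
    rw [hD, hh1]
    linarith

end

end Run7.h484
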