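import Pool.Agent.Run7.h484.LU2

/-! Local uniqueness of straight curves in the second space: the vertices. -/

namespace Run7.h484

universe u

open Set Filter Topology

section

variable {Y : Type u} [MetricSpace Y] (R : Rz M2 Y)

theorem X2h (w : VP) (k : ℤ) (hV : w.1 * W.of (false, k) ∈ VP) {za zd zc : ℝ × ℝ}
    (hz : zc ∈ M2.line (false, k)) {θ : ℝ}
    (h : Mix θ (R.pt _ hV za) (R.pt w.1 w.2 zd) (R.pt w.1 w.2 zc)) :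
    (1 - θ) * |za.2 - k| = θ * |zd.2 - k| ∧ zc.1 = (1 - θ) * za.1 + θ * zd.1 := by
  have hz' : zc.2 = k := hz
  obtain ⟨sa, hsa, hα⟩ := exists_sgn (za.2 - k)
  obtain ⟨sd, hsd, hδ⟩ := exists_sgn (zd.2 - k)
  set w' : VP := ⟨w.1 * W.of (false, k), hV⟩ with hw'
  have u1 := fun (s : ℝ) (hs : s = 1 ∨ s = -1) =>
    mix2U R (a := ⟨⟨w.1 * W.of (false, k), za⟩, hV⟩) (b := ⟨⟨w.1, zd⟩, w.2⟩)
      (m := ⟨⟨w.1, zc⟩, w.2⟩) h w hs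
  have y1 := mix2Y R (a := ⟨⟨w.1 * W.of (false, k), za⟩, hV⟩) (b := ⟨⟨w.1, zd⟩, w.2⟩)
      (m := ⟨⟨w.1, zc⟩, w.2⟩) h w hsd
  have y2 := mix2Y R (a := ⟨⟨w.1 * W.of (false, k), za⟩, hV⟩) (b := ⟨⟨w.1, zd⟩, w.2⟩)
      (m := ⟨⟨w.1, zc⟩, w.2⟩) h w' hsa
  simp only [hw', S2_pt, S2_adj, S2_adj', tr2_h, hz', zero_add, add_zero, sub_self,
    abs_zero] at u1 y1 y2
  have a1 := u1 1 (Or.inl rfl)
  have a2 := u1 (-1) (Or.inr rfl)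
  rw [← hα, ← hδ]
  rw [← hα] at y1
  rw [← hδ] at y2
  constructor
  · nlinarith
  · linarith

theorem X2v (w : VP) (l : ℤ) (hV : w.1 * W.of (true, l) ∈ VP) {za zd zc : ℝ × ℝ}
    (hz : zc ∈ M2.line (true, l)) {θ : ℝ}
    (h : Mix θ (R.pt _ hV za) (R.pt w.1 w.2 zd) (R.pt w.1 w.2 zc)) :
    (1 - θ) * |za.1 - za.2 - l| = θ * |zd.1 - zd.2 - l| ∧
      zc.1 + zc.2 = (1 - θ) * (za.1 + za.2) + θ * (zd.1 + zd.2) := by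
  have hz' : zc.1 - zc.2 = l := hz
  obtain ⟨sa, hsa, hα⟩ := exists_sgn (za.1 - za.2 - l)
  obtain ⟨sd, hsd, hδ⟩ := exists_sgn (zd.1 - zd.2 - l)
  have hna : -sa = 1 ∨ -sa = -1 := by
    rcases hsa with rfl | rfl
    · right; rfl
    · left; norm_num
  have hnd : -sd = 1 ∨ -sd = -1 := by
    rcases hsd with rfl | rfl
    · right; rfl
    · left; norm_num
  set w' : VP := ⟨w.1 * W.of (true, l), hV⟩ with hw'
  have u1 := mix2U R (a := ⟨⟨w.1 * W.of (true, l), za⟩, hV⟩) (b := ⟨⟨w.1, zd⟩, w.2⟩)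
      (m := ⟨⟨w.1, zc⟩, w.2⟩) h w hsd
  have y1 := mix2Y R (a := ⟨⟨w.1 * W.of (true, l), za⟩, hV⟩) (b := ⟨⟨w.1, zd⟩, w.2⟩)
      (m := ⟨⟨w.1, zc⟩, w.2⟩) h w hnd
  have u2 := mix2U R (a := ⟨⟨w.1 * W.of (true, l), za⟩, hV⟩) (b := ⟨⟨w.1, zd⟩, w.2⟩)
      (m := ⟨⟨w.1, zc⟩, w.2⟩) h w' hsa
  have y2 := mix2Y R (a := ⟨⟨w.1 * W.of (true, l), za⟩, hV⟩) (b := ⟨⟨w.1, zd⟩, w.2⟩)
      (m := ⟨⟨w.1, zc⟩, w.2⟩) h w' hna
  simp only [hw', S2_pt, S2_adj, S2_adj', tr2_v_ini, add_zero] at u1 y1 u2 y2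
  have e0 : |zc.1 - zc.2 - (l:ℝ)| = 0 := by rw [hz', sub_self, abs_zero]
  rw [e0] at u2 y2
  have hc1 : zc.1 = zc.2 + l := by linarith
  rw [← hα, ← hδ]
  rw [← hα] at u1 y1
  rw [← hδ] at u2 y2
  clear hw' hna hnd h hz hα hδ e0
  constructor
  · rcases hsa with rfl | rfl <;> rcases hsd with rfl | rfl <;> nlinarith
  · rcases hsa with rfl | rfl <;> rcases hsd with rfl | rfl <;> nlinarith

end

end Run7.h484
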