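import Pool.Agent.Run7.h484.LU2b

/-! Local uniqueness of straight curves in the second space: conclusion. -/

namespace Run7.h484

universe u

open Set Filter Topology

section

variable {Y : Type u} [MetricSpace Y] (R : Rz M2 Y)

/-- the inequalities satisfied by a vertex which is a straight midpoint -/
theorem vertex_ineq (w : VP) (k l : ℤ) (h₁ : w.1 * W.of (false, k) ∈ VP)
    (h₂ : w.1 * W.of (true, l) ∈ VP) (za zb z₀ : ℝ × ℝ) (hk : z₀ ∈ M2.line (false, k))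
    (hl : z₀ ∈ M2.line (true, l)) (hm : Mix (1 / 2) (R.pt _ h₁ za) (R.pt _ h₂ zb)
      (R.pt w.1 w.2 z₀)) {A B α β P : ℝ} (hA : A = za.1 - z₀.1) (hα : α = |za.2 - k|)
    (hP : P = (zb.1 - zb.2 - l) / 2) (hβ : β = |P|)
    (hB : B = (zb.1 + zb.2 - (z₀.1 + z₀.2)) / 2) :
    max |A| α = β + |B| ∧ |A + B| ≤ β ∧ |B| ≤ α + β ∧
      |(A - cl A α) / 2 + B| + β ≤ α + |A - cl A α| / 2 := by
  have hk' : z₀.2 = k := hk
  have hl' : z₀.1 - z₀.2 = l := hl
  have hz1 : z₀.1 = k + l := by linarith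
  have hne : ((false, k) : Letter) ≠ (true, l) := by simp
  have e1 : |zb.1 - zb.2 - (l:ℝ)| / 2 = β := by
    rw [hβ, hP, abs_div, abs_of_pos (by norm_num : (0:ℝ) < 2)]
  have hα0 : 0 ≤ α := by rw [hα]; exact abs_nonneg _
  set w₂ : VP := ⟨w.1 * W.of (true, l), h₂⟩ with hw₂
  refine ⟨?_, ?_, ?_, ?_⟩
  · have d1 := hm.half_eq
    rw [R.glue w.1 w.2 _ h₁ hk, R.dist_same, ← R.glue w.1 w.2 _ h₁ hk,
      R.glue w.1 w.2 _ h₂ hl, R.dist_same] at d1
    have d2 : max |z₀.1 - za.1| |z₀.2 - za.2| = max |z₀.1 - zb.1| |z₀.2 - zb.2| := d1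
    rw [abs_sub_comm z₀.1, abs_sub_comm z₀.2, abs_sub_comm z₀.1, abs_sub_comm z₀.2, ← hA,
      hk', ← hα] at d2
    rw [d2, hβ, ← max_abs_pq P B]
    congr 2
    · rw [hP, hB, hz1, hk']; ring
    · rw [hP, hB, hz1, hk']; ring
  · have u1 := fun (s : ℝ) (hs : s = 1 ∨ s = -1) =>
      mix2U R (a := ⟨⟨w.1 * W.of (false, k), za⟩, h₁⟩) (b := ⟨⟨w.1 * W.of (true, l), zb⟩, h₂⟩)
        (m := ⟨⟨w.1, z₀⟩, w.2⟩) hm w hs
    simp only [S2_pt, S2_adj, tr2_v_ini, tr2_h] at u1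
    rw [e1] at u1
    have a1 := u1 1 (Or.inl rfl)
    have a2 := u1 (-1) (Or.inr rfl)
    rw [abs_le, hA, hB]
    constructor <;> linarith
  · have y1 := fun (s : ℝ) (hs : s = 1 ∨ s = -1) =>
      mix2Y R (a := ⟨⟨w.1 * W.of (false, k), za⟩, h₁⟩) (b := ⟨⟨w.1 * W.of (true, l), zb⟩, h₂⟩)
        (m := ⟨⟨w.1, z₀⟩, w.2⟩) hm w hs
    simp only [S2_pt, S2_adj, tr2_v_ini, tr2_h] at y1
    rw [e1, ← hα] at y1
    have a1 := y1 1 (Or.inl rfl)
    have a2 := y1 (-1) (Or.inr rfl)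
    rw [abs_le, hB]
    constructor <;> linarith
  · have u1 := fun (s : ℝ) (hs : s = 1 ∨ s = -1) =>
      mix2U R (a := ⟨⟨w.1 * W.of (false, k), za⟩, h₁⟩) (b := ⟨⟨w.1 * W.of (true, l), zb⟩, h₂⟩)
        (m := ⟨⟨w.1, z₀⟩, w.2⟩) hm w₂ hs
    have y1 := fun (s : ℝ) (hs : s = 1 ∨ s = -1) =>
      mix2Y R (a := ⟨⟨w.1 * W.of (false, k), za⟩, h₁⟩) (b := ⟨⟨w.1 * W.of (true, l), zb⟩, h₂⟩)
        (m := ⟨⟨w.1, z₀⟩, w.2⟩) hm w₂ hs
    simp only [hw₂, S2_pt, S2_adj', tr2_v_ini, S2_far w.1 hne] at u1 y1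
    have e2 : |z₀.1 - z₀.2 - (l:ℝ)| = 0 := by rw [hl', sub_self, abs_zero]
    rw [e2] at u1 y1
    -- the state of `a` at the far plane
    have hT : tr2 (true, l) (tr2 (false, k) ⟨0, 0, za, le_refl 0⟩) =
        ⟨α + |A - cl A α| / 2, 0, (l + (k + (A - cl A α) / 2), k + (A - cl A α) / 2),
          le_refl 0⟩ := by
      simp only [tr2, zero_add]
      have e3 : za.1 - (l:ℝ) - k = A := by rw [hA, hz1]; ring
      rw [e3, ← hα]
    rw [hT] at u1 y1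
    simp only at u1 y1
    rw [hβ]
    apply sgn_sum
    · intro s hs
      have a1 := u1 s hs
      have e4 : s * ((A - cl A α) / 2 + B + P) =
          s * (l + (k + (A - cl A α) / 2)) + s * zb.1 - 2 * (s * z₀.1) := by
        rw [hB, hP, hk', hz1]; ring
      have e5 : s * ((z₀.1 + z₀.2 + l) / 2) = s * z₀.1 := by
        rw [hk', hz1]; ring
      rw [e5] at a1
      rw [e4]
      linarith
    · intro s hs
      have a1 := y1 s hs
      have e4 : s * ((A - cl A α) / 2 + B - P) =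
          s * (k + (A - cl A α) / 2) + s * zb.2 - 2 * (s * z₀.2) := by
        rw [hB, hP, hk', hz1]; ring
      have e5 : s * ((z₀.1 + z₀.2 - l) / 2) = s * z₀.2 := by
        rw [hk', hz1]; ring
      rw [e5] at a1
      rw [e4]
      linarith

theorem V2 (w : VP) (k l : ℤ) (h₁ : w.1 * W.of (false, k) ∈ VP)
    (h₂ : w.1 * W.of (true, l) ∈ VP) (za zb z₀ : ℝ × ℝ) (hk : z₀ ∈ M2.line (false, k))
    (hl : z₀ ∈ M2.line (true, l)) (hm : Mix (1 / 2) (R.pt _ h₁ za) (R.pt _ h₂ zb)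
      (R.pt w.1 w.2 z₀)) (β : ℝ → Y) (hβ : Straight β)
    (hb0 : β 0 = R.pt _ h₁ za) (hb1 : β 1 = R.pt _ h₂ zb) : β (1 / 2) = R.pt w.1 w.2 z₀ := by
  have hβmix : Mix (1 / 2) (R.pt _ h₁ za) (R.pt _ h₂ zb) (β (1 / 2)) := by
    have := hβ.mix (s := 0) (t := 1 / 2) (u := 1) le_rfl (by norm_num) (by norm_num) le_rfl
      (by norm_num)
    rw [hb0, hb1, sub_zero, sub_zero, div_one] at this
    exact this
  obtain ⟨ξ, hξ⟩ := R.exists_pt (β (1 / 2))
  have hk' : z₀.2 = k := hk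
  have hl' : z₀.1 - z₀.2 = l := hl
  by_cases hza : za ∈ M2.line (false, k)
  · have e1 : R.pt _ h₁ za = R.pt w.1 w.2 za := (R.glue w.1 w.2 _ h₁ hza).symm
    rw [e1] at hm hβmix
    rw [hξ] at hβmix ⊢
    exact F2v R w l h₂ za zb z₀ hl hm ξ hβmix
  by_cases hzb : zb ∈ M2.line (true, l)
  · have e1 : R.pt _ h₂ zb = R.pt w.1 w.2 zb := (R.glue w.1 w.2 _ h₂ hzb).symm
    rw [e1] at hm hβmix
    have hm' := hm.swap
    have hβm' := hβmix.swap
    rw [show (1:ℝ) - 1 / 2 = 1 / 2 by norm_num] at hm' hβm'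
    rw [hξ] at hβm' ⊢
    exact F2h R w k h₁ zb za z₀ hk hm' ξ hβm'
  have hne : ((false, k) : Letter) ≠ (true, l) := by simp
  obtain ⟨zc, zd, θ, θ', t, hzc, hzd, hθ, hθ', ht, hbt, m1, m2⟩ :=
    two_cross R locModel2 line2_closed w hne h₁ h₂ hza hzb hβ hb0 hb1
  obtain ⟨x1, x2⟩ := X2h R w k h₁ hzc m1
  obtain ⟨y1, y2⟩ := X2v R w l h₂ hzd m2
  have hzc' : zc.2 = k := hzc
  have hzd' : zd.1 - zd.2 = l := hzd
  obtain ⟨v1, v2, v3, v4⟩ := vertex_ineq R w k l h₁ h₂ za zb z₀ hk hl hm rfl rfl rfl rfl rfl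
  set A := za.1 - z₀.1 with hA
  set α := |za.2 - k| with hα
  set P := (zb.1 - zb.2 - l) / 2 with hP
  set B := (zb.1 + zb.2 - (z₀.1 + z₀.2)) / 2 with hB
  set b := |P| with hb
  set x := zc.1 - z₀.1 with hx
  set y := zd.2 - z₀.2 with hy
  have hα0 : 0 < α := by
    rw [hα, abs_pos]
    intro h
    exact hza (show za.2 = k by linarith)
  have hb0' : 0 < b := by
    rw [hb, abs_pos]
    intro h
    exact hzb (show zb.1 - zb.2 = l by linarith)
  have E1 : x = (1 - θ) * A + θ * y := by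
    rw [hx, hA, hy, x2]
    linear_combination θ * hzd' - θ * hl'
  have E2 : (1 - θ) * α = θ * |y| := by
    rw [hy, hk']; exact x1
  have E3 : 2 * y = 2 * ((1 - θ') * B) + θ' * x := by
    rw [hy, hB, hx]
    have : 2 * zd.2 = (1 - θ') * (zb.1 + zb.2) + θ' * (zc.1 + zc.2) - l := by linarith
    rw [hzc'] at this
    linear_combination this + hl' - θ' * hk'
  have E4 : (1 - θ') * b = θ' * |x| / 2 := by
    have e5 : |zb.1 - zb.2 - (l:ℝ)| = 2 * b := by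
      rw [hb, hP, abs_div, abs_of_pos (by norm_num : (0:ℝ) < 2)]; ring
    have e6 : zc.1 - zc.2 - l = x := by rw [hx, hzc']; linarith
    rw [e5, e6] at y1
    linarith
  have hx0 : x = 0 := by
    by_contra hxne
    have hyne : y ≠ 0 := by
      intro hy0
      rw [hy0, abs_zero, mul_zero] at E2
      have h3 : 1 - θ = 0 := by
        rcases mul_eq_zero.1 E2 with h | h
        · exact h
        · exact absurd h hα0.ne'
      rw [h3, hy0, zero_mul, mul_zero, add_zero] at E1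
      exact hxne E1
    apply v2_arith hα0 hb0' hxne hyne v1 v2 v3 v4
    · linear_combination (α + |y|) * E1 + (A - y) * E2
    · linear_combination ((2 * b + |x|) * E3 + (4 * B - 2 * x) * E4) / 2
  have hzz : zc = z₀ := by
    ext
    · linarith
    · rw [hzc', hk']
  rw [hzz] at hbt
  exact mid_time hm hβ hb0 hb1 ht hbt

theorem luFacts2 : LUFacts R where
  P w za zb m m' h h' := by
    obtain ⟨ξ, rfl⟩ := R.exists_pt m
    obtain ⟨ξ', rfl⟩ := R.exists_pt m'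
    rw [P2 R w za zb ξ h, P2 R w za zb ξ' h']
  F w e hV za zb z₀ hz h0 m hm := by
    obtain ⟨ξ, rfl⟩ := R.exists_pt m
    rcases e with ⟨_ | _, k⟩
    · exact F2h R w k hV za zb z₀ hz h0 ξ hm
    · exact F2v R w k hV za zb z₀ hz h0 ξ hm
  V w k l h₁ h₂ za zb z₀ hk hl hm β hβ h0 h1 := V2 R w k l h₁ h₂ za zb z₀ hk hl hm β hβ h0 h1

include R in
theorem locUniq2 : LocUniq Y := (luFacts2 R).locUniq locModel2

end

end Run7.h484
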