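import Pool.Agent.Run7.h484.HellyConc
import Pool.Agent.Run7.h484.Hull

/-! Vertices, integrality, rounding and extension: the two Helly graphs. -/

namespace Run7.h484

open Set

/-- `x` is an integer -/
def IsI (x : ℝ) : Prop := ∃ n : ℤ, x = n

theorem IsI.add {x y : ℝ} (hx : IsI x) (hy : IsI y) : IsI (x + y) := by
  obtain ⟨n, rfl⟩ := hx; obtain ⟨m, rfl⟩ := hy; exact ⟨n + m, by push_cast; ring⟩
theorem IsI.sub {x y : ℝ} (hx : IsI x) (hy : IsI y) : IsI (x - y) := by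
  obtain ⟨n, rfl⟩ := hx; obtain ⟨m, rfl⟩ := hy; exact ⟨n - m, by push_cast; ring⟩
theorem IsI.neg {x : ℝ} (hx : IsI x) : IsI (-x) := by
  obtain ⟨n, rfl⟩ := hx; exact ⟨-n, by push_cast; ring⟩
theorem isI_int (n : ℤ) : IsI (n : ℝ) := ⟨n, rfl⟩
theorem IsI.nat {x : ℝ} (hx : IsI x) (h0 : 0 ≤ x) : ∃ n : ℕ, x = n := by
  obtain ⟨n, rfl⟩ := hx
  have h1 : 0 ≤ n := by exact_mod_cast h0
  obtain ⟨m, rfl⟩ := Int.eq_ofNat_of_zero_le h1
  exact ⟨m, by simp⟩
theorem IsI.le_floor {a x : ℝ} (ha : IsI a) (h : a ≤ x) : a ≤ (⌊x⌋ : ℝ) := by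
  obtain ⟨n, rfl⟩ := ha
  exact_mod_cast Int.le_floor.2 h

/-- lattice data for a model -/
structure LatModel (M : Model) where
  lat : Set (ℝ × ℝ)
  zero_mem : (0, 0) ∈ lat
  Intg : M.St → Prop
  ini : ∀ z ∈ lat, Intg (M.ini z)
  tr : ∀ e S, Intg S → Intg (M.tr e S)
  round : ∀ ζ, ∃ z ∈ lat, ∀ S, ∀ n : ℕ, Intg S → M.ev S ζ ≤ n → M.ev S z ≤ n
  integral : ∀ S, ∀ z ∈ lat, Intg S → 0 ≤ M.ev S z → ∃ n : ℕ, M.ev S z = n
  ext : ∀ S ζ, ∃ z ∈ lat, M.ev S z = M.ev S ζ + M.N ζ z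

namespace LatModel

variable {M : Model} (A : LatModel M)

theorem go_intg (L : List Letter) {S : M.St} (hS : A.Intg S) : A.Intg (M.go L S) := by
  induction L generalizing S with
  | nil => exact hS
  | cons e L ih => exact ih (A.tr e S hS)

/-- points in valid planes -/
abbrev VPt (M : Model) := {ξ : Pt M // ξ.pl ∈ VP}

/-- lattice points in valid planes -/
abbrev LPt := {ξ : Pt M // ξ.pl ∈ VP ∧ ξ.pos ∈ A.lat}

/-- the vertices -/
abbrev Vx := SeparationQuotient A.LPt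

/-- a representative of a vertex -/
noncomputable def c (v : A.Vx) : VPt M := ⟨(Quotient.out v).1, (Quotient.out v).2.1⟩

theorem mk_out (v : A.Vx) : SeparationQuotient.mk (Quotient.out v) = v := Quotient.out_eq v

theorem dist_c (v w : A.Vx) : dist (A.c v) (A.c w) = dist v w := by
  conv_rhs => rw [← A.mk_out v, ← A.mk_out w]
  rw [SeparationQuotient.dist_mk]
  rfl

theorem dist_c_mk (ξ : VPt M) (η : A.LPt) :
    dist ξ (A.c (SeparationQuotient.mk η)) = dist ξ.1 η.1 := by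
  have h : dist (Quotient.out (SeparationQuotient.mk η)) η = 0 := by
    rw [← SeparationQuotient.dist_mk, A.mk_out, dist_self]
  have h' : dist (A.c (SeparationQuotient.mk η)).1 η.1 = 0 := h
  show dist ξ.1 (A.c (SeparationQuotient.mk η)).1 = _
  apply le_antisymm
  · have := dist_triangle ξ.1 η.1 (A.c (SeparationQuotient.mk η)).1
    rw [dist_comm η.1, h'] at this
    linarith
  · have := dist_triangle ξ.1 (A.c (SeparationQuotient.mk η)).1 η.1
    rw [h'] at this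
    linarith

/-- the graph -/
def graph : SimpleGraph A.Vx where
  Adj v w := dist v w = 1
  symm := ⟨fun v w h => by rw [dist_comm]; exact h⟩
  loopless := ⟨fun v h => by rw [dist_self] at h; exact zero_ne_one h⟩

theorem main (hM : HellyModel M) : Realizes A.graph A.c ∧ IsHelly A.graph := by
  have : Nonempty A.Vx := ⟨SeparationQuotient.mk ⟨⟨1, (0, 0)⟩, one_mem_VP, A.zero_mem⟩⟩
  apply realizes_of_round A.c A.graph
  · intro v w
    rw [A.dist_c]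
    exact Iff.rfl
  · intro v w h
    rw [A.dist_c] at h
    exact dist_eq_zero.1 h
  · intro v w
    have e : dist (A.c v) (A.c w) = M.ev (Pt.S (A.c w).1.pl (A.c v).1) (A.c w).1.pos := rfl
    rw [e]
    apply A.integral
    · exact (Quotient.out w).2.2
    · exact A.go_intg _ (A.ini _ (Quotient.out v).2.2)
    · rw [← e]; exact dist_nonneg
  · intro ξ η
    obtain ⟨z, hz, h⟩ := A.ext (Pt.S η.1.pl ξ.1) η.1.pos
    refine ⟨SeparationQuotient.mk ⟨⟨η.1.pl, z⟩, η.2, hz⟩, ?_⟩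
    rw [A.dist_c_mk, A.dist_c_mk]
    have h1 : dist η.1 (⟨η.1.pl, z⟩ : Pt M) = M.N η.1.pos z := Pt.dist_same _ _ _
    rw [h1, Pt.dist_mk, h]
    rfl
  · intro F hF
    obtain ⟨ξ, hξ, h⟩ := hM.helly ((fun p : A.Vx × ℝ => ((A.c p.1).1, p.2)) '' F)
      (by rintro _ ⟨p, hp, rfl⟩; exact (A.c p.1).2)
      (by rintro _ ⟨p, hp, rfl⟩ _ ⟨q, hq, rfl⟩; exact hF p hp q hq)
    exact ⟨⟨ξ, hξ⟩, fun p hp => h _ ⟨p, hp, rfl⟩⟩
  · intro ξ
    obtain ⟨z, hz, h⟩ := A.round ξ.1.pos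
    refine ⟨SeparationQuotient.mk ⟨⟨ξ.1.pl, z⟩, ξ.2, hz⟩, fun w n hn => ?_⟩
    rw [dist_comm, A.dist_c_mk]
    rw [dist_comm] at hn
    exact h _ n (A.go_intg _ (A.ini _ (Quotient.out w).2.2)) hn

end LatModel

/-! ### Model 1 -/

theorem N1_eq_max (z z' : ℝ × ℝ) :
    N1 z z' = max |z.1 + z.2 - (z'.1 + z'.2)| |z.1 - z.2 - (z'.1 - z'.2)| := by
  unfold N1
  apply le_antisymm
  · have h : ∀ a b : ℝ, |a| + |b| ≤ max |a + b| |a - b| := by
      intro a b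
      rw [abs_add_abs_le_iff]
      exact ⟨le_max_left _ _, le_max_right _ _⟩
    have := h (z.1 - z'.1) (z.2 - z'.2)
    rwa [show z.1 - z'.1 + (z.2 - z'.2) = z.1 + z.2 - (z'.1 + z'.2) by ring,
      show z.1 - z'.1 - (z.2 - z'.2) = z.1 - z.2 - (z'.1 - z'.2) by ring] at this
  · apply max_le
    · rw [show z.1 + z.2 - (z'.1 + z'.2) = z.1 - z'.1 + (z.2 - z'.2) by ring]
      exact abs_add_le _ _
    · rw [show z.1 - z.2 - (z'.1 - z'.2) = z.1 - z'.1 - (z.2 - z'.2) by ring]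
      exact abs_sub _ _

/-- integral states of model 1 -/
def Int1 (S : St1) : Prop := IsI (S.g.1 + S.g.2 + S.D) ∧ IsI (S.g.1 + S.g.2 - S.D) ∧
  IsI (S.g.1 - S.g.2 + S.D) ∧ IsI (S.g.1 - S.g.2 - S.D)

theorem Int1.tr {S : St1} (h : Int1 S) (e : Letter) : Int1 (tr1 e S) := by
  obtain ⟨h1, h2, h3, h4⟩ := h
  rcases e with ⟨_ | _, k⟩
  · have e0 : tr1 (false, k) S = ⟨S.D + |S.g.2 - k|, (S.g.1, (k:ℝ))⟩ := by
      simp [tr1, N1, proj1]
    rw [e0]
    unfold Int1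
    simp only
    rcases abs_cases (S.g.2 - k) with ⟨h, _⟩ | ⟨h, _⟩ <;> rw [h]
    · refine ⟨?_, ?_, ?_, ?_⟩
      · convert h1 using 1; ring
      · convert h4.add (isI_int (2 * k)) using 1; push_cast; ring
      · convert h1.sub (isI_int (2 * k)) using 1; push_cast; ring
      · convert h4 using 1; ring
    · refine ⟨?_, ?_, ?_, ?_⟩
      · convert h3.add (isI_int (2 * k)) using 1; push_cast; ring
      · convert h2 using 1; ring
      · convert h3 using 1; ring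
      · convert h2.sub (isI_int (2 * k)) using 1; push_cast; ring
  · have e0 : tr1 (true, k) S = ⟨S.D + |S.g.1 - k|, ((k:ℝ), S.g.2)⟩ := by
      simp [tr1, N1, proj1]
    rw [e0]
    unfold Int1
    simp only
    rcases abs_cases (S.g.1 - k) with ⟨h, _⟩ | ⟨h, _⟩ <;> rw [h]
    · refine ⟨?_, ?_, ?_, ?_⟩
      · convert h1 using 1; ring
      · convert h3.neg.add (isI_int (2 * k)) using 1; push_cast; ring
      · convert h3 using 1; ring
      · convert (isI_int (2 * k)).sub h1 using 1; push_cast; ring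
    · refine ⟨?_, ?_, ?_, ?_⟩
      · convert (isI_int (2 * k)).sub h4 using 1; push_cast; ring
      · convert h2 using 1; ring
      · convert (isI_int (2 * k)).sub h2 using 1; push_cast; ring
      · convert h4 using 1; ring

/-- lattice of model 1 -/
def lat1 : Set (ℝ × ℝ) := {z | IsI (z.1 + z.2) ∧ IsI (z.1 - z.2)}

theorem ext1 (S : St1) (ζ : ℝ × ℝ) : ∃ z ∈ lat1, ev1 S z = ev1 S ζ + N1 ζ z := by
  -- work in coordinates `p = x + y`, `q = x - y`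
  have key : ∀ (p q : ℤ), (((p + q) / 2 : ℝ), ((p - q) / 2 : ℝ)) ∈ lat1 := by
    intro p q
    refine ⟨⟨p, by simp only; ring⟩, ⟨q, by simp only; ring⟩⟩
  have hval : ∀ (z : ℝ × ℝ) (p q : ℝ), N1 z (((p + q) / 2 : ℝ), ((p - q) / 2 : ℝ)) =
      max |z.1 + z.2 - p| |z.1 - z.2 - q| := by
    intro z p q
    rw [N1_eq_max]
    simp only
    rw [show (p + q) / 2 + (p - q) / 2 = p by ring, show (p + q) / 2 - (p - q) / 2 = q by ring]
  set P := ζ.1 + ζ.2 with hP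
  set Q := ζ.1 - ζ.2 with hQ
  set a := S.g.1 + S.g.2 with ha
  set b := S.g.1 - S.g.2 with hb
  have fl : ∀ x : ℝ, (⌊x⌋:ℝ) ≤ x ∧ x < ⌊x⌋ + 1 := fun x => ⟨Int.floor_le x, Int.lt_floor_add_one x⟩
  unfold ev1
  rw [N1_eq_max S.g ζ, ← ha, ← hb, ← hP, ← hQ]
  rcases le_total |b - Q| |a - P| with hc | hc
  · rw [max_eq_left hc]
    rcases le_total a P with h1 | h1
    · refine ⟨_, key (⌊P⌋ + 2) ⌊Q⌋, ?_⟩
      rw [hval, hval, ← ha, ← hb, ← hP, ← hQ]
      push_cast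
      have f1 := fl P
      have f2 := fl Q
      rw [abs_of_nonpos (by linarith : a - P ≤ 0)] at hc ⊢
      rw [abs_le] at hc
      rw [abs_of_nonpos (by linarith : a - ((⌊P⌋:ℝ) + 2) ≤ 0),
        abs_of_nonpos (by linarith : P - ((⌊P⌋:ℝ) + 2) ≤ 0), max_eq_left, max_eq_left]
      · ring
      · rw [abs_le]; constructor <;> linarith
      · rw [abs_le]; constructor <;> linarith
    · refine ⟨_, key (⌊P⌋ - 1) ⌊Q⌋, ?_⟩
      rw [hval, hval, ← ha, ← hb, ← hP, ← hQ]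
      push_cast
      have f1 := fl P
      have f2 := fl Q
      rw [abs_of_nonneg (by linarith : 0 ≤ a - P)] at hc ⊢
      rw [abs_le] at hc
      rw [abs_of_nonneg (by linarith : 0 ≤ a - ((⌊P⌋:ℝ) - 1)),
        abs_of_nonneg (by linarith : 0 ≤ P - ((⌊P⌋:ℝ) - 1)), max_eq_left, max_eq_left]
      · ring
      · rw [abs_le]; constructor <;> linarith
      · rw [abs_le]; constructor <;> linarith
  · rw [max_eq_right hc]
    rcases le_total b Q with h1 | h1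
    · refine ⟨_, key ⌊P⌋ (⌊Q⌋ + 2), ?_⟩
      rw [hval, hval, ← ha, ← hb, ← hP, ← hQ]
      push_cast
      have f1 := fl P
      have f2 := fl Q
      rw [abs_of_nonpos (by linarith : b - Q ≤ 0)] at hc ⊢
      rw [abs_le] at hc
      rw [abs_of_nonpos (by linarith : b - ((⌊Q⌋:ℝ) + 2) ≤ 0),
        abs_of_nonpos (by linarith : Q - ((⌊Q⌋:ℝ) + 2) ≤ 0), max_eq_right, max_eq_right]
      · ring
      · rw [abs_le]; constructor <;> linarith
      · rw [abs_le]; constructor <;> linarith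
    · refine ⟨_, key ⌊P⌋ (⌊Q⌋ - 1), ?_⟩
      rw [hval, hval, ← ha, ← hb, ← hP, ← hQ]
      push_cast
      have f1 := fl P
      have f2 := fl Q
      rw [abs_of_nonneg (by linarith : 0 ≤ b - Q)] at hc ⊢
      rw [abs_le] at hc
      rw [abs_of_nonneg (by linarith : 0 ≤ b - ((⌊Q⌋:ℝ) - 1)),
        abs_of_nonneg (by linarith : 0 ≤ Q - ((⌊Q⌋:ℝ) - 1)), max_eq_right, max_eq_right]
      · ring
      · rw [abs_le]; constructor <;> linarith
      · rw [abs_le]; constructor <;> linarith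

/-- the lattice of model 1 -/
def A1 : LatModel M1 where
  lat := lat1
  zero_mem := ⟨⟨0, by simp⟩, ⟨0, by simp⟩⟩
  Intg := Int1
  ini z hz := by
    refine ⟨?_, ?_, ?_, ?_⟩
    · show IsI (z.1 + z.2 + 0); rw [add_zero]; exact hz.1
    · show IsI (z.1 + z.2 - 0); rw [sub_zero]; exact hz.1
    · show IsI (z.1 - z.2 + 0); rw [add_zero]; exact hz.2
    · show IsI (z.1 - z.2 - 0); rw [sub_zero]; exact hz.2
  tr e S h := Int1.tr h e
  round ζ := by
    refine ⟨((⌊ζ.1 + ζ.2⌋ + ⌊ζ.1 - ζ.2⌋) / 2, (⌊ζ.1 + ζ.2⌋ - ⌊ζ.1 - ζ.2⌋) / 2),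
      ⟨⟨⌊ζ.1 + ζ.2⌋, by simp only; ring⟩, ⟨⌊ζ.1 - ζ.2⌋, by simp only; ring⟩⟩, ?_⟩
    intro (S : St1) n hS h
    change ev1 S ζ ≤ n at h
    show ev1 S _ ≤ n
    rw [ev1_le_iff] at h ⊢
    obtain ⟨i1, i2, i3, i4⟩ := hS
    simp only
    rw [show ((⌊ζ.1 + ζ.2⌋:ℝ) + ⌊ζ.1 - ζ.2⌋) / 2 + (⌊ζ.1 + ζ.2⌋ - ⌊ζ.1 - ζ.2⌋) / 2
        = ⌊ζ.1 + ζ.2⌋ by ring,
      show ((⌊ζ.1 + ζ.2⌋:ℝ) + ⌊ζ.1 - ζ.2⌋) / 2 - (⌊ζ.1 + ζ.2⌋ - ⌊ζ.1 - ζ.2⌋) / 2
        = ⌊ζ.1 - ζ.2⌋ by ring]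
    have hn : IsI (n:ℝ) := ⟨n, by simp⟩
    refine ⟨⟨?_, ?_⟩, ⟨?_, ?_⟩⟩
    · apply IsI.le_floor _ h.1.1
      convert i1.sub hn using 1; ring
    · exact (Int.floor_le _).trans h.1.2
    · apply IsI.le_floor _ h.2.1
      convert i3.sub hn using 1; ring
    · exact (Int.floor_le _).trans h.2.2
  integral S z hz hS h0 := by
    apply IsI.nat _ h0
    show IsI (ev1 S z)
    obtain ⟨i1, i2, i3, i4⟩ := hS
    obtain ⟨z1, z2⟩ := hz
    unfold ev1
    rw [N1_eq_max]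
    rcases max_choice |S.g.1 + S.g.2 - (z.1 + z.2)| |S.g.1 - S.g.2 - (z.1 - z.2)| with h | h <;>
      rw [h]
    · rcases abs_cases (S.g.1 + S.g.2 - (z.1 + z.2)) with ⟨h, _⟩ | ⟨h, _⟩ <;> rw [h]
      · convert i1.sub z1 using 1; ring
      · convert z1.sub i2 using 1; ring
    · rcases abs_cases (S.g.1 - S.g.2 - (z.1 - z.2)) with ⟨h, _⟩ | ⟨h, _⟩ <;> rw [h]
      · convert i3.sub z2 using 1; ring
      · convert z2.sub i4 using 1; ring
  ext := ext1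

/-! ### Model 2 -/

/-- integral states of model 2 -/
def Int2 (S : St2) : Prop := IsI (S.g.1 + S.D) ∧ IsI (S.g.1 - S.D) ∧
  IsI (S.g.2 + S.D + S.h) ∧ IsI (S.g.2 - S.D - S.h)

theorem Int2.tr {S : St2} (h : Int2 S) (e : Letter) : Int2 (tr2 e S) := by
  obtain ⟨h1, h2, h3, h4⟩ := h
  rcases e with ⟨_ | _, k⟩
  · unfold Int2
    simp only [tr2]
    refine ⟨h1, h2, ?_, ?_⟩
    · rcases abs_cases (S.g.2 - k) with ⟨h, _⟩ | ⟨h, _⟩ <;> rw [h]
      · convert h3 using 1; ring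
      · convert (isI_int (2 * k)).sub h4 using 1; push_cast; ring
    · rcases abs_cases (S.g.2 - k) with ⟨h, _⟩ | ⟨h, _⟩ <;> rw [h]
      · convert (isI_int (2 * k)).sub h3 using 1; push_cast; ring
      · convert h4 using 1; ring
  · unfold Int2
    simp only [tr2, cl]
    set H := S.g.1 - k - S.g.2 with hH
    have hh := S.hh
    have hk := isI_int k
    rcases le_total H S.h with g1 | g1
    · rcases le_total (-S.h) H with g2 | g2
      · rw [min_eq_left g1, max_eq_right g2]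
        simp only [sub_self, zero_div, abs_zero, add_zero]
        refine ⟨?_, ?_, ?_, ?_⟩
        · convert h3.add hk using 1; ring
        · convert h4.add hk using 1; ring
        · convert h3 using 1; ring
        · convert h4 using 1; ring
      · rw [min_eq_left g1, max_eq_left g2, abs_of_nonpos (by linarith : H - -S.h ≤ 0)]
        refine ⟨?_, ?_, ?_, ?_⟩
        · convert h3.add hk using 1; ring
        · convert h2 using 1; rw [hH]; ring
        · convert h3 using 1; ring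
        · convert h2.sub hk using 1; rw [hH]; ring
    · rw [min_eq_right g1, max_eq_right (by linarith : -S.h ≤ S.h),
        abs_of_nonneg (by linarith : 0 ≤ H - S.h)]
      refine ⟨?_, ?_, ?_, ?_⟩
      · convert h1 using 1; rw [hH]; ring
      · convert h4.add hk using 1; ring
      · convert h1.sub hk using 1; rw [hH]; ring
      · convert h4 using 1; ring

/-- lattice of model 2 -/
def lat2 : Set (ℝ × ℝ) := {z | IsI z.1 ∧ IsI z.2}

theorem ext2 (S : St2) (ζ : ℝ × ℝ) : ∃ z ∈ lat2, ev2 S z = ev2 S ζ + N2 ζ z := by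
  have key : ∀ (p q : ℤ), ((p : ℝ), (q : ℝ)) ∈ lat2 := fun p q => ⟨⟨p, rfl⟩, ⟨q, rfl⟩⟩
  have fl : ∀ x : ℝ, (⌊x⌋:ℝ) ≤ x ∧ x < ⌊x⌋ + 1 := fun x => ⟨Int.floor_le x, Int.lt_floor_add_one x⟩
  have f1 := fl ζ.1
  have f2 := fl ζ.2
  have hh := S.hh
  have ab := abs_nonneg (ζ.2 - S.g.2)
  unfold ev2 N2
  rcases le_total (S.h + |ζ.2 - S.g.2|) |ζ.1 - S.g.1| with hc | hc
  · rw [max_eq_left hc]
    have hd : ∀ m : ℤ, (m:ℝ) = ⌊ζ.2⌋ → S.h + |(m:ℝ) - S.g.2| ≤ |ζ.1 - S.g.1| + 1 := by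
      intro m hm
      rw [hm]
      have : |(⌊ζ.2⌋:ℝ) - S.g.2| ≤ |ζ.2 - S.g.2| + 1 := by
        have h := abs_sub_le (⌊ζ.2⌋:ℝ) ζ.2 S.g.2
        have h' : |(⌊ζ.2⌋:ℝ) - ζ.2| ≤ 1 := by rw [abs_le]; constructor <;> linarith
        linarith
      linarith
    have hd' := hd ⌊ζ.2⌋ rfl
    rcases le_total S.g.1 ζ.1 with h1 | h1
    · refine ⟨_, key (⌊ζ.1⌋ + 2) ⌊ζ.2⌋, ?_⟩
      simp only
      push_cast
      rw [abs_of_nonneg (by linarith : 0 ≤ ζ.1 - S.g.1)] at hc hd' ⊢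
      rw [abs_of_nonneg (by linarith : 0 ≤ (⌊ζ.1⌋:ℝ) + 2 - S.g.1),
        abs_of_nonpos (by linarith : ζ.1 - ((⌊ζ.1⌋:ℝ) + 2) ≤ 0), max_eq_left, max_eq_left]
      · ring
      · rw [abs_le]; constructor <;> linarith
      · linarith
    · refine ⟨_, key (⌊ζ.1⌋ - 1) ⌊ζ.2⌋, ?_⟩
      simp only
      push_cast
      rw [abs_of_nonpos (by linarith : ζ.1 - S.g.1 ≤ 0)] at hc hd' ⊢
      rw [abs_of_nonpos (by linarith : (⌊ζ.1⌋:ℝ) - 1 - S.g.1 ≤ 0),
        abs_of_nonneg (by linarith : 0 ≤ ζ.1 - ((⌊ζ.1⌋:ℝ) - 1)), max_eq_left, max_eq_left]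
      · ring
      · rw [abs_le]; constructor <;> linarith
      · linarith
  · rw [max_eq_right hc]
    have hd' : |(⌊ζ.1⌋:ℝ) - S.g.1| ≤ S.h + |ζ.2 - S.g.2| + 1 := by
      have h := abs_sub_le (⌊ζ.1⌋:ℝ) ζ.1 S.g.1
      have h' : |(⌊ζ.1⌋:ℝ) - ζ.1| ≤ 1 := by rw [abs_le]; constructor <;> linarith
      linarith
    rcases le_total S.g.2 ζ.2 with h1 | h1
    · refine ⟨_, key ⌊ζ.1⌋ (⌊ζ.2⌋ + 2), ?_⟩
      simp only
      push_cast
      rw [abs_of_nonneg (by linarith : 0 ≤ ζ.2 - S.g.2)] at hc hd' ⊢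
      rw [abs_of_nonneg (by linarith : 0 ≤ (⌊ζ.2⌋:ℝ) + 2 - S.g.2),
        abs_of_nonpos (by linarith : ζ.2 - ((⌊ζ.2⌋:ℝ) + 2) ≤ 0), max_eq_right, max_eq_right]
      · ring
      · rw [abs_le]; constructor <;> linarith
      · linarith
    · refine ⟨_, key ⌊ζ.1⌋ (⌊ζ.2⌋ - 1), ?_⟩
      simp only
      push_cast
      rw [abs_of_nonpos (by linarith : ζ.2 - S.g.2 ≤ 0)] at hc hd' ⊢
      rw [abs_of_nonpos (by linarith : (⌊ζ.2⌋:ℝ) - 1 - S.g.2 ≤ 0),
        abs_of_nonneg (by linarith : 0 ≤ ζ.2 - ((⌊ζ.2⌋:ℝ) - 1)), max_eq_right, max_eq_right]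
      · ring
      · rw [abs_le]; constructor <;> linarith
      · linarith

/-- the lattice of model 2 -/
noncomputable def A2 : LatModel M2 where
  lat := lat2
  zero_mem := ⟨⟨0, by simp⟩, ⟨0, by simp⟩⟩
  Intg := Int2
  ini z hz := by
    refine ⟨?_, ?_, ?_, ?_⟩
    · show IsI (z.1 + 0); rw [add_zero]; exact hz.1
    · show IsI (z.1 - 0); rw [sub_zero]; exact hz.1
    · show IsI (z.2 + 0 + 0); rw [add_zero, add_zero]; exact hz.2
    · show IsI (z.2 - 0 - 0); rw [sub_zero, sub_zero]; exact hz.2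
  tr e S h := Int2.tr h e
  round ζ := by
    refine ⟨(⌊ζ.1⌋, ⌊ζ.2⌋), ⟨⟨⌊ζ.1⌋, rfl⟩, ⟨⌊ζ.2⌋, rfl⟩⟩, ?_⟩
    intro (S : St2) n hS h
    change ev2 S ζ ≤ n at h
    show ev2 S _ ≤ n
    rw [ev2_le_iff] at h ⊢
    obtain ⟨i1, i2, i3, i4⟩ := hS
    simp only
    have hn : IsI (n:ℝ) := ⟨n, by simp⟩
    refine ⟨⟨?_, ?_⟩, ⟨?_, ?_⟩⟩
    · apply IsI.le_floor _ h.1.1
      convert i1.sub hn using 1; ring
    · exact (Int.floor_le _).trans h.1.2
    · apply IsI.le_floor _ h.2.1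
      convert i3.sub hn using 1; ring
    · exact (Int.floor_le _).trans h.2.2
  integral S z hz hS h0 := by
    apply IsI.nat _ h0
    show IsI (ev2 S z)
    obtain ⟨i1, i2, i3, i4⟩ := hS
    obtain ⟨z1, z2⟩ := hz
    unfold ev2
    rcases max_choice |z.1 - S.g.1| (S.h + |z.2 - S.g.2|) with h | h <;> rw [h]
    · rcases abs_cases (z.1 - S.g.1) with ⟨h, _⟩ | ⟨h, _⟩ <;> rw [h]
      · convert z1.sub i2 using 1; ring
      · convert i1.sub z1 using 1; ring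
    · rcases abs_cases (z.2 - S.g.2) with ⟨h, _⟩ | ⟨h, _⟩ <;> rw [h]
      · convert z2.sub i4 using 1; ring
      · convert i3.sub z2 using 1; ring
  ext := ext2

end Run7.h484
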