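import Pool.Agent.Run7.h484.X2

/-! The boundary of the second space: five-cut pairs accumulate off the diagonal. -/

namespace Run7.h484

universe u

open Set Filter Topology

section X2

variable {Y : Type u} [MetricSpace Y] (R : Rz M2 Y)

/-- five diagonal lines -/
def el (i : Fin 5) : Letter := (true, 2 * ((i : ℕ) : ℤ) + 1)

theorem el_inj {i j : Fin 5} (h : el i = el j) : i = j := by
  unfold el at h
  rw [Prod.mk.injEq] at h
  have := h.2
  apply Fin.ext
  omega

theorem en_ne_el (n : ℕ) (i : Fin 5) : en n ≠ el i := by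
  unfold en el
  simp

theorem wl_mem (n : ℕ) (i : Fin 5) : wn n * W.of (el i) ∈ VP := by
  rw [mem_VP_mul_of (wn_mem n)]
  unfold Av
  rw [wn_val]
  show (((2 * ((i : ℕ) : ℤ) + 1 : ℤ)) : ZMod 2) = par false [en n]
  have h1 : par false [en n] = 1 := by simp [par, en]
  have h2 := two_cast ((i : ℕ) : ℤ)
  rw [h1]
  push_cast at h2 ⊢
  rw [h2, zero_add]

/-- position of the `i`-th line -/
def lpos (i : Fin 5) : ℝ := 2 * (i : ℕ) + 1

theorem lpos_inj {i j : Fin 5} (h : lpos i = lpos j) : i = j := by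
  unfold lpos at h
  apply Fin.ext
  have : ((i : ℕ) : ℝ) = ((j : ℕ) : ℝ) := by linarith
  exact_mod_cast this

theorem lpos_bd (i : Fin 5) : 0 ≤ lpos i ∧ lpos i ≤ 9 := by
  unfold lpos
  have h1 : ((i : ℕ) : ℝ) ≤ 4 := by
    have := i.2
    have : (i : ℕ) ≤ 4 := by omega
    exact_mod_cast this
  have h2 : (0:ℝ) ≤ ((i : ℕ) : ℝ) := Nat.cast_nonneg _
  constructor <;> linarith

theorem el_line (i : Fin 5) (q : ℝ × ℝ) : q ∈ line2 (el i) ↔ q.1 - q.2 = lpos i := by
  show q.1 - q.2 = ((2 * ((i : ℕ) : ℤ) + 1 : ℤ) : ℝ) ↔ _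
  unfold lpos
  push_cast; rfl

/-- the `i`-th line -/
noncomputable def lin (n : ℕ) (i : Fin 5) (t : ℝ) : Y :=
  R.pt (wn n) (wn_mem n) (lpos i + 1 * t, 0 + 1 * t)

variable {σ : Y → Y → ℝ → Y} (h : IsBicombing σ)

include h in
theorem lin_sep (n : ℕ) (i : Fin 5) :
    LineSep σ (lin R n i) (R.A (wn n) (el i)) (R.B (wn n) (el i)) := by
  apply LineSep.mk'
  · intro a b
    exact iso_slope R (wn_mem n) (lpos i, 0) (Or.inl rfl) (Or.inl rfl) a b
  · intro a b t ht
    exact seg_slope R h (wn_mem n) (lpos i, 0) (Or.inl rfl) (Or.inl rfl) a b ht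
  · exact R.union_AB _ _
  · rintro _ ⟨t, rfl⟩
    exact R.pt_self_mem_A _ _
  · rintro _ ⟨t, rfl⟩
    unfold lin
    rw [R.glue (wn n) (wn_mem n) (el i) (wl_mem n i) ((el_line i _).2 (by simp))]
    exact R.pt_next_mem_B _ _
  · intro x hx y hy
    obtain ⟨q, hq, hd⟩ := R.cross_AB (wn_mem n) hx hy
    refine ⟨q.2, ?_⟩
    have e : lin R n i q.2 = R.pt (wn n) (wn_mem n) q := by
      unfold lin
      congr 1
      have := (el_line i q).1 hq
      ext
      · simp only; linarith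
      · simp
    rw [e]
    exact hd

include h in
theorem slope_ray {w : Pl} (hw : w ∈ VP) (z : ℝ × ℝ) {s1 s2 : ℝ} (hs1 : s1 = 1 ∨ s1 = -1)
    (hs2 : s2 = 1 ∨ s2 = -1) :
    RRay σ (R.pt w hw z) (fun t => R.pt w hw (z.1 + s1 * t, z.2 + s2 * t)) where
  zero := by simp
  iso a b _ _ := iso_slope R hw z hs1 hs2 a b
  seg T l _ hl := by
    have := seg_slope R h hw z hs1 hs2 0 T hl
    rw [mul_zero, mul_zero, mul_zero, add_zero, add_zero, zero_add] at this
    exact this.symm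

/-- the base point -/
noncomputable abbrev p0 : Y := R.pt 1 one_mem_VP (0, 0)

theorem p0_mem_A (n : ℕ) (i : Fin 5) : p0 R ∈ R.A (wn n) (el i) := by
  apply R.pt_mem_A
  rw [inv_one, one_mul]
  apply W.mul_val_of_red
  rw [wn_val]
  show Red [en n, el i]
  rw [red_cons_cons]
  exact ⟨en_ne_el n i, red_singleton _⟩

theorem dist_lin {n : ℕ} {i : Fin 5} {s : ℝ} (hs : s = 1 ∨ s = -1) {t : ℝ} (ht : 0 ≤ t) :
    dist (cr R n s t) (lin R n i (s * t)) ≤ 9 + 4 * n := by
  obtain ⟨h0, h9⟩ := lpos_bd i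
  have hn : (0:ℝ) ≤ n := Nat.cast_nonneg n
  unfold lin
  rcases le_total t (2 * n) with h1 | h1
  · rw [cr_le R h1, dist_one_wn]
    apply max_le
    · simp only
      rw [show lpos i + 1 * (s * t) - s * t = lpos i by ring, abs_of_nonneg h0]
      linarith
    · simp only
      rw [abs_of_nonpos (by linarith : t - 2 * n ≤ 0)]
      have : |0 + 1 * (s * t) - 2 * n| ≤ t + 2 * n := by
        rw [abs_le]
        rcases hs with rfl | rfl <;> constructor <;> linarith
      linarith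
  · rw [cr_ge R h1, same2]
    apply max_le
    · simp only
      rw [show s * t - (lpos i + 1 * (s * t)) = -lpos i by ring, abs_neg, abs_of_nonneg h0]
      linarith
    · simp only
      rw [abs_le]
      rcases hs with rfl | rfl <;> constructor <;> linarith

include h in
theorem five_cut (n : ℕ) [CompleteSpace Y] :
    FiveCut (cr_ray R h n (Or.inl rfl : (1:ℝ) = 1 ∨ (1:ℝ) = -1)).toBdry
      (cr_ray R h n (Or.inr rfl : (-1:ℝ) = 1 ∨ (-1:ℝ) = -1)).toBdry := by
  set x := (cr_ray R h n (Or.inl rfl : (1:ℝ) = 1 ∨ (1:ℝ) = -1)).toBdry with hx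
  set y := (cr_ray R h n (Or.inr rfl : (-1:ℝ) = 1 ∨ (-1:ℝ) = -1)).toBdry with hy
  have xc : ∀ t, 0 ≤ t → x.c t = cr R n 1 t := fun t ht => RRay.toBdry_c _ ht
  have yc : ∀ t, 0 ≤ t → y.c t = cr R n (-1) t := fun t ht => RRay.toBdry_c _ ht
  have hmain := fun i => (lin_sep R h n i).main h (p0_mem_A R n i) (K := 9 + 4 * n) x y
    (fun t ht => by
      rw [xc t ht]
      have := dist_lin R (n := n) (i := i) (Or.inl rfl : (1:ℝ) = 1 ∨ (1:ℝ) = -1) ht
      rwa [one_mul] at this)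
    (fun t ht => by
      rw [yc t ht]
      have := dist_lin R (n := n) (i := i) (Or.inr rfl : (-1:ℝ) = 1 ∨ (-1:ℝ) = -1) ht
      rwa [neg_one_mul] at this)
  refine ⟨?_, fun i => {r | ∃ t, 0 ≤ t ∧ r.c t ∉ R.A (wn n) (el i)}, ?_, fun i => (hmain i).1,
    fun i => (hmain i).2.1, fun i => (hmain i).2.2, ?_⟩
  · intro he
    have h1 : x.c 1 = y.c 1 := by rw [he]
    rw [xc 1 zero_le_one, yc 1 zero_le_one] at h1
    rcases le_total (1:ℝ) (2 * n) with h2 | h2
    · rw [cr_le R h2, cr_le R h2] at h1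
      have := congrArg Prod.fst (coord_eq R h1)
      norm_num at this
    · rw [cr_ge R h2, cr_ge R h2] at h1
      have := congrArg Prod.fst (coord_eq R h1)
      norm_num at this
  · intro i
    have hr := slope_ray R h (wl_mem n i) (lpos i, 0) (Or.inl rfl : (1:ℝ) = 1 ∨ (1:ℝ) = -1)
      (Or.inr rfl : (-1:ℝ) = 1 ∨ (-1:ℝ) = -1)
    set K := dist (R.pt _ (wl_mem n i) (lpos i, 0)) (p0 R) with hK
    have hK0 : 0 ≤ K := dist_nonneg
    refine ⟨moveC h (p0 R) hr.toBdry, K + 1, by linarith, fun hcon => ?_⟩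
    have h1 := moveC_dist h (p0 R) hr.toBdry (t := K + 1) (by linarith)
    rw [hr.toBdry_c (by linarith : 0 ≤ K + 1)] at h1
    obtain ⟨q, hq, hd⟩ := R.cross_AB (wn_mem n) hcon (R.pt_next_mem_B (wl_mem n i)
      (lpos i + 1 * (K + 1), 0 + -1 * (K + 1)))
    have hq' := (el_line i q).1 hq
    have h2 := coord R (wn n) _ (wn_mem n) (wl_mem n i) q
      (lpos i + 1 * (K + 1), 0 + -1 * (K + 1))
    set D := dist (R.pt (wn n) (wn_mem n) q) (R.pt (wn n * W.of (el i)) (wl_mem n i)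
      (lpos i + 1 * (K + 1), 0 + -1 * (K + 1)))
    have h3 : D ≤ K := by
      have h4 : dist ((moveC h (p0 R) hr.toBdry).c (K + 1)) (R.pt (wn n * W.of (el i))
        (wl_mem n i) (lpos i + 1 * (K + 1), 0 + -1 * (K + 1))) ≤ K := h1
      rw [hd] at h4
      have := dist_nonneg (x := (moveC h (p0 R) hr.toBdry).c (K + 1))
        (y := R.pt (wn n) (wn_mem n) q)
      linarith
    obtain ⟨h5, h6⟩ := h2
    rw [abs_le] at h5 h6
    simp only at h5 h6
    linarith [h5.1, h6.2]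
  · intro i j hij
    rw [Set.disjoint_left]
    rintro r ⟨t, ht, hr⟩ ⟨t', ht', hr'⟩
    obtain ⟨s, _, _, _, hB⟩ := (lin_sep R h n i).enter h (p0_mem_A R n i) r.rray ht hr
    obtain ⟨s', _, _, _, hB'⟩ := (lin_sep R h n j).enter h (p0_mem_A R n j) r.rray ht' hr'
    have h1 := hB (max s s') (le_max_left _ _)
    have h2 := hB' (max s s') (le_max_right _ _)
    set z := r.c (max s s')
    have key : ∀ i j : Fin 5, i ≠ j → z ∈ R.B (wn n) (el i) → z ∈ R.A (wn n) (el j) := by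
      rintro i j hij ⟨ξ, hξ, hb⟩
      refine ⟨ξ, hξ, ?_⟩
      rcases Pt.before_or_beyond (wn n) (el j) ξ.1 with hc | hc
      · exact hc
      · exfalso
        unfold Pt.Beyond at hb hc
        rw [hb] at hc
        have := List.append_inj_right' hc rfl
        rw [List.cons.injEq] at this
        exact hij (el_inj this.1)
    have h3 : z ∈ range (lin R n i) := by
      rw [← (lin_sep R h n i).inter]
      exact ⟨key j i hij.symm h2, h1⟩
    have h4 : z ∈ range (lin R n j) := by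
      rw [← (lin_sep R h n j).inter]
      exact ⟨key i j hij h1, h2⟩
    obtain ⟨a, ha⟩ := h3
    obtain ⟨b, hb⟩ := h4
    have h5 : lin R n i a = lin R n j b := by rw [ha, hb]
    have h6 := coord_eq R h5
    rw [Prod.mk.injEq] at h6
    apply hij
    apply lpos_inj
    linarith [h6.1, h6.2]

include R h in
theorem not_nullCut [CompleteSpace Y] (p : Y) : ¬ NullCut (Bdry σ p) := by
  intro hnull
  have hn : NullCut (Bdry σ (p0 R)) := hnull.map (moveHomeo h p (p0 R))
  have hs1 : (1:ℝ) = 1 ∨ (1:ℝ) = -1 := Or.inl rfl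
  have hs2 : (-1:ℝ) = 1 ∨ (-1:ℝ) = -1 := Or.inr rfl
  set a : Bdry σ (p0 R) := (lim_ray R h hs1).toBdry with ha
  set b : Bdry σ (p0 R) := (lim_ray R h hs2).toBdry with hb
  have hac : ∀ t, 0 ≤ t → a.c t = R.pt 1 one_mem_VP (1 * t, t) := fun t ht => RRay.toBdry_c _ ht
  have hbc : ∀ t, 0 ≤ t → b.c t = R.pt 1 one_mem_VP (-1 * t, t) := fun t ht => RRay.toBdry_c _ ht
  have hab : a ≠ b := by
    intro he
    have h1 : a.c 1 = b.c 1 := by rw [he]
    rw [hac 1 zero_le_one, hbc 1 zero_le_one] at h1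
    have := congrArg Prod.fst (coord_eq R h1)
    norm_num at this
  obtain ⟨U, hU, V, hV, hfin⟩ := hn a b hab
  obtain ⟨T, hT, ε, hε, hTU⟩ := (Bdry.mem_nhds_iff h _ _).1 hU
  obtain ⟨T', hT', ε', hε', hTV⟩ := (Bdry.mem_nhds_iff h _ _).1 hV
  obtain ⟨N, hN⟩ := exists_nat_gt (max T T')
  have hN1 : T < N := (le_max_left _ _).trans_lt hN
  have hN2 : T' < N := (le_max_right _ _).trans_lt hN
  set x : ℕ → Bdry σ (p0 R) := fun n => (cr_ray R h n hs1).toBdry with hx
  set y : ℕ → Bdry σ (p0 R) := fun n => (cr_ray R h n hs2).toBdry with hy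
  have xc : ∀ n t, 0 ≤ t → (x n).c t = cr R n 1 t := fun n t ht => RRay.toBdry_c _ ht
  have yc : ∀ n t, 0 ≤ t → (y n).c t = cr R n (-1) t := fun n t ht => RRay.toBdry_c _ ht
  have hxinj : ∀ n m : ℕ, n < m → x n ≠ x m := by
    intro n m hnm he
    have hnm' : (n:ℝ) < m := by exact_mod_cast hnm
    have h1 : (x n).c (2 * m) = (x m).c (2 * m) := by rw [he]
    rw [xc _ _ (by positivity), xc _ _ (by positivity), cr_ge R (by linarith : 2 * (n:ℝ) ≤ 2 * m),
      cr_le R le_rfl] at h1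
    have h2 := dist_one_wn R n (1 * (2 * (m:ℝ)), 2 * (m:ℝ))
      (1 * (2 * (m:ℝ)), 2 * n + 1 * (2 * (m:ℝ) - 2 * n))
    rw [← h1, dist_self] at h2
    have h3 := le_max_right |1 * (2 * (m:ℝ)) - 1 * (2 * (m:ℝ))| (|2 * (m:ℝ) - 2 * n| +
      |2 * n + 1 * (2 * (m:ℝ) - 2 * n) - 2 * n|)
    simp only at h2
    rw [← h2] at h3
    have h4 := le_abs_self (2 * (m:ℝ) - 2 * n)
    have h5 := abs_nonneg (2 * n + 1 * (2 * (m:ℝ) - 2 * n) - 2 * n)
    linarith
  apply hfin.not_infinite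
  apply Set.infinite_of_injective_forall_mem (f := fun n : ℕ => (x (N + n), y (N + n)))
  · intro n m hnm
    simp only [Prod.mk.injEq] at hnm
    rcases lt_trichotomy n m with h1 | h1 | h1
    · exact absurd hnm.1 (hxinj _ _ (by omega))
    · exact h1
    · exact absurd hnm.1.symm (hxinj _ _ (by omega))
  · intro n
    have hn : (N:ℝ) ≤ ((N + n : ℕ) : ℝ) := by push_cast; linarith [Nat.cast_nonneg (α := ℝ) n]
    have hn0 : (0:ℝ) ≤ N := Nat.cast_nonneg N
    refine ⟨hTU _ ?_, hTV _ ?_, five_cut R h _⟩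
    · show dist ((x (N + n)).c T) _ < ε
      rw [xc _ _ hT.le, hac _ hT.le, cr_le R (by linarith), dist_self]
      exact hε
    · show dist ((y (N + n)).c T') _ < ε'
      rw [yc _ _ hT'.le, hbc _ hT'.le, cr_le R (by linarith), dist_self]
      exact hε'

end X2

end Run7.h484
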