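import Pool.Agent.Run7.h484.X1c
import Pool.Agent.Run7.h484.X2Cut

/-! The two hulls have different boundaries. -/

namespace Run7.h484

universe u v

/-- the hull of a realised graph as a realisation of the tree of planes -/
noncomputable def rzHull {M : Model} {V : Type v} {Γ : SimpleGraph V}
    {c : V → LatModel.VPt M} (hR : Realizes Γ c) : Rz M (GHull Γ hR.conn) where
  ι := hR.toHull
  dist_ι := hR.dist_toHull
  surj := hR.toHull_surjective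

/-- no homeomorphism between the boundaries -/
theorem no_homeo {Y₁ Y₂ : Type u} [MetricSpace Y₁] [CompleteSpace Y₁] [MetricSpace Y₂]
    [CompleteSpace Y₂] (R₁ : Rz M1 Y₁) (R₂ : Rz M2 Y₂) {σ₁ : Y₁ → Y₁ → ℝ → Y₁}
    {σ₂ : Y₂ → Y₂ → ℝ → Y₂} (h₁ : IsBicombing σ₁) (h₂ : IsBicombing σ₂) (p₁ : Y₁) (p₂ : Y₂) :
    IsEmpty (Bdry σ₁ p₁ ≃ₜ Bdry σ₂ p₂) := by
  refine ⟨fun e => ?_⟩
  exact not_nullCut R₂ h₂ p₂ ((nullCut1 R₁ h₁ p₁).map e)

theorem two_boundaries :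
    ∃ (G : Type) (_ : Group G) (V₁ V₂ : Type) (_ : MulAction G V₁) (_ : MulAction G V₂)
      (Γ₁ : SimpleGraph V₁) (Γ₂ : SimpleGraph V₂) (h₁ : IsHelly Γ₁) (h₂ : IsHelly Γ₂),
      IsGeometricAction G Γ₁ ∧ IsGeometricAction G Γ₂ ∧
      ∀ (σ₁ : GHull Γ₁ h₁.connected → GHull Γ₁ h₁.connected → ℝ → GHull Γ₁ h₁.connected)
        (σ₂ : GHull Γ₂ h₂.connected → GHull Γ₂ h₂.connected → ℝ → GHull Γ₂ h₂.connected),
        IsBicombing σ₁ → IsBicombing σ₂ → ∀ p₁ p₂,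
          IsEmpty (Bdry σ₁ p₁ ≃ₜ Bdry σ₂ p₂) := by
  refine ⟨GG, inferInstance, A1.Vx, A2.Vx, B1.mulAction, B2.mulAction, A1.graph, A2.graph,
    (A1.main helly1).2, (A2.main helly2).2, B1.geometric helly1, B2.geometric helly2, ?_⟩
  intro σ₁ σ₂ hσ₁ hσ₂ p₁ p₂
  exact no_homeo (rzHull (A1.main helly1).1) (rzHull (A2.main helly2).1) hσ₁ hσ₂ p₁ p₂

end Run7.h484
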