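import Pool.Agent.Run7.h484.Main
import Pool.Agent.Run7.h484.LU1
import Pool.Agent.Run7.h484.LU2c

/-! The final statement, including the existence of the bicombings. -/

namespace Run7.h484

universe u v

/-- the hull of a realised graph carries a bicombing -/
theorem exists_bicombing_hull {M : Model} (hM : LocModel M) {V : Type v} {Γ : SimpleGraph V}
    {c : V → LatModel.VPt M} (hR : Realizes Γ c) (hL : LocUniq (GHull Γ hR.conn)) :
    ∃ σ : GHull Γ hR.conn → GHull Γ hR.conn → ℝ → GHull Γ hR.conn, IsBicombing σ := by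
  let _ := graphMetric Γ hR.conn
  have : ProperSpace (GHull Γ hR.conn) := (rzHull hR).proper hM
  exact exists_bicombing (X := GHull Γ hR.conn) hmid_conMid hL

theorem two_boundaries' :
    ∃ (G : Type) (_ : Group G) (V₁ V₂ : Type) (_ : MulAction G V₁) (_ : MulAction G V₂)
      (Γ₁ : SimpleGraph V₁) (Γ₂ : SimpleGraph V₂) (h₁ : IsHelly Γ₁) (h₂ : IsHelly Γ₂),
      IsGeometricAction G Γ₁ ∧ IsGeometricAction G Γ₂ ∧
      (∃ σ₁ : GHull Γ₁ h₁.connected → GHull Γ₁ h₁.connected → ℝ → GHull Γ₁ h₁.connected,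
        IsBicombing σ₁) ∧
      (∃ σ₂ : GHull Γ₂ h₂.connected → GHull Γ₂ h₂.connected → ℝ → GHull Γ₂ h₂.connected,
        IsBicombing σ₂) ∧
      ∀ (σ₁ : GHull Γ₁ h₁.connected → GHull Γ₁ h₁.connected → ℝ → GHull Γ₁ h₁.connected)
        (σ₂ : GHull Γ₂ h₂.connected → GHull Γ₂ h₂.connected → ℝ → GHull Γ₂ h₂.connected),
        IsBicombing σ₁ → IsBicombing σ₂ → ∀ p₁ p₂,
          IsEmpty (Bdry σ₁ p₁ ≃ₜ Bdry σ₂ p₂) := by
  refine ⟨GG, inferInstance, A1.Vx, A2.Vx, B1.mulAction, B2.mulAction, A1.graph, A2.graph,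
    (A1.main helly1).2, (A2.main helly2).2, B1.geometric helly1, B2.geometric helly2, ?_, ?_, ?_⟩
  · exact exists_bicombing_hull locModel1 (A1.main helly1).1
      (locUniq1 (rzHull (A1.main helly1).1))
  · exact exists_bicombing_hull locModel2 (A2.main helly2).1
      (locUniq2 (rzHull (A2.main helly2).1))
  · intro σ₁ σ₂ hσ₁ hσ₂ p₁ p₂
    exact no_homeo (rzHull (A1.main helly1).1) (rzHull (A2.main helly2).1) hσ₁ hσ₂ p₁ p₂

end Run7.h484
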