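import Pool.Agent.Run7.h484.Cox

/-! Trees of planes: the pseudometric on `W × ℝ²` attached to a model. -/

namespace Run7.h484

/-- `(false, k)` is the horizontal line at height `k`, `(true, l)` the vertical line at `l`. -/
abbrev Letter := Bool × ℤ

/-- all planes -/
abbrev Pl := W Letter

/-- Data for the distance functions on a tree of planes. -/
structure Model where
  St : Type
  N : ℝ × ℝ → ℝ × ℝ → ℝ
  ini : ℝ × ℝ → St
  ev : St → ℝ × ℝ → ℝ
  tr : Letter → St → St
  line : Letter → Set (ℝ × ℝ)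
  N_self : ∀ z, N z z = 0
  N_comm : ∀ z z', N z z' = N z' z
  N_tri : ∀ z z' z'', N z z'' ≤ N z z' + N z' z''
  ev_ini : ∀ z z', ev (ini z) z' = N z z'
  ev_lip : ∀ S z z', ev S z ≤ ev S z' + N z' z
  tr_le : ∀ e S q z, q ∈ line e → ev (tr e S) z ≤ ev S q + N q z
  tr_ex : ∀ e S z, ∃ q ∈ line e, ev (tr e S) z = ev S q + N q z

namespace Model

variable (M : Model)

theorem N_nonneg (z z' : ℝ × ℝ) : 0 ≤ M.N z z' := by
  have h1 := M.N_tri z z' z
  rw [M.N_self, M.N_comm z' z] at h1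
  linarith

/-- on the line the transported state agrees with the old one -/
theorem tr_line {e : Letter} (S : M.St) {q : ℝ × ℝ} (hq : q ∈ M.line e) :
    M.ev (M.tr e S) q = M.ev S q := by
  apply le_antisymm
  · have := M.tr_le e S q q hq
    rwa [M.N_self, add_zero] at this
  · obtain ⟨q', _, h⟩ := M.tr_ex e S q
    rw [h]
    exact M.ev_lip S q q'

/-- transport along a word -/
def go (L : List Letter) (S : M.St) : M.St := L.foldl (fun S e => M.tr e S) S

@[simp] theorem go_nil (S : M.St) : M.go [] S = S := rfl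
@[simp] theorem go_cons (e : Letter) (L : List Letter) (S : M.St) :
    M.go (e :: L) S = M.go L (M.tr e S) := rfl
theorem go_append (L L' : List Letter) (S : M.St) : M.go (L ++ L') S = M.go L' (M.go L S) := by
  simp [go, List.foldl_append]
@[simp] theorem go_snoc (L : List Letter) (e : Letter) (S : M.St) :
    M.go (L ++ [e]) S = M.tr e (M.go L S) := by simp [go_append]

/-- cost of a path crossing the lines of `L` in order -/
def cost (L : List Letter) (z z' : ℝ × ℝ) : ℝ := M.ev (M.go L (M.ini z)) z'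

theorem cost_nil (z z' : ℝ × ℝ) : M.cost [] z z' = M.N z z' := M.ev_ini z z'

theorem cost_snoc_le (L : List Letter) (e : Letter) (z q z' : ℝ × ℝ) (hq : q ∈ M.line e) :
    M.cost (L ++ [e]) z z' ≤ M.cost L z q + M.N q z' := by
  simp only [cost, go_snoc]
  exact M.tr_le e _ q z' hq

theorem cost_snoc_ex (L : List Letter) (e : Letter) (z z' : ℝ × ℝ) :
    ∃ q ∈ M.line e, M.cost (L ++ [e]) z z' = M.cost L z q + M.N q z' := by
  simp only [cost, go_snoc]
  exact M.tr_ex e _ z'

theorem cost_lip (L : List Letter) (z z' z'' : ℝ × ℝ) :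
    M.cost L z z'' ≤ M.cost L z z' + M.N z' z'' := M.ev_lip _ _ _

theorem cost_mid_le (L1 : List Letter) (e : Letter) (L2 : List Letter) (z q z' : ℝ × ℝ)
    (hq : q ∈ M.line e) :
    M.cost (L1 ++ e :: L2) z z' ≤ M.cost L1 z q + M.cost L2 q z' := by
  induction L2 using List.reverseRecOn generalizing z' with
  | nil => rw [cost_nil]; exact M.cost_snoc_le L1 e z q z' hq
  | append_singleton L2 e' ih =>
    obtain ⟨q', hq', h⟩ := M.cost_snoc_ex L2 e' q z'
    rw [h]
    have h1 := M.cost_snoc_le (L1 ++ e :: L2) e' z q' z' hq'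
    have h2 := ih q'
    have : L1 ++ e :: (L2 ++ [e']) = (L1 ++ e :: L2) ++ [e'] := by simp
    rw [this]
    linarith

theorem cost_mid_ex (L1 : List Letter) (e : Letter) (L2 : List Letter) (z z' : ℝ × ℝ) :
    ∃ q ∈ M.line e, M.cost (L1 ++ e :: L2) z z' = M.cost L1 z q + M.cost L2 q z' := by
  induction L2 using List.reverseRecOn generalizing z' with
  | nil =>
    obtain ⟨q, hq, h⟩ := M.cost_snoc_ex L1 e z z'
    exact ⟨q, hq, by rw [h, cost_nil]⟩
  | append_singleton L2 e' ih =>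
    have e1 : L1 ++ e :: (L2 ++ [e']) = (L1 ++ e :: L2) ++ [e'] := by simp
    obtain ⟨q', hq', h'⟩ := M.cost_snoc_ex (L1 ++ e :: L2) e' z z'
    obtain ⟨q, hq, h⟩ := ih q'
    refine ⟨q, hq, le_antisymm (M.cost_mid_le L1 e _ z q z' hq) ?_⟩
    rw [e1, h', h]
    have := M.cost_snoc_le L2 e' q q' z' hq'
    linarith

theorem cost_reverse (L : List Letter) (z z' : ℝ × ℝ) :
    M.cost L.reverse z z' = M.cost L z' z := by
  induction L generalizing z z' with
  | nil => simp only [List.reverse_nil, cost_nil]; exact M.N_comm z z'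
  | cons e L ih =>
    rw [List.reverse_cons]
    apply le_antisymm
    · obtain ⟨q, hq, h⟩ := M.cost_mid_ex [] e L z' z
      simp only [List.nil_append] at h
      rw [h, cost_nil]
      have := M.cost_snoc_le L.reverse e z q z' hq
      rw [ih, M.N_comm q z'] at this
      linarith
    · obtain ⟨q, hq, h⟩ := M.cost_snoc_ex L.reverse e z z'
      rw [h, ih]
      have := M.cost_mid_le [] e L z' q z hq
      simp only [List.nil_append, cost_nil] at this
      rw [M.N_comm q z']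
      linarith

/-- cost of an element of the Coxeter group -/
def cst (x : Pl) (z z' : ℝ × ℝ) : ℝ := M.cost x.val z z'

theorem cst_step (x : Pl) (e : Letter) (z q z' : ℝ × ℝ) (hq : q ∈ M.line e) :
    M.cst (x * W.of e) z z' ≤ M.cst x z q + M.N q z' := by
  unfold cst
  rcases W.dichotomy x e with h | h
  · rw [h]; exact M.cost_snoc_le _ e z q z' hq
  · have h1 : M.cost x.val z q = M.cost (x * W.of e).val z q := by
      rw [h]
      simp only [cost, go_snoc]
      exact M.tr_line _ hq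
    rw [h1]
    exact M.cost_lip _ _ _ _

theorem cst_mul_le (x y : Pl) (z z' z'' : ℝ × ℝ) :
    M.cst (x * y) z z'' ≤ M.cst x z z' + M.cst y z' z'' := by
  obtain ⟨l, hl⟩ : ∃ l, y.val = l := ⟨_, rfl⟩
  induction l using List.reverseRecOn generalizing y z'' with
  | nil =>
    have : y = 1 := W.ext hl
    subst this
    rw [mul_one]
    have := M.cost_lip x.val z z' z''
    simpa [cst, cost_nil] using this
  | append_singleton l e ih =>
    obtain ⟨y', hy', rfl⟩ := W.eq_mul_of hl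
    obtain ⟨q, hq, h⟩ := M.cost_snoc_ex l e z' z''
    have h1 : M.cst (y' * W.of e) z' z'' = M.cost l z' q + M.N q z'' := by
      unfold cst; rw [hl, h]
    have h2 := ih y' q hy'
    have h3 := M.cst_step (x * y') e z q z'' hq
    rw [← mul_assoc, h1]
    have h4 : M.cst y' z' q = M.cost l z' q := by unfold cst; rw [hy']
    linarith

theorem cst_inv (x : Pl) (z z' : ℝ × ℝ) : M.cst x⁻¹ z z' = M.cst x z' z :=
  M.cost_reverse x.val z z'

theorem cst_one (z z' : ℝ × ℝ) : M.cst 1 z z' = M.N z z' := M.cost_nil z z'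

end Model

/-- points of the tree of planes -/
@[ext] structure Pt (M : Model) where
  pl : Pl
  pos : ℝ × ℝ

namespace Pt

variable {M : Model}

instance : Dist (Pt M) := ⟨fun ξ η => M.cst (ξ.pl⁻¹ * η.pl) ξ.pos η.pos⟩

theorem dist_def (ξ η : Pt M) : dist ξ η = M.cst (ξ.pl⁻¹ * η.pl) ξ.pos η.pos := rfl

noncomputable instance : PseudoMetricSpace (Pt M) where
  dist_self ξ := by rw [dist_def, inv_mul_cancel, M.cst_one, M.N_self]
  dist_comm ξ η := by
    rw [dist_def, dist_def, ← M.cst_inv]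
    congr 1
    group
  dist_triangle ξ η ζ := by
    rw [dist_def, dist_def, dist_def]
    have := M.cst_mul_le (ξ.pl⁻¹ * η.pl) (η.pl⁻¹ * ζ.pl) ξ.pos η.pos ζ.pos
    rwa [show ξ.pl⁻¹ * η.pl * (η.pl⁻¹ * ζ.pl) = ξ.pl⁻¹ * ζ.pl by group] at this

/-- the state of a point at a plane -/
def S (w : Pl) (ξ : Pt M) : M.St := M.go (ξ.pl⁻¹ * w).val (M.ini ξ.pos)

theorem dist_mk (ξ : Pt M) (w : Pl) (z : ℝ × ℝ) : dist ξ ⟨w, z⟩ = M.ev (S w ξ) z := rfl

theorem dist_mk' (ξ : Pt M) (w : Pl) (z : ℝ × ℝ) : dist ⟨w, z⟩ ξ = M.ev (S w ξ) z := by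
  rw [dist_comm]; rfl

theorem dist_eq (ξ η : Pt M) : dist ξ η = M.ev (S η.pl ξ) η.pos := rfl

theorem dist_same (w : Pl) (z z' : ℝ × ℝ) : dist (⟨w, z⟩ : Pt M) ⟨w, z'⟩ = M.N z z' := by
  rw [dist_def, inv_mul_cancel, M.cst_one]

theorem S_self (ξ : Pt M) : S ξ.pl ξ = M.ini ξ.pos := by
  unfold S; rw [inv_mul_cancel]; rfl

theorem S_dich (w : Pl) (e : Letter) (ξ : Pt M) :
    S (w * W.of e) ξ = M.tr e (S w ξ) ∨ S w ξ = M.tr e (S (w * W.of e) ξ) := by
  unfold S
  rw [← mul_assoc]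
  rcases W.dichotomy (ξ.pl⁻¹ * w) e with h | h
  · left; rw [h, M.go_snoc]
  · right; rw [← M.go_snoc, ← h]

/-- adjacent planes are glued along the line -/
theorem dist_glue (w : Pl) (e : Letter) {q : ℝ × ℝ} (hq : q ∈ M.line e) :
    dist (⟨w, q⟩ : Pt M) ⟨w * W.of e, q⟩ = 0 := by
  rw [dist_def]
  show M.cst (w⁻¹ * (w * W.of e)) q q = 0
  rw [inv_mul_cancel_left]
  have h1 := M.cost_snoc_le [] e q q q hq
  rw [M.cost_nil, M.N_self] at h1
  apply le_antisymm
  · simpa [Model.cst] using h1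
  · have : (0:ℝ) ≤ dist (⟨w, q⟩ : Pt M) ⟨w * W.of e, q⟩ := dist_nonneg
    rw [dist_def] at this
    change 0 ≤ M.cst (w⁻¹ * (w * W.of e)) q q at this
    rwa [inv_mul_cancel_left] at this

theorem dist_glue' (ξ : Pt M) (w : Pl) (e : Letter) {q : ℝ × ℝ} (hq : q ∈ M.line e) :
    dist ξ ⟨w * W.of e, q⟩ = dist ξ ⟨w, q⟩ := by
  apply le_antisymm
  · have := dist_triangle ξ ⟨w, q⟩ (⟨w * W.of e, q⟩ : Pt M)
    rw [dist_glue w e hq] at this; linarith
  · have := dist_triangle ξ ⟨w * W.of e, q⟩ (⟨w, q⟩ : Pt M)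
    rw [dist_comm (⟨w * W.of e, q⟩ : Pt M) (⟨w, q⟩ : Pt M), dist_glue w e hq] at this; linarith

/-- If the path from `ξ` to `η` passes through the plane `w`, the distance is computed there. -/
theorem dist_via (w : Pl) (ξ η : Pt M)
    (h : (ξ.pl⁻¹ * η.pl).val = (ξ.pl⁻¹ * w).val ++ (w⁻¹ * η.pl).val) :
    ∃ z, dist ξ η = dist ξ ⟨w, z⟩ + dist ⟨w, z⟩ η := by
  rw [dist_def]
  unfold Model.cst
  rw [h]
  cases h2 : (w⁻¹ * η.pl).val with
  | nil =>
    have hw : w⁻¹ * η.pl = 1 := W.ext h2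
    have hw' : w = η.pl := (inv_mul_eq_one.1 hw)
    refine ⟨η.pos, ?_⟩
    rw [dist_def, dist_def]
    show _ = M.cst (ξ.pl⁻¹ * w) ξ.pos η.pos + M.cst (w⁻¹ * η.pl) η.pos η.pos
    rw [hw, M.cst_one, M.N_self, add_zero, List.append_nil]
    rfl
  | cons e L =>
    obtain ⟨q, hq, h3⟩ := M.cost_mid_ex (ξ.pl⁻¹ * w).val e L ξ.pos η.pos
    refine ⟨q, ?_⟩
    rw [h3]
    show _ = M.cst (ξ.pl⁻¹ * w) ξ.pos q + M.cst (w⁻¹ * η.pl) q η.pos
    unfold Model.cst
    rw [h2]
    congr 1
    apply le_antisymm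
    · have := M.cost_mid_le [] e L q q η.pos hq
      -- `cost L q ≤ cost (e :: L) q`
      obtain ⟨q', hq', h4⟩ := M.cost_mid_ex [] e L q η.pos
      simp only [List.nil_append, M.cost_nil] at h4
      rw [h4]
      have h5 : M.cost L q η.pos ≤ M.N q q' + M.cost L q' η.pos := by
        rw [← M.cost_reverse L η.pos q, ← M.cost_reverse L η.pos q', M.N_comm q q']
        have := M.cost_lip L.reverse η.pos q' q
        linarith
      exact h5
    · have := M.cost_mid_le [] e L q q η.pos hq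
      simp only [List.nil_append, M.cost_nil, M.N_self, zero_add] at this
      exact this

end Pt

end Run7.h484
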