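import Pool.Agent.Run7.h484.Model

/-! The two models: the `ℓ¹` planes and the `ℓ^∞` planes glued along an axis and a diagonal. -/

namespace Run7.h484

/-! ### Model 1: `ℓ¹` planes, coordinates `(x, y)` -/

/-- state of model 1: depth and gate -/
structure St1 where
  D : ℝ
  g : ℝ × ℝ

/-- projection to a line -/
def proj1 : Letter → ℝ × ℝ → ℝ × ℝ
  | (false, k), z => (z.1, k)
  | (true, l), z => (l, z.2)

/-- the `ℓ¹` distance -/
def N1 (z z' : ℝ × ℝ) : ℝ := |z.1 - z'.1| + |z.2 - z'.2|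

/-- the lines of model 1 -/
def line1 : Letter → Set (ℝ × ℝ)
  | (false, k) => {z | z.2 = k}
  | (true, l) => {z | z.1 = l}

theorem N1_comm (z z' : ℝ × ℝ) : N1 z z' = N1 z' z := by
  unfold N1; rw [abs_sub_comm z.1, abs_sub_comm z.2]

theorem N1_tri (z z' z'' : ℝ × ℝ) : N1 z z'' ≤ N1 z z' + N1 z' z'' := by
  unfold N1
  have h1 := abs_sub_le z.1 z'.1 z''.1
  have h2 := abs_sub_le z.2 z'.2 z''.2
  linarith

theorem proj1_mem (e : Letter) (z : ℝ × ℝ) : proj1 e z ∈ line1 e := by
  rcases e with ⟨_ | _, k⟩ <;> rfl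

theorem N1_proj1 (e : Letter) (z q : ℝ × ℝ) (hq : q ∈ line1 e) :
    N1 z q = N1 z (proj1 e z) + N1 (proj1 e z) q := by
  rcases e with ⟨_ | _, k⟩
  · simp only [line1, Set.mem_ofPred_eq] at hq
    simp only [N1, proj1, hq]
    simp
    ring
  · simp only [line1, Set.mem_ofPred_eq] at hq
    simp only [N1, proj1, hq]
    simp

/-- evaluation in model 1 -/
def ev1 (S : St1) (z : ℝ × ℝ) : ℝ := S.D + N1 S.g z

/-- transport in model 1 -/
def tr1 (e : Letter) (S : St1) : St1 := ⟨S.D + N1 S.g (proj1 e S.g), proj1 e S.g⟩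

/-- transport along a word in model 1 -/
def go1 (L : List Letter) (S : St1) : St1 := L.foldl (fun S e => tr1 e S) S

@[simp] theorem go1_nil (S : St1) : go1 [] S = S := rfl
@[simp] theorem go1_cons (e : Letter) (L : List Letter) (S : St1) :
    go1 (e :: L) S = go1 L (tr1 e S) := rfl
theorem go1_append (L L' : List Letter) (S : St1) : go1 (L ++ L') S = go1 L' (go1 L S) := by
  simp [go1, List.foldl_append]

/-- Model 1 -/
def M1 : Model where
  St := St1
  N := N1
  ini z := ⟨0, z⟩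
  ev := ev1
  tr := tr1
  line := line1
  N_self z := by simp [N1]
  N_comm := N1_comm
  N_tri := N1_tri
  ev_ini z z' := by simp [ev1]
  ev_lip S z z' := by
    have := N1_tri S.g z' z
    show S.D + N1 S.g z ≤ S.D + N1 S.g z' + N1 z' z
    linarith
  tr_le e S q z hq := by
    show S.D + N1 S.g (proj1 e S.g) + N1 (proj1 e S.g) z ≤ S.D + N1 S.g q + N1 q z
    rw [N1_proj1 e S.g q hq]
    have := N1_tri (proj1 e S.g) q z
    linarith
  tr_ex e S z := ⟨proj1 e S.g, proj1_mem e _, rfl⟩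

/-! ### Model 2: `ℓ^∞` planes, coordinates `(u, y)`; horizontal lines `y = k`, diagonal lines
`u - y = l`. -/

/-- state of model 2 -/
structure St2 where
  D : ℝ
  h : ℝ
  g : ℝ × ℝ
  hh : 0 ≤ h

/-- the `ℓ^∞` distance -/
noncomputable def N2 (z z' : ℝ × ℝ) : ℝ := max |z.1 - z'.1| |z.2 - z'.2|

/-- the lines of model 2 -/
def line2 : Letter → Set (ℝ × ℝ)
  | (false, k) => {z | z.2 = k}
  | (true, l) => {z | z.1 - z.2 = l}

theorem N2_comm (z z' : ℝ × ℝ) : N2 z z' = N2 z' z := by
  unfold N2; rw [abs_sub_comm z.1, abs_sub_comm z.2]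

theorem N2_tri (z z' z'' : ℝ × ℝ) : N2 z z'' ≤ N2 z z' + N2 z' z'' := by
  unfold N2
  have h1 := abs_sub_le z.1 z'.1 z''.1
  have h2 := abs_sub_le z.2 z'.2 z''.2
  apply max_le
  · linarith [le_max_left |z.1 - z'.1| |z.2 - z'.2|, le_max_left |z'.1 - z''.1| |z'.2 - z''.2|]
  · linarith [le_max_right |z.1 - z'.1| |z.2 - z'.2|, le_max_right |z'.1 - z''.1| |z'.2 - z''.2|]

/-- evaluation in model 2 -/
noncomputable def ev2 (S : St2) (z : ℝ × ℝ) : ℝ :=
  S.D + max |z.1 - S.g.1| (S.h + |z.2 - S.g.2|)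

/-- the excess of a state over a diagonal -/
noncomputable def cl (H h : ℝ) : ℝ := max (-h) (min H h)

/-- transport in model 2 -/
noncomputable def tr2 : Letter → St2 → St2
  | (false, k), S => ⟨S.D, S.h + |S.g.2 - k|, (S.g.1, k), add_nonneg S.hh (abs_nonneg _)⟩
  | (true, l), S =>
    let H := S.g.1 - l - S.g.2
    let s := S.g.2 + (H - cl H S.h) / 2
    ⟨S.D + (S.h + |H - cl H S.h| / 2), 0, (l + s, s), le_refl 0⟩

/-- restriction of a state to a diagonal line is a cone -/
theorem diag_cone (h H σ : ℝ) (hh : 0 ≤ h) :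
    max |σ - H| (h + |σ|) = h + |H - cl H h| / 2 + |σ - (H - cl H h) / 2| := by
  unfold cl
  rcases le_total H h with h1 | h1
  · rcases le_total (-h) H with h2 | h2
    · rw [min_eq_left h1, max_eq_right h2]
      simp only [sub_self, abs_zero, zero_div, add_zero, sub_zero]
      apply max_eq_right
      rw [abs_le]
      constructor
      · have := neg_abs_le σ; linarith
      · have := le_abs_self σ; linarith
    · rw [min_eq_left h1, max_eq_left h2]
      have e1 : |H - -h| = -(H + h) := by rw [abs_of_nonpos (by linarith)]; ring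
      rw [e1]
      rcases le_total 0 σ with h3 | h3
      · rw [abs_of_nonneg h3, abs_of_nonneg (by linarith), abs_of_nonneg (by linarith),
          max_eq_left (by linarith)]
        ring
      · rw [abs_of_nonpos h3]
        rcases le_total (σ - (H - -h) / 2) 0 with h4 | h4
        · rw [abs_of_nonpos h4]
          rw [max_eq_right]
          · ring
          · rw [abs_le]; constructor <;> linarith
        · rw [abs_of_nonneg h4]
          rw [abs_of_nonneg (by linarith), max_eq_left (by linarith)]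
          ring
  · rw [min_eq_right h1, max_eq_right (by linarith : -h ≤ h)]
    have e1 : |H - h| = H - h := abs_of_nonneg (by linarith)
    rw [e1]
    rcases le_total 0 σ with h3 | h3
    · rw [abs_of_nonneg h3]
      rcases le_total (σ - (H - h) / 2) 0 with h4 | h4
      · rw [abs_of_nonpos h4]
        rw [abs_of_nonpos (by linarith), max_eq_left (by linarith)]
        ring
      · rw [abs_of_nonneg h4]
        rw [max_eq_right]
        · ring
        · rw [abs_le]; constructor <;> linarith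
    · rw [abs_of_nonpos h3, abs_of_nonpos (by linarith), abs_of_nonpos (by linarith),
          max_eq_left (by linarith)]
      ring

/-- restriction of the evaluation to a diagonal line -/
theorem ev2_diag (S : St2) (l : ℤ) (q : ℝ × ℝ) (hq : q ∈ line2 (true, l)) :
    ev2 S q = (tr2 (true, l) S).D + |q.2 - (tr2 (true, l) S).g.2| := by
  simp only [line2, Set.mem_ofPred_eq] at hq
  have h1 : q.1 = l + q.2 := by linarith
  simp only [ev2, tr2]
  have := diag_cone S.h (S.g.1 - l - S.g.2) (q.2 - S.g.2) S.hh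
  rw [h1]
  have e1 : |(l:ℝ) + q.2 - S.g.1| = |q.2 - S.g.2 - (S.g.1 - l - S.g.2)| := by congr 1; ring
  rw [e1, this]
  have e2 : q.2 - S.g.2 - (S.g.1 - ↑l - S.g.2 - cl (S.g.1 - ↑l - S.g.2) S.h) / 2 =
    q.2 - (S.g.2 + (S.g.1 - ↑l - S.g.2 - cl (S.g.1 - ↑l - S.g.2) S.h) / 2) := by ring
  rw [e2]; ring

theorem tr2_mem (e : Letter) (S : St2) : (tr2 e S).g ∈ line2 e := by
  rcases e with ⟨_ | _, k⟩
  · rfl
  · simp only [tr2, line2, Set.mem_ofPred_eq]; ring

theorem ev2_lip (S : St2) (z z' : ℝ × ℝ) : ev2 S z ≤ ev2 S z' + N2 z' z := by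
  unfold ev2 N2
  have h1 := abs_sub_le z.1 z'.1 S.g.1
  have h2 := abs_sub_le z.2 z'.2 S.g.2
  rw [abs_sub_comm z.1 z'.1] at h1
  rw [abs_sub_comm z.2 z'.2] at h2
  have h3 := le_max_left |z'.1 - z.1| |z'.2 - z.2|
  have h4 := le_max_right |z'.1 - z.1| |z'.2 - z.2|
  have h5 := le_max_left |z'.1 - S.g.1| (S.h + |z'.2 - S.g.2|)
  have h6 := le_max_right |z'.1 - S.g.1| (S.h + |z'.2 - S.g.2|)
  have : max |z.1 - S.g.1| (S.h + |z.2 - S.g.2|) ≤
      max |z'.1 - S.g.1| (S.h + |z'.2 - S.g.2|) + max |z'.1 - z.1| |z'.2 - z.2| :=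
    max_le (by linarith) (by linarith)
  linarith

/-- transport along a word in model 2 -/
noncomputable def go2 (L : List Letter) (S : St2) : St2 := L.foldl (fun S e => tr2 e S) S

@[simp] theorem go2_nil (S : St2) : go2 [] S = S := rfl
@[simp] theorem go2_cons (e : Letter) (L : List Letter) (S : St2) :
    go2 (e :: L) S = go2 L (tr2 e S) := rfl
theorem go2_append (L L' : List Letter) (S : St2) : go2 (L ++ L') S = go2 L' (go2 L S) := by
  simp [go2, List.foldl_append]

/-- Model 2 -/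
noncomputable def M2 : Model where
  St := St2
  N := N2
  ini z := ⟨0, 0, z, le_refl 0⟩
  ev := ev2
  tr := tr2
  line := line2
  N_self z := by simp [N2]
  N_comm := N2_comm
  N_tri := N2_tri
  ev_ini z z' := by
    simp only [ev2, N2, zero_add]
    rw [abs_sub_comm z.1, abs_sub_comm z.2]
  ev_lip := ev2_lip
  tr_le e S q z hq := by
    rcases e with ⟨_ | _, k⟩
    · simp only [line2, Set.mem_ofPred_eq] at hq
      simp only [ev2, tr2, N2, hq]
      have h1 := abs_sub_le z.1 q.1 S.g.1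
      rw [abs_sub_comm z.1 q.1] at h1
      rw [abs_sub_comm z.2 (k:ℝ), abs_sub_comm S.g.2 (k:ℝ)]
      have h3 := le_max_left |q.1 - z.1| |(k:ℝ) - z.2|
      have h4 := le_max_right |q.1 - z.1| |(k:ℝ) - z.2|
      have h5 := le_max_left |q.1 - S.g.1| (S.h + |(k:ℝ) - S.g.2|)
      have h6 := le_max_right |q.1 - S.g.1| (S.h + |(k:ℝ) - S.g.2|)
      have : max |z.1 - S.g.1| (S.h + |(k:ℝ) - S.g.2| + |(k:ℝ) - z.2|) ≤
        max |q.1 - S.g.1| (S.h + |(k:ℝ) - S.g.2|) + max |q.1 - z.1| |(k:ℝ) - z.2| :=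
        max_le (by linarith) (by linarith)
      linarith
    · have h1 := ev2_diag S k q hq
      have h2 := tr2_mem (true, k) S
      rw [h1]
      have h3 := ev2_lip (tr2 (true, k) S) z q
      have h4 : ev2 (tr2 (true, k) S) q = (tr2 (true, k) S).D + |q.2 - (tr2 (true, k) S).g.2| := by
        simp only [line2, Set.mem_ofPred_eq] at hq h2
        have e1 : q.1 - (tr2 (true, k) S).g.1 = q.2 - (tr2 (true, k) S).g.2 := by linarith
        have e2 : (tr2 (true, k) S).h = 0 := rfl
        unfold ev2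
        rw [e1, e2, zero_add, max_self]
      linarith
  tr_ex e S z := by
    rcases e with ⟨_ | _, k⟩
    · -- horizontal line
      by_cases hc : |z.1 - S.g.1| ≤ S.h + |S.g.2 - k| + |z.2 - k|
      · -- move part of the way
        set a := S.h + |S.g.2 - k| with ha
        have ha0 : 0 ≤ a := add_nonneg S.hh (abs_nonneg _)
        -- choose `q₁` within `a` of `S.g.1` and within `|z.2-k|` of `z.1`
        obtain ⟨q1, hq1, hq2⟩ : ∃ q1, |q1 - S.g.1| ≤ a ∧ |q1 - z.1| ≤ |z.2 - k| := by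
          refine ⟨max (S.g.1 - a) (min z.1 (S.g.1 + a)), ?_, ?_⟩
          · rw [abs_le]
            constructor
            · have := le_max_left (S.g.1 - a) (min z.1 (S.g.1 + a)); linarith
            · have h1 := min_le_right z.1 (S.g.1 + a)
              have := max_le (by linarith : S.g.1 - a ≤ S.g.1 + a) h1
              linarith
          · have hb := abs_nonneg (z.2 - k)
            rw [abs_le] at hc ⊢
            obtain ⟨hc1, hc2⟩ := hc
            constructor
            · have h1 : min z.1 (S.g.1 + a) ≥ z.1 - |z.2 - k| := le_min (by linarith) (by linarith)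
              have := le_max_right (S.g.1 - a) (min z.1 (S.g.1 + a))
              linarith
            · have h1 : min z.1 (S.g.1 + a) ≤ z.1 := min_le_left _ _
              have : max (S.g.1 - a) (min z.1 (S.g.1 + a)) ≤ z.1 + |z.2 - k| :=
                max_le (by linarith) (by linarith)
              linarith
        refine ⟨(q1, k), rfl, ?_⟩
        simp only [ev2, tr2, N2]
        rw [abs_sub_comm (k:ℝ) z.2, abs_sub_comm (k:ℝ) S.g.2, ← ha, max_eq_right hc,
          max_eq_right hq1, max_eq_right hq2]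
        ring
      · push Not at hc
        set a := S.h + |S.g.2 - k| with ha
        have ha0 : 0 ≤ a := add_nonneg S.hh (abs_nonneg _)
        have hb := abs_nonneg (z.2 - k)
        -- go on at unit speed in the first coordinate
        rcases le_total S.g.1 z.1 with h1 | h1
        · rw [abs_of_nonneg (by linarith : (0:ℝ) ≤ z.1 - S.g.1)] at hc
          refine ⟨(z.1 - |z.2 - k|, k), rfl, ?_⟩
          simp only [ev2, tr2, N2]
          rw [abs_sub_comm (k:ℝ) z.2, abs_sub_comm (k:ℝ) S.g.2, ← ha, max_eq_left, max_eq_left,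
            max_eq_right]
          · rw [abs_of_nonneg (by linarith : 0 ≤ z.1 - S.g.1),
              abs_of_nonneg (by linarith : 0 ≤ z.1 - |z.2 - k| - S.g.1)]
            ring
          · rw [show z.1 - |z.2 - k| - z.1 = -|z.2 - k| by ring, abs_neg, abs_abs]
          · rw [abs_of_nonneg (by linarith : 0 ≤ z.1 - |z.2 - k| - S.g.1)]; linarith
          · rw [abs_of_nonneg (by linarith : 0 ≤ z.1 - S.g.1)]; linarith
        · rw [abs_of_nonpos (by linarith : z.1 - S.g.1 ≤ (0:ℝ))] at hc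
          refine ⟨(z.1 + |z.2 - k|, k), rfl, ?_⟩
          simp only [ev2, tr2, N2]
          rw [abs_sub_comm (k:ℝ) z.2, abs_sub_comm (k:ℝ) S.g.2, ← ha, max_eq_left, max_eq_left,
            max_eq_right]
          · rw [abs_of_nonpos (by linarith : z.1 - S.g.1 ≤ 0),
              abs_of_nonpos (by linarith : z.1 + |z.2 - k| - S.g.1 ≤ 0)]
            ring
          · rw [show z.1 + |z.2 - k| - z.1 = |z.2 - k| by ring, abs_abs]
          · rw [abs_of_nonpos (by linarith : z.1 + |z.2 - k| - S.g.1 ≤ 0)]; linarith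
          · rw [abs_of_nonpos (by linarith : z.1 - S.g.1 ≤ 0)]; linarith
    · refine ⟨(tr2 (true, k) S).g, tr2_mem _ S, ?_⟩
      rw [ev2_diag S k _ (tr2_mem _ S), sub_self, abs_zero, add_zero]
      have e2 : (tr2 (true, k) S).h = 0 := rfl
      unfold ev2 N2
      rw [e2, zero_add, abs_sub_comm z.1, abs_sub_comm z.2]

theorem M1_go (L : List Letter) (S : St1) : M1.go L S = go1 L S := rfl
theorem M2_go (L : List Letter) (S : St2) : M2.go L S = go2 L S := rfl
theorem M1_cost (L : List Letter) (z z' : ℝ × ℝ) : M1.cost L z z' = ev1 (go1 L ⟨0, z⟩) z' := rfl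
theorem M2_cost (L : List Letter) (z z' : ℝ × ℝ) :
    M2.cost L z z' = ev2 (go2 L ⟨0, 0, z, le_refl 0⟩) z' := rfl

/-- the state of a point at a plane, model 1 -/
def S1 (w : Pl) (ξ : Pt M1) : St1 := go1 (ξ.pl⁻¹ * w).val ⟨0, ξ.pos⟩

/-- the state of a point at a plane, model 2 -/
noncomputable def S2 (w : Pl) (ξ : Pt M2) : St2 := go2 (ξ.pl⁻¹ * w).val ⟨0, 0, ξ.pos, le_refl 0⟩

theorem dist1 (ξ : Pt M1) (w : Pl) (z : ℝ × ℝ) : dist ξ ⟨w, z⟩ = ev1 (S1 w ξ) z := rfl
theorem dist1' (ξ : Pt M1) (w : Pl) (z : ℝ × ℝ) : dist ⟨w, z⟩ ξ = ev1 (S1 w ξ) z := by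
  rw [dist_comm]; rfl
theorem dist2 (ξ : Pt M2) (w : Pl) (z : ℝ × ℝ) : dist ξ ⟨w, z⟩ = ev2 (S2 w ξ) z := rfl
theorem dist2' (ξ : Pt M2) (w : Pl) (z : ℝ × ℝ) : dist ⟨w, z⟩ ξ = ev2 (S2 w ξ) z := by
  rw [dist_comm]; rfl

theorem S1_dich (w : Pl) (e : Letter) (ξ : Pt M1) :
    S1 (w * W.of e) ξ = tr1 e (S1 w ξ) ∨ S1 w ξ = tr1 e (S1 (w * W.of e) ξ) :=
  Pt.S_dich (M := M1) w e ξ

theorem S2_dich (w : Pl) (e : Letter) (ξ : Pt M2) :
    S2 (w * W.of e) ξ = tr2 e (S2 w ξ) ∨ S2 w ξ = tr2 e (S2 (w * W.of e) ξ) :=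
  Pt.S_dich (M := M2) w e ξ

theorem S1_self (ξ : Pt M1) : S1 ξ.pl ξ = ⟨0, ξ.pos⟩ := Pt.S_self (M := M1) ξ
theorem S2_self (ξ : Pt M2) : S2 ξ.pl ξ = ⟨0, 0, ξ.pos, le_refl 0⟩ := Pt.S_self (M := M2) ξ

end Run7.h484
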