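import Pool.Agent.Run7.h484.Hull

/-! A conical midpoint map on injective hulls. -/

namespace Run7.h484

universe u

open Filter Topology Set

/-- a symmetric conical midpoint map -/
structure ConMid {X : Type u} [MetricSpace X] (m : X → X → X) : Prop where
  symm : ∀ x y, m x y = m y x
  conical : ∀ x y x' y', dist (m x y) (m x' y') ≤ (dist x x' + dist y y') / 2
  mid : ∀ x y, dist x (m x y) = dist x y / 2

section retract

variable {X : Type u} [MetricSpace X]

/-- admissible functions -/
def Adm (f : X → ℝ) : Prop := ∀ x y, dist x y ≤ f x + f y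

/-- conjugate function -/
noncomputable def cj (f : X → ℝ) (x : X) : ℝ := ⨆ y, (dist x y - f y)

theorem cj_bdd {f : X → ℝ} (hf : Adm f) (x : X) : BddAbove (range fun y => dist x y - f y) :=
  ⟨f x, by rintro _ ⟨y, rfl⟩; simp only; linarith [hf x y]⟩

theorem le_cj {f : X → ℝ} (hf : Adm f) (x y : X) : dist x y - f y ≤ cj f x :=
  le_ciSup (cj_bdd hf x) y

theorem cj_le {f : X → ℝ} (hf : Adm f) (x : X) : cj f x ≤ f x := by
  have : Nonempty X := ⟨x⟩
  exact ciSup_le fun y => by linarith [hf x y]

theorem cj_anti {f g : X → ℝ} (hf : Adm f) (h : ∀ x, f x ≤ g x) (x : X) : cj g x ≤ cj f x := by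
  have : Nonempty X := ⟨x⟩
  exact ciSup_le fun y => by linarith [le_cj hf x y, h y]

theorem cj_lip {f g : X → ℝ} (hg : Adm g) {c : ℝ} (h : ∀ x, g x ≤ f x + c) (x : X) :
    cj f x ≤ cj g x + c := by
  have : Nonempty X := ⟨x⟩
  exact ciSup_le fun y => by linarith [le_cj hg x y, h y]

/-- averaging with the conjugate -/
noncomputable def qq (f : X → ℝ) (x : X) : ℝ := (f x + cj f x) / 2

theorem qq_adm {f : X → ℝ} (hf : Adm f) : Adm (qq f) := by
  intro x y
  have h1 := le_cj hf x y
  have h2 := le_cj hf y x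
  rw [dist_comm y x] at h2
  unfold qq
  linarith

theorem qq_le {f : X → ℝ} (hf : Adm f) (x : X) : qq f x ≤ f x := by
  have := cj_le hf x
  unfold qq; linarith

theorem qq_gap {f : X → ℝ} (hf : Adm f) (x : X) : qq f x - cj (qq f) x ≤ (f x - cj f x) / 2 := by
  have h1 := cj_anti (qq_adm hf) (qq_le hf) x
  unfold qq at *
  linarith

theorem qq_lip {f g : X → ℝ} (hf : Adm f) (hg : Adm g) {c : ℝ} (h : ∀ x, |f x - g x| ≤ c)
    (x : X) : |qq f x - qq g x| ≤ c := by
  have h1 := abs_le.1 (h x)
  have h2 := cj_lip hg (c := c) (f := f) (fun y => by have := abs_le.1 (h y); linarith) x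
  have h3 := cj_lip hf (c := c) (f := g) (fun y => by have := abs_le.1 (h y); linarith) x
  unfold qq
  rw [abs_le]
  constructor <;> linarith

/-- iteration -/
noncomputable def itq (f : X → ℝ) : ℕ → X → ℝ
  | 0 => f
  | n + 1 => qq (itq f n)

theorem itq_adm {f : X → ℝ} (hf : Adm f) (n : ℕ) : Adm (itq f n) := by
  induction n with
  | zero => exact hf
  | succ n ih => exact qq_adm ih

theorem itq_anti {f : X → ℝ} (hf : Adm f) (x : X) : Antitone fun n => itq f n x :=
  antitone_nat_of_succ_le fun n => qq_le (itq_adm hf n) x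

theorem itq_gap {f : X → ℝ} (hf : Adm f) (n : ℕ) (x : X) :
    itq f n x - cj (itq f n) x ≤ (1 / 2) ^ n * (f x - cj f x) := by
  induction n with
  | zero => simp [itq]
  | succ n ih =>
    have := qq_gap (itq_adm hf n) x
    show qq (itq f n) x - cj (qq (itq f n)) x ≤ _
    rw [pow_succ]
    linarith

theorem itq_lip {f g : X → ℝ} (hf : Adm f) (hg : Adm g) {c : ℝ} (h : ∀ x, |f x - g x| ≤ c)
    (n : ℕ) : ∀ x, |itq f n x - itq g n x| ≤ c := by
  induction n with
  | zero => exact h
  | succ n ih => exact qq_lip (itq_adm hf n) (itq_adm hg n) ih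

theorem adm_nonneg {f : X → ℝ} (hf : Adm f) (x : X) : 0 ≤ f x := by
  have := hf x x
  rw [dist_self] at this
  linarith

theorem itq_bdd {f : X → ℝ} (hf : Adm f) (x : X) : BddBelow (range fun n => itq f n x) :=
  ⟨0, by rintro _ ⟨n, rfl⟩; exact adm_nonneg (itq_adm hf n) x⟩

/-- the limit -/
noncomputable def pr (f : X → ℝ) (x : X) : ℝ := ⨅ n, itq f n x

theorem pr_le {f : X → ℝ} (hf : Adm f) (n : ℕ) (x : X) : pr f x ≤ itq f n x :=
  ciInf_le (itq_bdd hf x) n

theorem pr_tendsto {f : X → ℝ} (hf : Adm f) (x : X) :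
    Tendsto (fun n => itq f n x) atTop (𝓝 (pr f x)) :=
  tendsto_atTop_ciInf (itq_anti hf x) (itq_bdd hf x)

theorem pr_ext {f : X → ℝ} (hf : Adm f) : IsExtremal (pr f) := by
  rw [isExtremal_iff]
  constructor
  · intro x y
    have h1 := (pr_tendsto hf x).add (pr_tendsto hf y)
    exact ge_of_tendsto' h1 fun n => itq_adm hf n x y
  · intro x ε hε
    have h1 : Tendsto (fun n : ℕ => (1 / 2 : ℝ) ^ n * (f x - cj f x)) atTop
        (𝓝 (0 * (f x - cj f x))) :=
      (tendsto_pow_atTop_nhds_zero_of_lt_one (by norm_num) (by norm_num)).mul_const _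
    rw [zero_mul] at h1
    obtain ⟨n, hn⟩ := (h1.eventually (gt_mem_nhds (by linarith : (0:ℝ) < ε / 2))).exists
    have h2 := itq_gap hf n x
    have : Nonempty X := ⟨x⟩
    have h3 : cj (itq f n) x - ε / 2 < ⨆ y, (dist x y - itq f n y) := by
      show _ < cj (itq f n) x
      linarith
    obtain ⟨y, hy⟩ := exists_lt_of_lt_ciSup h3
    have h4 := pr_le hf n x
    have h5 := pr_le hf n y
    exact ⟨y, by linarith⟩

theorem pr_lip {f g : X → ℝ} (hf : Adm f) (hg : Adm g) {c : ℝ} (h : ∀ x, |f x - g x| ≤ c)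
    (x : X) : |pr f x - pr g x| ≤ c :=
  le_of_tendsto' ((pr_tendsto hf x).sub (pr_tendsto hg x)).abs fun n => itq_lip hf hg h n x

theorem pr_self {f : X → ℝ} (hf : IsExtremal f) : pr f = f := by
  have h1 : ∀ x, cj f x = f x := by
    intro x
    apply le_antisymm (cj_le hf.1 x)
    apply le_of_forall_pos_lt_add
    intro ε hε
    obtain ⟨y, hy⟩ := (isExtremal_iff.1 hf).2 x ε hε
    have := le_cj hf.1 x y
    linarith
  have h2 : qq f = f := by
    funext x
    unfold qq
    rw [h1 x]; ring
  have h3 : ∀ n, itq f n = f := by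
    intro n
    induction n with
    | zero => rfl
    | succ n ih =>
      show qq (itq f n) = f
      rw [ih, h2]
  funext x
  unfold pr
  simp only [h3]
  exact ciInf_const

theorem avg_adm (f g : InjHull X) : Adm fun x => (f.val x + g.val x) / 2 := by
  intro x y
  have h1 := f.extremal.1 x y
  have h2 := g.extremal.1 x y
  simp only
  linarith

/-- the canonical midpoint -/
noncomputable def hmid (f g : InjHull X) : InjHull X :=
  ⟨pr fun x => (f.val x + g.val x) / 2, pr_ext (avg_adm f g)⟩

theorem val_dist_le (f g : InjHull X) (x : X) : |f.val x - g.val x| ≤ dist f g :=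
  le_ciSup (hull_bdd f g) x

theorem dist_le_of {f g : InjHull X} {c : ℝ} (hc : 0 ≤ c) (h : ∀ x, |f.val x - g.val x| ≤ c) :
    dist f g ≤ c := by
  rw [InjHull.dist_def]
  rcases isEmpty_or_nonempty X with hX | hX
  · rw [Real.iSup_of_isEmpty]; exact hc
  · exact ciSup_le h

theorem hmid_conMid : ConMid (hmid : InjHull X → InjHull X → InjHull X) := by
  have hcon : ∀ f g f' g' : InjHull X,
      dist (hmid f g) (hmid f' g') ≤ (dist f f' + dist g g') / 2 := by
    intro f g f' g'
    have h0 : 0 ≤ (dist f f' + dist g g') / 2 := by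
      have := dist_nonneg (x := f) (y := f')
      have := dist_nonneg (x := g) (y := g')
      linarith
    apply dist_le_of h0
    apply pr_lip (avg_adm f g) (avg_adm f' g')
    intro x
    have h1 := abs_le.1 (val_dist_le f f' x)
    have h2 := abs_le.1 (val_dist_le g g' x)
    rw [abs_le]
    constructor <;> linarith
  have hself : ∀ f : InjHull X, hmid f f = f := by
    intro f
    apply InjHull.ext
    show pr (fun x => (f.val x + f.val x) / 2) = f.val
    have : (fun x => (f.val x + f.val x) / 2) = f.val := by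
      funext x; ring
    rw [this]
    exact pr_self f.extremal
  have hsymm : ∀ f g : InjHull X, hmid f g = hmid g f := by
    intro f g
    apply InjHull.ext
    show pr (fun x => (f.val x + g.val x) / 2) = pr (fun x => (g.val x + f.val x) / 2)
    congr 1
    funext x
    ring
  refine ⟨hsymm, hcon, ?_⟩
  have hle : ∀ f g : InjHull X, dist f (hmid f g) ≤ dist f g / 2 := by
    intro f g
    have := hcon f f f g
    rw [hself, dist_self, zero_add] at this
    exact this
  intro f g
  have h1 := hle f g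
  have h2 := hle g f
  rw [hsymm g f, dist_comm g f] at h2
  have h3 := dist_triangle f (hmid f g) g
  rw [dist_comm (hmid f g) g] at h3
  linarith

end retract

end Run7.h484
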