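import Pool.Agent.Run7.h484.Grp
import Pool.Agent.Run7.h484.LineCut

/-! Realisations of a tree of planes as a metric space. -/

namespace Run7.h484

universe u

open Set

/-- a metric space isometric to the metric quotient of the tree of planes of a model -/
structure Rz (M : Model) (Y : Type u) [MetricSpace Y] where
  ι : LatModel.VPt M → Y
  dist_ι : ∀ ξ η, dist (ι ξ) (ι η) = dist ξ η
  surj : Function.Surjective ι

namespace Rz

variable {M : Model} {Y : Type u} [MetricSpace Y] (R : Rz M Y)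

/-- the point with coordinates `z` of the plane `w` -/
def pt (w : Pl) (hw : w ∈ VP) (z : ℝ × ℝ) : Y := R.ι ⟨⟨w, z⟩, hw⟩

theorem dist_pt (w w' : Pl) (hw : w ∈ VP) (hw' : w' ∈ VP) (z z' : ℝ × ℝ) :
    dist (R.pt w hw z) (R.pt w' hw' z') = dist (⟨w, z⟩ : Pt M) ⟨w', z'⟩ := R.dist_ι _ _

theorem dist_same (w : Pl) (hw : w ∈ VP) (z z' : ℝ × ℝ) :
    dist (R.pt w hw z) (R.pt w hw z') = M.N z z' := by
  rw [dist_pt, Pt.dist_same]

theorem exists_pt (y : Y) : ∃ ξ : LatModel.VPt M, y = R.ι ξ :=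
  let ⟨ξ, h⟩ := R.surj y
  ⟨ξ, h.symm⟩

theorem dist_ι_pt (ξ : LatModel.VPt M) (w : Pl) (hw : w ∈ VP) (z : ℝ × ℝ) :
    dist (R.ι ξ) (R.pt w hw z) = dist ξ.1 (⟨w, z⟩ : Pt M) := R.dist_ι _ _

theorem glue (w : Pl) (hw : w ∈ VP) (e : Letter) (hw' : w * W.of e ∈ VP) {q : ℝ × ℝ}
    (hq : q ∈ M.line e) : R.pt w hw q = R.pt (w * W.of e) hw' q := by
  apply dist_le_zero.1
  rw [dist_pt, Pt.dist_glue w e hq]

theorem N_le_dist (ξ η : LatModel.VPt M) : M.N ξ.1.pos η.1.pos ≤ dist (R.ι ξ) (R.ι η) := by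
  rw [R.dist_ι]
  exact ShModel.N_le_dist ξ.1 η.1

/-- the near side of an edge -/
def A (w : Pl) (e : Letter) : Set Y := {y | ∃ ξ : LatModel.VPt M, R.ι ξ = y ∧ Pt.Before w e ξ.1}

/-- the far side of an edge -/
def B (w : Pl) (e : Letter) : Set Y := {y | ∃ ξ : LatModel.VPt M, R.ι ξ = y ∧ Pt.Beyond w e ξ.1}

theorem union_AB (w : Pl) (e : Letter) : R.A w e ∪ R.B w e = univ := by
  apply eq_univ_of_forall
  intro y
  obtain ⟨ξ, rfl⟩ := R.exists_pt y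
  rcases Pt.before_or_beyond w e ξ.1 with h | h
  · exact Or.inl ⟨ξ, rfl, h⟩
  · exact Or.inr ⟨ξ, rfl, h⟩

theorem pt_mem_A {w w' : Pl} {e : Letter} (hw' : w' ∈ VP)
    (h : (w'⁻¹ * w * W.of e).val = (w'⁻¹ * w).val ++ [e]) (z : ℝ × ℝ) :
    R.pt w' hw' z ∈ R.A w e := ⟨_, rfl, h⟩

theorem pt_mem_B {w w' : Pl} {e : Letter} (hw' : w' ∈ VP)
    (h : (w'⁻¹ * w).val = (w'⁻¹ * w * W.of e).val ++ [e]) (z : ℝ × ℝ) :
    R.pt w' hw' z ∈ R.B w e := ⟨_, rfl, h⟩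

theorem pt_self_mem_A {w : Pl} {e : Letter} (hw : w ∈ VP) (z : ℝ × ℝ) :
    R.pt w hw z ∈ R.A w e := by
  apply R.pt_mem_A
  rw [inv_mul_cancel, one_mul]; rfl

theorem pt_next_mem_B {w : Pl} {e : Letter} (hw' : w * W.of e ∈ VP) (z : ℝ × ℝ) :
    R.pt (w * W.of e) hw' z ∈ R.B w e := by
  apply R.pt_mem_B
  have h1 : (w * W.of e)⁻¹ * w * W.of e = 1 := by group
  have h2 : (w * W.of e)⁻¹ * w = W.of e := by
    rw [mul_inv_rev, W.of_inv, mul_assoc, inv_mul_cancel, mul_one]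
  rw [h1, h2]; rfl

theorem cross_AB {w : Pl} {e : Letter} (hw : w ∈ VP) {x y : Y} (hx : x ∈ R.A w e)
    (hy : y ∈ R.B w e) :
    ∃ q ∈ M.line e, dist x y = dist x (R.pt w hw q) + dist (R.pt w hw q) y := by
  obtain ⟨ξ, rfl, hξ⟩ := hx
  obtain ⟨η, rfl, hη⟩ := hy
  obtain ⟨q, hq, h⟩ := Pt.dist_cross hξ hη
  refine ⟨q, hq, ?_⟩
  have e1 : dist (R.ι ξ) (R.pt w hw q) = dist ξ.1 (⟨w, q⟩ : Pt M) := R.dist_ι _ _
  have e2 : dist (R.pt w hw q) (R.ι η) = dist (⟨w, q⟩ : Pt M) η.1 := R.dist_ι _ _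
  rw [e1, e2, R.dist_ι]
  exact h

end Rz

end Run7.h484
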