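import Pool.Agent.Run7.h484.Models

/-! Valid planes, local finiteness. -/

namespace Run7.h484

/-- validity of a word with respect to the parities `s` (vertical lines) and `t` (horizontal
lines) -/
def Val : ZMod 2 → ZMod 2 → List Letter → Prop
  | _, _, [] => True
  | s, t, (false, k) :: l => (k : ZMod 2) = t ∧ Val (s + 1) t l
  | s, t, (true, m) :: l => (m : ZMod 2) = s ∧ Val s (t + 1) l

/-- parity of the number of letters with a given type -/
def par (b : Bool) (l : List Letter) : ZMod 2 := (l.countP (fun e => e.1 = b) : ℕ)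

/-- admissible letters at parities `s`, `t` -/
def Ok (s t : ZMod 2) : Letter → Prop
  | (false, k) => (k : ZMod 2) = t
  | (true, m) => (m : ZMod 2) = s

theorem Val_append (s t : ZMod 2) (l l' : List Letter) :
    Val s t (l ++ l') ↔ Val s t l ∧ Val (s + par false l) (t + par true l) l' := by
  induction l generalizing s t with
  | nil => simp [Val, par]
  | cons e l ih =>
    rcases e with ⟨_ | _, k⟩
    · simp only [List.cons_append, Val, ih, and_assoc]
      have h1 : s + 1 + par false l = s + par false ((false, k) :: l) := by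
        simp [par]; ring
      have h2 : par true ((false, k) :: l) = par true l := by simp [par]
      rw [h1, h2]
    · simp only [List.cons_append, Val, ih, and_assoc]
      have h1 : t + 1 + par true l = t + par true ((true, k) :: l) := by
        simp [par]; ring
      have h2 : par false ((true, k) :: l) = par false l := by simp [par]
      rw [h1, h2]

theorem Val_singleton (s t : ZMod 2) (e : Letter) : Val s t [e] ↔ Ok s t e := by
  rcases e with ⟨_ | _, k⟩ <;> simp [Val, Ok]

/-- valid planes -/
def VP : Set Pl := {w | Val 0 0 w.val}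

theorem one_mem_VP : (1 : Pl) ∈ VP := trivial

/-- availability of the letter `e` at the plane `w` -/
def Av (w : Pl) (e : Letter) : Prop := Ok (par false w.val) (par true w.val) e

theorem par_snoc_same (l : List Letter) (e : Letter) :
    par e.1 (l ++ [e]) = par e.1 l + 1 := by
  simp [par, List.countP_append]

theorem par_snoc_ne (l : List Letter) (e : Letter) (b : Bool) (hb : e.1 ≠ b) :
    par b (l ++ [e]) = par b l := by
  simp [par, List.countP_append, hb]

theorem Ok_congr {s t s' t' : ZMod 2} {e : Letter} (h : e.1 = false → t = t')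
    (h' : e.1 = true → s = s') : Ok s t e ↔ Ok s' t' e := by
  rcases e with ⟨_ | _, k⟩
  · simp [Ok, h rfl]
  · simp [Ok, h' rfl]

theorem Av_snoc {w w' : Pl} {e : Letter} (h : w'.val = w.val ++ [e]) : Av w' e ↔ Av w e := by
  unfold Av
  rw [h]
  apply Ok_congr
  · intro he
    apply par_snoc_ne; rw [he]; simp
  · intro he
    apply par_snoc_ne; rw [he]; simp

theorem mem_VP_mul_of {w : Pl} (hw : w ∈ VP) (e : Letter) : w * W.of e ∈ VP ↔ Av w e := by
  unfold VP at *
  rw [Set.mem_ofPred_eq] at *
  rcases W.dichotomy w e with h | h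
  · rw [h, Val_append, Val_singleton]
    simp only [zero_add]
    exact ⟨fun h => h.2, fun h => ⟨hw, h⟩⟩
  · have h2 := hw
    rw [h, Val_append, Val_singleton] at h2
    simp only [zero_add] at h2
    constructor
    · intro _
      rw [Av_snoc h]
      exact h2.2
    · intro _; exact h2.1

theorem VP_prefix {w w' : Pl} {l : List Letter} (hw : w ∈ VP) (h : w.val = w'.val ++ l) :
    w' ∈ VP := by
  unfold VP at *
  rw [Set.mem_ofPred_eq] at *
  rw [h, Val_append] at hw
  exact hw.1

/-! ### Costs in model 1 -/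

theorem go1_D (L : List Letter) (D : ℝ) (g : ℝ × ℝ) :
    go1 L ⟨D, g⟩ = ⟨D + (go1 L ⟨0, g⟩).D, (go1 L ⟨0, g⟩).g⟩ := by
  induction L generalizing D g with
  | nil => simp
  | cons e L ih =>
    rw [go1_cons, go1_cons]
    unfold tr1
    rw [ih (D + _), ih (0 + _)]
    simp only [zero_add, St1.mk.injEq, and_true]
    ring

theorem N1_nonneg (z z' : ℝ × ℝ) : 0 ≤ N1 z z' := by unfold N1; positivity

/-- the depth reached along a word in model 1 -/
noncomputable def dep (L : List Letter) (g : ℝ × ℝ) : ℝ := (go1 L ⟨0, g⟩).D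

theorem dep_nil (g : ℝ × ℝ) : dep [] g = 0 := rfl

theorem dep_cons (e : Letter) (L : List Letter) (g : ℝ × ℝ) :
    dep (e :: L) g = N1 g (proj1 e g) + dep L (proj1 e g) := by
  unfold dep
  rw [go1_cons]
  unfold tr1
  rw [go1_D]
  simp

theorem dep_nonneg (L : List Letter) (g : ℝ × ℝ) : 0 ≤ dep L g := by
  induction L generalizing g with
  | nil => simp [dep_nil]
  | cons e L ih => rw [dep_cons]; exact add_nonneg (N1_nonneg _ _) (ih _)

theorem dep_le_cost (L : List Letter) (z z' : ℝ × ℝ) : dep L z ≤ M1.cost L z z' := by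
  have : M1.cost L z z' = dep L z + N1 (go1 L ⟨0, z⟩).g z' := rfl
  rw [this]
  linarith [N1_nonneg (go1 L ⟨0, z⟩).g z']

theorem int_abs_ge {a b : ℤ} (h : a ≠ b) : (1 : ℝ) ≤ |(a : ℝ) - b| := by
  have : (1 : ℤ) ≤ |a - b| := Int.one_le_abs (sub_ne_zero.2 h)
  exact_mod_cast this

theorem zmod_ne {a b : ℤ} {t : ZMod 2} (ha : (a : ZMod 2) = t) (hb : (b : ZMod 2) = t + 1) :
    a ≠ b := by
  rintro rfl
  rw [ha] at hb
  clear ha
  revert hb
  revert t
  decide

/-- three consecutive letters cost at least one -/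
theorem three_letters {s t : ZMod 2} {e e' e'' : Letter} {L : List Letter}
    (hred : Red (e :: e' :: e'' :: L)) (hval : Val s t (e :: e' :: e'' :: L))
    {q : ℝ × ℝ} (hq : q ∈ line1 e) :
    1 ≤ N1 q (proj1 e' q) + N1 (proj1 e' q) (proj1 e'' (proj1 e' q)) := by
  rw [red_cons_cons, red_cons_cons] at hred
  obtain ⟨h1, h2, -⟩ := hred
  rcases e with ⟨_ | _, a⟩ <;> rcases e' with ⟨_ | _, b⟩ <;> rcases e'' with ⟨_ | _, c⟩ <;>
    simp only [Val, line1, Set.mem_ofPred_eq, proj1, N1] at *
  · have : a ≠ b := fun h => h1 (by rw [h])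
    have h3 := int_abs_ge this
    rw [hq]; simp only [sub_self, abs_zero]; 
    have := abs_nonneg ((b:ℝ) - c)
    linarith
  · have : a ≠ b := fun h => h1 (by rw [h])
    have h3 := int_abs_ge this
    rw [hq]; simp only [sub_self, abs_zero]
    have := abs_nonneg (q.1 - c)
    linarith
  · have h3 := int_abs_ge (zmod_ne hval.1 hval.2.2.1)
    rw [hq]; simp only [sub_self, abs_zero]
    have := abs_nonneg (q.1 - b)
    linarith
  · have : b ≠ c := fun h => h2 (by rw [h])
    have h3 := int_abs_ge this
    rw [hq]; simp only [sub_self, abs_zero]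
    have := abs_nonneg (q.1 - b)
    linarith
  · have : b ≠ c := fun h => h2 (by rw [h])
    have h3 := int_abs_ge this
    rw [hq]; simp only [sub_self, abs_zero]
    have := abs_nonneg (q.2 - b)
    linarith
  · have h3 := int_abs_ge (zmod_ne hval.1 hval.2.2.1)
    rw [hq]; simp only [sub_self, abs_zero]
    have := abs_nonneg (q.2 - b)
    linarith
  · have : a ≠ b := fun h => h1 (by rw [h])
    have h3 := int_abs_ge this
    rw [hq]; simp only [sub_self, abs_zero]
    have := abs_nonneg (q.2 - c)
    linarith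
  · have : a ≠ b := fun h => h1 (by rw [h])
    have h3 := int_abs_ge this
    rw [hq]; simp only [sub_self, abs_zero]
    have := abs_nonneg ((b:ℝ) - c)
    linarith

theorem Val_tail {s t : ZMod 2} {e : Letter} {L : List Letter} (h : Val s t (e :: L)) :
    ∃ s' t', Val s' t' L := by
  rcases e with ⟨_ | _, k⟩
  · exact ⟨_, _, h.2⟩
  · exact ⟨_, _, h.2⟩

theorem len_le_aux (n : ℕ) : ∀ (L : List Letter) (e : Letter) (s t : ZMod 2) (q : ℝ × ℝ),
    L.length ≤ n → Red (e :: L) → Val s t (e :: L) → q ∈ line1 e →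
    (L.length : ℝ) ≤ 2 * dep L q + 1 := by
  induction n using Nat.strong_induction_on with
  | _ n ih =>
    intro L e s t q hn hred hval hq
    match L, hn, hred, hval with
    | [], _, _, _ => simp [dep_nil]
    | [e'], _, _, _ =>
      have := dep_nonneg [e'] q
      simp only [List.length_singleton, Nat.cast_one]
      linarith
    | e' :: e'' :: L, hn, hred, hval =>
      have h1 := three_letters hred hval hq
      simp only [List.length_cons] at hn
      obtain ⟨s1, t1, hv1⟩ := Val_tail hval
      obtain ⟨s2, t2, hv2⟩ := Val_tail hv1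
      have h2 := ih L.length (by omega) L e'' s2 t2 (proj1 e'' (proj1 e' q)) le_rfl hred.tail.tail
        hv2 (proj1_mem _ _)
      rw [dep_cons, dep_cons]
      push_cast [List.length_cons]
      linarith

theorem len_le {w : Pl} (hw : w ∈ VP) (z : ℝ × ℝ) : (w.val.length : ℝ) ≤ 2 * dep w.val z + 2 := by
  have hred := w.red
  have hval : Val 0 0 w.val := hw
  rcases h : w.val with _ | ⟨e, L⟩
  · simp [dep_nil]
  · rw [h] at hred hval
    have := len_le_aux L.length L e 0 0 (proj1 e z) le_rfl hred hval (proj1_mem _ _)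
    rw [dep_cons]
    push_cast [List.length_cons]
    have := N1_nonneg z (proj1 e z)
    linarith

theorem letter_le {L : List Letter} {z : ℝ × ℝ} {e : Letter} (he : e ∈ L) :
    |(e.2 : ℝ)| ≤ |z.1| + |z.2| + dep L z := by
  induction L generalizing z with
  | nil => simp at he
  | cons a L ih =>
    rw [dep_cons]
    have hnn := dep_nonneg L (proj1 a z)
    rcases List.mem_cons.1 he with rfl | he
    · rcases e with ⟨_ | _, k⟩
      · simp only [proj1, N1, sub_self, abs_zero, zero_add] at *
        have h1 := abs_sub_abs_le_abs_sub (k:ℝ) z.2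
        rw [abs_sub_comm] at h1
        have := abs_nonneg z.1
        linarith
      · simp only [proj1, N1, sub_self, abs_zero, add_zero] at *
        have h1 := abs_sub_abs_le_abs_sub (k:ℝ) z.1
        rw [abs_sub_comm] at h1
        have := abs_nonneg z.2
        linarith
    · have h := ih (z := proj1 a z) he
      have h2 : |(proj1 a z).1| + |(proj1 a z).2| ≤ |z.1| + |z.2| + N1 z (proj1 a z) := by
        unfold N1
        have h3 := abs_sub_abs_le_abs_sub (proj1 a z).1 z.1
        have h4 := abs_sub_abs_le_abs_sub (proj1 a z).2 z.2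
        rw [abs_sub_comm] at h3 h4
        linarith
      linarith

theorem finite_lists {A : Set Letter} (hA : A.Finite) (n : ℕ) :
    {L : List Letter | L.length ≤ n ∧ ∀ e ∈ L, e ∈ A}.Finite := by
  induction n with
  | zero =>
    apply (Set.finite_singleton ([] : List Letter)).subset
    rintro L ⟨h, -⟩
    simpa using h
  | succ n ih =>
    apply ((Set.finite_singleton ([] : List Letter)).union (hA.image2 List.cons ih)).subset
    rintro L ⟨h, h2⟩
    rcases L with _ | ⟨e, L⟩
    · left; rfl
    · right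
      exact ⟨e, h2 e (by simp), L, ⟨by simpa using h, fun a ha => h2 a (by simp [ha])⟩, rfl⟩

theorem finite_dep (z : ℝ × ℝ) (R : ℝ) : {w : Pl | w ∈ VP ∧ dep w.val z ≤ R}.Finite := by
  obtain ⟨n, hn⟩ := exists_nat_gt (2 * R + 2)
  obtain ⟨m, hm⟩ := exists_nat_gt (|z.1| + |z.2| + R)
  have hA : ({e : Letter | |e.2| ≤ (m : ℤ)} : Set Letter).Finite := by
    apply ((Set.finite_univ (α := Bool)).prod (Set.finite_Icc (-(m:ℤ)) m)).subset
    rintro ⟨b, k⟩ hk
    rw [Set.mem_ofPred_eq, abs_le] at hk
    exact ⟨trivial, hk⟩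
  apply Set.Finite.of_finite_image (f := W.val)
  · apply (finite_lists hA n).subset
    rintro _ ⟨w, ⟨hw, hR⟩, rfl⟩
    constructor
    · have := len_le hw z
      have : (w.val.length : ℝ) ≤ n := by linarith
      exact_mod_cast this
    · intro e he
      have := letter_le (z := z) he
      have h2 : |(e.2 : ℝ)| ≤ m := by linarith
      rw [Set.mem_ofPred_eq]
      exact_mod_cast h2
  · intro a _ b _ h
    exact W.ext h

/-- local finiteness in model 1 -/
theorem finite_near1 (z : ℝ × ℝ) (R : ℝ) :
    {w : Pl | w ∈ VP ∧ ∃ z', dist (⟨1, z⟩ : Pt M1) ⟨w, z'⟩ ≤ R}.Finite := by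
  apply (finite_dep z R).subset
  rintro w ⟨hw, z', h⟩
  refine ⟨hw, ?_⟩
  rw [Pt.dist_def] at h
  have h2 := dep_le_cost w.val z z'
  simp only [inv_one, one_mul, Model.cst] at h
  linarith

/-- change of coordinates from model 2 to model 1 -/
def c21 (z : ℝ × ℝ) : ℝ × ℝ := (z.1 - z.2, z.2)

theorem c21_line {e : Letter} {q : ℝ × ℝ} (hq : q ∈ line2 e) : c21 q ∈ line1 e := by
  rcases e with ⟨_ | _, k⟩ <;> exact hq

theorem cost_compare (L : List Letter) (z z' : ℝ × ℝ) :
    M1.cost L (c21 z) (c21 z') ≤ 3 * M2.cost L z z' := by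
  have hN : ∀ z z' : ℝ × ℝ, N1 (c21 z) (c21 z') ≤ 3 * N2 z z' := by
    intro z z'
    unfold N1 N2 c21
    simp only
    have h1 := le_max_left |z.1 - z'.1| |z.2 - z'.2|
    have h2 := le_max_right |z.1 - z'.1| |z.2 - z'.2|
    have h3 : |z.1 - z.2 - (z'.1 - z'.2)| ≤ |z.1 - z'.1| + |z.2 - z'.2| := by
      rw [show z.1 - z.2 - (z'.1 - z'.2) = (z.1 - z'.1) - (z.2 - z'.2) by ring]
      exact abs_sub _ _
    linarith
  induction L using List.reverseRecOn generalizing z' with
  | nil => rw [M1.cost_nil, M2.cost_nil]; exact hN z z'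
  | append_singleton L e ih =>
    obtain ⟨q, hq, h⟩ := M2.cost_snoc_ex L e z z'
    rw [h]
    have h1 := M1.cost_snoc_le L e (c21 z) (c21 q) (c21 z') (c21_line hq)
    have h2 := ih q
    have h3 := hN q z'
    change _ ≤ _ + N1 _ _ at h1
    change _ ≤ 3 * (_ + N2 _ _)
    linarith

/-- local finiteness in model 2 -/
theorem finite_near2 (z : ℝ × ℝ) (R : ℝ) :
    {w : Pl | w ∈ VP ∧ ∃ z', dist (⟨1, z⟩ : Pt M2) ⟨w, z'⟩ ≤ R}.Finite := by
  apply (finite_near1 (c21 z) (3 * R)).subset
  rintro w ⟨hw, z', h⟩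
  refine ⟨hw, c21 z', ?_⟩
  rw [Pt.dist_def] at h ⊢
  have h2 := cost_compare w.val z z'
  simp only [inv_one, one_mul, Model.cst] at h ⊢
  linarith

end Run7.h484
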