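import Pool.Agent.Run7.h484.Rz

/-! The first space: planes are straight, boundary circles of the planes. -/

namespace Run7.h484

universe u

open Set Filter Topology

section X1

variable {Y : Type u} [MetricSpace Y] (R : Rz M1 Y)

theorem gate1 (w : Pl) (hw : w ∈ VP) (m : Y) :
    ∃ g : ℝ × ℝ, ∀ z, dist m (R.pt w hw z) = dist m (R.pt w hw g) + N1 g z := by
  obtain ⟨ξ, rfl⟩ := R.exists_pt m
  refine ⟨(S1 w ξ.1).g, fun z => ?_⟩
  rw [R.dist_ι_pt, R.dist_ι_pt, dist1, dist1]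
  unfold ev1
  have : N1 (S1 w ξ.1).g (S1 w ξ.1).g = 0 := by simp [N1]
  rw [this, add_zero]

theorem coord1 (w w' : Pl) (hw : w ∈ VP) (hw' : w' ∈ VP) (z z' : ℝ × ℝ) :
    N1 z z' ≤ dist (R.pt w hw z) (R.pt w' hw' z') :=
  R.N_le_dist ⟨⟨w, z⟩, hw⟩ ⟨⟨w', z'⟩, hw'⟩

theorem same1 (w : Pl) (hw : w ∈ VP) (z z' : ℝ × ℝ) :
    dist (R.pt w hw z) (R.pt w hw z') = N1 z z' := R.dist_same w hw z z'

theorem N1_eq_zero {z z' : ℝ × ℝ} (h : N1 z z' ≤ 0) : z = z' := by
  unfold N1 at h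
  have h1 := abs_nonneg (z.1 - z'.1)
  have h2 := abs_nonneg (z.2 - z'.2)
  have e1 := abs_eq_zero.1 (by linarith : |z.1 - z'.1| = 0)
  have e2 := abs_eq_zero.1 (by linarith : |z.2 - z'.2| = 0)
  ext <;> linarith

theorem coord1_eq {w w' : Pl} {hw : w ∈ VP} {hw' : w' ∈ VP} {z z' : ℝ × ℝ}
    (h : R.pt w hw z = R.pt w' hw' z') : z = z' := by
  have h1 := coord1 R w w' hw hw' z z'
  rw [h, dist_self] at h1
  exact N1_eq_zero h1

variable {σ : Y → Y → ℝ → Y} (h : IsBicombing σ)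

/-- the point between two points of a plane -/
def mix (z z' : ℝ × ℝ) (t : ℝ) : ℝ × ℝ := ((1 - t) * z.1 + t * z'.1, (1 - t) * z.2 + t * z'.2)

theorem far_eval {s M x : ℝ} (hs : s = 1 ∨ s = -1) (hx : |x| ≤ M) : |x - s * M| = M - s * x := by
  rw [abs_le] at hx
  rcases hs with rfl | rfl
  · rw [abs_of_nonpos (by linarith)]; ring
  · rw [abs_of_nonneg (by linarith)]; ring

include h in
/-- planes are straight for every bicombing -/
theorem seg_plane {w : Pl} (hw : w ∈ VP) (z z' : ℝ × ℝ) {t : ℝ} (ht : t ∈ Icc (0:ℝ) 1) :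
    σ (R.pt w hw z) (R.pt w hw z') t = R.pt w hw (mix z z' t) := by
  set m := σ (R.pt w hw z) (R.pt w hw z') t with hm
  obtain ⟨g, hg⟩ := gate1 R w hw m
  have h1 := h.dist_left (R.pt w hw z) (R.pt w hw z') ht
  have h2 := h.dist_right (R.pt w hw z) (R.pt w hw z') ht
  rw [← hm] at h1 h2
  rw [dist_comm, hg z] at h1
  rw [hg z'] at h2
  have h3 := N1_tri z g z'
  rw [N1_comm z g] at h3
  have h4 := same1 R w hw z z'
  rw [h4] at h1 h2
  have h5 : dist m (R.pt w hw g) = 0 := by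
    have := dist_nonneg (x := m) (y := R.pt w hw g)
    linarith
  have hmg : m = R.pt w hw g := dist_eq_zero.1 h5
  rw [hmg]
  have key : ∀ s1 s2 : ℝ, (s1 = 1 ∨ s1 = -1) → (s2 = 1 ∨ s2 = -1) →
      s1 * (mix z z' t).1 + s2 * (mix z z' t).2 ≤ s1 * g.1 + s2 * g.2 := by
    intro s1 s2 hs1 hs2
    set M := |g.1| + |g.2| + |z.1| + |z.2| + |z'.1| + |z'.2| with hM
    have a1 := abs_nonneg g.1
    have a2 := abs_nonneg g.2
    have a3 := abs_nonneg z.1
    have a4 := abs_nonneg z.2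
    have a5 := abs_nonneg z'.1
    have a6 := abs_nonneg z'.2
    have h6 := h.dist_pt (R.pt w hw z) (R.pt w hw z') (R.pt w hw (s1 * M, s2 * M)) ht
    rw [← hm, hmg, same1, same1, same1] at h6
    unfold N1 at h6
    simp only at h6
    rw [far_eval hs1 (by linarith : |g.1| ≤ M), far_eval hs2 (by linarith : |g.2| ≤ M),
      far_eval hs1 (by linarith : |z.1| ≤ M), far_eval hs2 (by linarith : |z.2| ≤ M),
      far_eval hs1 (by linarith : |z'.1| ≤ M), far_eval hs2 (by linarith : |z'.2| ≤ M)] at h6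
    unfold mix
    simp only
    nlinarith [h6]
  have k1 := key 1 1 (Or.inl rfl) (Or.inl rfl)
  have k2 := key (-1) (-1) (Or.inr rfl) (Or.inr rfl)
  have k3 := key 1 (-1) (Or.inl rfl) (Or.inr rfl)
  have k4 := key (-1) 1 (Or.inr rfl) (Or.inl rfl)
  congr 1
  ext <;> linarith

/-- the linear path -/
def rho (z v : ℝ × ℝ) (t : ℝ) : ℝ × ℝ := (z.1 + t * v.1, z.2 + t * v.2)

/-- unit vectors -/
def Unit1 (v : ℝ × ℝ) : Prop := |v.1| + |v.2| = 1

theorem N1_rho_same (z v : ℝ × ℝ) (hv : Unit1 v) (a b : ℝ) :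
    N1 (rho z v a) (rho z v b) = |a - b| := by
  unfold N1 rho
  simp only
  rw [show z.1 + a * v.1 - (z.1 + b * v.1) = (a - b) * v.1 by ring,
    show z.2 + a * v.2 - (z.2 + b * v.2) = (a - b) * v.2 by ring, abs_mul, abs_mul, ← mul_add, hv,
    mul_one]

theorem N1_rho_base (z z' v : ℝ × ℝ) (t : ℝ) : N1 (rho z v t) (rho z' v t) = N1 z z' := by
  unfold N1 rho
  simp only
  rw [show z.1 + t * v.1 - (z'.1 + t * v.1) = z.1 - z'.1 by ring,
    show z.2 + t * v.2 - (z'.2 + t * v.2) = z.2 - z'.2 by ring]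

theorem N1_rho_dir (z v v' : ℝ × ℝ) (t : ℝ) : N1 (rho z v t) (rho z v' t) = |t| * N1 v v' := by
  unfold N1 rho
  simp only
  rw [show z.1 + t * v.1 - (z.1 + t * v'.1) = t * (v.1 - v'.1) by ring,
    show z.2 + t * v.2 - (z.2 + t * v'.2) = t * (v.2 - v'.2) by ring, abs_mul, abs_mul]
  ring

include h in
theorem seg_rho {w : Pl} (hw : w ∈ VP) (z v : ℝ × ℝ) (a b : ℝ) {t : ℝ}
    (ht : t ∈ Icc (0:ℝ) 1) :
    σ (R.pt w hw (rho z v a)) (R.pt w hw (rho z v b)) t =
      R.pt w hw (rho z v ((1 - t) * a + t * b)) := by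
  rw [seg_plane R h hw _ _ ht]
  congr 1
  unfold mix rho
  ext <;> simp only <;> ring

include h in
theorem plane_ray {w : Pl} (hw : w ∈ VP) (z v : ℝ × ℝ) (hv : Unit1 v) :
    RRay σ (R.pt w hw z) (fun t => R.pt w hw (rho z v t)) where
  zero := by simp [rho]
  iso a b _ _ := by rw [same1, N1_rho_same z v hv]
  seg T l _ hl := by
    have := seg_rho R h hw z v 0 T hl
    rw [mul_zero, zero_add] at this
    have e : rho z v 0 = z := by simp [rho]
    rw [e] at this
    exact this.symm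

/-! ### Boundary points of planes -/

/-- the base point -/
abbrev q0 : Y := R.pt 1 one_mem_VP (0, 0)

/-- the ray `x` is asymptotic to the direction `v` of the plane `w` -/
def Asym (w : VP) (v : ℝ × ℝ) (x : Bdry σ (q0 R)) : Prop :=
  ∃ C, ∀ t, 0 ≤ t → dist (x.c t) (R.pt w.1 w.2 (rho (0, 0) v t)) ≤ C

include h in
theorem Asym.unique {w : VP} {v : ℝ × ℝ} {x y : Bdry σ (q0 R)} (hx : Asym R w v x)
    (hy : Asym R w v y) : x = y := by
  obtain ⟨C, hC⟩ := hx
  obtain ⟨C', hC'⟩ := hy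
  apply Bdry.eq_of_bdd h _ _ (C := C + C')
  intro t ht
  have h1 := hC t ht
  have h2 := hC' t ht
  have h3 := dist_triangle_right (x.c t) (y.c t) (R.pt w.1 w.2 (rho (0, 0) v t))
  linarith

theorem Asym.dir_eq {w : VP} {v v' : ℝ × ℝ} {x : Bdry σ (q0 R)} (hx : Asym R w v x)
    (hy : Asym R w v' x) : v = v' := by
  obtain ⟨C, hC⟩ := hx
  obtain ⟨C', hC'⟩ := hy
  by_contra hne
  have hpos : 0 < N1 v v' := by
    by_contra hcon
    push Not at hcon
    exact hne (N1_eq_zero hcon)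
  have key : ∀ t, 0 ≤ t → t * N1 v v' ≤ C + C' := by
    intro t ht
    have h1 := hC t ht
    have h2 := hC' t ht
    have h3 := dist_triangle_left (R.pt w.1 w.2 (rho (0, 0) v t)) (R.pt w.1 w.2 (rho (0, 0) v' t))
      (x.c t)
    rw [same1, N1_rho_dir, abs_of_nonneg ht] at h3
    linarith
  have h0 := key 0 le_rfl
  rw [zero_mul] at h0
  have := key ((C + C' + 1) / N1 v v') (by positivity)
  rw [div_mul_cancel₀ _ hpos.ne'] at this
  linarith

/-- shifting the base point of the linear ray, large times only -/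
theorem Asym.of_large {w : VP} {v : ℝ × ℝ} {x : Bdry σ (q0 R)} (z : ℝ × ℝ) {C b : ℝ}
    (hx : ∀ t, b ≤ t → 0 ≤ t → dist (x.c t) (R.pt w.1 w.2 (rho z v t)) ≤ C) (hv : Unit1 v) :
    Asym R w v x := by
  have large : ∀ t, b ≤ t → 0 ≤ t →
      dist (x.c t) (R.pt w.1 w.2 (rho (0, 0) v t)) ≤ C + N1 z (0, 0) := by
    intro t hb h0
    have h1 := hx t hb h0
    have h2 := dist_triangle (x.c t) (R.pt w.1 w.2 (rho z v t)) (R.pt w.1 w.2 (rho (0, 0) v t))
    rw [same1, N1_rho_base] at h2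
    linarith
  set B := max b 0
  refine ⟨C + N1 z (0, 0) + 2 * B, fun t ht => ?_⟩
  have hB : 0 ≤ B := le_max_right _ _
  rcases le_total B t with h1 | h1
  · have := large t ((le_max_left _ _).trans h1) ht
    linarith
  · have h2 := large B (le_max_left _ _) hB
    have h3 := dist_triangle4 (x.c t) (x.c B) (R.pt w.1 w.2 (rho (0, 0) v B))
      (R.pt w.1 w.2 (rho (0, 0) v t))
    rw [x.rray.iso t B ht hB, same1, N1_rho_same _ _ hv, abs_of_nonpos (by linarith : t - B ≤ 0),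
      abs_of_nonneg (by linarith : 0 ≤ B - t)] at h3
    linarith

variable [CompleteSpace Y]

/-- the boundary point of the plane `w` in direction `v` -/
noncomputable def bp (w : VP) (v : ℝ × ℝ) (hv : Unit1 v) : Bdry σ (q0 R) :=
  moveC h (q0 R) (plane_ray R h w.2 (0, 0) v hv).toBdry

theorem bp_asym (w : VP) (v : ℝ × ℝ) (hv : Unit1 v) : Asym R w v (bp R h w v hv) := by
  refine ⟨dist (R.pt w.1 w.2 (0, 0)) (q0 R), fun t ht => ?_⟩
  have := moveC_dist h (q0 R) (plane_ray R h w.2 (0, 0) v hv).toBdry ht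
  rw [RRay.toBdry_c _ ht] at this
  exact this

theorem bp_of_asym {w : VP} {v : ℝ × ℝ} {hv : Unit1 v} {x : Bdry σ (q0 R)}
    (hx : Asym R w v x) : x = bp R h w v hv :=
  Asym.unique R h hx (bp_asym R h w v hv)

theorem bp_inj {w : VP} {v v' : ℝ × ℝ} {hv : Unit1 v} {hv' : Unit1 v'}
    (he : bp R h w v hv = bp R h w v' hv') : v = v' := by
  have h1 := bp_asym R h w v hv
  rw [he] at h1
  exact Asym.dir_eq R h1 (bp_asym R h w v' hv')

/-! ### Parametrisation of the circle of directions -/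

/-- the norm of the direction of angle `θ` -/
noncomputable def nrm (θ : ℝ) : ℝ := |Real.cos θ| + |Real.sin θ|

theorem nrm_pos (θ : ℝ) : 0 < nrm θ := by
  unfold nrm
  have h1 := Real.sin_sq_add_cos_sq θ
  rcases eq_or_ne (Real.cos θ) 0 with hc | hc
  · have hs : Real.sin θ ≠ 0 := by
      intro hs
      rw [hc, hs] at h1
      norm_num at h1
    have := abs_pos.2 hs
    linarith [abs_nonneg (Real.cos θ)]
  · have := abs_pos.2 hc
    linarith [abs_nonneg (Real.sin θ)]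

/-- the unit vector of angle `θ` -/
noncomputable def dir (θ : ℝ) : ℝ × ℝ := (Real.cos θ / nrm θ, Real.sin θ / nrm θ)

theorem dir_unit (θ : ℝ) : Unit1 (dir θ) := by
  unfold Unit1 dir
  simp only
  rw [abs_div, abs_div, abs_of_pos (nrm_pos θ), ← add_div]
  exact div_self (nrm_pos θ).ne'

theorem dir_continuous : Continuous dir := by
  have h1 : Continuous nrm := by
    unfold nrm
    exact Real.continuous_cos.abs.add Real.continuous_sin.abs
  exact (Real.continuous_cos.div h1 fun θ => (nrm_pos θ).ne').prodMk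
    (Real.continuous_sin.div h1 fun θ => (nrm_pos θ).ne')

theorem dir_eq_iff (θ θ' : ℝ) : dir θ = dir θ' ↔ ∃ k : ℤ, θ' = θ + k • (2 * Real.pi) := by
  constructor
  · intro he
    unfold dir at he
    rw [Prod.mk.injEq] at he
    obtain ⟨e1, e2⟩ := he
    have p1 := nrm_pos θ
    have p2 := nrm_pos θ'
    rw [div_eq_div_iff p1.ne' p2.ne'] at e1 e2
    have h1 := Real.sin_sq_add_cos_sq θ
    have h2 := Real.sin_sq_add_cos_sq θ'
    have h3 : nrm θ' ^ 2 = nrm θ ^ 2 := by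
      have e3 : (Real.sin θ * nrm θ') ^ 2 + (Real.cos θ * nrm θ') ^ 2 =
          (Real.sin θ' * nrm θ) ^ 2 + (Real.cos θ' * nrm θ) ^ 2 := by rw [e1, e2]
      have e4 : (Real.sin θ * nrm θ') ^ 2 + (Real.cos θ * nrm θ') ^ 2 =
          (Real.sin θ ^ 2 + Real.cos θ ^ 2) * nrm θ' ^ 2 := by ring
      have e5 : (Real.sin θ' * nrm θ) ^ 2 + (Real.cos θ' * nrm θ) ^ 2 =
          (Real.sin θ' ^ 2 + Real.cos θ' ^ 2) * nrm θ ^ 2 := by ring
      rw [e4, e5, h1, h2, one_mul, one_mul] at e3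
      exact e3
    have h4 : nrm θ' = nrm θ := (sq_eq_sq₀ p2.le p1.le).1 h3
    rw [h4] at e1 e2
    have e1' : Real.cos θ = Real.cos θ' := mul_right_cancel₀ p1.ne' e1
    have e2' : Real.sin θ = Real.sin θ' := mul_right_cancel₀ p1.ne' e2
    have e3 : (θ : Real.Angle) = θ' := Real.Angle.cos_sin_inj e1' e2'
    obtain ⟨k, hk⟩ := Real.Angle.angle_eq_iff_two_pi_dvd_sub.1 e3
    refine ⟨-k, ?_⟩
    rw [zsmul_eq_mul]
    push_cast
    linarith
  · rintro ⟨k, rfl⟩
    unfold dir nrm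
    rw [zsmul_eq_mul, Real.cos_add_int_mul_two_pi, Real.sin_add_int_mul_two_pi]

theorem exists_dir {v : ℝ × ℝ} (hv : Unit1 v) : ∃ θ, dir θ = v := by
  set c : ℂ := ⟨v.1, v.2⟩ with hc
  have hc0 : c ≠ 0 := by
    intro h0
    have h1 : v.1 = 0 := by
      have := congrArg Complex.re h0
      exact this
    have h2 : v.2 = 0 := by
      have := congrArg Complex.im h0
      exact this
    unfold Unit1 at hv
    rw [h1, h2] at hv
    norm_num at hv
  have hn : 0 < ‖c‖ := norm_pos_iff.2 hc0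
  have e1 : ‖c‖ * Real.cos c.arg = v.1 := by rw [Complex.norm_mul_cos_arg]
  have e2 : ‖c‖ * Real.sin c.arg = v.2 := by rw [Complex.norm_mul_sin_arg]
  refine ⟨c.arg, ?_⟩
  unfold Unit1 at hv
  rw [← e1, ← e2, abs_mul, abs_mul, ← mul_add, abs_of_pos hn] at hv
  have e3 : ‖c‖ * nrm c.arg = 1 := hv
  have e4 : (nrm c.arg)⁻¹ = ‖c‖ := by
    rw [eq_comm, ← mul_right_cancel₀ (nrm_pos c.arg).ne' (e3.trans (inv_mul_cancel₀
      (nrm_pos c.arg).ne').symm)]
  unfold dir
  rw [div_eq_mul_inv, div_eq_mul_inv, e4]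
  ext
  · simp only; linarith
  · simp only; linarith

/-- parametrised boundary circle of the plane `w` -/
noncomputable def circ (w : VP) (θ : ℝ) : Bdry σ (q0 R) := bp R h w (dir θ) (dir_unit θ)

theorem circ_continuous (w : VP) : Continuous (circ R h w) := by
  have h1 : Continuous (fun θ => (plane_ray R h w.2 (0, 0) (dir θ) (dir_unit θ)).toBdry) := by
    rw [continuous_iff_continuousAt]
    intro θ V hV
    obtain ⟨T, hT, ε, hε, hy⟩ := (Bdry.mem_nhds_iff h _ _).1 hV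
    show _ ∈ 𝓝 θ
    have h2 : Tendsto (fun θ' => T * N1 (dir θ') (dir θ)) (𝓝 θ) (𝓝 (T * N1 (dir θ) (dir θ))) := by
      have hc : Continuous fun θ' => T * N1 (dir θ') (dir θ) := by
        unfold N1
        have h3 := dir_continuous.fst
        have h4 := dir_continuous.snd
        exact continuous_const.mul (((h3.sub continuous_const).abs).add
          ((h4.sub continuous_const).abs))
      exact hc.tendsto θ
    have h5 : T * N1 (dir θ) (dir θ) = 0 := by simp [N1]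
    rw [h5] at h2
    filter_upwards [h2.eventually (gt_mem_nhds hε)] with θ' hθ'
    apply hy
    rw [RRay.toBdry_c _ hT.le, RRay.toBdry_c _ hT.le, same1, N1_rho_dir, abs_of_pos hT]
    exact hθ'
  exact (moveC_continuous h _ _).comp h1

theorem circ_eq_iff (w : VP) (θ θ' : ℝ) :
    circ R h w θ = circ R h w θ' ↔ ∃ k : ℤ, θ' = θ + k • (2 * Real.pi) := by
  rw [← dir_eq_iff]
  constructor
  · intro he
    exact bp_inj R h he
  · intro he
    unfold circ
    congr 1

theorem bp_mem_circ (w : VP) (v : ℝ × ℝ) (hv : Unit1 v) : bp R h w v hv ∈ range (circ R h w) := by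
  obtain ⟨θ, hθ⟩ := exists_dir hv
  subst hθ
  exact ⟨θ, rfl⟩

end X1

end Run7.h484
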