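import Pool.Agent.Run7.h484.Rz

/-! The boundary of the second space: five-cut pairs accumulate. -/

namespace Run7.h484

universe u

open Set Filter Topology

theorem sgn_solve {a g s d t δ : ℝ} (hs : s = 1 ∨ s = -1) (hδ : 0 ≤ δ) (h1 : δ + |a - g| ≤ t)
    (h2 : δ + |a + s * d - g| ≤ d - t) : δ = 0 ∧ g = a + s * t := by
  have k1 := le_abs_self (a - g)
  have k2 := neg_abs_le (a - g)
  have k3 := le_abs_self (a + s * d - g)
  have k4 := neg_abs_le (a + s * d - g)
  rcases hs with rfl | rfl <;> constructor <;> linarith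

section X2

variable {Y : Type u} [MetricSpace Y] (R : Rz M2 Y)

theorem vgate (w : Pl) (hw : w ∈ VP) (m : Y) :
    ∃ g : ℝ × ℝ, ∀ z, dist m (R.pt w hw g) + |z.2 - g.2| ≤ dist m (R.pt w hw z) := by
  obtain ⟨ξ, rfl⟩ := R.exists_pt m
  refine ⟨(S2 w ξ.1).g, fun z => ?_⟩
  rw [R.dist_ι_pt, R.dist_ι_pt, dist2, dist2]
  unfold ev2
  rw [sub_self, sub_self, abs_zero, add_zero, max_eq_right (S2 w ξ.1).hh]
  have := le_max_right |z.1 - (S2 w ξ.1).g.1| ((S2 w ξ.1).h + |z.2 - (S2 w ξ.1).g.2|)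
  linarith

theorem coord (w w' : Pl) (hw : w ∈ VP) (hw' : w' ∈ VP) (z z' : ℝ × ℝ) :
    |z.1 - z'.1| ≤ dist (R.pt w hw z) (R.pt w' hw' z') ∧
      |z.2 - z'.2| ≤ dist (R.pt w hw z) (R.pt w' hw' z') := by
  have h := R.N_le_dist ⟨⟨w, z⟩, hw⟩ ⟨⟨w', z'⟩, hw'⟩
  have h' : N2 z z' ≤ dist (R.pt w hw z) (R.pt w' hw' z') := h
  exact ⟨(le_max_left _ _).trans h', (le_max_right _ _).trans h'⟩

theorem coord_eq {w w' : Pl} {hw : w ∈ VP} {hw' : w' ∈ VP} {z z' : ℝ × ℝ}
    (h : R.pt w hw z = R.pt w' hw' z') : z = z' := by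
  obtain ⟨h1, h2⟩ := coord R w w' hw hw' z z'
  rw [h, dist_self] at h1 h2
  have e1 := abs_nonpos_iff.1 h1
  have e2 := abs_nonpos_iff.1 h2
  ext <;> linarith

theorem same2 (w : Pl) (hw : w ∈ VP) (z z' : ℝ × ℝ) :
    dist (R.pt w hw z) (R.pt w hw z') = max |z.1 - z'.1| |z.2 - z'.2| := R.dist_same w hw z z'

theorem uniq_plane {w : Pl} (hw : w ∈ VP) {z : ℝ × ℝ} {s1 s2 d t : ℝ} (hs1 : s1 = 1 ∨ s1 = -1)
    (hs2 : s2 = 1 ∨ s2 = -1) {m : Y} (h1 : dist (R.pt w hw z) m = t)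
    (h2 : dist m (R.pt w hw (z.1 + s1 * d, z.2 + s2 * d)) = d - t) :
    m = R.pt w hw (z.1 + s1 * t, z.2 + s2 * t) := by
  obtain ⟨g, hg⟩ := vgate R w hw m
  have h3 := hg z
  have h4 := hg (z.1 + s1 * d, z.2 + s2 * d)
  rw [dist_comm m (R.pt w hw z), h1] at h3
  rw [h2] at h4
  obtain ⟨e1, e2⟩ := sgn_solve hs2 dist_nonneg h3 h4
  have hm : m = R.pt w hw g := dist_eq_zero.1 e1
  rw [hm] at h1 h2
  have h5 := (coord R w w hw hw z g).1
  have h6 := (coord R w w hw hw g (z.1 + s1 * d, z.2 + s2 * d)).1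
  rw [h1] at h5
  rw [h2, abs_sub_comm] at h6
  obtain ⟨_, e4⟩ := sgn_solve (s := s1) (a := z.1) (g := g.1) (d := d) (t := t) (δ := 0) hs1
    le_rfl (by rw [zero_add]; exact h5) (by rw [zero_add]; exact h6)
  rw [hm]
  congr 1
  ext
  · exact e4
  · exact e2

variable {σ : Y → Y → ℝ → Y} (h : IsBicombing σ)

include h in
/-- lines of slope `±1` are straight for every bicombing -/
theorem seg_slope {w : Pl} (hw : w ∈ VP) (z : ℝ × ℝ) {s1 s2 : ℝ} (hs1 : s1 = 1 ∨ s1 = -1)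
    (hs2 : s2 = 1 ∨ s2 = -1) (a b : ℝ) {t : ℝ} (ht : t ∈ Icc (0:ℝ) 1) :
    σ (R.pt w hw (z.1 + s1 * a, z.2 + s2 * a)) (R.pt w hw (z.1 + s1 * b, z.2 + s2 * b)) t =
      R.pt w hw (z.1 + s1 * ((1 - t) * a + t * b), z.2 + s2 * ((1 - t) * a + t * b)) := by
  -- the case `a ≤ b` with arbitrary signs
  have key : ∀ (z : ℝ × ℝ) (s1 s2 : ℝ) (hs1 : s1 = 1 ∨ s1 = -1) (hs2 : s2 = 1 ∨ s2 = -1)
      (d : ℝ), 0 ≤ d → σ (R.pt w hw z) (R.pt w hw (z.1 + s1 * d, z.2 + s2 * d)) t =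
      R.pt w hw (z.1 + s1 * (t * d), z.2 + s2 * (t * d)) := by
    intro z s1 s2 hs1 hs2 d hd
    have hdist : dist (R.pt w hw z) (R.pt w hw (z.1 + s1 * d, z.2 + s2 * d)) = d := by
      rw [same2]
      have e : ∀ {s : ℝ} (_ : s = 1 ∨ s = -1) (x : ℝ), |x - (x + s * d)| = d := by
        intro s hs x
        rcases hs with rfl | rfl
        · rw [show x - (x + 1 * d) = -d by ring, abs_neg, abs_of_nonneg hd]
        · rw [show x - (x + -1 * d) = d by ring, abs_of_nonneg hd]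
      simp only
      rw [e hs1, e hs2, max_self]
    apply uniq_plane R hw hs1 hs2 (d := d)
    · rw [h.dist_left _ _ ht, hdist]
    · rw [h.dist_right _ _ ht, hdist]; ring
  rcases le_total a b with hab | hab
  · have := key (z.1 + s1 * a, z.2 + s2 * a) s1 s2 hs1 hs2 (b - a) (by linarith)
    simp only at this
    rw [show z.1 + s1 * a + s1 * (b - a) = z.1 + s1 * b by ring,
      show z.2 + s2 * a + s2 * (b - a) = z.2 + s2 * b by ring,
      show z.1 + s1 * a + s1 * (t * (b - a)) = z.1 + s1 * ((1 - t) * a + t * b) by ring,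
      show z.2 + s2 * a + s2 * (t * (b - a)) = z.2 + s2 * ((1 - t) * a + t * b) by ring] at this
    exact this
  · have hn : ∀ {s : ℝ}, (s = 1 ∨ s = -1) → (-s = 1 ∨ -s = -1) := by
      intro s hs
      rcases hs with rfl | rfl
      · right; rfl
      · left; norm_num
    have := key (z.1 + s1 * a, z.2 + s2 * a) (-s1) (-s2) (hn hs1) (hn hs2) (a - b) (by linarith)
    simp only at this
    rw [show z.1 + s1 * a + -s1 * (a - b) = z.1 + s1 * b by ring,
      show z.2 + s2 * a + -s2 * (a - b) = z.2 + s2 * b by ring,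
      show z.1 + s1 * a + -s1 * (t * (a - b)) = z.1 + s1 * ((1 - t) * a + t * b) by ring,
      show z.2 + s2 * a + -s2 * (t * (a - b)) = z.2 + s2 * ((1 - t) * a + t * b) by ring] at this
    exact this

theorem iso_slope {w : Pl} (hw : w ∈ VP) (z : ℝ × ℝ) {s1 s2 : ℝ} (hs1 : s1 = 1 ∨ s1 = -1)
    (hs2 : s2 = 1 ∨ s2 = -1) (a b : ℝ) :
    dist (R.pt w hw (z.1 + s1 * a, z.2 + s2 * a)) (R.pt w hw (z.1 + s1 * b, z.2 + s2 * b)) =
      |a - b| := by
  rw [same2]
  have e : ∀ {s : ℝ} (_ : s = 1 ∨ s = -1) (x : ℝ), |x + s * a - (x + s * b)| = |a - b| := by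
    intro s hs x
    rcases hs with rfl | rfl
    · congr 1; ring
    · rw [show x + -1 * a - (x + -1 * b) = -(a - b) by ring, abs_neg]
  simp only
  rw [e hs1, e hs2, max_self]

/-! ### The special planes and rays -/

/-- the letter of the special plane -/
def en (n : ℕ) : Letter := (false, 2 * (n : ℤ))

/-- the special planes -/
def wn (n : ℕ) : Pl := 1 * W.of (en n)

theorem wn_val (n : ℕ) : (wn n).val = [en n] := by unfold wn; rw [one_mul]; rfl

theorem two_cast (n : ℤ) : ((2 * n : ℤ) : ZMod 2) = 0 := by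
  push_cast
  have : (2 : ZMod 2) = 0 := rfl
  rw [this, zero_mul]

theorem wn_mem (n : ℕ) : wn n ∈ VP := by
  show Val 0 0 (wn n).val
  rw [wn_val]
  exact ⟨two_cast _, trivial⟩

theorem en_line (n : ℕ) (q : ℝ × ℝ) : q ∈ line2 (en n) ↔ q.2 = 2 * (n:ℝ) := by
  show q.2 = ((2 * (n:ℤ) : ℤ) : ℝ) ↔ _
  push_cast; rfl

/-- distances between the root plane and a special plane -/
theorem dist_one_wn (n : ℕ) (z z' : ℝ × ℝ) :
    dist (R.pt 1 one_mem_VP z) (R.pt (wn n) (wn_mem n) z') =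
      max |z'.1 - z.1| (|z.2 - 2 * n| + |z'.2 - 2 * n|) := by
  rw [R.dist_pt, dist2]
  have e1 : ((1 : Pl)⁻¹ * wn n).val = [en n] := by rw [inv_one, one_mul, wn_val]
  unfold S2
  simp only
  rw [e1]
  simp only [go2_cons, go2_nil, en, tr2, ev2]
  push_cast
  rw [zero_add, zero_add]

/-- the special rays -/
noncomputable def cr (n : ℕ) (s t : ℝ) : Y :=
  if t ≤ 2 * n then R.pt 1 one_mem_VP (s * t, t)
  else R.pt (wn n) (wn_mem n) (s * t, 2 * n + s * (t - 2 * n))

theorem cr_le {n : ℕ} {s t : ℝ} (ht : t ≤ 2 * n) : cr R n s t = R.pt 1 one_mem_VP (s * t, t) := by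
  unfold cr; rw [if_pos ht]

theorem cr_ge {n : ℕ} {s t : ℝ} (ht : 2 * n ≤ t) :
    cr R n s t = R.pt (wn n) (wn_mem n) (s * t, 2 * n + s * (t - 2 * n)) := by
  unfold cr
  split_ifs with h1
  · have : t = 2 * n := le_antisymm h1 ht
    rw [this, sub_self, mul_zero, add_zero]
    exact R.glue 1 one_mem_VP (en n) (wn_mem n) ((en_line n _).2 rfl)
  · rfl

theorem sgn_abs {s : ℝ} (hs : s = 1 ∨ s = -1) (x : ℝ) : |s * x| = |x| := by
  rcases hs with rfl | rfl
  · rw [one_mul]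
  · rw [neg_one_mul, abs_neg]

theorem cr_iso (n : ℕ) {s : ℝ} (hs : s = 1 ∨ s = -1) (a b : ℝ) :
    dist (cr R n s a) (cr R n s b) = |a - b| := by
  have e : ∀ a b : ℝ, |s * a - s * b| = |a - b| := fun a b => by
    rw [← mul_sub, sgn_abs hs]
  have mixed : ∀ a b : ℝ, a ≤ 2 * n → 2 * n ≤ b → dist (cr R n s a) (cr R n s b) = |a - b| := by
    intro a b ha hb
    rw [cr_le R ha, cr_ge R hb, dist_one_wn]
    simp only
    rw [e, add_sub_cancel_left, sgn_abs hs, abs_of_nonpos (by linarith : a - 2 * n ≤ 0),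
      abs_of_nonneg (by linarith : 0 ≤ b - 2 * n), abs_of_nonneg (by linarith : 0 ≤ b - a),
      abs_of_nonpos (by linarith : a - b ≤ 0)]
    rw [show -(a - 2 * (n:ℝ)) + (b - 2 * n) = b - a by ring, max_self]
    ring
  rcases le_total a (2 * n) with ha | ha <;> rcases le_total b (2 * n) with hb | hb
  · rw [cr_le R ha, cr_le R hb, same2]
    simp only
    rw [e, max_self]
  · exact mixed a b ha hb
  · rw [dist_comm, mixed b a hb ha, abs_sub_comm]
  · rw [cr_ge R ha, cr_ge R hb, same2]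
    simp only
    rw [e, show 2 * (n:ℝ) + s * (a - 2 * n) - (2 * n + s * (b - 2 * n)) = s * a - s * b by ring, e,
      max_self]

theorem cr_zero (n : ℕ) (s : ℝ) : cr R n s 0 = R.pt 1 one_mem_VP (0, 0) := by
  rw [cr_le R (by positivity), mul_zero]

theorem cr_uniq (n : ℕ) {s : ℝ} (hs : s = 1 ∨ s = -1) {T t : ℝ} (hT : 2 * n ≤ T) {m : Y}
    (h1 : dist (R.pt 1 one_mem_VP (0, 0)) m = t) (h2 : dist m (cr R n s T) = T - t) :
    m = cr R n s t := by
  rw [cr_ge R hT] at h2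
  have hm : m ∈ R.A 1 (en n) ∪ R.B 1 (en n) := by rw [R.union_AB]; exact mem_univ _
  rcases hm with hm | hm
  · obtain ⟨q, hq, hd⟩ := R.cross_AB one_mem_VP hm
      (R.pt_next_mem_B (wn_mem n) (s * T, 2 * n + s * (T - 2 * n)))
    have hq2 : q.2 = 2 * n := (en_line n q).1 hq
    obtain ⟨g, hg⟩ := vgate R 1 one_mem_VP m
    have h3 := hg (0, 0)
    have h4 := hg q
    rw [dist_comm m (R.pt 1 one_mem_VP (0, 0)), h1] at h3
    have h5 : T - 2 * n ≤ dist (R.pt 1 one_mem_VP q)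
        (R.pt (wn n) (wn_mem n) (s * T, 2 * n + s * (T - 2 * n))) := by
      rw [dist_one_wn]
      refine le_trans ?_ (le_max_right _ _)
      simp only
      rw [add_sub_cancel_left, sgn_abs hs]
      linarith [abs_nonneg (q.2 - 2 * n), le_abs_self (T - 2 * n)]
    have h6 : dist m (R.pt 1 one_mem_VP q) + dist (R.pt 1 one_mem_VP q)
        (R.pt (wn n) (wn_mem n) (s * T, 2 * n + s * (T - 2 * n))) = T - t := by
      rw [← h2]; exact hd.symm
    obtain ⟨e1, e2⟩ := sgn_solve (s := 1) (a := 0) (g := g.2) (d := 2 * n) (t := t)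
      (δ := dist m (R.pt 1 one_mem_VP g)) (Or.inl rfl) dist_nonneg h3 (by
        rw [hq2] at h4
        rw [zero_add, one_mul]
        linarith)
    have hmg : m = R.pt 1 one_mem_VP g := dist_eq_zero.1 e1
    have h7 := (coord R 1 1 one_mem_VP one_mem_VP (0, 0) g).1
    have h8 := (coord R 1 (wn n) one_mem_VP (wn_mem n) g (s * T, 2 * n + s * (T - 2 * n))).1
    rw [← hmg, h1] at h7
    rw [← hmg, h2, abs_sub_comm] at h8
    obtain ⟨_, e4⟩ := sgn_solve (s := s) (a := 0) (g := g.1) (d := T) (t := t) (δ := 0) hs le_rfl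
      (by rw [zero_add]; exact h7) (by rw [zero_add, zero_add]; exact h8)
    rw [zero_add] at e4
    rw [zero_add, one_mul] at e2
    have ht : t ≤ 2 * n := by
      have := abs_nonneg (q.2 - g.2)
      have := dist_nonneg (x := m) (y := R.pt 1 one_mem_VP g)
      linarith
    rw [cr_le R ht, hmg]
    congr 1
    ext
    · exact e4
    · exact e2
  · obtain ⟨q, hq, hd⟩ := R.cross_AB one_mem_VP (R.pt_self_mem_A one_mem_VP (0, 0)) hm
    have hq2 : q.2 = 2 * n := (en_line n q).1 hq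
    rw [R.glue 1 one_mem_VP (en n) (wn_mem n) hq] at hd
    change _ = _ + dist (R.pt (wn n) (wn_mem n) q) m at hd
    obtain ⟨g, hg⟩ := vgate R (wn n) (wn_mem n) m
    have h3 := hg q
    have h4 := hg (s * T, 2 * n + s * (T - 2 * n))
    rw [dist_comm m (R.pt (wn n) (wn_mem n) q)] at h3
    rw [h2] at h4
    have h5 : 2 * n ≤ dist (R.pt 1 one_mem_VP (0, 0)) (R.pt (wn n) (wn_mem n) q) := by
      rw [dist_one_wn]
      refine le_trans ?_ (le_max_right _ _)
      simp only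
      rw [zero_sub, abs_neg]
      linarith [abs_nonneg (q.2 - 2 * n), le_abs_self (2 * (n:ℝ))]
    have h6 : dist (R.pt 1 one_mem_VP (0, 0)) (R.pt (wn n) (wn_mem n) q) +
        dist (R.pt (wn n) (wn_mem n) q) m = t := by
      rw [← h1]; exact hd.symm
    obtain ⟨e1, e2⟩ := sgn_solve (s := s) (a := 2 * n) (g := g.2) (d := T - 2 * n)
      (t := t - 2 * n) (δ := dist m (R.pt (wn n) (wn_mem n) g)) hs dist_nonneg
      (by rw [hq2] at h3; linarith) (by
        refine h4.trans ?_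
        linarith)
    have hmg : m = R.pt (wn n) (wn_mem n) g := dist_eq_zero.1 e1
    have h7 := (coord R 1 (wn n) one_mem_VP (wn_mem n) (0, 0) g).1
    have h8 := (coord R (wn n) (wn n) (wn_mem n) (wn_mem n) g
      (s * T, 2 * n + s * (T - 2 * n))).1
    rw [← hmg, h1] at h7
    rw [← hmg, h2, abs_sub_comm] at h8
    obtain ⟨_, e4⟩ := sgn_solve (s := s) (a := 0) (g := g.1) (d := T) (t := t) (δ := 0) hs le_rfl
      (by rw [zero_add]; exact h7) (by rw [zero_add, zero_add]; exact h8)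
    rw [zero_add] at e4
    have ht : 2 * n ≤ t := by
      have := dist_nonneg (x := R.pt (wn n) (wn_mem n) q) (y := m)
      linarith
    rw [cr_ge R ht, hmg]
    congr 1
    ext
    · exact e4
    · exact e2

include h in
theorem cr_ray (n : ℕ) {s : ℝ} (hs : s = 1 ∨ s = -1) :
    RRay σ (R.pt 1 one_mem_VP (0, 0)) (cr R n s) := by
  apply RRay.of_unique h (cr_zero R n s) (fun a b _ _ => cr_iso R n hs a b) (T0 := 2 * n)
  intro T hT _ t _ _ z h1 h2
  exact cr_uniq R n hs hT h1 h2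

include h in
theorem lim_ray {s : ℝ} (hs : s = 1 ∨ s = -1) :
    RRay σ (R.pt 1 one_mem_VP (0, 0)) (fun t => R.pt 1 one_mem_VP (s * t, t)) := by
  apply RRay.of_large h
  · simp
  · intro a b _ _
    have := iso_slope R one_mem_VP (0, 0) hs (Or.inl rfl : (1:ℝ) = 1 ∨ (1:ℝ) = -1) a b
    simpa using this
  · intro T hT
    obtain ⟨n, hn⟩ := exists_nat_gt T
    have h2n : T < 2 * n := by linarith
    refine ⟨2 * n, h2n.le, by linarith, fun t ht0 ht => ?_⟩
    have := (cr_ray R h n hs).seg (2 * n) (t / (2 * n)) (by linarith) (div_mem_Icc ht0 ht)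
    rw [div_mul_cancel₀ _ (by linarith), cr_le R ht, cr_le R le_rfl] at this
    exact this

end X2

end Run7.h484
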